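import Mathlib

/-!
# Topological configurations in the real projective plane: definitions
-/

open scoped LinearAlgebra.Projectivization

namespace PL3

/-- The real projective plane: the set of lines through the origin of `ℝ³`. -/
def RP2 : Type := ℙ ℝ (Fin 3 → ℝ)

/-- The topology of the real projective plane: the quotient topology of `ℝ³ ∖ {0}`. -/
instance : TopologicalSpace RP2 :=
  inferInstanceAs (TopologicalSpace (Quotient (projectivizationSetoid ℝ (Fin 3 → ℝ))))

/-- A simple closed curve: the image of the circle under an injective continuous map. -/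
def IsSimpleClosedCurve (C : Set RP2) : Prop :=
  ∃ γ : Circle → RP2, Continuous γ ∧ Function.Injective γ ∧ Set.range γ = C

/-- `C` bounds a disc: there is a topologically embedded closed disc with boundary circle `C`. -/
def BoundsDisc (C : Set RP2) : Prop :=
  ∃ f : Metric.closedBall (0 : ℂ) 1 → RP2, Continuous f ∧ Function.Injective f ∧
    f '' {z | ‖(z : ℂ)‖ = 1} = C

/-- A pseudoline: a simple closed curve that does not bound a disc. -/
def IsPseudoline (C : Set RP2) : Prop := IsSimpleClosedCurve C ∧ ¬ BoundsDisc C

/-- `C` and `D` cross at `x`: for a suitable local coordinate system centred at `x`, the two sets are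
the two coordinate axes. -/
def CrossAt (C D : Set RP2) (x : RP2) : Prop :=
  ∃ e : OpenPartialHomeomorph RP2 (ℝ × ℝ), x ∈ e.source ∧ e x = 0 ∧
    ∀ y ∈ e.source, (y ∈ C ↔ (e y).2 = 0) ∧ (y ∈ D ↔ (e y).1 = 0)

/-- A combinatorial `(n_3)` configuration with point set `P` and family of lines `𝓛`: there are `n`
points and `n` lines, every line is a set of three points, every point is on exactly three lines and
two distinct points are together on at most one line. -/
structure IsConfiguration {P : Type*} [Fintype P] [DecidableEq P] (𝓛 : Finset (Finset P)) (n : ℕ) :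
    Prop where
  card_points : Fintype.card P = n
  card_lines : 𝓛.card = n
  line_card : ∀ l ∈ 𝓛, l.card = 3
  point_degree : ∀ p : P, (𝓛.filter (fun l => p ∈ l)).card = 3
  two_points : ∀ p q : P, p ≠ q → (𝓛.filter (fun l => p ∈ l ∧ q ∈ l)).card ≤ 1

/-- The Levi graph: the bipartite incidence graph on points and lines. -/
def leviGraph {P : Type*} (𝓛 : Finset (Finset P)) : SimpleGraph (P ⊕ {l // l ∈ 𝓛}) :=
  SimpleGraph.fromRel (fun x y => ∃ (p : P) (l : {l // l ∈ 𝓛}),
    x = Sum.inl p ∧ y = Sum.inr l ∧ p ∈ l.1)

/-- A realization of the configuration as a topological configuration: distinct points `pos p` and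
distinct pseudolines `C l`, any two of which meet in exactly one point, where they cross, such that a
point is on a pseudoline if and only if the corresponding point and line are incident. -/
structure IsRealization {P : Type*} (𝓛 : Finset (Finset P)) (pos : P → RP2)
    (C : {l // l ∈ 𝓛} → Set RP2) : Prop where
  pos_injective : Function.Injective pos
  curves_injective : Function.Injective C
  pseudoline : ∀ l, IsPseudoline (C l)
  cross : ∀ l m, l ≠ m → ∃ x, C l ∩ C m = {x} ∧ CrossAt (C l) (C m) x
  incidence : ∀ p l, pos p ∈ C l ↔ p ∈ l.1

end PL3
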