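import Pool.Agent.Lib.MP_e3e9c0_co.TopoB

/-!
# The affine chart and crossings
-/

open scoped LinearAlgebra.Projectivization
open Topology

namespace PL3

lemma aff_ne (q : ℝ × ℝ) : (![q.1, q.2, 1] : Fin 3 → ℝ) ≠ 0 := by
  intro h
  exact one_ne_zero (congrFun h 2)

/-- the affine chart -/
noncomputable def aff (q : ℝ × ℝ) : RP2 := mkp ![q.1, q.2, 1] (aff_ne q)

lemma continuous_aff : Continuous aff := by
  refine continuous_mkp ?_ _
  refine continuous_pi fun i => ?_
  fin_cases i
  · exact continuous_fst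
  · exact continuous_snd
  · exact continuous_const

lemma aff_inj : Function.Injective aff := by
  intro p q h
  obtain ⟨a, ha⟩ := mkp_eq.1 h
  have e0 : a * q.1 = p.1 := congrFun ha 0
  have e1 : a * q.2 = p.2 := congrFun ha 1
  have e2 : a * 1 = 1 := congrFun ha 2
  rw [mul_one] at e2
  rw [e2, one_mul] at e0 e1
  exact Prod.ext e0.symm e1.symm

lemma mkp_mem_aff {v : Fin 3 → ℝ} {hv : v ≠ 0} {U : Set (ℝ × ℝ)} :
    mkp v hv ∈ aff '' U ↔ v 2 ≠ 0 ∧ (v 0 / v 2, v 1 / v 2) ∈ U := by
  constructor
  · rintro ⟨q, hq, h⟩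
    obtain ⟨a, ha⟩ := mkp_eq.1 h
    have e0 : a * v 0 = q.1 := congrFun ha 0
    have e1 : a * v 1 = q.2 := congrFun ha 1
    have e2 : a * v 2 = 1 := congrFun ha 2
    have h2 : v 2 ≠ 0 := by
      intro h
      rw [h, mul_zero] at e2
      exact zero_ne_one e2
    refine ⟨h2, ?_⟩
    have ea : a = 1 / v 2 := by
      field_simp
      exact e2
    have : (v 0 / v 2, v 1 / v 2) = q := by
      refine Prod.ext ?_ ?_
      · show v 0 / v 2 = q.1
        rw [← e0, ea]; ring
      · show v 1 / v 2 = q.2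
        rw [← e1, ea]; ring
    rw [this]
    exact hq
  · rintro ⟨h2, h⟩
    refine ⟨_, h, mkp_eq.2 ⟨1 / v 2, ?_⟩⟩
    funext i
    fin_cases i
    · show 1 / v 2 * v 0 = v 0 / v 2
      ring
    · show 1 / v 2 * v 1 = v 1 / v 2
      ring
    · show 1 / v 2 * v 2 = 1
      field_simp

lemma aff_openEmbedding : IsOpenEmbedding aff := by
  refine IsOpenEmbedding.of_continuous_injective_isOpenMap continuous_aff aff_inj ?_
  intro U hU
  rw [← qm_quot.isOpen_preimage]
  have : qm ⁻¹' (aff '' U) = {v : {v : Fin 3 → ℝ // v ≠ 0} | v.1 2 ≠ 0} ∩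
      (fun v : {v : Fin 3 → ℝ // v ≠ 0} => (v.1 0 / v.1 2, v.1 1 / v.1 2)) ⁻¹' U := by
    ext v
    exact mkp_mem_aff
  rw [this]
  have c : ∀ i, Continuous (fun v : {v : Fin 3 → ℝ // v ≠ 0} => v.1 i) := fun i =>
    (continuous_apply i).comp continuous_subtype_val
  refine ContinuousOn.isOpen_inter_preimage ?_ ?_ hU
  · exact ((c 0).continuousOn.div (c 2).continuousOn (fun v hv => hv)).prodMk
      ((c 1).continuousOn.div (c 2).continuousOn (fun v hv => hv))
  · exact isOpen_ne_fun (c 2) continuous_const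

lemma aff_mem_curve {s : ℝ} {g : ℝ → ℝ} {q : ℝ × ℝ} :
    aff q ∈ Curve s g ↔ q.2 = s * q.1 + g q.1 := by
  have : aff q ∈ Curve s g ↔ q.2 = G s g q.1 1 := mem_curve
  rw [this]
  unfold G
  rw [div_one, one_mul]

/-- two curves with different slopes meet only in the points given by the graphs. -/
lemma curve_inter {s s' : ℝ} {g g' : ℝ → ℝ} (hs : s ≠ s') {t y : ℝ} (hy : y = s * t + g t)
    (hy' : y = s' * t + g' t) (h : ∀ x, s * x + g x = s' * x + g' x → x = t) :
    Curve s g ∩ Curve s' g' = {aff (t, y)} := by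
  ext z
  constructor
  · rintro ⟨h1, h2⟩
    induction z using mkp_ind with
    | h v hv =>
      rw [mem_curve] at h1 h2
      by_cases h0 : v 2 = 0
      · exfalso
        rw [h0] at h1 h2
        unfold G at h1 h2
        simp only [zero_mul, add_zero] at h1 h2
        have e : (s - s') * v 0 = 0 := by rw [sub_mul, ← h1, ← h2, sub_self]
        rcases mul_eq_zero.1 e with e | e
        · exact hs (sub_eq_zero.1 e)
        · apply hv
          funext i
          fin_cases i
          · exact e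
          · show v 1 = 0
            rw [h1, e, mul_zero]
          · exact h0
      · unfold G at h1 h2
        have k1 : v 1 / v 2 = s * (v 0 / v 2) + g (v 0 / v 2) := by
          rw [h1]; field_simp
        have k2 : v 1 / v 2 = s' * (v 0 / v 2) + g' (v 0 / v 2) := by
          rw [h2]; field_simp
        have k3 := h _ (k1.symm.trans k2)
        have : mkp v hv ∈ aff '' {(t, y)} := by
          rw [mkp_mem_aff]
          refine ⟨h0, ?_⟩
          rw [Set.mem_singleton_iff, k1, k3, ← hy]
        rw [Set.image_singleton] at this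
        exact this
  · rintro rfl
    exact ⟨aff_mem_curve.2 hy, aff_mem_curve.2 hy'⟩

/-- linear coordinates -/
noncomputable def linCoord (s s' t y : ℝ) (hs : s ≠ s') : ℝ × ℝ ≃ₜ ℝ × ℝ where
  toFun q := (q.2 - y - s' * (q.1 - t), q.2 - y - s * (q.1 - t))
  invFun u := (t + (u.2 - u.1) / (s' - s), y + u.2 + s * ((u.2 - u.1) / (s' - s)))
  left_inv q := by
    have : s' - s ≠ 0 := sub_ne_zero.2 hs.symm
    refine Prod.ext ?_ ?_
    · show t + (q.2 - y - s * (q.1 - t) - (q.2 - y - s' * (q.1 - t))) / (s' - s) = q.1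
      field_simp
      ring
    · show y + (q.2 - y - s * (q.1 - t)) +
        s * ((q.2 - y - s * (q.1 - t) - (q.2 - y - s' * (q.1 - t))) / (s' - s)) = q.2
      field_simp
      ring
  right_inv u := by
    have : s' - s ≠ 0 := sub_ne_zero.2 hs.symm
    refine Prod.ext ?_ ?_
    · show y + u.2 + s * ((u.2 - u.1) / (s' - s)) - y - s' * (t + (u.2 - u.1) / (s' - s) - t) = u.1
      field_simp
      ring
    · show y + u.2 + s * ((u.2 - u.1) / (s' - s)) - y - s * (t + (u.2 - u.1) / (s' - s) - t) = u.2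
      field_simp
      ring
  continuous_toFun := by fun_prop
  continuous_invFun := by fun_prop

theorem cross_at {s s' : ℝ} {g g' : ℝ → ℝ} (hs : s ≠ s') {t y r : ℝ} (hr : 0 < r)
    (h : ∀ x, |x - t| < r → s * x + g x = y + s * (x - t))
    (h' : ∀ x, |x - t| < r → s' * x + g' x = y + s' * (x - t)) :
    CrossAt (Curve s g) (Curve s' g') (aff (t, y)) := by
  let Λ := linCoord s s' t y hs
  have hj : IsOpenEmbedding (aff ∘ Λ.symm) := aff_openEmbedding.comp Λ.symm.isOpenEmbedding
  let j := hj.toOpenPartialHomeomorph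
  have hW : IsOpen (aff '' {q : ℝ × ℝ | |q.1 - t| < r}) := by
    apply aff_openEmbedding.isOpenMap
    exact isOpen_lt (by fun_prop) continuous_const
  have inv : ∀ q : ℝ × ℝ, j.symm (aff q) = Λ q := by
    intro q
    have : aff q = (aff ∘ Λ.symm) (Λ q) := by simp
    rw [this]
    exact hj.toOpenPartialHomeomorph_left_inv
  have src : ∀ q : ℝ × ℝ, aff q ∈ j.symm.source := by
    intro q
    show aff q ∈ j.target
    have : j.target = Set.range (aff ∘ Λ.symm) := by
      simp [j]
    rw [this]
    exact ⟨Λ q, by simp⟩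
  refine ⟨j.symm.restrOpen _ hW, ?_, ?_, ?_⟩
  · rw [OpenPartialHomeomorph.restrOpen_source]
    exact ⟨src _, (t, y), by simpa using hr, rfl⟩
  · rw [OpenPartialHomeomorph.coe_restrOpen, inv]
    show (y - y - s' * (t - t), y - y - s * (t - t)) = (0 : ℝ × ℝ)
    simp
  · intro z hz
    rw [OpenPartialHomeomorph.restrOpen_source] at hz
    obtain ⟨_, q, hq, rfl⟩ := hz
    rw [OpenPartialHomeomorph.coe_restrOpen, inv, aff_mem_curve, aff_mem_curve, h _ hq, h' _ hq]
    constructor
    · show q.2 = y + s * (q.1 - t) ↔ q.2 - y - s * (q.1 - t) = 0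
      constructor
      · intro h; rw [h]; ring
      · intro h; linarith
    · show q.2 = y + s' * (q.1 - t) ↔ q.2 - y - s' * (q.1 - t) = 0
      constructor
      · intro h; rw [h]; ring
      · intro h; linarith

end PL3
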