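import Pool.Agent.Lib.MP_e3e9c0_co.MainDrawn
import Pool.Agent.Lib.MP_e3e9c0_co.TopoC

/-!
# From a wiring diagram to an arrangement of pseudolines in the projective plane
-/

open Topology

namespace PL3

/-- clamping to `[A, B]` -/
noncomputable def cl (A B : ℤ) (x : ℝ) : ℝ := max A (min x B)

/-- weight of the time `k` at `x` -/
noncomputable def wt (A B k : ℤ) (x : ℝ) : ℝ := max 0 (min 1 (2 - 3 * |cl A B x - k|))

/-- the wire with heights `h` and slope `s` at infinity -/
noncomputable def FF (A B : ℤ) (h : ℤ → ℝ) (s : ℝ) (x : ℝ) : ℝ :=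
  ∑ k ∈ Finset.Icc A B, wt A B k x * (h k + s * (x - k))

lemma continuous_cl (A B : ℤ) : Continuous (cl A B) := by unfold cl; fun_prop

lemma continuous_wt (A B k : ℤ) : Continuous (wt A B k) := by
  have := continuous_cl A B
  unfold wt; fun_prop

lemma continuous_FF (A B : ℤ) (h : ℤ → ℝ) (s : ℝ) : Continuous (FF A B h s) := by
  unfold FF
  refine continuous_finsetSum _ fun k _ => ?_
  have := continuous_wt A B k
  fun_prop

lemma cl_of_le {A B : ℤ} (hAB : A < B) {x : ℝ} (hx : x ≤ A) : cl A B x = A := by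
  have : (A : ℝ) < B := by exact_mod_cast hAB
  unfold cl
  rw [min_eq_left (by linarith), max_eq_left hx]

lemma cl_of_ge {A B : ℤ} (hAB : A < B) {x : ℝ} (hx : (B : ℝ) ≤ x) : cl A B x = B := by
  have : (A : ℝ) < B := by exact_mod_cast hAB
  unfold cl
  rw [min_eq_right hx, max_eq_right this.le]

lemma cl_of_mem {A B : ℤ} {x : ℝ} (h1 : (A : ℝ) ≤ x) (h2 : x ≤ B) : cl A B x = x := by
  unfold cl
  rw [min_eq_left h2, max_eq_right h1]

lemma wt_nonneg (A B k : ℤ) (x : ℝ) : 0 ≤ wt A B k x := le_max_left _ _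

lemma wt_one {A B k : ℤ} {x : ℝ} (h : |cl A B x - k| ≤ 1 / 3) : wt A B k x = 1 := by
  unfold wt
  rw [min_eq_left (by linarith), max_eq_right zero_le_one]

lemma wt_zero {A B k : ℤ} {x : ℝ} (h : 2 / 3 ≤ |cl A B x - k|) : wt A B k x = 0 := by
  unfold wt
  rw [max_eq_left]
  exact (min_le_right _ _).trans (by linarith)

lemma wt_pos_iff {A B k : ℤ} {x : ℝ} : 0 < wt A B k x ↔ |cl A B x - k| < 2 / 3 := by
  constructor
  · intro h
    by_contra hc
    rw [wt_zero (not_lt.1 hc)] at h
    exact lt_irrefl _ h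
  · intro h
    unfold wt
    exact lt_max_of_lt_right (lt_min one_pos (by linarith))

lemma FF_local {A B : ℤ} {h : ℤ → ℝ} {s : ℝ} {x : ℝ} {k₀ : ℤ} (hk : k₀ ∈ Finset.Icc A B)
    (hx : |cl A B x - k₀| ≤ 1 / 3) : FF A B h s x = h k₀ + s * (x - k₀) := by
  unfold FF
  rw [Finset.sum_eq_single k₀]
  · rw [wt_one hx, one_mul]
  · intro k _ hne
    have h1 : (1 : ℝ) ≤ |(k : ℝ) - k₀| := by
      have : (1 : ℤ) ≤ |k - k₀| := Int.one_le_abs (sub_ne_zero.2 hne)
      exact_mod_cast this
    have h2 : |(k : ℝ) - k₀| ≤ |cl A B x - k₀| + |cl A B x - k| := by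
      have := abs_sub_le (k : ℝ) (cl A B x) k₀
      rw [abs_sub_comm (k : ℝ) (cl A B x)] at this
      linarith
    rw [wt_zero (by linarith), zero_mul]
  · intro h; exact absurd hk h

lemma exists_wt {A B : ℤ} (hAB : A < B) (x : ℝ) : ∃ k ∈ Finset.Icc A B, 0 < wt A B k x := by
  have h1 : (A : ℝ) ≤ cl A B x := le_max_left _ _
  have h2 : cl A B x ≤ B := by
    have : (A : ℝ) < B := by exact_mod_cast hAB
    exact max_le this.le (min_le_right _ _)
  refine ⟨round (cl A B x), Finset.mem_Icc.2 ⟨?_, ?_⟩, ?_⟩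
  · by_contra hcon
    have h3 : ((round (cl A B x) : ℤ) : ℝ) + 1 ≤ A := by
      exact_mod_cast (show round (cl A B x) + 1 ≤ A by omega)
    have h4 := (abs_le.1 (abs_sub_round (cl A B x))).2
    linarith
  · by_contra hcon
    have h3 : (B : ℝ) + 1 ≤ ((round (cl A B x) : ℤ) : ℝ) := by
      exact_mod_cast (show B + 1 ≤ round (cl A B x) by omega)
    have h4 := (abs_le.1 (abs_sub_round (cl A B x))).1
    linarith
  · rw [wt_pos_iff]
    have := abs_sub_round (cl A B x)
    linarith

/-- the sign of the difference of two wires. -/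
lemma FF_sign {A B : ℤ} (hAB : A < B) {h h' : ℤ → ℝ} {s s' : ℝ} {t : ℤ} (hA : A < t) (hB : t < B)
    (e0 : h t = h' t) (e1 : ∀ k, k < t → h' k < h k) (e2 : ∀ k, t < k → h k < h' k)
    (hs : s < s') (hd : ∀ k ∈ Finset.Icc A B, k ≠ t → s' - s < |h k - h' k|) (x : ℝ) :
    (x < t → FF A B h' s' x < FF A B h s x) ∧ ((t : ℝ) < x → FF A B h s x < FF A B h' s' x) := by
  have hA' : (A : ℝ) < t := by exact_mod_cast hA
  have hB' : (t : ℝ) < B := by exact_mod_cast hB
  have hdiff : FF A B h s x - FF A B h' s' x =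
      ∑ k ∈ Finset.Icc A B, wt A B k x * ((h k - h' k) - (s' - s) * (x - k)) := by
    unfold FF
    rw [← Finset.sum_sub_distrib]
    exact Finset.sum_congr rfl fun k _ => by ring
  obtain ⟨k₁, hk₁, hw₁⟩ := exists_wt hAB x
  constructor
  · intro hx
    have key : ∀ k ∈ Finset.Icc A B, 0 < wt A B k x → 0 < (h k - h' k) - (s' - s) * (x - k) := by
      intro k hk hw
      rw [wt_pos_iff] at hw
      obtain ⟨hkA, hkB⟩ := Finset.mem_Icc.1 hk
      by_cases hxA : x < A
      · rw [cl_of_le hAB hxA.le] at hw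
        have : k = A := by
          have h1 : |((A - k : ℤ) : ℝ)| < 1 := by push_cast; linarith
          have h2 : |A - k| < 1 := by exact_mod_cast h1
          have := Int.abs_lt_one_iff.1 h2
          omega
        subst this
        have := e1 k hA
        nlinarith
      · have hxA := not_lt.1 hxA
        rw [cl_of_mem hxA (by linarith)] at hw
        obtain ⟨w1, w2⟩ := abs_lt.1 hw
        have hkt : k ≤ t := by
          have : (k : ℝ) < t + 1 := by linarith
          have : k < t + 1 := by exact_mod_cast this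
          omega
        rcases hkt.eq_or_lt with e | e
        · subst e
          rw [e0, sub_self]
          nlinarith
        · have h1 := e1 k e
          have h2 := hd k hk (ne_of_lt e)
          rw [abs_of_pos (by linarith)] at h2
          nlinarith
    have hpos : 0 < FF A B h s x - FF A B h' s' x := by
      rw [hdiff]
      refine Finset.sum_pos' (fun k hk => ?_) ⟨k₁, hk₁, mul_pos hw₁ (key k₁ hk₁ hw₁)⟩
      rcases (wt_nonneg A B k x).eq_or_lt with e | e
      · rw [← e, zero_mul]
      · exact (mul_pos e (key k hk e)).le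
    linarith
  · intro hx
    have key : ∀ k ∈ Finset.Icc A B, 0 < wt A B k x → (h k - h' k) - (s' - s) * (x - k) < 0 := by
      intro k hk hw
      rw [wt_pos_iff] at hw
      obtain ⟨hkA, hkB⟩ := Finset.mem_Icc.1 hk
      by_cases hxB : (B : ℝ) < x
      · rw [cl_of_ge hAB hxB.le] at hw
        have : k = B := by
          have h1 : |((B - k : ℤ) : ℝ)| < 1 := by push_cast; linarith
          have h2 : |B - k| < 1 := by exact_mod_cast h1
          have := Int.abs_lt_one_iff.1 h2
          omega
        subst this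
        have := e2 k hB
        nlinarith
      · have hxB := not_lt.1 hxB
        rw [cl_of_mem (by linarith) hxB] at hw
        obtain ⟨w1, w2⟩ := abs_lt.1 hw
        have hkt : t ≤ k := by
          have : (t : ℝ) < k + 1 := by linarith
          have : t < k + 1 := by exact_mod_cast this
          omega
        rcases hkt.eq_or_lt with e | e
        · subst e
          rw [e0, sub_self]
          nlinarith
        · have h1 := e2 k e
          have h2 := hd k hk (ne_of_gt e)
          rw [abs_of_neg (by linarith)] at h2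
          nlinarith
    have hneg : FF A B h s x - FF A B h' s' x < 0 := by
      rw [hdiff]
      have : 0 < ∑ k ∈ Finset.Icc A B, - (wt A B k x * ((h k - h' k) - (s' - s) * (x - k))) := by
        refine Finset.sum_pos' (fun k hk => ?_) ⟨k₁, hk₁, ?_⟩
        · rcases (wt_nonneg A B k x).eq_or_lt with e | e
          · rw [← e, zero_mul, neg_zero]
          · have := mul_neg_of_pos_of_neg e (key k hk e)
            linarith
        · have := mul_neg_of_pos_of_neg hw₁ (key k₁ hk₁ hw₁)
          linarith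
      rw [Finset.sum_neg_distrib] at this
      linarith
    linarith

/-- the bounded part -/
noncomputable def gg (A B : ℤ) (h : ℤ → ℝ) (s : ℝ) (x : ℝ) : ℝ := FF A B h s x - s * x

lemma gg_bdd {A B : ℤ} (hAB : A < B) (h : ℤ → ℝ) (s : ℝ) : ∃ M, ∀ x, |gg A B h s x| ≤ M := by
  have hc : Continuous (gg A B h s) := by
    have := continuous_FF A B h s
    unfold gg; fun_prop
  obtain ⟨M, hM⟩ := (isCompact_Icc (a := (A : ℝ)) (b := B)).exists_bound_of_continuousOn
    hc.continuousOn
  refine ⟨max M (max |h A - s * A| |h B - s * B|), fun x => ?_⟩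
  rcases lt_or_ge x A with hx | hx
  · have : gg A B h s x = h A - s * A := by
      unfold gg
      rw [FF_local (k₀ := A) (Finset.mem_Icc.2 ⟨le_rfl, hAB.le⟩) (by
        rw [cl_of_le hAB hx.le, sub_self, abs_zero]; norm_num)]
      ring
    rw [this]
    exact (le_max_left _ _).trans (le_max_right _ _)
  · rcases lt_or_ge (B : ℝ) x with hx' | hx'
    · have : gg A B h s x = h B - s * B := by
        unfold gg
        rw [FF_local (k₀ := B) (Finset.mem_Icc.2 ⟨hAB.le, le_rfl⟩) (by
          rw [cl_of_ge hAB hx'.le, sub_self, abs_zero]; norm_num)]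
        ring
      rw [this]
      exact (le_max_right _ _).trans (le_max_right _ _)
    · exact (hM x ⟨hx, hx'⟩).trans (le_max_left _ _)

lemma gg_cont (A B : ℤ) (h : ℤ → ℝ) (s : ℝ) : Continuous (gg A B h s) := by
  have := continuous_FF A B h s
  unfold gg; fun_prop

lemma FF_eq_gg (A B : ℤ) (h : ℤ → ℝ) (s x : ℝ) : s * x + gg A B h s x = FF A B h s x := by
  unfold gg; ring

theorem realize_RP2 {P L : Type*} [Fintype L] (inc : P → L → Prop) (hc : Config inc)
    (hd : DrawnZ inc) : ∃ (pos : P → RP2) (C : L → Set RP2), Function.Injective pos ∧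
      (∀ l, IsPseudoline (C l)) ∧
      (∀ l m, l ≠ m → ∃ x, C l ∩ C m = {x} ∧ CrossAt (C l) (C m) x) ∧
      (∀ p l, pos p ∈ C l ↔ inc p l) := by
  classical
  obtain ⟨h, hD, A, B, hAB, hb⟩ := hd
  -- crossing times lie strictly between `A` and `B`
  have cr : ∀ i j, i ≠ j → Sw (h i) (h j) → ∃ t : ℤ, A < t ∧ t < B ∧ h i t = h j t ∧
      (∀ k, k < t → h j k < h i k) ∧ (∀ k, t < k → h i k < h j k) := by
    rintro i j hij ⟨t, h0, h1, h2⟩
    refine ⟨t, ?_, ?_, h0, h1, h2⟩
    · by_contra hcon
      have := h1 (t - 1) (by omega)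
      rw [(hb i (Finset.mem_univ _)).1 (t - 1) (by omega),
        (hb j (Finset.mem_univ _)).1 (t - 1) (by omega),
        ← (hb i (Finset.mem_univ _)).1 t (by omega),
        ← (hb j (Finset.mem_univ _)).1 t (by omega), h0] at this
      exact lt_irrefl _ this
    · by_contra hcon
      have := h2 (t + 1) (by omega)
      rw [(hb i (Finset.mem_univ _)).2 (t + 1) (by omega),
        (hb j (Finset.mem_univ _)).2 (t + 1) (by omega),
        ← (hb i (Finset.mem_univ _)).2 t (by omega),
        ← (hb j (Finset.mem_univ _)).2 t (by omega), h0] at this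
      exact lt_irrefl _ this
  -- the small slope
  obtain ⟨ε, hε, hsmall⟩ := exists_small
    ((Finset.univ ×ˢ Finset.univ ×ˢ Finset.Icc A B : Finset (L × L × ℤ)).filter
      (fun q => h q.1 q.2.2 ≠ h q.2.1 q.2.2))
    (fun q => |h q.1 A - h q.2.1 A|) (fun q => |h q.1 q.2.2 - h q.2.1 q.2.2|) (by
      intro q hq
      exact abs_pos.2 (sub_ne_zero.2 (Finset.mem_filter.1 hq).2))
  have hsm : ∀ i j, ∀ k ∈ Finset.Icc A B, h i k ≠ h j k →
      ε * |h i A - h j A| < |h i k - h j k| := by
    intro i j k hk hne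
    exact hsmall (i, j, k) (Finset.mem_filter.2 ⟨by simpa using hk, hne⟩)
  let s : L → ℝ := fun l => - ε * h l A
  let F : L → ℝ → ℝ := fun l => FF A B (h l) (s l)
  let g : L → ℝ → ℝ := fun l => gg A B (h l) (s l)
  let C : L → Set RP2 := fun l => Curve (s l) (g l)
  -- two wires
  have two : ∀ i j, i ≠ j → Sw (h i) (h j) → ∃ t : ℤ, A < t ∧ t < B ∧ h i t = h j t ∧
      s i ≠ s j ∧ ∀ x, F i x = F j x → x = t := by
    intro i j hij hsw
    obtain ⟨t, tA, tB, h0, h1, h2⟩ := cr i j hij hsw
    have hAij := h1 A tA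
    have hs : s i < s j := by
      show - ε * h i A < - ε * h j A
      nlinarith
    refine ⟨t, tA, tB, h0, hs.ne, fun x hx => ?_⟩
    have hd : ∀ k ∈ Finset.Icc A B, k ≠ t → s j - s i < |h i k - h j k| := by
      intro k hk hkt
      have hne : h i k ≠ h j k := by
        rcases lt_or_gt_of_ne hkt with e | e
        · exact (h1 k e).ne'
        · exact (h2 k e).ne
      have := hsm i j k hk hne
      rw [abs_of_pos (show 0 < h i A - h j A by linarith)] at this
      have e : s j - s i = ε * (h i A - h j A) := by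
        show - ε * h j A - - ε * h i A = _
        ring
      rw [e]
      exact this
    obtain ⟨sg1, sg2⟩ := FF_sign hAB tA tB h0 h1 h2 hs hd x
    rcases lt_trichotomy x t with e | e | e
    · exact absurd hx (sg1 e).ne'
    · exact e
    · exact absurd hx (sg2 e).ne
  have two' : ∀ i j, i ≠ j → ∃ t : ℤ, A < t ∧ t < B ∧ h i t = h j t ∧
      s i ≠ s j ∧ ∀ x, F i x = F j x → x = t := by
    intro i j hij
    rcases hD.cross i (Finset.mem_univ _) j (Finset.mem_univ _) hij with hsw | hsw
    · exact two i j hij hsw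
    · obtain ⟨t, a1, a2, a3, a4, a5⟩ := two j i hij.symm hsw
      exact ⟨t, a1, a2, a3.symm, a4.symm, fun x hx => a5 x hx.symm⟩
  -- local form of the wires
  have loc : ∀ l (t : ℤ), A < t → t < B → ∀ x : ℝ, |x - t| < 1 / 3 →
      s l * x + g l x = h l t + s l * (x - t) := by
    intro l t tA tB x hx
    have h1 : (A : ℝ) + 1 ≤ t := by exact_mod_cast tA
    have h2 : (t : ℝ) + 1 ≤ B := by exact_mod_cast tB
    obtain ⟨w1, w2⟩ := abs_lt.1 hx
    show s l * x + gg A B (h l) (s l) x = _
    rw [FF_eq_gg]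
    apply FF_local (Finset.mem_Icc.2 ⟨tA.le, tB.le⟩)
    rw [cl_of_mem (by linarith) (by linarith)]
    exact hx.le
  have locT : ∀ l (t : ℤ), A < t → t < B → s l * (t : ℝ) + g l t = h l t := by
    intro l t tA tB
    have := loc l t tA tB t (by rw [sub_self, abs_zero]; norm_num)
    rw [this, sub_self, mul_zero, add_zero]
  -- locations
  choose τ y hloc using hD.loc
  have hτ : ∀ p, A < τ p ∧ τ p < B := by
    intro p
    obtain ⟨i, j, k, hij, _, _, hl⟩ := hc.lines p
    have e1 := (hloc p i (Finset.mem_univ _)).1 ((hl i).2 (by simp))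
    have e2 := (hloc p j (Finset.mem_univ _)).1 ((hl j).2 (by simp))
    obtain ⟨t, a1, a2, a3, _⟩ := two' i j hij
    have : τ p = t := (hD.cross i (Finset.mem_univ _) j (Finset.mem_univ _) hij).eq_unique
      (e1.trans e2.symm) a3
    rw [this]
    exact ⟨a1, a2⟩
  have hmem : ∀ p l, aff ((τ p : ℝ), y p) ∈ C l ↔ inc p l := by
    intro p l
    have h1 : aff ((τ p : ℝ), y p) ∈ C l ↔ y p = s l * (τ p : ℝ) + g l (τ p) := aff_mem_curve
    rw [h1, locT l _ (hτ p).1 (hτ p).2, hloc p l (Finset.mem_univ _), eq_comm]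
  refine ⟨fun p => aff ((τ p : ℝ), y p), C, ?_, ?_, ?_, hmem⟩
  · intro p p' hpp
    have hpp' : aff ((τ p : ℝ), y p) = aff ((τ p' : ℝ), y p') := hpp
    have same : ∀ l, inc p l → inc p' l := by
      intro l hl
      rw [← hmem] at hl ⊢
      rw [← hpp']
      exact hl
    obtain ⟨i, j, k, hij, _, _, hl⟩ := hc.lines p
    have ip := (hl i).2 (by simp)
    have jp := (hl j).2 (by simp)
    exact hc.lin i j hij p p' ip jp (same i ip) (same j jp)
  · intro l
    obtain ⟨M, hM⟩ := gg_bdd hAB (h l) (s l)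
    exact curve_pseudoline (s l) (gg_cont A B (h l) (s l)) hM
  · intro i j hij
    obtain ⟨t, tA, tB, h0, hs, huniq⟩ := two' i j hij
    refine ⟨aff ((t : ℝ), h i t), ?_, ?_⟩
    · refine curve_inter hs ?_ ?_ ?_
      · exact (locT i t tA tB).symm
      · rw [h0]; exact (locT j t tA tB).symm
      · intro x hx
        apply huniq
        show FF A B (h i) (s i) x = FF A B (h j) (s j) x
        rw [← FF_eq_gg, ← FF_eq_gg]
        exact hx
    · refine cross_at hs (r := 1 / 3) (by norm_num) (loc i t tA tB) ?_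
      rw [h0]
      exact loc j t tA tB

end PL3
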