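import Pool.Agent.Lib.MP_e3e9c0_co.Switch

/-!
# Inserting a new wire along a path

The wires have heights at integer times.  They are extended to real times (`ext`), constant in the
open unit intervals.  A path `Y : ℤ → ℝ` that passes every wire once is turned into a new wire in
real time, crossing the wires that change side between consecutive times in the open intervals.
-/

namespace PL3

/-- extension of integer-time heights to real times, constant in the open unit intervals. -/
noncomputable def ext (x : ℤ → ℝ) (t : ℝ) : ℝ :=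
  open Classical in if (⌊t⌋ : ℝ) = t then x ⌊t⌋ else (x ⌊t⌋ + x (⌊t⌋ + 1)) / 2

/-- the new wire: `Y` at integer times, going linearly from `u k` to `v k` in `(k, k+1)`. -/
noncomputable def extY (Y u v : ℤ → ℝ) (t : ℝ) : ℝ :=
  open Classical in if (⌊t⌋ : ℝ) = t then Y ⌊t⌋ else u ⌊t⌋ + (t - ⌊t⌋) * (v ⌊t⌋ - u ⌊t⌋)

lemma ext_int (x : ℤ → ℝ) (k : ℤ) : ext x k = x k := by simp [ext]

lemma extY_int (Y u v : ℤ → ℝ) (k : ℤ) : extY Y u v k = Y k := by simp [extY]

lemma ext_of_not {x : ℤ → ℝ} {t : ℝ} (h : (⌊t⌋ : ℝ) ≠ t) : ext x t = (x ⌊t⌋ + x (⌊t⌋ + 1)) / 2 := by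
  simp [ext, h]

lemma extY_of_not {Y u v : ℤ → ℝ} {t : ℝ} (h : (⌊t⌋ : ℝ) ≠ t) :
    extY Y u v t = u ⌊t⌋ + (t - ⌊t⌋) * (v ⌊t⌋ - u ⌊t⌋) := by
  simp [extY, h]

/-- case distinction for a real time. -/
lemma time_cases (t : ℝ) : (∃ k : ℤ, t = k) ∨ (((⌊t⌋ : ℝ) ≠ t) ∧ (⌊t⌋ : ℝ) < t ∧ t < ⌊t⌋ + 1) := by
  by_cases h : (⌊t⌋ : ℝ) = t
  · exact Or.inl ⟨⌊t⌋, h.symm⟩
  · exact Or.inr ⟨h, lt_of_le_of_ne (Int.floor_le t) h, Int.lt_floor_add_one t⟩

lemma floor_lt_of_lt_int {t : ℝ} {k : ℤ} (h : t < k) : ⌊t⌋ < k := Int.floor_lt.2 h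

lemma le_floor_of_int_lt {t : ℝ} {k : ℤ} (h : (k : ℝ) < t) : k ≤ ⌊t⌋ := Int.le_floor.2 h.le

lemma ext_neg (x : ℤ → ℝ) (t : ℝ) : ext (fun k => - x k) t = - ext x t := by
  unfold ext; split_ifs <;> ring

lemma extY_neg (Y u v : ℤ → ℝ) (t : ℝ) :
    extY (fun k => - Y k) (fun k => - u k) (fun k => - v k) t = - extY Y u v t := by
  unfold extY; split_ifs <;> ring

/-- Switching pairs stay switching pairs in real time. -/
lemma Sw.ext {x y : ℤ → ℝ} (h : Sw x y) : Sw (ext x) (ext y) := by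
  obtain ⟨k₀, h0, h1, h2⟩ := h
  refine ⟨(k₀ : ℝ), by simp only [ext_int]; exact h0, fun t ht => ?_, fun t ht => ?_⟩
  · rcases time_cases t with ⟨k, rfl⟩ | ⟨hn, h3, h4⟩
    · simp only [ext_int]; exact h1 k (by exact_mod_cast ht)
    · rw [ext_of_not hn, ext_of_not hn]
      have hk : ⌊t⌋ < k₀ := floor_lt_of_lt_int ht
      have e1 := h1 _ hk
      have e2 : y (⌊t⌋ + 1) ≤ x (⌊t⌋ + 1) := by
        rcases (Int.add_one_le_iff.2 hk).lt_or_eq with h | h
        · exact (h1 _ h).le
        · rw [h, h0]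
      linarith
  · rcases time_cases t with ⟨k, rfl⟩ | ⟨hn, h3, h4⟩
    · simp only [ext_int]; exact h2 k (by exact_mod_cast ht)
    · rw [ext_of_not hn, ext_of_not hn]
      have hk : k₀ ≤ ⌊t⌋ := le_floor_of_int_lt ht
      have e1 : x ⌊t⌋ ≤ y ⌊t⌋ := by
        rcases hk.lt_or_eq with h | h
        · exact (h2 _ h).le
        · rw [← h, h0]
      have e2 := h2 (⌊t⌋ + 1) (by omega)
      linarith

lemma Cross.ext {x y : ℤ → ℝ} (h : Cross x y) : Cross (PL3.ext x) (PL3.ext y) :=
  h.imp Sw.ext Sw.ext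

/-- In the open unit intervals two switching wires have different heights. -/
lemma Cross.avg_ne {x y : ℤ → ℝ} (h : Cross x y) (k : ℤ) :
    (x k + x (k + 1)) / 2 ≠ (y k + y (k + 1)) / 2 := by
  have key : ∀ {x y : ℤ → ℝ}, Sw x y → (x k + x (k + 1)) / 2 ≠ (y k + y (k + 1)) / 2 := by
    intro x y h
    obtain ⟨t, ht⟩ := h.spec
    rcases lt_or_ge k t with h1 | h1
    · have a1 := (ht k).1.2 h1
      have a2 := (ht (k+1)).2.2.1.2 (by omega)
      intro h; linarith
    · have a1 := (ht k).2.2.2.2 h1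
      have a2 := (ht (k+1)).2.1.2 (by omega)
      intro h; linarith
  rcases h with h | h
  · exact key h
  · exact (key h).symm

/-- convexity -/
private lemma lt_conv {u v m s : ℝ} (h0 : 0 < s) (h1 : s < 1) (hu : u < m) (hv : v < m) :
    u + s * (v - u) < m := by nlinarith

private lemma conv_lt {u v m s : ℝ} (h0 : 0 < s) (h1 : s < 1) (hu : m < u) (hv : m < v) :
    m < u + s * (v - u) := by nlinarith

/-- The new wire crosses a wire exactly once. -/
lemma gap_sw {x Y u v : ℤ → ℝ}
    (hu1 : ∀ k, (Y k < x k ∨ (Y k = x k ∧ Y (k+1) < x (k+1))) → u k < (x k + x (k+1)) / 2)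
    (hu2 : ∀ k, (x k < Y k ∨ (Y k = x k ∧ x (k+1) < Y (k+1))) → (x k + x (k+1)) / 2 < u k)
    (hv1 : ∀ k, (Y (k+1) < x (k+1) ∨ (Y (k+1) = x (k+1) ∧ Y k < x k)) → v k < (x k + x (k+1)) / 2)
    (hv2 : ∀ k, (x (k+1) < Y (k+1) ∨ (Y (k+1) = x (k+1) ∧ x k < Y k)) → (x k + x (k+1)) / 2 < v k)
    (hp : PreSw x Y) : Sw (ext x) (extY Y u v) := by
  obtain ⟨k₀, h1, h2⟩ := hp
  have fr : ∀ t : ℝ, (⌊t⌋ : ℝ) < t → t < ⌊t⌋ + 1 → 0 < t - ⌊t⌋ ∧ t - ⌊t⌋ < 1 := by
    intro t h h'; constructor <;> linarith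
  rcases lt_trichotomy (Y k₀) (x k₀) with h0 | h0 | h0
  · -- crossing in `(k₀, k₀+1)`
    have a1 := hu1 k₀ (Or.inl h0)
    have a2 := hv2 k₀ (Or.inl (h2 _ (by omega)))
    set m := (x k₀ + x (k₀+1)) / 2 with hm
    have hd : 0 < v k₀ - u k₀ := by linarith
    set s := (m - u k₀) / (v k₀ - u k₀) with hs
    have hs0 : 0 < s := div_pos (by linarith) hd
    have hs1 : s < 1 := (div_lt_one hd).2 (by linarith)
    have hsm : s * (v k₀ - u k₀) = m - u k₀ := by rw [hs]; field_simp
    have hfl : ⌊(k₀ : ℝ) + s⌋ = k₀ := by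
      rw [Int.floor_eq_iff]; constructor <;> push_cast <;> linarith
    have hnn : (⌊(k₀ : ℝ) + s⌋ : ℝ) ≠ (k₀ : ℝ) + s := by rw [hfl]; intro h; linarith
    refine ⟨(k₀ : ℝ) + s, ?_, fun t ht => ?_, fun t ht => ?_⟩
    · rw [ext_of_not hnn, extY_of_not hnn, hfl, ← hm]
      have : ((k₀ : ℝ) + s - k₀) = s := by ring
      rw [this, hsm]; ring
    · rcases time_cases t with ⟨k, rfl⟩ | ⟨hn, h3, h4⟩
      · simp only [ext_int, extY_int]
        have hk : k ≤ k₀ := by
          have : (k : ℝ) < k₀ + 1 := by linarith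
          have : k < k₀ + 1 := by exact_mod_cast this
          omega
        rcases hk.lt_or_eq with h | h
        · exact h1 k h
        · rw [h]; exact h0
      · rw [ext_of_not hn, extY_of_not hn]
        obtain ⟨f0, f1⟩ := fr t h3 h4
        have hk : ⌊t⌋ ≤ k₀ := by
          have : (⌊t⌋ : ℝ) < k₀ + 1 := by linarith
          have : ⌊t⌋ < k₀ + 1 := by exact_mod_cast this
          omega
        rcases hk.lt_or_eq with h | h
        · refine lt_conv f0 f1 (hu1 _ (Or.inl (h1 _ h))) (hv1 _ (Or.inl ?_))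
          rcases (Int.add_one_le_iff.2 h).lt_or_eq with h' | h'
          · exact h1 _ h'
          · rw [h']; exact h0
        · rw [h, ← hm]
          have : t - k₀ < s := by linarith
          nlinarith
    · rcases time_cases t with ⟨k, rfl⟩ | ⟨hn, h3, h4⟩
      · simp only [ext_int, extY_int]
        have hk : k₀ < k := by
          have : (k₀ : ℝ) < k := by linarith
          exact_mod_cast this
        exact h2 k hk
      · rw [ext_of_not hn, extY_of_not hn]
        obtain ⟨f0, f1⟩ := fr t h3 h4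
        have hk : k₀ ≤ ⌊t⌋ := Int.le_floor.2 (by linarith)
        rcases hk.lt_or_eq with h | h
        · exact conv_lt f0 f1 (hu2 _ (Or.inl (h2 _ h))) (hv2 _ (Or.inl (h2 _ (by omega))))
        · rw [← h, ← hm]
          have h5 : s < t - k₀ := by linarith
          nlinarith
  · -- tie at `k₀`
    refine ⟨(k₀ : ℝ), by simp only [ext_int, extY_int]; exact h0.symm, fun t ht => ?_, fun t ht => ?_⟩
    · rcases time_cases t with ⟨k, rfl⟩ | ⟨hn, h3, h4⟩
      · simp only [ext_int, extY_int]; exact h1 k (by exact_mod_cast ht)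
      · rw [ext_of_not hn, extY_of_not hn]
        obtain ⟨f0, f1⟩ := fr t h3 h4
        have hk : ⌊t⌋ < k₀ := floor_lt_of_lt_int ht
        refine lt_conv f0 f1 (hu1 _ (Or.inl (h1 _ hk))) (hv1 _ ?_)
        rcases (Int.add_one_le_iff.2 hk).lt_or_eq with h' | h'
        · exact Or.inl (h1 _ h')
        · rw [h']; exact Or.inr ⟨h0, h1 _ hk⟩
    · rcases time_cases t with ⟨k, rfl⟩ | ⟨hn, h3, h4⟩
      · simp only [ext_int, extY_int]; exact h2 k (by exact_mod_cast ht)
      · rw [ext_of_not hn, extY_of_not hn]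
        obtain ⟨f0, f1⟩ := fr t h3 h4
        have hk : k₀ ≤ ⌊t⌋ := le_floor_of_int_lt ht
        refine conv_lt f0 f1 (hu2 _ ?_) (hv2 _ (Or.inl (h2 _ (by omega))))
        rcases hk.lt_or_eq with h' | h'
        · exact Or.inl (h2 _ h')
        · rw [← h']; exact Or.inr ⟨h0, h2 _ (by omega)⟩
  · -- crossing in `(k₀-1, k₀)`
    have e : k₀ - 1 + 1 = k₀ := by ring
    have a1 := hu1 (k₀-1) (Or.inl (h1 _ (by omega)))
    have a2 := hv2 (k₀-1) (Or.inl (by rw [e]; exact h0))
    rw [e] at a1 a2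
    set m := (x (k₀-1) + x k₀) / 2 with hm
    have hd : 0 < v (k₀-1) - u (k₀-1) := by linarith
    set s := (m - u (k₀-1)) / (v (k₀-1) - u (k₀-1)) with hs
    have hs0 : 0 < s := div_pos (by linarith) hd
    have hs1 : s < 1 := (div_lt_one hd).2 (by linarith)
    have hsm : s * (v (k₀-1) - u (k₀-1)) = m - u (k₀-1) := by rw [hs]; field_simp
    have hfl : ⌊(k₀ : ℝ) - 1 + s⌋ = k₀ - 1 := by
      rw [Int.floor_eq_iff]; constructor <;> push_cast <;> linarith
    have hnn : (⌊(k₀ : ℝ) - 1 + s⌋ : ℝ) ≠ (k₀ : ℝ) - 1 + s := by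
      rw [hfl]; push_cast; intro h; linarith
    refine ⟨(k₀ : ℝ) - 1 + s, ?_, fun t ht => ?_, fun t ht => ?_⟩
    · rw [ext_of_not hnn, extY_of_not hnn, hfl, e, ← hm]
      have : ((k₀ : ℝ) - 1 + s - ((k₀ - 1 : ℤ) : ℝ)) = s := by push_cast; ring
      rw [this, hsm]; ring
    · rcases time_cases t with ⟨k, rfl⟩ | ⟨hn, h3, h4⟩
      · simp only [ext_int, extY_int]
        have hk : k < k₀ := by
          have : (k : ℝ) < k₀ := by linarith
          exact_mod_cast this
        exact h1 k hk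
      · rw [ext_of_not hn, extY_of_not hn]
        obtain ⟨f0, f1⟩ := fr t h3 h4
        have hk : ⌊t⌋ ≤ k₀ - 1 := by
          have : (⌊t⌋ : ℝ) < k₀ := by linarith
          have : ⌊t⌋ < k₀ := by exact_mod_cast this
          omega
        rcases hk.lt_or_eq with h | h
        · exact lt_conv f0 f1 (hu1 _ (Or.inl (h1 _ (by omega)))) (hv1 _ (Or.inl (h1 _ (by omega))))
        · rw [h, e, ← hm]
          have : t - ((k₀ - 1 : ℤ) : ℝ) < s := by push_cast; linarith
          nlinarith
    · rcases time_cases t with ⟨k, rfl⟩ | ⟨hn, h3, h4⟩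
      · simp only [ext_int, extY_int]
        have hk : k₀ ≤ k := by
          have : (k₀ : ℝ) - 1 < k := by linarith
          have : k₀ - 1 < k := by exact_mod_cast this
          omega
        rcases hk.lt_or_eq with h | h
        · exact h2 k h
        · rw [← h]; exact h0
      · rw [ext_of_not hn, extY_of_not hn]
        obtain ⟨f0, f1⟩ := fr t h3 h4
        have hk : k₀ - 1 ≤ ⌊t⌋ := Int.le_floor.2 (by push_cast; linarith)
        rcases hk.lt_or_eq with h | h
        · refine conv_lt f0 f1 (hu2 _ (Or.inl ?_)) (hv2 _ (Or.inl (h2 _ (by omega))))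
          rcases (show k₀ ≤ ⌊t⌋ by omega).lt_or_eq with h' | h'
          · exact h2 _ h'
          · rw [← h']; exact h0
        · rw [← h, e, ← hm]
          have h5 : s < t - ((k₀ - 1 : ℤ) : ℝ) := by push_cast; linarith
          nlinarith

variable {L : Type*}

/-- **Insertion lemma.**  A path that passes every wire exactly once (in the weak sense) gives a new
wire in real time. -/
theorem insertion (S : Finset L) (h : L → ℤ → ℝ)
    (hc : ∀ i ∈ S, ∀ j ∈ S, i ≠ j → Cross (h i) (h j)) (Y : ℤ → ℝ)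
    (hY : ∀ i ∈ S, PreSw (h i) Y ∨ PreSw Y (h i)) :
    ∃ G : ℝ → ℝ, (∀ k : ℤ, G k = Y k) ∧ (∀ i ∈ S, Cross (ext (h i)) G) ∧
      (∀ t : ℝ, (⌊t⌋ : ℝ) ≠ t → ∀ i ∈ S, ∀ j ∈ S, i ≠ j → ext (h i) t = G t → ext (h j) t ≠ G t) := by
  classical
  -- two consecutive ties with `Y` are impossible
  have noDouble : ∀ i ∈ S, ∀ k, Y k = h i k → Y (k+1) = h i (k+1) → False := by
    intro i hi k h1 h2
    rcases hY i hi with ⟨k₀, a, b⟩ | ⟨k₀, a, b⟩
    · rcases lt_trichotomy k k₀ with h | h | h
      · exact absurd h1 (a k h).ne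
      · exact absurd h2 (b (k+1) (by omega)).ne'
      · exact absurd h1 (b k h).ne'
    · rcases lt_trichotomy k k₀ with h | h | h
      · exact absurd h1 (a k h).ne'
      · exact absurd h2 (b (k+1) (by omega)).ne
      · exact absurd h1 (b k h).ne
  have two : ∀ i ∈ S, ∀ j ∈ S, i ≠ j → ∀ k, h j k ≤ h i k → h j (k+1) ≤ h i (k+1) →
      (h j k + h j (k+1)) / 2 < (h i k + h i (k+1)) / 2 := by
    intro i hi j hj hij k h1 h2
    rcases h1.lt_or_eq with h3 | h3
    · linarith
    · rcases h2.lt_or_eq with h4 | h4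
      · linarith
      · exact absurd ((hc i hi j hj hij).eq_unique h3.symm h4.symm) (by omega)
  have nofull : ∀ i ∈ S, ∀ j ∈ S, i ≠ j → ∀ k, h j k < h i k → h j (k+1) ≤ h i (k+1) := by
    intro i hi j hj hij k h1
    rcases hc i hi j hj hij with hs | hs
    · obtain ⟨t, ht⟩ := hs.spec
      have := (ht k).1.1 h1
      exact (ht (k+1)).2.2.1.2 (by omega)
    · obtain ⟨t, ht⟩ := hs.spec
      have := (ht k).2.1.1 h1
      exact ((ht (k+1)).2.1.2 (by omega)).le
  have nofull' : ∀ i ∈ S, ∀ j ∈ S, i ≠ j → ∀ k, h j (k+1) < h i (k+1) → h j k ≤ h i k := by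
    intro i hi j hj hij k h1
    rcases hc i hi j hj hij with hs | hs
    · obtain ⟨t, ht⟩ := hs.spec
      have := (ht (k+1)).1.1 h1
      exact ((ht k).1.2 (by omega)).le
    · obtain ⟨t, ht⟩ := hs.spec
      have := (ht (k+1)).2.1.1 h1
      exact (ht k).2.2.2.2 (by omega)
  have exu : ∀ k : ℤ, ∃ u : ℝ, ∀ i ∈ S,
      ((Y k < h i k ∨ (Y k = h i k ∧ Y (k+1) < h i (k+1))) → u < (h i k + h i (k+1)) / 2) ∧
      ((h i k < Y k ∨ (Y k = h i k ∧ h i (k+1) < Y (k+1))) → (h i k + h i (k+1)) / 2 < u) := by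
    intro k
    obtain ⟨m, hm1, hm2⟩ := Order.exists_between_finsets
      ((S.filter (fun i => h i k < Y k ∨ (Y k = h i k ∧ h i (k+1) < Y (k+1)))).image
        (fun i => (h i k + h i (k+1)) / 2))
      ((S.filter (fun i => Y k < h i k ∨ (Y k = h i k ∧ Y (k+1) < h i (k+1)))).image
        (fun i => (h i k + h i (k+1)) / 2)) (by
        intro x hx y hy
        simp only [Finset.mem_image, Finset.mem_filter] at hx hy
        obtain ⟨j, ⟨hj, hj'⟩, rfl⟩ := hx
        obtain ⟨i, ⟨hi, hi'⟩, rfl⟩ := hy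
        have hij : i ≠ j := by
          rintro rfl
          rcases hj' with h1 | ⟨h1, h2⟩ <;> rcases hi' with h3 | ⟨h3, h4⟩ <;> linarith
        have h1 : h j k ≤ h i k := by
          rcases hj' with h1 | ⟨h1, h2⟩ <;> rcases hi' with h3 | ⟨h3, h4⟩ <;> linarith
        rcases h1.lt_or_eq with h2 | h2
        · exact two i hi j hj hij k h2.le (nofull i hi j hj hij k h2)
        · have h3 : Y k = h i k := by
            rcases hj' with h1 | ⟨h1, h2⟩ <;> rcases hi' with h3 | ⟨h3, h4⟩ <;> linarith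
          have h4 : Y (k+1) < h i (k+1) := by
            rcases hi' with h5 | ⟨h5, h6⟩
            · linarith
            · exact h6
          have h5 : h j (k+1) < Y (k+1) := by
            rcases hj' with h5 | ⟨h5, h6⟩
            · linarith
            · exact h6
          exact two i hi j hj hij k h1 (by linarith))
    refine ⟨m, fun i hi => ⟨fun hh => hm2 _ ?_, fun hh => hm1 _ ?_⟩⟩
    · exact Finset.mem_image.2 ⟨i, Finset.mem_filter.2 ⟨hi, hh⟩, rfl⟩
    · exact Finset.mem_image.2 ⟨i, Finset.mem_filter.2 ⟨hi, hh⟩, rfl⟩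
  have exv : ∀ k : ℤ, ∃ v : ℝ, ∀ i ∈ S,
      ((Y (k+1) < h i (k+1) ∨ (Y (k+1) = h i (k+1) ∧ Y k < h i k)) → v < (h i k + h i (k+1)) / 2) ∧
      ((h i (k+1) < Y (k+1) ∨ (Y (k+1) = h i (k+1) ∧ h i k < Y k)) → (h i k + h i (k+1)) / 2 < v) := by
    intro k
    obtain ⟨m, hm1, hm2⟩ := Order.exists_between_finsets
      ((S.filter (fun i => h i (k+1) < Y (k+1) ∨ (Y (k+1) = h i (k+1) ∧ h i k < Y k))).image
        (fun i => (h i k + h i (k+1)) / 2))
      ((S.filter (fun i => Y (k+1) < h i (k+1) ∨ (Y (k+1) = h i (k+1) ∧ Y k < h i k))).image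
        (fun i => (h i k + h i (k+1)) / 2)) (by
        intro x hx y hy
        simp only [Finset.mem_image, Finset.mem_filter] at hx hy
        obtain ⟨j, ⟨hj, hj'⟩, rfl⟩ := hx
        obtain ⟨i, ⟨hi, hi'⟩, rfl⟩ := hy
        have hij : i ≠ j := by
          rintro rfl
          rcases hj' with h1 | ⟨h1, h2⟩ <;> rcases hi' with h3 | ⟨h3, h4⟩ <;> linarith
        have h1 : h j (k+1) ≤ h i (k+1) := by
          rcases hj' with h1 | ⟨h1, h2⟩ <;> rcases hi' with h3 | ⟨h3, h4⟩ <;> linarith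
        rcases h1.lt_or_eq with h2 | h2
        · exact two i hi j hj hij k (nofull' i hi j hj hij k h2) h2.le
        · have h3 : Y (k+1) = h i (k+1) := by
            rcases hj' with h1 | ⟨h1, h2⟩ <;> rcases hi' with h3 | ⟨h3, h4⟩ <;> linarith
          have h4 : Y k < h i k := by
            rcases hi' with h5 | ⟨h5, h6⟩
            · linarith
            · exact h6
          have h5 : h j k < Y k := by
            rcases hj' with h5 | ⟨h5, h6⟩
            · linarith
            · exact h6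
          exact two i hi j hj hij k (by linarith) h1)
    refine ⟨m, fun i hi => ⟨fun hh => hm2 _ ?_, fun hh => hm1 _ ?_⟩⟩
    · exact Finset.mem_image.2 ⟨i, Finset.mem_filter.2 ⟨hi, hh⟩, rfl⟩
    · exact Finset.mem_image.2 ⟨i, Finset.mem_filter.2 ⟨hi, hh⟩, rfl⟩
  choose u hu using exu
  choose v hv using exv
  refine ⟨extY Y u v, fun k => extY_int Y u v k, fun i hi => ?_, fun t ht i hi j hj hij h1 h2 => ?_⟩
  · rcases hY i hi with hp | hp
    · exact Or.inl (gap_sw (fun k => (hu k i hi).1) (fun k => (hu k i hi).2)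
        (fun k => (hv k i hi).1) (fun k => (hv k i hi).2) hp)
    · right
      have key := gap_sw (x := fun k => - h i k) (Y := fun k => - Y k) (u := fun k => - u k)
        (v := fun k => - v k)
        (fun k hk => by
          have := (hu k i hi).2 (by
            rcases hk with hk | ⟨hk, hk'⟩
            · exact Or.inl (by linarith)
            · exact Or.inr ⟨by linarith, by linarith⟩)
          show - u k < (- h i k + - h i (k+1)) / 2
          linarith)
        (fun k hk => by
          have := (hu k i hi).1 (by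
            rcases hk with hk | ⟨hk, hk'⟩
            · exact Or.inl (by linarith)
            · exact Or.inr ⟨by linarith, by linarith⟩)
          show (- h i k + - h i (k+1)) / 2 < - u k
          linarith)
        (fun k hk => by
          have := (hv k i hi).2 (by
            rcases hk with hk | ⟨hk, hk'⟩
            · exact Or.inl (by linarith)
            · exact Or.inr ⟨by linarith, by linarith⟩)
          show - v k < (- h i k + - h i (k+1)) / 2
          linarith)
        (fun k hk => by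
          have := (hv k i hi).1 (by
            rcases hk with hk | ⟨hk, hk'⟩
            · exact Or.inl (by linarith)
            · exact Or.inr ⟨by linarith, by linarith⟩)
          show (- h i k + - h i (k+1)) / 2 < - v k
          linarith)
        (by
          obtain ⟨k₀, a, b⟩ := hp
          exact ⟨k₀, fun k hk => by have := a k hk; show - Y k < - h i k; linarith,
            fun k hk => by have := b k hk; show - h i k < - Y k; linarith⟩)
      obtain ⟨t₀, a, b, c⟩ := key
      refine ⟨t₀, ?_, fun t ht => ?_, fun t ht => ?_⟩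
      · rw [ext_neg, extY_neg] at a; linarith
      · have := b t ht
        rw [ext_neg, extY_neg] at this; linarith
      · have := c t ht
        rw [ext_neg, extY_neg] at this; linarith
  · rw [ext_of_not ht] at h1 h2
    exact (hc i hi j hj hij).avg_ne ⌊t⌋ (h1.trans h2.symm)

end PL3
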