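import Pool.Agent.Lib.MP_e3e9c0_co.Insert

/-!
# Levi's extension lemma for wiring diagrams

Given a finite family of pairwise switching wires in integer time, and two points at different
times not both on a common wire, there is a path through the two points passing every wire once.
-/

namespace PL3

/-- the properties of a path in the corridor between the times `p` and `q`, relative to a wire. -/
structure Corr (p q : ℤ) (x Y : ℤ → ℝ) : Prop where
  ne : ∀ k, p < k → k < q → Y k ≠ x k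
  above : Y p ≤ x p → Y q ≤ x q → ∀ k, p < k → k < q → Y k < x k
  below : x p ≤ Y p → x q ≤ Y q → ∀ k, p < k → k < q → x k < Y k
  down : Y p ≤ x p → x q ≤ Y q → ∀ k k', p < k → k ≤ k' → k' < q → Y k' < x k' → Y k < x k
  up : x p ≤ Y p → Y q ≤ x q → ∀ k k', p < k → k ≤ k' → k' < q → Y k < x k → Y k' < x k'

lemma Corr.neg {p q : ℤ} {x Y : ℤ → ℝ} (h : Corr p q x Y) :
    Corr p q (fun k => - x k) (fun k => - Y k) where
  ne k h1 h2 e := h.ne k h1 h2 (by linarith)
  above h1 h2 k h3 h4 := by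
    have := h.below (by linarith) (by linarith) k h3 h4
    linarith
  below h1 h2 k h3 h4 := by
    have := h.above (by linarith) (by linarith) k h3 h4
    linarith
  down h1 h2 k k' h3 h4 h5 h6 := by
    by_contra hcon
    have e1 : Y k < x k := lt_of_le_of_ne (by linarith) (h.ne k h3 (by omega))
    have := h.up (by linarith) (by linarith) k k' h3 h4 h5 e1
    linarith
  up h1 h2 k k' h3 h4 h5 h6 := by
    by_contra hcon
    have e1 : Y k' < x k' := lt_of_le_of_ne (by linarith) (h.ne k' (by omega) h5)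
    have := h.down (by linarith) (by linarith) k k' h3 h4 h5 e1
    linarith

variable {L : Type*}

/-- **Corridor lemma.** -/
lemma corridor (S : Finset L) (h : L → ℤ → ℝ)
    (hc : ∀ i ∈ S, ∀ j ∈ S, i ≠ j → Cross (h i) (h j)) (p q : ℤ) (yp yq : ℝ)
    (hno : ∀ i ∈ S, ¬ (h i p = yp ∧ h i q = yq)) :
    ∃ C : ℤ → ℝ, (∀ k, p < k → k < q → ∀ i ∈ S, C k ≠ h i k) ∧
      (∀ i ∈ S, yp ≤ h i p → yq ≤ h i q → ∀ k, p < k → k < q → C k < h i k) ∧
      (∀ i ∈ S, h i p ≤ yp → h i q ≤ yq → ∀ k, p < k → k < q → h i k < C k) ∧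
      (∀ i ∈ S, yp ≤ h i p → h i q ≤ yq → ∀ k k', p < k → k ≤ k' → k' < q →
        C k' < h i k' → C k < h i k) ∧
      (∀ i ∈ S, h i p ≤ yp → yq ≤ h i q → ∀ k k', p < k → k ≤ k' → k' < q →
        C k < h i k → C k' < h i k') := by
  classical
  let Up : ℤ → L → Prop := fun k i => ∃ z ∈ S, yp ≤ h z p ∧ yq ≤ h z q ∧ h z k ≤ h i k
  have ex : ∀ k : ℤ, ∃ c : ℝ, ∀ i ∈ S, (Up k i → c < h i k) ∧ (¬ Up k i → h i k < c) := by
    intro k
    obtain ⟨m, hm1, hm2⟩ := Order.exists_between_finsets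
      ((S.filter (fun i => ¬ Up k i)).image (fun i => h i k))
      ((S.filter (fun i => Up k i)).image (fun i => h i k)) (by
        intro x hx y hy
        simp only [Finset.mem_image, Finset.mem_filter] at hx hy
        obtain ⟨j, ⟨hj, hj'⟩, rfl⟩ := hx
        obtain ⟨i, ⟨hi, z, hz, h1, h2, h3⟩, rfl⟩ := hy
        by_contra hcon
        exact hj' ⟨z, hz, h1, h2, h3.trans (not_lt.1 hcon)⟩)
    refine ⟨m, fun i hi => ⟨fun hh => hm2 _ ?_, fun hh => hm1 _ ?_⟩⟩
    · exact Finset.mem_image.2 ⟨i, Finset.mem_filter.2 ⟨hi, hh⟩, rfl⟩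
    · exact Finset.mem_image.2 ⟨i, Finset.mem_filter.2 ⟨hi, hh⟩, rfl⟩
  choose C hC using ex
  have iff1 : ∀ k, ∀ i ∈ S, (C k < h i k ↔ Up k i) := by
    intro k i hi
    constructor
    · intro h1
      by_contra h2
      exact absurd ((hC k i hi).2 h2) (not_lt.2 h1.le)
    · exact (hC k i hi).1
  refine ⟨C, ?_, ?_, ?_, ?_, ?_⟩
  · intro k _ _ i hi
    by_cases h1 : Up k i
    · exact ((hC k i hi).1 h1).ne
    · exact ((hC k i hi).2 h1).ne'
  · intro i hi h1 h2 k _ _
    exact (hC k i hi).1 ⟨i, hi, h1, h2, le_rfl⟩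
  · intro i hi h1 h2 k h3 h4
    refine (hC k i hi).2 ?_
    rintro ⟨z, hz, h5, h6, h7⟩
    by_cases hzi : z = i
    · subst hzi
      exact hno z hz ⟨le_antisymm h1 h5, le_antisymm h2 h6⟩
    · rcases hc z hz i hi hzi with hs | hs
      · obtain ⟨t, ht⟩ := hs.spec
        have a1 := (ht k).2.2.2.1 h7
        have a2 := (ht q).2.1.2 (by omega)
        linarith
      · obtain ⟨t, ht⟩ := hs.spec
        have a1 := (ht k).2.2.1.1 h7
        have a2 := (ht p).1.2 (by omega)
        linarith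
  · intro i hi h1 h2 k k' h3 h4 h5 h6
    rw [iff1 _ _ hi] at h6 ⊢
    obtain ⟨z, hz, h7, h8, h9⟩ := h6
    refine ⟨z, hz, h7, h8, ?_⟩
    by_cases hzi : z = i
    · rw [hzi]
    · by_contra hcon
      have hcon := not_le.1 hcon
      rcases hc z hz i hi hzi with hs | hs
      · obtain ⟨t, ht⟩ := hs.spec
        have a1 := (ht k').2.2.2.1 h9
        have a2 := (ht q).2.1.2 (by omega)
        linarith
      · obtain ⟨t, ht⟩ := hs.spec
        have a1 := (ht k').2.2.1.1 h9
        have a2 := (ht k).2.1.1 hcon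
        omega
  · intro i hi h1 h2 k k' h3 h4 h5 h6
    rw [iff1 _ _ hi] at h6 ⊢
    obtain ⟨z, hz, h7, h8, h9⟩ := h6
    refine ⟨z, hz, h7, h8, ?_⟩
    by_cases hzi : z = i
    · rw [hzi]
    · by_contra hcon
      have hcon := not_le.1 hcon
      rcases hc z hz i hi hzi with hs | hs
      · obtain ⟨t, ht⟩ := hs.spec
        have a1 := (ht k).2.2.2.1 h9
        have a2 := (ht k').1.1 hcon
        omega
      · obtain ⟨t, ht⟩ := hs.spec
        have a1 := (ht k).2.2.1.1 h9
        have a2 := (ht p).1.2 (by omega)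
        linarith

/-- switching inside one corridor. -/
lemma preSw_of {x Y : ℤ → ℝ} {p q : ℤ} (hpq : p < q) (h1 : ∀ k, k ≤ p → Y k < x k)
    (h2 : ∀ k, q ≤ k → x k < Y k) (ne : ∀ k, p < k → k < q → Y k ≠ x k)
    (dn : ∀ k k', p < k → k ≤ k' → k' < q → Y k' < x k' → Y k < x k) : PreSw x Y := by
  obtain ⟨k₀, hk₀, hmax⟩ := Int.exists_greatest_of_bdd (P := fun k => k < q ∧ Y k < x k)
    ⟨q, fun z hz => hz.1.le⟩ ⟨p, hpq, h1 p le_rfl⟩
  refine ⟨k₀, fun k hk => ?_, fun k hk => ?_⟩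
  · by_cases h3 : k ≤ p
    · exact h1 k h3
    · exact dn k k₀ (not_le.1 h3) hk.le hk₀.1 hk₀.2
  · by_cases h3 : q ≤ k
    · exact h2 k h3
    · have h4 : ¬ Y k < x k := fun h => absurd (hmax k ⟨not_le.1 h3, h⟩) (not_le.2 hk)
      have hp : p < k := by
        by_contra hcon
        exact h4 (h1 k (not_lt.1 hcon))
      exact lt_of_le_of_ne (not_lt.1 h4) (ne k hp (not_le.1 h3)).symm

/-- The path of a downward wire. -/
lemma path_down {x Y : ℤ → ℝ} {l a b r : ℤ} (hla : l < a) (hab : a < b) (hbr : b < r)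
    (c1 : Corr l a x Y) (c2 : Corr a b x Y) (c3 : Corr b r x Y)
    (hl : ∀ k, k ≤ l → Y k < x k) (hr : ∀ k, r ≤ k → x k < Y k)
    (hmono : x a ≤ Y a → x b < Y b) : PreSw x Y := by
  rcases lt_trichotomy (Y a) (x a) with ha | ha | ha
  · rcases lt_trichotomy (Y b) (x b) with hb | hb | hb
    · -- switch in `(b, r)`
      refine preSw_of hbr (fun k hk => ?_) hr c3.ne
        (c3.down hb.le (hr r le_rfl).le)
      rcases hk.lt_or_eq with h | h
      · rcases lt_trichotomy k a with h' | h' | h'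
        · by_cases h'' : k ≤ l
          · exact hl k h''
          · exact c1.above (hl l le_rfl).le ha.le k (not_le.1 h'') h'
        · rw [h']; exact ha
        · exact c2.above ha.le hb.le k h' h
      · rw [h]; exact hb
    · -- tie at `b`
      refine ⟨b, fun k hk => ?_, fun k hk => ?_⟩
      · rcases lt_trichotomy k a with h' | h' | h'
        · by_cases h'' : k ≤ l
          · exact hl k h''
          · exact c1.above (hl l le_rfl).le ha.le k (not_le.1 h'') h'
        · rw [h']; exact ha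
        · exact c2.above ha.le hb.le k h' hk
      · by_cases h'' : r ≤ k
        · exact hr k h''
        · exact c3.below hb.ge (hr r le_rfl).le k hk (not_le.1 h'')
    · -- switch in `(a, b)`
      refine preSw_of hab (fun k hk => ?_) (fun k hk => ?_) c2.ne (c2.down ha.le hb.le)
      · rcases hk.lt_or_eq with h' | h'
        · by_cases h'' : k ≤ l
          · exact hl k h''
          · exact c1.above (hl l le_rfl).le ha.le k (not_le.1 h'') h'
        · rw [h']; exact ha
      · rcases hk.lt_or_eq with h' | h'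
        · by_cases h'' : r ≤ k
          · exact hr k h''
          · exact c3.below hb.le (hr r le_rfl).le k h' (not_le.1 h'')
        · rw [← h']; exact hb
  · -- tie at `a`
    have hb : x b < Y b := hmono ha.ge
    refine ⟨a, fun k hk => ?_, fun k hk => ?_⟩
    · by_cases h'' : k ≤ l
      · exact hl k h''
      · exact c1.above (hl l le_rfl).le ha.le k (not_le.1 h'') hk
    · rcases lt_trichotomy k b with h | h | h
      · exact c2.below ha.ge hb.le k hk h
      · rw [h]; exact hb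
      · by_cases h'' : r ≤ k
        · exact hr k h''
        · exact c3.below hb.le (hr r le_rfl).le k h (not_le.1 h'')
  · -- switch in `(l, a)`
    have hb : x b < Y b := hmono ha.le
    refine preSw_of hla hl (fun k hk => ?_) c1.ne (c1.down (hl l le_rfl).le ha.le)
    rcases hk.lt_or_eq with h' | h'
    · rcases lt_trichotomy k b with h | h | h
      · exact c2.below ha.le hb.le k h' h
      · rw [h]; exact hb
      · by_cases h'' : r ≤ k
        · exact hr k h''
        · exact c3.below hb.le (hr r le_rfl).le k h (not_le.1 h'')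
    · rw [← h']; exact ha

/-- The path of an upward wire. -/
lemma path_up {x Y : ℤ → ℝ} {l a b r : ℤ} (hla : l < a) (hab : a < b) (hbr : b < r)
    (c1 : Corr l a x Y) (c2 : Corr a b x Y) (c3 : Corr b r x Y)
    (hl : ∀ k, k ≤ l → x k < Y k) (hr : ∀ k, r ≤ k → Y k < x k)
    (hmono : Y a ≤ x a → Y b < x b) : PreSw Y x := by
  obtain ⟨k₀, h1, h2⟩ := path_down hla hab hbr c1.neg c2.neg c3.neg
    (fun k hk => neg_lt_neg (hl k hk)) (fun k hk => neg_lt_neg (hr k hk))
    (fun h => neg_lt_neg (hmono (neg_le_neg_iff.1 h)))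
  exact ⟨k₀, fun k hk => neg_lt_neg_iff.1 (h1 k hk), fun k hk => neg_lt_neg_iff.1 (h2 k hk)⟩

/-- The heights are constant before `A` and after `B`. -/
def Bdd (S : Finset L) (h : L → ℤ → ℝ) : Prop :=
  ∃ A B : ℤ, A < B ∧ ∀ i ∈ S, (∀ k, k ≤ A → h i k = h i A) ∧ (∀ k, B ≤ k → h i k = h i B)

/-- **Levi's extension lemma, as a path.** -/
theorem levi_path (S : Finset L) (h : L → ℤ → ℝ)
    (hc : ∀ i ∈ S, ∀ j ∈ S, i ≠ j → Cross (h i) (h j)) (hb : Bdd S h)
    (a b : ℤ) (hab : a < b) (ya yb : ℝ)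
    (hno : ∀ i ∈ S, ¬ (h i a = ya ∧ h i b = yb)) :
    ∃ Y : ℤ → ℝ, Y a = ya ∧ Y b = yb ∧ (∀ i ∈ S, PreSw (h i) Y ∨ PreSw Y (h i)) ∧
      (∀ k, k ≠ a → k ≠ b → ∀ i ∈ S, Y k ≠ h i k) := by
  classical
  obtain ⟨A, B, hAB, hconst⟩ := hb
  -- extreme times
  obtain ⟨l, hl⟩ : ∃ l, l = min A (a - 1) := ⟨_, rfl⟩
  obtain ⟨r, hr⟩ : ∃ r, r = max B (b + 1) := ⟨_, rfl⟩
  have hla : l < a := by rw [hl]; exact (min_le_right _ _).trans_lt (by omega)
  have hlA : l ≤ A := by rw [hl]; exact min_le_left _ _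
  have hbr : b < r := by rw [hr]; exact lt_of_lt_of_le (by omega) (le_max_right _ _)
  have hBr : B ≤ r := by rw [hr]; exact le_max_left _ _
  have hlr : l < r := by omega
  have cl : ∀ i ∈ S, ∀ k, k ≤ l → h i k = h i l := by
    intro i hi k hk
    rw [(hconst i hi).1 k (hk.trans hlA), (hconst i hi).1 l hlA]
  have cr : ∀ i ∈ S, ∀ k, r ≤ k → h i k = h i r := by
    intro i hi k hk
    rw [(hconst i hi).2 k (hBr.trans hk), (hconst i hi).2 r hBr]
  -- no ties at `l`, at `r`, and the orders there are opposite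
  have nl : ∀ i ∈ S, ∀ j ∈ S, i ≠ j → h i l ≠ h j l := by
    intro i hi j hj hij e
    have e2 : h i (l-1) = h j (l-1) := by
      rw [cl i hi (l-1) (by omega), cl j hj (l-1) (by omega), e]
    exact absurd ((hc i hi j hj hij).eq_unique e e2) (by omega)
  have opp : ∀ i ∈ S, ∀ j ∈ S, i ≠ j → h j l < h i l → h i r < h j r := by
    intro i hi j hj hij e
    rcases hc i hi j hj hij with hs | hs
    · obtain ⟨t, ht⟩ := hs.spec
      by_contra hcon
      have e1 := (ht r).2.2.1.1 (not_lt.1 hcon)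
      -- `t ≥ r` : impossible since constant after `r`
      have e2 := (ht t).2.2.1.2 le_rfl
      have e3 := (ht t).2.2.2.2 le_rfl
      have e4 : h j (t+1) ≤ h i (t+1) := by
        rw [cr i hi (t+1) (by omega), cr j hj (t+1) (by omega), ← cr i hi t e1, ← cr j hj t e1]
        exact e2
      have := (ht (t+1)).2.2.1.1 e4
      omega
    · obtain ⟨t, ht⟩ := hs.spec
      have e1 := (ht l).2.1.1 e
      have e2 := (ht t).2.2.1.2 le_rfl
      have e4 : h i t < h j t ∨ h i t = h j t := by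
        rcases e2.lt_or_eq with h' | h'
        · exact Or.inl h'
        · exact Or.inr h'
      -- `t < l` : then also tied at `l`
      have e5 : h i t = h j t := le_antisymm e2 ((ht t).2.2.2.2 le_rfl)
      have e6 : h i l = h j l := by
        rw [← cl i hi t e1.le, ← cl j hj t e1.le, e5]
      exact absurd e6 (nl i hi j hj hij)
  -- the cut at the left end
  let D : L → Prop := fun i => ya ≤ h i a ∧ h i b ≤ yb
  let Ucl : L → Prop := fun i => ∃ d ∈ S, D d ∧ h d l ≤ h i l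
  have UclR : ∀ i ∈ S, h i a ≤ ya → yb ≤ h i b → ¬ Ucl i := by
    rintro i hi h1 h2 ⟨d, hd, ⟨h3, h4⟩, h5⟩
    have hdi : i ≠ d := by
      rintro rfl
      exact hno i hi ⟨le_antisymm h1 h3, le_antisymm h4 h2⟩
    have := ((hc d hd i hi hdi.symm).before_after hab (h1.trans h3) (h4.trans h2)).1 l hla
    linarith
  obtain ⟨yl, hyl⟩ : ∃ yl : ℝ, ∀ i ∈ S, (Ucl i → yl < h i l) ∧ (¬ Ucl i → h i l < yl) := by
    obtain ⟨m, hm1, hm2⟩ := Order.exists_between_finsets
      ((S.filter (fun i => ¬ Ucl i)).image (fun i => h i l))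
      ((S.filter (fun i => Ucl i)).image (fun i => h i l)) (by
        intro x hx y hy
        simp only [Finset.mem_image, Finset.mem_filter] at hx hy
        obtain ⟨j, ⟨hj, hj'⟩, rfl⟩ := hx
        obtain ⟨i, ⟨hi, z, hz, h1, h2⟩, rfl⟩ := hy
        by_contra hcon
        exact hj' ⟨z, hz, h1, h2.trans (not_lt.1 hcon)⟩)
    refine ⟨m, fun i hi => ⟨fun hh => hm2 _ ?_, fun hh => hm1 _ ?_⟩⟩
    · exact Finset.mem_image.2 ⟨i, Finset.mem_filter.2 ⟨hi, hh⟩, rfl⟩
    · exact Finset.mem_image.2 ⟨i, Finset.mem_filter.2 ⟨hi, hh⟩, rfl⟩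
  obtain ⟨yr, hyr⟩ : ∃ yr : ℝ, ∀ i ∈ S, (Ucl i → h i r < yr) ∧ (¬ Ucl i → yr < h i r) := by
    obtain ⟨m, hm1, hm2⟩ := Order.exists_between_finsets
      ((S.filter (fun i => Ucl i)).image (fun i => h i r))
      ((S.filter (fun i => ¬ Ucl i)).image (fun i => h i r)) (by
        intro x hx y hy
        simp only [Finset.mem_image, Finset.mem_filter] at hx hy
        obtain ⟨i, ⟨hi, z, hz, h1, h2⟩, rfl⟩ := hx
        obtain ⟨j, ⟨hj, hj'⟩, rfl⟩ := hy
        have hij : i ≠ j := by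
          rintro rfl
          exact hj' ⟨z, hz, h1, h2⟩
        refine opp i hi j hj hij ?_
        by_contra hcon
        exact hj' ⟨z, hz, h1, h2.trans (not_lt.1 hcon)⟩)
    refine ⟨m, fun i hi => ⟨fun hh => hm1 _ ?_, fun hh => hm2 _ ?_⟩⟩
    · exact Finset.mem_image.2 ⟨i, Finset.mem_filter.2 ⟨hi, hh⟩, rfl⟩
    · exact Finset.mem_image.2 ⟨i, Finset.mem_filter.2 ⟨hi, hh⟩, rfl⟩
  have nel : ∀ i ∈ S, h i l ≠ yl := by
    intro i hi
    by_cases hG : Ucl i
    · exact ((hyl i hi).1 hG).ne'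
    · exact ((hyl i hi).2 hG).ne
  have ner : ∀ i ∈ S, h i r ≠ yr := by
    intro i hi
    by_cases hG : Ucl i
    · exact ((hyr i hi).1 hG).ne
    · exact ((hyr i hi).2 hG).ne'
  obtain ⟨C1, p1⟩ := corridor S h hc l a yl ya (fun i hi hh => nel i hi hh.1)
  obtain ⟨C2, p2⟩ := corridor S h hc a b ya yb hno
  obtain ⟨C3, p3⟩ := corridor S h hc b r yb yr (fun i hi hh => ner i hi hh.2)
  let Y : ℤ → ℝ := fun k => if k ≤ l then yl else if k < a then C1 k else if k = a then ya else
    if k < b then C2 k else if k = b then yb else if k < r then C3 k else yr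
  have Yl : ∀ k, k ≤ l → Y k = yl := fun k hk => by simp only [Y, if_pos hk]
  have Y1 : ∀ k, l < k → k < a → Y k = C1 k := fun k h1 h2 => by
    simp only [Y, if_neg (not_le.2 h1), if_pos h2]
  have Ya : Y a = ya := by
    simp only [Y, if_neg (not_le.2 hla), lt_irrefl, if_false, if_true]
  have Y2 : ∀ k, a < k → k < b → Y k = C2 k := fun k h1 h2 => by
    simp only [Y, if_neg (show ¬ k ≤ l by omega), if_neg (show ¬ k < a by omega),
      if_neg (show ¬ k = a by omega), if_pos h2]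
  have Yb : Y b = yb := by
    simp only [Y, if_neg (show ¬ b ≤ l by omega), if_neg (show ¬ b < a by omega),
      if_neg (show ¬ b = a by omega), lt_irrefl, if_false, if_true]
  have Y3 : ∀ k, b < k → k < r → Y k = C3 k := fun k h1 h2 => by
    simp only [Y, if_neg (show ¬ k ≤ l by omega), if_neg (show ¬ k < a by omega),
      if_neg (show ¬ k = a by omega), if_neg (show ¬ k < b by omega),
      if_neg (show ¬ k = b by omega), if_pos h2]
  have Yr : ∀ k, r ≤ k → Y k = yr := fun k h1 => by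
    simp only [Y, if_neg (show ¬ k ≤ l by omega), if_neg (show ¬ k < a by omega),
      if_neg (show ¬ k = a by omega), if_neg (show ¬ k < b by omega),
      if_neg (show ¬ k = b by omega), if_neg (show ¬ k < r by omega)]
  have corr1 : ∀ i ∈ S, Corr l a (h i) Y := by
    intro i hi
    have el := Yl l le_rfl
    refine ⟨fun k h1 h2 => ?_, fun h1 h2 k h3 h4 => ?_, fun h1 h2 k h3 h4 => ?_,
      fun h1 h2 k k' h3 h4 h5 h6 => ?_, fun h1 h2 k k' h3 h4 h5 h6 => ?_⟩
    · rw [Y1 k h1 h2]; exact p1.1 k h1 h2 i hi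
    · rw [Y1 k h3 h4]; exact p1.2.1 i hi (by rwa [← el]) (by rwa [← Ya]) k h3 h4
    · rw [Y1 k h3 h4]; exact p1.2.2.1 i hi (by rwa [← el]) (by rwa [← Ya]) k h3 h4
    · rw [Y1 k h3 (by omega)]; rw [Y1 k' (by omega) h5] at h6
      exact p1.2.2.2.1 i hi (by rwa [← el]) (by rwa [← Ya]) k k' h3 h4 h5 h6
    · rw [Y1 k' (by omega) h5]; rw [Y1 k h3 (by omega)] at h6
      exact p1.2.2.2.2 i hi (by rwa [← el]) (by rwa [← Ya]) k k' h3 h4 h5 h6
  have corr2 : ∀ i ∈ S, Corr a b (h i) Y := by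
    intro i hi
    refine ⟨fun k h1 h2 => ?_, fun h1 h2 k h3 h4 => ?_, fun h1 h2 k h3 h4 => ?_,
      fun h1 h2 k k' h3 h4 h5 h6 => ?_, fun h1 h2 k k' h3 h4 h5 h6 => ?_⟩
    · rw [Y2 k h1 h2]; exact p2.1 k h1 h2 i hi
    · rw [Y2 k h3 h4]; exact p2.2.1 i hi (by rwa [← Ya]) (by rwa [← Yb]) k h3 h4
    · rw [Y2 k h3 h4]; exact p2.2.2.1 i hi (by rwa [← Ya]) (by rwa [← Yb]) k h3 h4
    · rw [Y2 k h3 (by omega)]; rw [Y2 k' (by omega) h5] at h6
      exact p2.2.2.2.1 i hi (by rwa [← Ya]) (by rwa [← Yb]) k k' h3 h4 h5 h6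
    · rw [Y2 k' (by omega) h5]; rw [Y2 k h3 (by omega)] at h6
      exact p2.2.2.2.2 i hi (by rwa [← Ya]) (by rwa [← Yb]) k k' h3 h4 h5 h6
  have corr3 : ∀ i ∈ S, Corr b r (h i) Y := by
    intro i hi
    have er := Yr r le_rfl
    refine ⟨fun k h1 h2 => ?_, fun h1 h2 k h3 h4 => ?_, fun h1 h2 k h3 h4 => ?_,
      fun h1 h2 k k' h3 h4 h5 h6 => ?_, fun h1 h2 k k' h3 h4 h5 h6 => ?_⟩
    · rw [Y3 k h1 h2]; exact p3.1 k h1 h2 i hi
    · rw [Y3 k h3 h4]; exact p3.2.1 i hi (by rwa [← Yb]) (by rwa [← er]) k h3 h4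
    · rw [Y3 k h3 h4]; exact p3.2.2.1 i hi (by rwa [← Yb]) (by rwa [← er]) k h3 h4
    · rw [Y3 k h3 (by omega)]; rw [Y3 k' (by omega) h5] at h6
      exact p3.2.2.2.1 i hi (by rwa [← Yb]) (by rwa [← er]) k k' h3 h4 h5 h6
    · rw [Y3 k' (by omega) h5]; rw [Y3 k h3 (by omega)] at h6
      exact p3.2.2.2.2 i hi (by rwa [← Yb]) (by rwa [← er]) k k' h3 h4 h5 h6
  refine ⟨Y, Ya, Yb, fun i hi => ?_, fun k hka hkb i hi => ?_⟩
  · by_cases hG : Ucl i
    · left
      refine path_down hla hab hbr (corr1 i hi) (corr2 i hi) (corr3 i hi) (fun k hk => ?_)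
        (fun k hk => ?_) (fun h1 => ?_)
      · rw [Yl k hk, cl i hi k hk]; exact (hyl i hi).1 hG
      · rw [Yr k hk, cr i hi k hk]; exact (hyr i hi).1 hG
      · rw [Ya] at h1
        rw [Yb]
        by_contra hcon
        exact UclR i hi h1 (not_lt.1 hcon) hG
    · right
      refine path_up hla hab hbr (corr1 i hi) (corr2 i hi) (corr3 i hi) (fun k hk => ?_)
        (fun k hk => ?_) (fun h1 => ?_)
      · rw [Yl k hk, cl i hi k hk]; exact (hyl i hi).2 hG
      · rw [Yr k hk, cr i hi k hk]; exact (hyr i hi).2 hG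
      · rw [Ya] at h1
        rw [Yb]
        by_contra hcon
        exact hG ⟨i, hi, ⟨h1, not_lt.1 hcon⟩, le_rfl⟩
  · by_cases h1 : k ≤ l
    · rw [Yl k h1, cl i hi k h1]; exact (nel i hi).symm
    · by_cases h2 : k < a
      · exact (corr1 i hi).ne k (by omega) h2
      · by_cases h3 : k < b
        · exact (corr2 i hi).ne k (by omega) h3
        · by_cases h4 : k < r
          · exact (corr3 i hi).ne k (by omega) h4
          · rw [Yr k (by omega), cr i hi k (by omega)]; exact (ner i hi).symm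

end PL3
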