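import Pool.Agent.Lib.MP_e3e9c0_co.Small

/-!
# Every connected configuration with at least nine points has a drawing
-/

namespace PL3

open Search

variable {P L : Type*} [DecidableEq L] [Fintype L] [DecidableEq P] [Fintype P]

omit [DecidableEq L] [DecidableEq P] [Fintype P] in
theorem drawnZ_of_drawn {inc : P → L → Prop} (hc : Config inc)
    (h : ∃ H : L → ℝ → ℝ, Drawn inc Finset.univ H) : DrawnZ inc := by
  obtain ⟨H, hH⟩ := h
  obtain ⟨ψ, h1, h2, h3⟩ := sampling Finset.univ H hH.cross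
  refine ⟨fun i k => H i (ψ k), ⟨h1, fun p => ?_⟩, h2⟩
  obtain ⟨t, y, hl⟩ := hH.loc p
  obtain ⟨i, j, k, hij, hik, hjk, hli⟩ := hc.lines p
  have e1 := (hl i (Finset.mem_univ _)).1 ((hli i).2 (by simp))
  have e2 := (hl j (Finset.mem_univ _)).1 ((hli j).2 (by simp))
  obtain ⟨n, hn⟩ := h3 i (Finset.mem_univ _) j (Finset.mem_univ _) hij t (e1.trans e2.symm)
  refine ⟨n, y, fun l hlU => ?_⟩
  show inc p l ↔ H l (ψ n) = y
  rw [hn]
  exact hl l hlU

/-- the points of a line through three known points -/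
lemma Config.three {inc : P → L → Prop} (hc : Config inc) {l : L} {p q r : P} (hp : inc p l)
    (hq : inc q l) (hr : inc r l) (hpq : p ≠ q) (hpr : p ≠ r) (hqr : q ≠ r) (x : P) :
    inc x l ↔ x = p ∨ x = q ∨ x = r := by
  obtain ⟨w, h1, h2, h3, h4⟩ := hc.pts2 hp hq hpq
  have : r = w := by
    rcases h4 r hr with h | h | h
    · exact absurd h.symm hpr
    · exact absurd h.symm hqr
    · exact h
  subst this
  constructor
  · exact h4 x
  · rintro (rfl | rfl | rfl) <;> assumption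

omit [DecidableEq L] [Fintype L] [DecidableEq P] [Fintype P] in
lemma getD_inj {α : Type*} (l : List α) (h : l.Nodup) (d : α) :
    ∀ i < l.length, ∀ j < l.length, l.getD i d = l.getD j d → i = j := by
  intro i hi j hj hij
  rw [List.getD_eq_getElem _ _ hi, List.getD_eq_getElem _ _ hj] at hij
  exact (List.Nodup.getElem_inj_iff h).1 hij

theorem main_drawn (inc : P → L → Prop) (hc : Config inc) (conn : Conn inc)
    (hcard : 9 ≤ Fintype.card P) : DrawnZ inc := by
  classical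
  by_cases hT0 : ∃ c a b, a ≠ b ∧ inc c a ∧ inc c b ∧ T0 inc c a b
  · obtain ⟨c, a, b, hab, ca, cb, h0⟩ := hT0
    obtain ⟨d, hda, hdb, hd, hcl⟩ := hc.lns2 ca cb hab
    refine drawnZ_of_drawn hc (drawn_of_T0 inc hc conn c a b d hab hda.symm hdb.symm ?_ h0)
    intro l
    refine ⟨hcl l, ?_⟩
    rintro (rfl | rfl | rfl) <;> assumption
  by_cases hT1 : ∃ c u q a b d M X Y, T1 inc c u q a b d M X Y
  · obtain ⟨c, u, q, a, b, d, M, X, Y, t⟩ := hT1
    exact drawnZ_of_drawn hc (drawn_of_T1 inc hc conn c u q a b d M X Y t)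
  -- the data of a pair with exactly one collinear pair
  have key : ∀ c a b u q, a ≠ b → inc c a → inc c b → u ≠ c → q ≠ c → inc u a → inc q b →
      Uniq inc c a b u q → ∃ M X Y x, M ≠ a ∧ M ≠ b ∧ X ≠ a ∧ X ≠ M ∧ Y ≠ b ∧ Y ≠ M ∧
        inc u M ∧ inc q M ∧ inc u X ∧ inc q Y ∧ inc x X ∧ inc x Y ∧ ¬ inc q X ∧ ¬ inc u Y := by
    intro c a b u q hab ca cb huc hqc hua hqb hun
    have exab : ∀ p, p ≠ c → inc p a → inc p b → False := fun p h1 h2 h3 =>
      h1 (hc.lin a b hab p c h2 h3 ca cb)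
    obtain ⟨p, p', M, h1, h2, h3, h4, h5, h6⟩ : ∃ p p' m, p ≠ c ∧ p' ≠ c ∧ inc p a ∧ inc p' b ∧
        inc p m ∧ inc p' m := by
      by_contra hcon
      apply hT0
      refine ⟨c, a, b, hab, ca, cb, fun p p' m h1 h2 h3 h4 h5 h6 => ?_⟩
      exact hcon ⟨p, p', m, h1, h2, h3, h4, h5, h6⟩
    obtain ⟨rfl, rfl⟩ := hun p p' M h1 h2 h3 h4 h5 h6
    have hMa : M ≠ a := fun e => exab p' h2 (e ▸ h6) h4
    have hMb : M ≠ b := fun e => exab p h1 h3 (e ▸ h5)
    have hpp : p ≠ p' := fun e => exab p h1 h3 (e ▸ h4)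
    obtain ⟨X, hXa, hXM, hX, hul⟩ := hc.lns2 h3 h5 hMa.symm
    obtain ⟨Y, hYb, hYM, hY, hql⟩ := hc.lns2 h4 h6 hMb.symm
    obtain ⟨d, hda, hdb, hd, hcl⟩ := hc.lns2 ca cb hab
    by_contra hcon
    push Not at hcon
    have nqX : ¬ inc p' X := fun h => hpp (hc.lin X M hXM p p' hX h5 h h6)
    have nuY : ¬ inc p Y := fun h => hpp (hc.lin Y M hYM p p' h h5 hY h6)
    apply hT1
    refine ⟨c, p, p', a, b, d, M, X, Y, hab, hda.symm, hdb.symm, ?_, ?_, ?_, h1, h2, hMa.symm,
      hXa.symm, hXM.symm, hMb.symm, hYb.symm, hYM.symm, hun, ?_⟩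
    · intro l
      refine ⟨hcl l, ?_⟩
      rintro (rfl | rfl | rfl) <;> assumption
    · intro l
      refine ⟨hul l, ?_⟩
      rintro (rfl | rfl | rfl) <;> assumption
    · intro l
      refine ⟨hql l, ?_⟩
      rintro (rfl | rfl | rfl) <;> assumption
    · intro x hx1 hx2
      exact nuY (hcon M X Y x hMa hMb hXa hXM hYb hYM h5 h6 hX hY hx1 hx2 nqX)
  have H0 : ∀ c a b, a ≠ b → inc c a → inc c b → ¬ T0 inc c a b :=
    fun c a b h1 h2 h3 h4 => hT0 ⟨c, a, b, h1, h2, h3, h4⟩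
  have H1 : ∀ c a b u q, a ≠ b → inc c a → inc c b → u ≠ c → q ≠ c → inc u a → inc q b →
      Uniq inc c a b u q → ∃ X Y x, inc u X ∧ X ≠ a ∧ ¬ inc q X ∧ inc q Y ∧ Y ≠ b ∧ ¬ inc u Y ∧
        inc x X ∧ inc x Y := by
    intro c a b u q h1 h2 h3 h4 h5 h6 h7 h8
    obtain ⟨M, X, Y, x, k1, k2, k3, k4, k5, k6, k7, k8, k9, k10, k11, k12, k13, k14⟩ :=
      key c a b u q h1 h2 h3 h4 h5 h6 h7 h8
    exact ⟨X, Y, x, k9, k3, k13, k10, k5, k14, k11, k12⟩
  by_cases hU : ∃ c a b u q, a ≠ b ∧ inc c a ∧ inc c b ∧ u ≠ c ∧ q ≠ c ∧ inc u a ∧ inc q b ∧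
      Uniq inc c a b u q
  · -- Case A
    obtain ⟨c, a, b, u, q, hab, ca, cb, huc, hqc, hua, hqb, hun⟩ := hU
    obtain ⟨M, X, Y, z, hMa, hMb, hXa, hXM, hYb, hYM, huM, hqM, huX, hqY, hzX, hzY, hqX, huY⟩ :=
      key c a b u q hab ca cb huc hqc hua hqb hun
    have exab : ∀ p, p ≠ c → inc p a → inc p b → False := fun p h1 h2 h3 =>
      h1 (hc.lin a b hab p c h2 h3 ca cb)
    have hzu : z ≠ u := fun e => huY (e ▸ hzY)
    have hzq : z ≠ q := fun e => hqX (e ▸ hzX)
    have huq : u ≠ q := fun e => exab u huc hua (e ▸ hqb)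
    obtain ⟨v, hvc, hvu, hva, _⟩ := hc.pts2 ca hua huc.symm
    obtain ⟨r, hrc, hrq, hrb, _⟩ := hc.pts2 cb hqb hqc.symm
    obtain ⟨w, hwu, hwq, hwM, _⟩ := hc.pts2 huM hqM huq
    obtain ⟨g, hgu, hgz, hgX, _⟩ := hc.pts2 huX hzX hzu.symm
    obtain ⟨h, hhq, hhz, hhY, _⟩ := hc.pts2 hqY hzY hzq.symm
    -- two lines share at most one point
    have ex : ∀ {i j : L} {p : P}, i ≠ j → inc p i → inc p j → ∀ x, x ≠ p → inc x i → inc x j →
        False := fun h1 h2 h3 x h4 h5 h6 => h4 (hc.lin _ _ h1 x _ h5 h6 h2 h3)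
    have hXb : X ≠ b := fun e => hqX (e ▸ hqb)
    have hYa : Y ≠ a := fun e => huY (e ▸ hua)
    have hXY : X ≠ Y := fun e => hqX (e ▸ hqY)
    -- points not on lines
    have nvb : ¬ inc v b := fun h => exab v hvc hva h
    have nra : ¬ inc r a := fun h => exab r hrc h hrb
    have nub : ¬ inc u b := fun h => exab u huc hua h
    have nqa : ¬ inc q a := fun h => exab q hqc h hqb
    -- non collinear pairs
    have nvr : ∀ l, inc v l → inc r l → False := fun l h1 h2 =>
      hvu (hun v r l hvc hrc hva hrb h1 h2).1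
    have nvq : ∀ l, inc v l → inc q l → False := fun l h1 h2 =>
      hvu (hun v q l hvc hqc hva hqb h1 h2).1
    have nur : ∀ l, inc u l → inc r l → False := fun l h1 h2 =>
      hrq (hun u r l huc hrc hua hrb h1 h2).2
    have hcX : ¬ inc c X := fun h => ex hXa huX hua c huc.symm h ca
    have hcY : ¬ inc c Y := fun h => ex hYb hqY hqb c hqc.symm h cb
    have hcM : ¬ inc c M := fun h => ex hMa huM hua c huc.symm h ca
    have hzM : ¬ inc z M := fun h => ex hXM huX huM z hzu hzX h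
    have hza : ¬ inc z a := fun h => ex hXa huX hua z hzu hzX h
    have hzb : ¬ inc z b := fun h => ex hYb hqY hqb z hzq hzY h
    -- distinctness of the nine labels
    have nd : ([c, u, q, z, v, r, w, g, h] : List P).Nodup := by
      have e1 : c ≠ z := fun e => hcX (e ▸ hzX)
      have e2 : c ≠ w := fun e => hcM (e ▸ hwM)
      have e3 : c ≠ g := fun e => hcX (e ▸ hgX)
      have e4 : c ≠ h := fun e => hcY (e ▸ hhY)
      have e5 : u ≠ r := fun e => nur a hua (e ▸ hua)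
      have e6 : u ≠ h := fun e => huY (e ▸ hhY)
      have e7 : q ≠ v := fun e => nvq b (e ▸ hqb) hqb
      have e8 : q ≠ g := fun e => hqX (e ▸ hgX)
      have e9 : z ≠ v := fun e => nvq Y (e ▸ hzY) hqY
      have e10 : z ≠ r := fun e => nur X huX (e ▸ hzX)
      have e11 : z ≠ w := fun e => hzM (e ▸ hwM)
      have e12 : v ≠ r := fun e => nvb (e ▸ hrb)
      have e13 : v ≠ w := fun e => nvq M (e ▸ hwM) hqM
      have e14 : v ≠ g := fun e => ex hXa huX hua g hgu hgX (e ▸ hva)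
      have e15 : v ≠ h := fun e => nvq Y (e ▸ hhY) hqY
      have e16 : r ≠ w := fun e => nur M huM (e ▸ hwM)
      have e17 : r ≠ g := fun e => nur X huX (e ▸ hgX)
      have e18 : r ≠ h := fun e => ex hYb hqY hqb h hhq hhY (e ▸ hrb)
      have e19 : w ≠ g := fun e => ex hXM huX huM g hgu hgX (e ▸ hwM)
      have e20 : w ≠ h := fun e => ex hYM hqY hqM h hhq hhY (e ▸ hwM)
      have e21 : g ≠ h := fun e => ex hXY hzX hzY g hgz hgX (e ▸ hhY)
      simp only [List.nodup_cons, List.mem_cons, List.not_mem_nil, or_false, not_or,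
        List.nodup_nil, not_false_eq_true, and_true]
      refine ⟨⟨huc.symm, hqc.symm, e1, hvc.symm, hrc.symm, e2, e3, e4⟩,
        ⟨huq, hzu.symm, hvu.symm, e5, hwu.symm, hgu.symm, e6⟩,
        ⟨hzq.symm, e7, hrq.symm, hwq.symm, e8, hhq.symm⟩,
        ⟨e9, e10, e11, hgz.symm, hhz.symm⟩, ⟨e12, e13, e14, e15⟩, ⟨e16, e17, e18⟩, ⟨e19, e20⟩, e21⟩
    let φ : ℕ → P := fun k => [c, u, q, z, v, r, w, g, h].getD k c
    have inj : ∀ i < 9, ∀ j < 9, φ i = φ j → i = j := getD_inj _ nd c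
    have ne : ∀ {i j : ℕ}, i < 9 → j < 9 → i ≠ j → φ i ≠ φ j := fun hi hj hij e =>
      hij (inj _ hi _ hj e)
    have rep : ∀ {l : L} (i j k : ℕ), i < 9 → j < 9 → k < 9 → i ≠ j → i ≠ k → j ≠ k →
        inc (φ i) l → inc (φ j) l → inc (φ k) l →
        Rep inc φ 9 (Nat.lor (Nat.lor (Nat.shiftLeft 1 i) (Nat.shiftLeft 1 j)) (Nat.shiftLeft 1 k)) l := by
      intro l i j k hi hj hk hij hik hjk h1 h2 h3
      exact rep3 hi hj hk (hc.three h1 h2 h3 (ne hi hj hij) (ne hi hk hik) (ne hj hk hjk))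
    have good : Good inc false init0 := by
      refine ⟨[Y, X, M, b, a], φ, ⟨inj, ?_, ?_, fun _ => by show 6 ≤ 9; omega, fun _ => nvr⟩,
        by show 0 < 9; omega, ?_⟩
      · refine List.Forall₂.cons ?_ (List.Forall₂.cons ?_ (List.Forall₂.cons ?_
          (List.Forall₂.cons ?_ (List.Forall₂.cons ?_ List.Forall₂.nil))))
        · exact rep 2 3 8 (by omega) (by omega) (by omega) (by omega) (by omega) (by omega)
            hqY hzY hhY
        · exact rep 1 3 7 (by omega) (by omega) (by omega) (by omega) (by omega) (by omega)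
            huX hzX hgX
        · exact rep 1 2 6 (by omega) (by omega) (by omega) (by omega) (by omega) (by omega)
            huM hqM hwM
        · exact rep 0 2 5 (by omega) (by omega) (by omega) (by omega) (by omega) (by omega)
            cb hqb hrb
        · exact rep 0 1 4 (by omega) (by omega) (by omega) (by omega) (by omega) (by omega)
            ca hua hva
      · simp only [List.nodup_cons, List.mem_cons, List.not_mem_nil, or_false, not_or,
          List.nodup_nil, not_false_eq_true, and_true]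
        exact ⟨⟨hXY.symm, hYM, hYb, hYa⟩, ⟨hXM, hXb, hXa⟩, ⟨hMb, hMa⟩, hab.symm⟩
      · intro l _ _ k _ hk
        exact absurd hk (Nat.not_lt_zero _)
    exact run_sound hc conn hcard models ⟨H0, H1, fun h => absurd h (by simp)⟩ _ _ _ run0 init0
      (by simp) good
  · -- Case B
    have Hm : ∀ c a b u q, a ≠ b → inc c a → inc c b → ¬ Uniq inc c a b u q := by
      intro c a b u q hab ca cb hun
      have exab : ∀ p, p ≠ c → inc p a → inc p b → False := fun p h1 h2 h3 =>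
        h1 (hc.lin a b hab p c h2 h3 ca cb)
      obtain ⟨p, p', M, h1, h2, h3, h4, h5, h6⟩ : ∃ p p' m, p ≠ c ∧ p' ≠ c ∧ inc p a ∧ inc p' b ∧
          inc p m ∧ inc p' m := by
        by_contra hcon
        apply hT0
        refine ⟨c, a, b, hab, ca, cb, fun p p' m h1 h2 h3 h4 h5 h6 => ?_⟩
        exact hcon ⟨p, p', m, h1, h2, h3, h4, h5, h6⟩
      obtain ⟨rfl, rfl⟩ := hun p p' M h1 h2 h3 h4 h5 h6
      exact hU ⟨c, a, b, p, p', hab, ca, cb, h1, h2, h3, h4, hun⟩
    have : Nonempty P := Fintype.card_pos_iff.1 (by omega)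
    obtain ⟨c⟩ := this
    obtain ⟨i, j, k, hij, hik, hjk, hl⟩ := hc.lines c
    have ci := (hl i).2 (by simp)
    have cj := (hl j).2 (by simp)
    have ck := (hl k).2 (by simp)
    have two : ∀ {l : L}, inc c l → ∃ x y, x ≠ c ∧ y ≠ c ∧ x ≠ y ∧ inc x l ∧ inc y l := by
      intro l hcl
      obtain ⟨x, y, z, hxy, hxz, hyz, hpt⟩ := hc.points l
      have ix := (hpt x).2 (by simp)
      have iy := (hpt y).2 (by simp)
      have iz := (hpt z).2 (by simp)
      rcases (hpt c).1 hcl with h | h | h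
      · exact ⟨y, z, fun e => hxy (h.symm.trans e.symm), fun e => hxz (h.symm.trans e.symm), hyz,
          iy, iz⟩
      · exact ⟨x, z, fun e => hxy (e.trans h), fun e => hyz (h.symm.trans e.symm), hxz, ix, iz⟩
      · exact ⟨x, y, fun e => hxz (e.trans h), fun e => hyz (e.trans h), hxy, ix, iy⟩
    obtain ⟨x1, x2, x1c, x2c, x12, ix1, ix2⟩ := two ci
    obtain ⟨y1, y2, y1c, y2c, y12, iy1, iy2⟩ := two cj
    obtain ⟨z1, z2, z1c, z2c, z12, iz1, iz2⟩ := two ck
    have ex : ∀ {i j : L}, i ≠ j → inc c i → inc c j → ∀ x y, x ≠ c → inc x i → inc y j →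
        x ≠ y := fun h1 h2 h3 x y h4 h5 h6 e => h4 (hc.lin _ _ h1 x c h5 (e ▸ h6) h2 h3)
    have nd : ([c, x1, x2, y1, y2, z1, z2] : List P).Nodup := by
      simp only [List.nodup_cons, List.mem_cons, List.not_mem_nil, or_false, not_or,
        List.nodup_nil, not_false_eq_true, and_true]
      exact ⟨⟨x1c.symm, x2c.symm, y1c.symm, y2c.symm, z1c.symm, z2c.symm⟩,
        ⟨x12, ex hij ci cj _ _ x1c ix1 iy1, ex hij ci cj _ _ x1c ix1 iy2,
          ex hik ci ck _ _ x1c ix1 iz1, ex hik ci ck _ _ x1c ix1 iz2⟩,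
        ⟨ex hij ci cj _ _ x2c ix2 iy1, ex hij ci cj _ _ x2c ix2 iy2,
          ex hik ci ck _ _ x2c ix2 iz1, ex hik ci ck _ _ x2c ix2 iz2⟩,
        ⟨y12, ex hjk cj ck _ _ y1c iy1 iz1, ex hjk cj ck _ _ y1c iy1 iz2⟩,
        ⟨ex hjk cj ck _ _ y2c iy2 iz1, ex hjk cj ck _ _ y2c iy2 iz2⟩, z12⟩
    let φ : ℕ → P := fun n => [c, x1, x2, y1, y2, z1, z2].getD n c
    have inj : ∀ i < 7, ∀ j < 7, φ i = φ j → i = j := getD_inj _ nd c
    have ne : ∀ {i j : ℕ}, i < 7 → j < 7 → i ≠ j → φ i ≠ φ j := fun hi hj hij e =>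
      hij (inj _ hi _ hj e)
    have rep : ∀ {l : L} (i j k : ℕ), i < 7 → j < 7 → k < 7 → i ≠ j → i ≠ k → j ≠ k →
        inc (φ i) l → inc (φ j) l → inc (φ k) l →
        Rep inc φ 7 (Nat.lor (Nat.lor (Nat.shiftLeft 1 i) (Nat.shiftLeft 1 j)) (Nat.shiftLeft 1 k)) l := by
      intro l i j k hi hj hk hij hik hjk h1 h2 h3
      exact rep3 hi hj hk (hc.three h1 h2 h3 (ne hi hj hij) (ne hi hk hik) (ne hj hk hjk))
    have good : Good inc true init1 := by
      refine ⟨[k, j, i], φ, ⟨inj, ?_, ?_, fun h => absurd h (by simp), fun h => absurd h (by simp)⟩,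
        by show 0 < 7; omega, ?_⟩
      · refine List.Forall₂.cons ?_ (List.Forall₂.cons ?_ (List.Forall₂.cons ?_ List.Forall₂.nil))
        · exact rep 0 5 6 (by omega) (by omega) (by omega) (by omega) (by omega) (by omega)
            ck iz1 iz2
        · exact rep 0 3 4 (by omega) (by omega) (by omega) (by omega) (by omega) (by omega)
            cj iy1 iy2
        · exact rep 0 1 2 (by omega) (by omega) (by omega) (by omega) (by omega) (by omega)
            ci ix1 ix2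
      · simp only [List.nodup_cons, List.mem_cons, List.not_mem_nil, or_false, not_or,
          List.nodup_nil, not_false_eq_true, and_true]
        exact ⟨⟨hjk.symm, hik.symm⟩, hij.symm⟩
      · intro l _ _ n _ hn
        exact absurd hn (Nat.not_lt_zero _)
    exact run_sound hc conn hcard models ⟨H0, H1, fun _ => Hm⟩ _ _ _ run1 init1
      (by simp) good

end PL3
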