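import Pool.Agent.Lib.MP_e3e9c0_co.Levi

/-!
# Realising an incidence structure line by line

If every nonempty set of lines contains a line with at most two points that lie on two further
lines of the set, then the incidence structure is realised by a wiring diagram.
-/

namespace PL3

/-- A family of pairwise switching wires, all ties at one time being at the same height. -/
structure Gen {L T : Type*} [LinearOrder T] (S : Finset L) (h : L → T → ℝ) : Prop where
  cross : ∀ i ∈ S, ∀ j ∈ S, i ≠ j → Cross (h i) (h j)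
  simple : ∀ t, ∃ y, ∀ i ∈ S, ∀ j ∈ S, i ≠ j → h i t = h j t → h i t = y

/-- three wires through a common point. -/
def Tie {L T : Type*} (h : L → T → ℝ) (i j k : L) : Prop := ∃ t, h i t = h j t ∧ h j t = h k t

lemma Tie.swap12 {L T : Type*} {h : L → T → ℝ} {i j k : L} : Tie h i j k ↔ Tie h j i k := by
  constructor
  · rintro ⟨t, h1, h2⟩; exact ⟨t, h1.symm, h1.trans h2⟩
  · rintro ⟨t, h1, h2⟩; exact ⟨t, h1.symm, h1.trans h2⟩

lemma Tie.swap23 {L T : Type*} {h : L → T → ℝ} {i j k : L} : Tie h i j k ↔ Tie h i k j := by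
  constructor
  · rintro ⟨t, h1, h2⟩; exact ⟨t, h1.trans h2, h2.symm⟩
  · rintro ⟨t, h1, h2⟩; exact ⟨t, h1.trans h2, h2.symm⟩

/-- A sampling map hitting a finite set of real times. -/
lemma exists_sampling (E : Finset ℝ) : ∃ ψ : ℤ → ℝ,
    (∀ e ∈ E, ∃ k₀, ψ k₀ = e ∧ (∀ k, k < k₀ → ψ k < e) ∧ (∀ k, k₀ < k → e < ψ k)) ∧
    ∃ A B : ℤ, A < B ∧ (∀ k, k ≤ A → ψ k = ψ A) ∧ (∀ k, B ≤ k → ψ k = ψ B) := by
  classical
  obtain ⟨lo, hlo⟩ : ∃ lo : ℝ, ∀ e ∈ E, lo < e := by
    obtain ⟨m, _, hm⟩ := Order.exists_between_finsets (∅ : Finset ℝ) E (by simp)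
    exact ⟨m, hm⟩
  obtain ⟨hi, hhi⟩ : ∃ hi : ℝ, ∀ e ∈ E, e < hi := by
    obtain ⟨m, hm, _⟩ := Order.exists_between_finsets E (∅ : Finset ℝ) (by simp)
    exact ⟨m, hm⟩
  let f : Fin E.card ↪o ℝ := E.orderEmbOfFin rfl
  have fmem : ∀ i, f i ∈ E := fun i => E.orderEmbOfFin_mem rfl i
  let ψ : ℤ → ℝ := fun k => if hk : 0 ≤ k ∧ k < E.card then f ⟨k.toNat, by omega⟩ else
    if k < 0 then lo else hi
  refine ⟨ψ, fun e he => ?_, -1, E.card, by omega, fun k hk => ?_, fun k hk => ?_⟩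
  · obtain ⟨i, rfl⟩ : ∃ i, f i = e := by
      have : e ∈ Set.range f := by rw [Finset.range_orderEmbOfFin]; exact he
      exact this
    refine ⟨(i : ℤ), ?_, fun k hk => ?_, fun k hk => ?_⟩
    · have h1 : 0 ≤ (i : ℤ) ∧ (i : ℤ) < E.card := ⟨by omega, by exact_mod_cast i.2⟩
      simp only [ψ, dif_pos h1]
      congr 1
    · by_cases h0 : 0 ≤ k
      · have h1 : 0 ≤ k ∧ k < E.card := ⟨h0, by have := i.2; omega⟩
        simp only [ψ, dif_pos h1]
        apply f.strictMono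
        rw [Fin.lt_def]
        show k.toNat < (i : ℕ)
        omega
      · have h1 : ¬ (0 ≤ k ∧ k < E.card) := fun h => h0 h.1
        simp only [ψ, dif_neg h1, if_pos (not_le.1 h0)]
        exact hlo _ (fmem i)
    · by_cases h0 : k < E.card
      · have h1 : 0 ≤ k ∧ k < E.card := ⟨by omega, h0⟩
        simp only [ψ, dif_pos h1]
        apply f.strictMono
        rw [Fin.lt_def]
        show (i : ℕ) < k.toNat
        omega
      · have h1 : ¬ (0 ≤ k ∧ k < E.card) := fun h => h0 h.2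
        simp only [ψ, dif_neg h1, if_neg (show ¬ k < 0 by omega)]
        exact hhi _ (fmem i)
  · have h1 : ¬ (0 ≤ k ∧ k < E.card) := by omega
    have h2 : ¬ ((0:ℤ) ≤ -1 ∧ (-1 : ℤ) < E.card) := by omega
    simp only [ψ, dif_neg h1, dif_neg h2, if_pos (show k < 0 by omega),
      if_pos (show (-1 : ℤ) < 0 by omega)]
  · have h1 : ¬ (0 ≤ k ∧ k < E.card) := by omega
    have h2 : ¬ ((0:ℤ) ≤ E.card ∧ (E.card : ℤ) < E.card) := by omega
    simp only [ψ, dif_neg h1, dif_neg h2, if_neg (show ¬ k < 0 by omega),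
      if_neg (show ¬ (E.card : ℤ) < 0 by omega)]

/-- **Sampling.**  A family in real time can be replaced by one in integer time. -/
theorem sampling {L : Type*} (S : Finset L) (h : L → ℝ → ℝ)
    (hc : ∀ i ∈ S, ∀ j ∈ S, i ≠ j → Cross (h i) (h j)) :
    ∃ ψ : ℤ → ℝ, (∀ i ∈ S, ∀ j ∈ S, i ≠ j → Cross (fun k => h i (ψ k)) (fun k => h j (ψ k))) ∧
      Bdd S (fun i k => h i (ψ k)) ∧
      (∀ i ∈ S, ∀ j ∈ S, i ≠ j → ∀ t, h i t = h j t → ∃ k, ψ k = t) := by
  classical
  -- the tie times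
  have ex : ∀ i j : L, ∃ t : ℝ, i ∈ S → j ∈ S → i ≠ j → h i t = h j t := by
    intro i j
    by_cases hh : i ∈ S ∧ j ∈ S ∧ i ≠ j
    · obtain ⟨t, ht⟩ := (hc i hh.1 j hh.2.1 hh.2.2).exists_eq
      exact ⟨t, fun _ _ _ => ht⟩
    · exact ⟨0, fun h1 h2 h3 => absurd ⟨h1, h2, h3⟩ hh⟩
  choose τ hτ using ex
  obtain ⟨ψ, hψ, A, B, hAB, hA, hB⟩ := exists_sampling ((S ×ˢ S).image (fun p => τ p.1 p.2))
  have mem : ∀ i ∈ S, ∀ j ∈ S, τ i j ∈ (S ×ˢ S).image (fun p => τ p.1 p.2) := fun i hi j hj =>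
    Finset.mem_image.2 ⟨(i, j), Finset.mem_product.2 ⟨hi, hj⟩, rfl⟩
  have key : ∀ i ∈ S, ∀ j ∈ S, i ≠ j → Sw (h i) (h j) →
      Sw (fun k => h i (ψ k)) (fun k => h j (ψ k)) := by
    intro i hi j hj hij hs
    obtain ⟨k₀, h1, h2, h3⟩ := hψ _ (mem i hi j hj)
    have ht := hτ i j hi hj hij
    obtain ⟨t₀, e0, e1, e2⟩ := hs
    have : t₀ = τ i j := (hc i hi j hj hij).eq_unique e0 ht
    subst this
    refine ⟨k₀, ?_, fun k hk => ?_, fun k hk => ?_⟩
    · show h i (ψ k₀) = h j (ψ k₀)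
      rw [h1]; exact ht
    · exact e1 _ (h2 k hk)
    · exact e2 _ (h3 k hk)
  refine ⟨ψ, fun i hi j hj hij => ?_, ⟨A, B, hAB, fun i _ => ⟨fun k hk => ?_, fun k hk => ?_⟩⟩,
    fun i hi j hj hij t ht => ?_⟩
  · rcases hc i hi j hj hij with hs | hs
    · exact Or.inl (key i hi j hj hij hs)
    · exact Or.inr (key j hj i hi hij.symm hs)
  · show h i (ψ k) = h i (ψ A)
    rw [hA k hk]
  · show h i (ψ k) = h i (ψ B)
    rw [hB k hk]
  · obtain ⟨k₀, h1, _⟩ := hψ _ (mem i hi j hj)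
    refine ⟨k₀, ?_⟩
    rw [h1]
    exact (hc i hi j hj hij).eq_unique (hτ i j hi hj hij) ht

section step
variable {L : Type*} [DecidableEq L]

/-- **One Levi step.** -/
theorem levi_step (S : Finset L) (h : L → ℤ → ℝ) (hg : Gen S h) (hb : Bdd S h) (g : L)
    (hgS : g ∉ S) (a b : ℤ) (hab : a < b) (ya yb : ℝ)
    (hno : ∀ i ∈ S, ¬ (h i a = ya ∧ h i b = yb))
    (hya : (∀ i ∈ S, ∀ j ∈ S, i ≠ j → h i a = h j a → h i a = ya) ∨ (∀ i ∈ S, h i a ≠ ya))
    (hyb : (∀ i ∈ S, ∀ j ∈ S, i ≠ j → h i b = h j b → h i b = yb) ∨ (∀ i ∈ S, h i b ≠ yb)) :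
    ∃ h' : L → ℤ → ℝ, Gen (insert g S) h' ∧ Bdd (insert g S) h' ∧
      (∀ i ∈ S, ∀ j ∈ S, ∀ k ∈ S, i ≠ j → (Tie h' i j k ↔ Tie h i j k)) ∧
      (∀ i ∈ S, ∀ j ∈ S, i ≠ j →
        (Tie h' g i j ↔ ((h i a = ya ∧ h j a = ya) ∨ (h i b = yb ∧ h j b = yb)))) := by
  obtain ⟨Y, hYa, hYb, hY1, hY2⟩ := levi_path S h hg.cross hb a b hab ya yb hno
  obtain ⟨G, hG1, hG2, hG3⟩ := insertion S h hg.cross Y hY1
  let H : L → ℝ → ℝ := fun i => if i = g then G else ext (h i)
  have Hg : H g = G := by simp [H]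
  have Hi : ∀ i ∈ S, H i = ext (h i) := by
    intro i hi
    have : i ≠ g := fun e => hgS (e ▸ hi)
    simp [H, this]
  have hcross : ∀ i ∈ insert g S, ∀ j ∈ insert g S, i ≠ j → Cross (H i) (H j) := by
    intro i hi j hj hij
    rcases Finset.mem_insert.1 hi with hi' | hi'
    · rcases Finset.mem_insert.1 hj with hj' | hj'
      · exact absurd (hi'.trans hj'.symm) hij
      · rw [hi', Hg, Hi j hj']; exact (hG2 j hj').symm
    · rcases Finset.mem_insert.1 hj with hj' | hj'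
      · rw [hj', Hg, Hi i hi']; exact hG2 i hi'
      · rw [Hi i hi', Hi j hj']; exact (hg.cross i hi' j hj' hij).ext
  -- ties at non-integer times involve `g`
  have nonint : ∀ t : ℝ, (⌊t⌋ : ℝ) ≠ t → ∀ i ∈ S, ∀ j ∈ S, i ≠ j → H i t ≠ H j t := by
    intro t ht i hi j hj hij e
    rw [Hi i hi, Hi j hj, ext_of_not ht, ext_of_not ht] at e
    exact (hg.cross i hi j hj hij).avg_ne _ e
  have hsimple : ∀ t, ∃ y, ∀ i ∈ insert g S, ∀ j ∈ insert g S, i ≠ j → H i t = H j t → H i t = y := by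
    intro t
    rcases time_cases t with ⟨k, rfl⟩ | ⟨hn, _, _⟩
    · -- integer time
      have gen : ∀ y, H g k = y → (∀ i ∈ S, ∀ j ∈ S, i ≠ j → h i k = h j k → h i k = y) →
          ∀ i ∈ insert g S, ∀ j ∈ insert g S, i ≠ j → H i k = H j k → H i k = y := by
        intro y hy hall i hi j hj hij e
        rcases Finset.mem_insert.1 hi with hi' | hi'
        · rw [hi']; exact hy
        · rcases Finset.mem_insert.1 hj with hj' | hj'
          · rw [e, hj']; exact hy
          · rw [Hi i hi', Hi j hj', ext_int, ext_int] at e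
            rw [Hi i hi', ext_int]
            exact hall i hi' j hj' hij e
      have gen2 : (∀ i ∈ S, h i k ≠ H g k) →
          ∃ y, ∀ i ∈ insert g S, ∀ j ∈ insert g S, i ≠ j → H i k = H j k → H i k = y := by
        intro hne
        obtain ⟨y, hy⟩ := hg.simple k
        refine ⟨y, fun i hi j hj hij e => ?_⟩
        rcases Finset.mem_insert.1 hi with hi' | hi'
        · rcases Finset.mem_insert.1 hj with hj' | hj'
          · exact absurd (hi'.trans hj'.symm) hij
          · rw [hi', Hi j hj', ext_int] at e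
            exact absurd e.symm (hne j hj')
        · rcases Finset.mem_insert.1 hj with hj' | hj'
          · rw [hj', Hi i hi', ext_int] at e
            exact absurd e (hne i hi')
          · rw [Hi i hi', Hi j hj', ext_int, ext_int] at e
            rw [Hi i hi', ext_int]
            exact hy i hi' j hj' hij e
      have HgY : H g k = Y k := by rw [Hg, hG1]
      by_cases hka : k = a
      · subst hka
        rcases hya with h1 | h1
        · exact ⟨ya, gen ya (by rw [HgY, hYa]) h1⟩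
        · exact gen2 (by rw [HgY, hYa]; exact h1)
      · by_cases hkb : k = b
        · subst hkb
          rcases hyb with h1 | h1
          · exact ⟨yb, gen yb (by rw [HgY, hYb]) h1⟩
          · exact gen2 (by rw [HgY, hYb]; exact h1)
        · exact gen2 (fun i hi => by rw [HgY]; exact (hY2 k hka hkb i hi).symm)
    · refine ⟨G t, fun i hi j hj hij e => ?_⟩
      rcases Finset.mem_insert.1 hi with hi' | hi'
      · rw [hi', Hg]
      · rcases Finset.mem_insert.1 hj with hj' | hj'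
        · rw [e, hj', Hg]
        · exact absurd e (nonint t hn i hi' j hj' hij)
  obtain ⟨ψ, s1, s2, s3⟩ := sampling (insert g S) H hcross
  have memS : ∀ i ∈ S, i ∈ insert g S := fun i hi => Finset.mem_insert_of_mem hi
  refine ⟨fun i k => H i (ψ k), ⟨s1, fun k => hsimple (ψ k)⟩, s2, fun i hi j hj k hk hij => ?_,
    fun i hi j hj hij => ?_⟩
  · constructor
    · rintro ⟨t, h1, h2⟩
      have h1 : H i (ψ t) = H j (ψ t) := h1
      have h2 : H j (ψ t) = H k (ψ t) := h2
      rcases time_cases (ψ t) with ⟨m, hm⟩ | ⟨hn, _, _⟩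
      · rw [hm, Hi i hi, Hi j hj, ext_int, ext_int] at h1
        rw [hm, Hi j hj, Hi k hk, ext_int, ext_int] at h2
        exact ⟨m, h1, h2⟩
      · exact absurd h1 (nonint _ hn i hi j hj hij)
    · rintro ⟨m, h1, h2⟩
      have e1 : H i m = H j m := by rw [Hi i hi, Hi j hj, ext_int, ext_int, h1]
      have e2 : H j m = H k m := by rw [Hi j hj, Hi k hk, ext_int, ext_int, h2]
      obtain ⟨t, ht⟩ := s3 i (memS i hi) j (memS j hj) hij m e1
      exact ⟨t, by show H i (ψ t) = H j (ψ t); rw [ht]; exact e1,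
        by show H j (ψ t) = H k (ψ t); rw [ht]; exact e2⟩
  · have hgi : g ≠ i := fun e => hgS (e ▸ hi)
    constructor
    · rintro ⟨t, h1, h2⟩
      have h1 : H g (ψ t) = H i (ψ t) := h1
      have h2 : H i (ψ t) = H j (ψ t) := h2
      rcases time_cases (ψ t) with ⟨m, hm⟩ | ⟨hn, _, _⟩
      · rw [hm, Hg, Hi i hi, ext_int, hG1] at h1
        rw [hm, Hi i hi, Hi j hj, ext_int, ext_int] at h2
        by_cases hma : m = a
        · subst hma
          rw [hYa] at h1
          exact Or.inl ⟨h1.symm, h2 ▸ h1.symm⟩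
        · by_cases hmb : m = b
          · subst hmb
            rw [hYb] at h1
            exact Or.inr ⟨h1.symm, h2 ▸ h1.symm⟩
          · exact absurd h1 (hY2 m hma hmb i hi)
      · exact absurd h2 (nonint _ hn i hi j hj hij)
    · intro hh
      have main : ∀ m : ℤ, Y m = h i m → h i m = h j m → Tie (fun i k => H i (ψ k)) g i j := by
        intro m e1 e2
        have e1' : H g m = H i m := by rw [Hg, Hi i hi, ext_int, hG1, e1]
        have e2' : H i m = H j m := by rw [Hi i hi, Hi j hj, ext_int, ext_int, e2]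
        obtain ⟨t, ht⟩ := s3 g (Finset.mem_insert_self _ _) i (memS i hi) hgi m e1'
        exact ⟨t, by show H g (ψ t) = H i (ψ t); rw [ht]; exact e1',
          by show H i (ψ t) = H j (ψ t); rw [ht]; exact e2'⟩
      rcases hh with ⟨h1, h2⟩ | ⟨h1, h2⟩
      · exact main a (by rw [hYa, h1]) (by rw [h1, h2])
      · exact main b (by rw [hYb, h1]) (by rw [h1, h2])

end step

section incidence
variable {P L : Type*} [DecidableEq L]

/-- A wiring diagram realising the incidence relation on the lines of `U`: three lines pass through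
a common point iff they share a point of the incidence structure. -/
structure Real' (inc : P → L → Prop) (U : Finset L) (h : L → ℤ → ℝ) : Prop where
  gen : Gen U h
  bdd : Bdd U h
  tie : ∀ i ∈ U, ∀ j ∈ U, ∀ k ∈ U, i ≠ j → i ≠ k → j ≠ k →
    (Tie h i j k ↔ ∃ p, inc p i ∧ inc p j ∧ inc p k)

/-- adding one line whose two special points have been located. -/
lemma add_line (inc : P → L → Prop) (S : Finset L) (h : L → ℤ → ℝ) (hr : Real' inc S h) (g : L)
    (hgS : g ∉ S) (a b : ℤ) (hab : a ≠ b) (ya yb : ℝ)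
    (hno : ∀ i ∈ S, ¬ (h i a = ya ∧ h i b = yb))
    (hya : (∀ i ∈ S, ∀ j ∈ S, i ≠ j → h i a = h j a → h i a = ya) ∨ (∀ i ∈ S, h i a ≠ ya))
    (hyb : (∀ i ∈ S, ∀ j ∈ S, i ≠ j → h i b = h j b → h i b = yb) ∨ (∀ i ∈ S, h i b ≠ yb))
    (hT : ∀ i ∈ S, ∀ j ∈ S, i ≠ j → ((∃ p, inc p g ∧ inc p i ∧ inc p j) ↔
      ((h i a = ya ∧ h j a = ya) ∨ (h i b = yb ∧ h j b = yb)))) :
    ∃ h' : L → ℤ → ℝ, Real' inc (insert g S) h' := by
  obtain ⟨h', h1, h2, h3, h4⟩ : ∃ h' : L → ℤ → ℝ, Gen (insert g S) h' ∧ Bdd (insert g S) h' ∧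
      (∀ i ∈ S, ∀ j ∈ S, ∀ k ∈ S, i ≠ j → (Tie h' i j k ↔ Tie h i j k)) ∧
      (∀ i ∈ S, ∀ j ∈ S, i ≠ j →
        (Tie h' g i j ↔ ((h i a = ya ∧ h j a = ya) ∨ (h i b = yb ∧ h j b = yb)))) := by
    rcases lt_or_gt_of_ne hab with hlt | hlt
    · exact levi_step S h hr.gen hr.bdd g hgS a b hlt ya yb hno hya hyb
    · obtain ⟨h', e1, e2, e3, e4⟩ := levi_step S h hr.gen hr.bdd g hgS b a hlt yb ya
        (fun i hi hh => hno i hi hh.symm) hyb hya
      exact ⟨h', e1, e2, e3, fun i hi j hj hij => (e4 i hi j hj hij).trans Or.comm⟩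
  have base : ∀ i ∈ S, ∀ j ∈ S, i ≠ j → (Tie h' g i j ↔ ∃ p, inc p g ∧ inc p i ∧ inc p j) :=
    fun i hi j hj hij => (h4 i hi j hj hij).trans (hT i hi j hj hij).symm
  refine ⟨h', h1, h2, fun i hi j hj k hk hij hik hjk => ?_⟩
  rcases Finset.mem_insert.1 hi with hi' | hi'
  · rcases Finset.mem_insert.1 hj with hj' | hj'
    · exact absurd (hi'.trans hj'.symm) hij
    · rcases Finset.mem_insert.1 hk with hk' | hk'
      · exact absurd (hi'.trans hk'.symm) hik
      · rw [hi']; exact base j hj' k hk' hjk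
  · rcases Finset.mem_insert.1 hj with hj' | hj'
    · rcases Finset.mem_insert.1 hk with hk' | hk'
      · exact absurd (hj'.trans hk'.symm) hjk
      · rw [hj', Tie.swap12, base i hi' k hk' hik]
        constructor
        · rintro ⟨p, a1, a2, a3⟩; exact ⟨p, a2, a1, a3⟩
        · rintro ⟨p, a1, a2, a3⟩; exact ⟨p, a2, a1, a3⟩
    · rcases Finset.mem_insert.1 hk with hk' | hk'
      · rw [hk', Tie.swap23, Tie.swap12, base i hi' j hj' hij]
        constructor
        · rintro ⟨p, a1, a2, a3⟩; exact ⟨p, a2, a3, a1⟩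
        · rintro ⟨p, a1, a2, a3⟩; exact ⟨p, a3, a1, a2⟩
      · rw [h3 i hi' j hj' k hk' hij]
        exact hr.tie i hi' j hj' k hk' hij hik hjk

/-- the location of a point on at least two lines. -/
lemma heavy_loc {inc : P → L → Prop} {S : Finset L} {h : L → ℤ → ℝ} (hr : Real' inc S h)
    (lin : ∀ i ∈ S, ∀ j ∈ S, i ≠ j → ∀ p q, inc p i → inc p j → inc q i → inc q j → p = q)
    {p : P} (hp : ∃ i ∈ S, ∃ j ∈ S, i ≠ j ∧ inc p i ∧ inc p j) :
    ∃ (t : ℤ) (y : ℝ), (∀ k ∈ S, (inc p k ↔ h k t = y)) ∧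
      (∀ i ∈ S, ∀ j ∈ S, i ≠ j → h i t = h j t → h i t = y) := by
  obtain ⟨i, hi, j, hj, hij, hpi, hpj⟩ := hp
  obtain ⟨t, ht⟩ := (hr.gen.cross i hi j hj hij).exists_eq
  obtain ⟨y, hy⟩ := hr.gen.simple t
  have e1 : h i t = y := hy i hi j hj hij ht
  refine ⟨t, y, fun k hk => ?_, hy⟩
  by_cases hki : k = i
  · subst hki; exact ⟨fun _ => e1, fun _ => hpi⟩
  by_cases hkj : k = j
  · subst hkj; exact ⟨fun _ => ht ▸ e1, fun _ => hpj⟩
  constructor
  · intro hpk
    obtain ⟨t', h1, h2⟩ := (hr.tie i hi j hj k hk hij (Ne.symm hki) (Ne.symm hkj)).2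
      ⟨p, hpi, hpj, hpk⟩
    have : t' = t := (hr.gen.cross i hi j hj hij).eq_unique h1 ht
    subst this
    rw [← h2, ← h1, e1]
  · intro hk'
    obtain ⟨q, q1, q2, q3⟩ := (hr.tie i hi j hj k hk hij (Ne.symm hki) (Ne.symm hkj)).1
      ⟨t, ht, by rw [hk', ← ht, e1]⟩
    rw [lin i hi j hj hij p q hpi hpj q1 q2]
    exact q3

/-- **Realisation line by line.** -/
theorem realize_of_degenerate (inc : P → L → Prop) (U : Finset L)
    (lin : ∀ i ∈ U, ∀ j ∈ U, i ≠ j → ∀ p q, inc p i → inc p j → inc q i → inc q j → p = q)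
    (deg : ∀ T ⊆ U, T.Nonempty → ∃ l ∈ T, ∃ p₁ p₂ : P, ∀ p, inc p l →
      (∃ i ∈ T, ∃ j ∈ T, i ≠ l ∧ j ≠ l ∧ i ≠ j ∧ inc p i ∧ inc p j) → p = p₁ ∨ p = p₂) :
    ∃ h, Real' inc U h := by
  suffices H : ∀ n, ∀ T ⊆ U, T.card = n → ∃ h, Real' inc T h from H U.card U subset_rfl rfl
  intro n
  induction n with
  | zero =>
    intro T _ hT
    have : T = ∅ := Finset.card_eq_zero.1 hT
    subst this
    exact ⟨fun _ _ => 0, ⟨by simp, fun t => ⟨0, by simp⟩⟩, ⟨0, 1, by norm_num, by simp⟩, by simp⟩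
  | succ n ih =>
    intro T hTU hT
    have hne : T.Nonempty := by
      rw [← Finset.card_pos]; omega
    obtain ⟨l, hl, p₁, p₂, hp⟩ := deg T hTU hne
    set S := T.erase l with hS
    have hlS : l ∉ S := by simp [hS]
    have hTS : T = insert l S := by rw [hS, Finset.insert_erase hl]
    obtain ⟨h, hr⟩ := ih S ((Finset.erase_subset _ _).trans hTU)
      (by rw [hS, Finset.card_erase_of_mem hl, hT]; rfl)
    have linT : ∀ i ∈ T, ∀ j ∈ T, i ≠ j → ∀ p q, inc p i → inc p j → inc q i → inc q j → p = q :=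
      fun i hi j hj => lin i (hTU hi) j (hTU hj)
    have memT : ∀ i ∈ S, i ∈ T := fun i hi => Finset.mem_of_mem_erase hi
    have linS : ∀ i ∈ S, ∀ j ∈ S, i ≠ j → ∀ p q, inc p i → inc p j → inc q i → inc q j → p = q :=
      fun i hi j hj => linT i (memT i hi) j (memT j hj)
    have neS : ∀ i ∈ S, i ≠ l := fun i hi => Finset.ne_of_mem_erase hi
    rw [hTS]
    -- heavy points of `l`
    let Hv : P → Prop := fun p => ∃ i ∈ S, ∃ j ∈ S, i ≠ j ∧ inc p i ∧ inc p j
    have hv2 : ∀ p, inc p l → Hv p → p = p₁ ∨ p = p₂ := by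
      rintro p h1 ⟨i, hi, j, hj, hij, h2, h3⟩
      exact hp p h1 ⟨i, memT i hi, j, memT j hj, neS i hi, neS j hj, hij, h2, h3⟩
    -- dummy heights
    have big : ∀ t : ℤ, ∃ y : ℝ, ∀ i ∈ S, h i t ≠ y := by
      intro t
      obtain ⟨m, hm, _⟩ := Order.exists_between_finsets (S.image (fun i => h i t))
        (∅ : Finset ℝ) (by simp)
      exact ⟨m, fun i hi => (hm _ (Finset.mem_image_of_mem _ hi)).ne⟩
    -- one heavy point (or more precisely a point such that all heavy points of `l` are `q`)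
    have one : ∀ q : P, inc q l → Hv q → (∀ p, inc p l → Hv p → p = q) →
        ∃ h' : L → ℤ → ℝ, Real' inc (insert l S) h' := by
      intro q hq1 hq2 hq3
      obtain ⟨t, y, hy1, hy2⟩ := heavy_loc hr linS hq2
      obtain ⟨y', hy'⟩ := big (t+1)
      refine add_line inc S h hr l hlS t (t+1) (by omega) y y' (fun i hi hh => hy' i hi hh.2)
        (Or.inl hy2) (Or.inr hy') (fun i hi j hj hij => ?_)
      constructor
      · rintro ⟨p, a1, a2, a3⟩
        have : p = q := hq3 p a1 ⟨i, hi, j, hj, hij, a2, a3⟩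
        subst this
        exact Or.inl ⟨(hy1 i hi).1 a2, (hy1 j hj).1 a3⟩
      · rintro (⟨a1, a2⟩ | ⟨a1, a2⟩)
        · exact ⟨q, hq1, (hy1 i hi).2 a1, (hy1 j hj).2 a2⟩
        · exact absurd a1 (hy' i hi)
    by_cases c1 : inc p₁ l ∧ Hv p₁
    · by_cases c2 : inc p₂ l ∧ Hv p₂
      · by_cases c3 : p₁ = p₂
        · exact one p₁ c1.1 c1.2 (fun p h1 h2 => by
            rcases hv2 p h1 h2 with h | h
            · exact h
            · rw [h, c3])
        · -- two heavy points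
          obtain ⟨t, y, hy1, hy2⟩ := heavy_loc hr linS c1.2
          obtain ⟨t', y', hy1', hy2'⟩ := heavy_loc hr linS c2.2
          have htt : t ≠ t' := by
            rintro rfl
            obtain ⟨i, hi, j, hj, hij, a1, a2⟩ := c1.2
            have e1 := (hy1 i hi).1 a1
            have e2 := (hy1 j hj).1 a2
            have e3 := hy2' i hi j hj hij (e1.trans e2.symm)
            have e4 : y = y' := e1.symm.trans e3
            subst e4
            exact c3 (linS i hi j hj hij p₁ p₂ a1 a2 ((hy1' i hi).2 e1) ((hy1' j hj).2 e2))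
          refine add_line inc S h hr l hlS t t' htt y y' (fun i hi hh => ?_)
            (Or.inl hy2) (Or.inl hy2') (fun i hi j hj hij => ?_)
          · exact c3 (linT i (memT i hi) l hl (neS i hi) p₁ p₂ ((hy1 i hi).2 hh.1) c1.1
              ((hy1' i hi).2 hh.2) c2.1)
          · constructor
            · rintro ⟨p, a1, a2, a3⟩
              rcases hv2 p a1 ⟨i, hi, j, hj, hij, a2, a3⟩ with rfl | rfl
              · exact Or.inl ⟨(hy1 i hi).1 a2, (hy1 j hj).1 a3⟩
              · exact Or.inr ⟨(hy1' i hi).1 a2, (hy1' j hj).1 a3⟩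
            · rintro (⟨a1, a2⟩ | ⟨a1, a2⟩)
              · exact ⟨p₁, c1.1, (hy1 i hi).2 a1, (hy1 j hj).2 a2⟩
              · exact ⟨p₂, c2.1, (hy1' i hi).2 a1, (hy1' j hj).2 a2⟩
      · exact one p₁ c1.1 c1.2 (fun p h1 h2 => by
          rcases hv2 p h1 h2 with h | h
          · exact h
          · subst h; exact absurd ⟨h1, h2⟩ c2)
    · by_cases c2 : inc p₂ l ∧ Hv p₂
      · exact one p₂ c2.1 c2.2 (fun p h1 h2 => by
          rcases hv2 p h1 h2 with h | h
          · subst h; exact absurd ⟨h1, h2⟩ c1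
          · exact h)
      · -- no heavy point
        obtain ⟨y, hy⟩ := big 0
        obtain ⟨y', hy'⟩ := big 1
        refine add_line inc S h hr l hlS 0 1 (by norm_num) y y' (fun i hi hh => hy' i hi hh.2)
          (Or.inr hy) (Or.inr hy') (fun i hi j hj hij => ?_)
        constructor
        · rintro ⟨p, a1, a2, a3⟩
          rcases hv2 p a1 ⟨i, hi, j, hj, hij, a2, a3⟩ with rfl | rfl
          · exact absurd ⟨a1, ⟨i, hi, j, hj, hij, a2, a3⟩⟩ c1
          · exact absurd ⟨a1, ⟨i, hi, j, hj, hij, a2, a3⟩⟩ c2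
        · rintro (⟨a1, a2⟩ | ⟨a1, a2⟩)
          · exact absurd a1 (hy i hi)
          · exact absurd a1 (hy' i hi)

end incidence

end PL3
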