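import Pool.Agent.Lib.MP_e3e9c0_co.SplitB

/-!
# Contracted structures can be built line by line

Two lines `a`, `b` through a point `c` such that no line meets both of them off `c` (type 0), or
such that exactly one does (type 1, with a side condition), give a drawing of the configuration.
-/

namespace PL3

section
variable {P L : Type*} [DecidableEq L] [Fintype L] [DecidableEq P] [Fintype P]

/-- connectedness -/
def Conn (inc : P → L → Prop) : Prop := ∀ S : Finset L, S.Nonempty →
  (∀ l ∈ S, ∀ p, inc p l → ∀ m, inc p m → m ∈ S) → S = Finset.univ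

/-- closed sets of lines avoiding `a`, `b`. -/
def Cl (inc : P → L → Prop) (c : P) (a b : L) (S : Finset L) : Prop :=
  a ∉ S ∧ b ∉ S ∧ ∀ l ∈ S, ∀ p, p ≠ c → inc p l → ∀ m, m ≠ a → m ≠ b → inc p m → m ∈ S

/-- no line meets both `a` and `b` off `c`. -/
def T0 (inc : P → L → Prop) (c : P) (a b : L) : Prop :=
  ∀ p p' m, p ≠ c → p' ≠ c → inc p a → inc p' b → inc p m → inc p' m → False

/-- every closed set of lines contains the third line through `c`. -/
def Peel0 (inc : P → L → Prop) (c : P) (a b d : L) : Prop :=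
  ∀ S : Finset L, S.Nonempty → Cl inc c a b S → d ∈ S

omit [DecidableEq L] [Fintype L] [DecidableEq P] [Fintype P] in
lemma Cl.symm {inc : P → L → Prop} {c : P} {a b : L} {S : Finset L} (h : Cl inc c a b S) :
    Cl inc c b a S :=
  ⟨h.2.1, h.1, fun l hl p hp h1 m h2 h3 h4 => h.2.2 l hl p hp h1 m h3 h2 h4⟩

omit [DecidableEq L] [Fintype L] [DecidableEq P] [Fintype P] in
lemma T0.symm {inc : P → L → Prop} {c : P} {a b : L} (h : T0 inc c a b) : T0 inc c b a :=
  fun p p' m h1 h2 h3 h4 h5 h6 => h p' p m h2 h1 h4 h3 h6 h5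

omit [DecidableEq L] [DecidableEq P] in
/-- **Counting flags modulo 3.** -/
lemma count3 (inc : P → L → Prop) (hc : Config inc) (N : Finset L) (E : Finset P)
    (h : ∀ p, (∃ l ∈ N, inc p l) → (p ∉ E → ∀ m, inc p m → m ∈ N) ∧
      (p ∈ E → ∃ m, inc p m ∧ m ∉ N ∧ ∀ m', inc p m' → m' ≠ m → m' ∈ N)) :
    open Classical in 3 ∣ (E.filter (fun p => ∃ l ∈ N, inc p l)).card := by
  classical
  -- number of points on a line
  have hpts : ∀ l, (Finset.univ.filter (fun p => inc p l)).card = 3 := by
    intro l
    obtain ⟨p, q, r, hpq, hpr, hqr, h1⟩ := hc.points l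
    have : Finset.univ.filter (fun x => inc x l) = {p, q, r} := by
      ext x; simp [h1]
    rw [this]
    exact Finset.card_eq_three.2 ⟨p, q, r, hpq, hpr, hqr, rfl⟩
  have hlines : ∀ p, (Finset.univ.filter (fun l => inc p l)).card = 3 := by
    intro p
    obtain ⟨i, j, k, hij, hik, hjk, h1⟩ := hc.lines p
    have : Finset.univ.filter (fun x => inc p x) = {i, j, k} := by
      ext x; simp [h1]
    rw [this]
    exact Finset.card_eq_three.2 ⟨i, j, k, hij, hik, hjk, rfl⟩
  have hdc : ∑ p : P, (N.filter (fun l => inc p l)).card = 3 * N.card := by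
    have h1 := Finset.sum_card_bipartiteAbove_eq_sum_card_bipartiteBelow (s := (Finset.univ : Finset P))
      (t := N) (r := fun p l => inc p l)
    have h2 : ∀ p, (Finset.bipartiteAbove (fun p l => inc p l) N p) = N.filter (fun l => inc p l) :=
      fun p => rfl
    have h3 : ∀ l, (Finset.bipartiteBelow (fun p l => inc p l) (Finset.univ : Finset P) l) =
        Finset.univ.filter (fun p => inc p l) := fun l => rfl
    simp only [h2, h3, hpts] at h1
    rw [h1, Finset.sum_const, smul_eq_mul, mul_comm]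
  have hval : ∀ p, (N.filter (fun l => inc p l)).card =
      (if (∃ l ∈ N, inc p l) then (if p ∈ E then 2 else 3) else 0) := by
    intro p
    by_cases h1 : ∃ l ∈ N, inc p l
    · rw [if_pos h1]
      obtain ⟨h2, h3⟩ := h p h1
      by_cases h4 : p ∈ E
      · rw [if_pos h4]
        obtain ⟨m, hm1, hm2, hm3⟩ := h3 h4
        have : N.filter (fun l => inc p l) = (Finset.univ.filter (fun l => inc p l)).erase m := by
          ext x
          simp only [Finset.mem_filter, Finset.mem_erase, Finset.mem_univ, true_and]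
          constructor
          · rintro ⟨hx1, hx2⟩
            exact ⟨fun e => hm2 (e ▸ hx1), hx2⟩
          · rintro ⟨hx1, hx2⟩
            exact ⟨hm3 x hx2 hx1, hx2⟩
        rw [this, Finset.card_erase_of_mem (by simp [hm1]), hlines]
      · rw [if_neg h4]
        have : N.filter (fun l => inc p l) = Finset.univ.filter (fun l => inc p l) := by
          ext x
          simp only [Finset.mem_filter, Finset.mem_univ, true_and, and_iff_right_iff_imp]
          exact h2 h4 x
        rw [this, hlines]
    · rw [if_neg h1, Finset.card_eq_zero, Finset.filter_eq_empty_iff]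
      intro l hl hl'
      exact h1 ⟨l, hl, hl'⟩
  simp only [hval] at hdc
  have hsplit : ∑ p : P, (if (∃ l ∈ N, inc p l) then (if p ∈ E then 2 else 3) else 0) +
      (E.filter (fun p => ∃ l ∈ N, inc p l)).card =
      3 * (Finset.univ.filter (fun p => ∃ l ∈ N, inc p l)).card := by
    have e1 : (E.filter (fun p => ∃ l ∈ N, inc p l)).card =
        ∑ p : P, (if (∃ l ∈ N, inc p l) then (if p ∈ E then 1 else 0) else 0) := by
      rw [Finset.card_filter, ← Finset.sum_filter_add_sum_filter_not Finset.univ (fun p => p ∈ E)]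
      have e2 : ∑ p ∈ Finset.univ.filter (fun p => p ∉ E),
          (if (∃ l ∈ N, inc p l) then (if p ∈ E then 1 else 0) else 0) = 0 := by
        apply Finset.sum_eq_zero
        intro p hp
        rw [Finset.mem_filter] at hp
        simp [hp.2]
      rw [e2, add_zero]
      have e3 : Finset.univ.filter (fun p => p ∈ E) = E := by ext; simp
      rw [e3]
      apply Finset.sum_congr rfl
      intro p hp
      simp [hp]
    rw [e1, ← Finset.sum_add_distrib, Finset.card_filter, Finset.mul_sum]
    apply Finset.sum_congr rfl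
    intro p _
    split_ifs <;> rfl
  omega

omit [DecidableEq L] in
/-- a closed set avoiding `a`, `b`, `d` reaches at least three of the four points of `a`, `b` off
`c`. -/
lemma three_reached (inc : P → L → Prop) (hc : Config inc) (conn : Conn inc) (c : P) (a b d : L)
    (hab : a ≠ b) (hcl : ∀ l, inc c l ↔ l = a ∨ l = b ∨ l = d)
    (S : Finset L) (hne : S.Nonempty) (hS : Cl inc c a b S) (hd : d ∉ S) :
    open Classical in
    3 ≤ ((Finset.univ.filter (fun p => p ≠ c ∧ (inc p a ∨ inc p b))).filter
      (fun p => ∃ l ∈ S, inc p l)).card := by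
  classical
  have ca : inc c a := (hcl a).2 (by simp)
  have cb : inc c b := (hcl b).2 (by simp)
  have exab : ∀ p, p ≠ c → inc p a → inc p b → False := fun p h1 h2 h3 =>
    h1 (hc.lin a b hab p c h2 h3 ca cb)
  have hcS : ∀ l ∈ S, ¬ inc c l := by
    intro l hl h1
    rcases (hcl l).1 h1 with rfl | rfl | rfl
    · exact hS.1 hl
    · exact hS.2.1 hl
    · exact hd hl
  have h3 := count3 inc hc S (Finset.univ.filter (fun p => p ≠ c ∧ (inc p a ∨ inc p b))) (by
    rintro p ⟨l, hl, hpl⟩
    have hpc : p ≠ c := fun e => hcS l hl (e ▸ hpl)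
    refine ⟨fun h1 m hm => ?_, fun h1 => ?_⟩
    · have h2 : ¬ inc p a ∧ ¬ inc p b := by
        constructor <;> intro e <;> exact h1 (by simp [hpc, e])
      exact hS.2.2 l hl p hpc hpl m (fun e => h2.1 (e ▸ hm)) (fun e => h2.2 (e ▸ hm)) hm
    · have h2 := (Finset.mem_filter.1 h1).2.2
      rcases h2 with h2 | h2
      · refine ⟨a, h2, hS.1, fun m' hm' hma => hS.2.2 l hl p hpc hpl m' hma ?_ hm'⟩
        rintro rfl; exact exab p hpc h2 hm'
      · refine ⟨b, h2, hS.2.1, fun m' hm' hmb => hS.2.2 l hl p hpc hpl m' ?_ hmb hm'⟩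
        rintro rfl; exact exab p hpc hm' h2)
  obtain ⟨k, hk⟩ := h3
  have hpos : 0 < ((Finset.univ.filter (fun p => p ≠ c ∧ (inc p a ∨ inc p b))).filter
      (fun p => ∃ l ∈ S, inc p l)).card := by
    rw [Finset.card_pos]
    by_contra hcon
    rw [Finset.not_nonempty_iff_eq_empty, Finset.filter_eq_empty_iff] at hcon
    have : S = Finset.univ := conn S hne (by
      intro l hl p hpl m hpm
      have hpc : p ≠ c := fun e => hcS l hl (e ▸ hpl)
      have hno : ¬ (inc p a ∨ inc p b) := fun e => hcon (x := p) (by simp [hpc, e]) ⟨l, hl, hpl⟩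
      push Not at hno
      exact hS.2.2 l hl p hpc hpl m (fun e => hno.1 (e ▸ hpm)) (fun e => hno.2 (e ▸ hpm)) hpm)
    exact hS.1 (this ▸ Finset.mem_univ a)
  omega

omit [DecidableEq L] in
/-- the points of a line off one of its points. -/
lemma Config.card_off {inc : P → L → Prop} (hc : Config inc) (c : P) (a : L) (ca : inc c a) :
    open Classical in (Finset.univ.filter (fun p => p ≠ c ∧ inc p a)).card = 2 := by
  classical
  obtain ⟨p, q, r, hpq, hpr, hqr, h1⟩ := hc.points a
  have h2 : Finset.univ.filter (fun x => x ≠ c ∧ inc x a) = ({p, q, r} : Finset P).erase c := by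
    ext x; simp [h1]
  rw [h2, Finset.card_erase_of_mem (by simpa using (h1 c).1 ca),
    Finset.card_eq_three.2 ⟨p, q, r, hpq, hpr, hqr, rfl⟩]

omit [Fintype L] [DecidableEq L] in
/-- if both points of `a` off `c` are reached by a closed set, another pair is peelable. -/
lemma alpha_core [Fintype L] (inc : P → L → Prop) (hc : Config inc) (conn : Conn inc) (c : P)
    (a b d : L) (hab : a ≠ b) (had : a ≠ d) (hbd : b ≠ d)
    (hcl : ∀ l, inc c l ↔ l = a ∨ l = b ∨ l = d)
    (S : Finset L) (hS : Cl inc c a b S) (hd : d ∉ S)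
    (hall : ∀ p, p ≠ c → inc p a → ∃ l ∈ S, inc p l) :
    T0 inc c a d ∧ Peel0 inc c a d b := by
  classical
  have ca : inc c a := (hcl a).2 (by simp)
  have cb : inc c b := (hcl b).2 (by simp)
  have cd : inc c d := (hcl d).2 (by simp)
  have exab : ∀ p, p ≠ c → inc p a → inc p b → False := fun p h1 h2 h3 =>
    h1 (hc.lin a b hab p c h2 h3 ca cb)
  have exad : ∀ p, p ≠ c → inc p a → inc p d → False := fun p h1 h2 h3 =>
    h1 (hc.lin a d had p c h2 h3 ca cd)
  have exbd : ∀ p, p ≠ c → inc p b → inc p d → False := fun p h1 h2 h3 =>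
    h1 (hc.lin b d hbd p c h2 h3 cb cd)
  -- lines of `S` have no points on `d` off `c`
  have noSd : ∀ l ∈ S, ∀ p, p ≠ c → inc p l → ¬ inc p d := fun l hl p hp h1 h2 =>
    hd (hS.2.2 l hl p hp h1 d had.symm hbd.symm h2)
  refine ⟨?_, ?_⟩
  · intro p p' m hp hp' h1 h2 h3 h4
    obtain ⟨l, hl, hpl⟩ := hall p hp h1
    have hma : m ≠ a := by rintro rfl; exact exad p' hp' h4 h2
    have hmb : m ≠ b := by rintro rfl; exact exab p hp h1 h3
    have hmS : m ∈ S := hS.2.2 l hl p hp hpl m hma hmb h3
    exact noSd m hmS p' hp' h4 h2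
  · intro S' hne' hS'
    by_contra hbS'
    have hcl' : ∀ l, inc c l ↔ l = a ∨ l = d ∨ l = b := by
      intro l; rw [hcl]; tauto
    have h3 := three_reached inc hc conn c a d b had hcl' S' hne' hS' hbS'
    -- at least one point of `a` is reached by `S'`
    have hex : ∃ p, p ≠ c ∧ inc p a ∧ ∃ l ∈ S', inc p l := by
      by_contra hcon
      push Not at hcon
      have hsub : ((Finset.univ.filter (fun p => p ≠ c ∧ (inc p a ∨ inc p d))).filter
          (fun p => ∃ l ∈ S', inc p l)) ⊆ Finset.univ.filter (fun p => p ≠ c ∧ inc p d) := by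
        intro p hp
        simp only [Finset.mem_filter, Finset.mem_univ, true_and] at hp ⊢
        obtain ⟨⟨h4, h5⟩, l, hl, hpl⟩ := hp
        rcases h5 with h5 | h5
        · exact absurd hpl (hcon p h4 h5 l hl)
        · exact ⟨h4, h5⟩
      have := Finset.card_le_card hsub
      rw [hc.card_off c d cd] at this
      omega
    obtain ⟨p, hp, hpa, l', hl', hpl'⟩ := hex
    obtain ⟨l, hl, hpl⟩ := hall p hp hpa
    have hla : l ≠ a := fun e => hS.1 (e ▸ hl)
    have hld : l ≠ d := fun e => hd (e ▸ hl)
    have hlS' : l ∈ S' := hS'.2.2 l' hl' p hp hpl' l hla hld hpl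
    -- the intersection
    have hNne : (S ∩ S').Nonempty := ⟨l, Finset.mem_inter.2 ⟨hl, hlS'⟩⟩
    have noS'b : ∀ l ∈ S', ∀ p, p ≠ c → inc p l → ¬ inc p b := fun l hl p hp h1 h2 =>
      hbS' (hS'.2.2 l hl p hp h1 b hab.symm hbd h2)
    have hcN : ∀ l ∈ S ∩ S', ¬ inc c l := by
      intro l hl h1
      obtain ⟨h5, h6⟩ := Finset.mem_inter.1 hl
      rcases (hcl l).1 h1 with rfl | rfl | rfl
      · exact hS.1 h5
      · exact hS.2.1 h5
      · exact hd h5
    have step : ∀ l ∈ S ∩ S', ∀ p, inc p l → ∀ m, m ≠ a → inc p m → m ∈ S ∩ S' := by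
      intro l hl p hpl m hma hpm
      obtain ⟨h5, h6⟩ := Finset.mem_inter.1 hl
      have hpc : p ≠ c := fun e => hcN l hl (e ▸ hpl)
      have hmb : m ≠ b := by rintro rfl; exact noS'b l h6 p hpc hpl hpm
      have hmd : m ≠ d := by rintro rfl; exact noSd l h5 p hpc hpl hpm
      exact Finset.mem_inter.2 ⟨hS.2.2 l h5 p hpc hpl m hma hmb hpm,
        hS'.2.2 l h6 p hpc hpl m hma hmd hpm⟩
    have haN : a ∉ S ∩ S' := fun h => hS.1 (Finset.mem_inter.1 h).1
    have h4 := count3 inc hc (S ∩ S') (Finset.univ.filter (fun p => p ≠ c ∧ inc p a)) (by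
      rintro p ⟨l, hl, hpl⟩
      have hpc : p ≠ c := fun e => hcN l hl (e ▸ hpl)
      refine ⟨fun h1 m hm => step l hl p hpl m ?_ hm, fun h1 => ?_⟩
      · rintro rfl; exact h1 (by simp [hpc, hm])
      · have h2 := (Finset.mem_filter.1 h1).2.2
        exact ⟨a, h2, haN, fun m' hm' hma => step l hl p hpl m' hma hm'⟩)
    have h5 : ((Finset.univ.filter (fun p => p ≠ c ∧ inc p a)).filter
        (fun p => ∃ l ∈ S ∩ S', inc p l)).card ≤ 2 := by
      rw [← hc.card_off c a ca]
      exact Finset.card_le_card (Finset.filter_subset _ _)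
    have h6 : ((Finset.univ.filter (fun p => p ≠ c ∧ inc p a)).filter
        (fun p => ∃ l ∈ S ∩ S', inc p l)).card = 0 := by omega
    rw [Finset.card_eq_zero, Finset.filter_eq_empty_iff] at h6
    have : S ∩ S' = Finset.univ := conn _ hNne (by
      intro l hl p hpl m hpm
      refine step l hl p hpl m ?_ hpm
      rintro rfl
      have hpc : p ≠ c := fun e => hcN l hl (e ▸ hpl)
      exact h6 (x := p) (by simp [hpc, hpm]) ⟨l, hl, hpl⟩)
    exact haN (this ▸ Finset.mem_univ a)

/-- **Every type 0 pair gives a peelable type 0 pair at the same point.** -/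
lemma alpha (inc : P → L → Prop) (hc : Config inc) (conn : Conn inc) (c : P)
    (a b d : L) (hab : a ≠ b) (had : a ≠ d) (hbd : b ≠ d)
    (hcl : ∀ l, inc c l ↔ l = a ∨ l = b ∨ l = d) (h0 : T0 inc c a b) :
    ∃ a' b' d', a' ≠ b' ∧ a' ≠ d' ∧ b' ≠ d' ∧ (∀ l, inc c l ↔ l = a' ∨ l = b' ∨ l = d') ∧
      T0 inc c a' b' ∧ Peel0 inc c a' b' d' := by
  classical
  by_cases hp : Peel0 inc c a b d
  · exact ⟨a, b, d, hab, had, hbd, hcl, h0, hp⟩
  · unfold Peel0 at hp
    push Not at hp
    obtain ⟨S, hne, hS, hd⟩ := hp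
    have ca : inc c a := (hcl a).2 (by simp)
    have cb : inc c b := (hcl b).2 (by simp)
    have h3 := three_reached inc hc conn c a b d hab hcl S hne hS hd
    by_cases hA : ∀ p, p ≠ c → inc p a → ∃ l ∈ S, inc p l
    · obtain ⟨h4, h5⟩ := alpha_core inc hc conn c a b d hab had hbd hcl S hS hd hA
      exact ⟨a, d, b, had, hab, hbd.symm, fun l => by rw [hcl]; tauto, h4, h5⟩
    · have hB : ∀ p, p ≠ c → inc p b → ∃ l ∈ S, inc p l := by
        by_contra hB
        push Not at hA hB
        obtain ⟨p, p1, p2, p3⟩ := hA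
        obtain ⟨q, q1, q2, q3⟩ := hB
        have hpq : p ≠ q := by
          rintro rfl
          exact p1 (hc.lin a b hab p c p2 q2 ca cb)
        have hsub : ((Finset.univ.filter (fun p => p ≠ c ∧ (inc p a ∨ inc p b))).filter
            (fun p => ∃ l ∈ S, inc p l)) ⊆
            (((Finset.univ.filter (fun p => p ≠ c ∧ inc p a)) ∪
              (Finset.univ.filter (fun p => p ≠ c ∧ inc p b))).erase p).erase q := by
          intro x hx
          simp only [Finset.mem_filter, Finset.mem_univ, true_and, Finset.mem_erase,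
            Finset.mem_union] at hx ⊢
          obtain ⟨⟨h4, h5⟩, l, hl, hxl⟩ := hx
          refine ⟨?_, ?_, ?_⟩
          · rintro rfl; exact q3 l hl hxl
          · rintro rfl; exact p3 l hl hxl
          · rcases h5 with h5 | h5
            · exact Or.inl ⟨h4, h5⟩
            · exact Or.inr ⟨h4, h5⟩
        have h4 := Finset.card_le_card hsub
        rw [Finset.card_erase_of_mem (by simp [hpq.symm, q1, q2]),
          Finset.card_erase_of_mem (by simp [p1, p2])] at h4
        have h5 := Finset.card_union_le (Finset.univ.filter (fun p => p ≠ c ∧ inc p a))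
              (Finset.univ.filter (fun p => p ≠ c ∧ inc p b))
        rw [hc.card_off c a ca, hc.card_off c b cb] at h5
        omega
      obtain ⟨h4, h5⟩ := alpha_core inc hc conn c b a d hab.symm hbd had
        (fun l => by rw [hcl]; tauto) S hS.symm hd hB
      exact ⟨b, d, a, hbd, hab.symm, had.symm, fun l => by rw [hcl]; tauto, h4, h5⟩

/-- **Drawings from peelable type 0 pairs.** -/
theorem drawn_of_peel0 (inc : P → L → Prop) (hc : Config inc) (c : P)
    (a b d : L) (hab : a ≠ b) (had : a ≠ d) (hbd : b ≠ d)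
    (hcl : ∀ l, inc c l ↔ l = a ∨ l = b ∨ l = d) (h0 : T0 inc c a b)
    (hpeel : Peel0 inc c a b d) : ∃ H : L → ℝ → ℝ, Drawn inc Finset.univ H := by
  classical
  have cd : inc c d := (hcl d).2 (by simp)
  have lin0 : ∀ i ∈ Finset.univ.erase b, ∀ j ∈ Finset.univ.erase b, i ≠ j → ∀ p q,
      inc0 inc c a b p i → inc0 inc c a b p j → inc0 inc c a b q i → inc0 inc c a b q j → p = q := by
    have key : ∀ j, j ≠ b → a ≠ j → ∀ p q,
      inc0 inc c a b p a → inc0 inc c a b p j → inc0 inc c a b q a → inc0 inc c a b q j →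
        p = q := by
      rintro j hj haj p q ⟨hp, p1⟩ ⟨_, p2⟩ ⟨hq, q1⟩ ⟨_, q2⟩
      have p2' : inc p j := by
        rcases p2 with h | ⟨h, _⟩
        · exact h
        · exact absurd h.symm haj
      have q2' : inc q j := by
        rcases q2 with h | ⟨h, _⟩
        · exact h
        · exact absurd h.symm haj
      rcases p1 with p1 | ⟨_, p1⟩ <;> rcases q1 with q1 | ⟨_, q1⟩
      · exact hc.lin a j haj p q p1 p2' q1 q2'
      · exact absurd (h0 p q j hp hq p1 q1 p2' q2') id
      · exact absurd (h0 q p j hq hp q1 p1 q2' p2') id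
      · exact hc.lin b j hj.symm p q p1 p2' q1 q2'
    intro i hi j hj hij p q h1 h2 h3 h4
    have hi' := Finset.ne_of_mem_erase hi
    have hj' := Finset.ne_of_mem_erase hj
    by_cases hia : i = a
    · subst hia; exact key j hj' hij p q h1 h2 h3 h4
    · by_cases hja : j = a
      · subst hja; exact key i hi' hij.symm p q h2 h1 h4 h3
      · have red : ∀ p l, l ≠ a → inc0 inc c a b p l → inc p l := by
          rintro p l hl ⟨_, h | ⟨h, _⟩⟩
          · exact h
          · exact absurd h hl
        exact hc.lin i j hij p q (red p i hia h1) (red p j hja h2) (red q i hia h3) (red q j hja h4)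
  obtain ⟨h, hr⟩ := realize_of_degenerate (inc0 inc c a b) (Finset.univ.erase b) lin0 (by
    intro T hTU hT
    have hbT : b ∉ T := fun e => (Finset.ne_of_mem_erase (hTU e)) rfl
    by_cases hcl0 : Cl inc c a b (T.erase a)
    · by_cases hne : (T.erase a).Nonempty
      · -- `d ∈ T`
        have hdT := hpeel _ hne hcl0
        obtain ⟨x, y, z, hxy, hxz, hyz, hpt⟩ := hc.points d
        have hd2 : ∃ s t, ∀ p, p ≠ c → inc p d → p = s ∨ p = t := by
          rcases (hpt c).1 cd with rfl | rfl | rfl
          · exact ⟨y, z, fun p hp h1 => by rcases (hpt p).1 h1 with h | h | h <;> tauto⟩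
          · exact ⟨x, z, fun p hp h1 => by rcases (hpt p).1 h1 with h | h | h <;> tauto⟩
          · exact ⟨x, y, fun p hp h1 => by rcases (hpt p).1 h1 with h | h | h <;> tauto⟩
        obtain ⟨s, t, hst⟩ := hd2
        refine ⟨d, Finset.mem_of_mem_erase hdT, s, t, fun p hp _ => ?_⟩
        rcases hp with ⟨hp, h1 | ⟨h1, _⟩⟩
        · exact hst p hp h1
        · exact absurd h1.symm had
      · -- `T = {a}`
        obtain ⟨l, hl⟩ := hT
        have hTa : ∀ x ∈ T, x = a := by
          intro x hx
          by_contra hxa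
          exact hne ⟨x, Finset.mem_erase.2 ⟨hxa, hx⟩⟩
        refine ⟨l, hl, c, c, fun p _ ⟨i, hi, j, hj, hil, _⟩ => ?_⟩
        exact absurd ((hTa i hi).trans (hTa l hl).symm) hil
    · -- not closed
      have : ∃ l ∈ T, l ≠ a ∧ ∃ p, p ≠ c ∧ inc p l ∧ ∃ m, m ≠ a ∧ m ≠ b ∧ inc p m ∧ m ∉ T := by
        by_contra hcon
        push Not at hcon
        apply hcl0
        refine ⟨fun e => (Finset.ne_of_mem_erase e) rfl, fun e => hbT (Finset.mem_of_mem_erase e),
          fun l hl p hp hpl m hma hmb hpm => ?_⟩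
        exact Finset.mem_erase.2 ⟨hma, hcon l (Finset.mem_of_mem_erase hl)
          (Finset.ne_of_mem_erase hl) p hp hpl m hma hmb hpm⟩
      obtain ⟨l, hl, hla, p, hp, hpl, m, hma, hmb, hpm, hmT⟩ := this
      have hlm : l ≠ m := fun e => hmT (e ▸ hl)
      have hlb : l ≠ b := fun e => hbT (e ▸ hl)
      -- the other two points of `l`
      obtain ⟨x, y, z, hxy, hxz, hyz, hpt⟩ := hc.points l
      have hl2 : ∃ s t, ∀ q, q ≠ p → inc q l → q = s ∨ q = t := by
        rcases (hpt p).1 hpl with rfl | rfl | rfl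
        · exact ⟨y, z, fun q hq h1 => by rcases (hpt q).1 h1 with h | h | h <;> tauto⟩
        · exact ⟨x, z, fun q hq h1 => by rcases (hpt q).1 h1 with h | h | h <;> tauto⟩
        · exact ⟨x, y, fun q hq h1 => by rcases (hpt q).1 h1 with h | h | h <;> tauto⟩
      obtain ⟨s, t, hst⟩ := hl2
      refine ⟨l, hl, s, t, fun q hq hheavy => ?_⟩
      have hql : inc q l := by
        rcases hq with ⟨_, h | ⟨h, _⟩⟩
        · exact h
        · exact absurd h hla
      by_cases hqp : q = p
      · exfalso
        subst hqp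
        obtain ⟨i, hi, j, hj, hil, hjl, hij, h1, h2⟩ := hheavy
        obtain ⟨x, y, z, hxy, hxz, hyz, hln⟩ := hc.lines q
        -- the third line `n` of `q`
        have hn : ∃ n, n ≠ l ∧ n ≠ m ∧ inc q n ∧ ∀ k, inc q k → k = l ∨ k = m ∨ k = n := by
          have k1 := (hln l).1 hpl
          have k2 := (hln m).1 hpm
          have ix := (hln x).2 (Or.inl rfl)
          have iy := (hln y).2 (Or.inr (Or.inl rfl))
          have iz := (hln z).2 (Or.inr (Or.inr rfl))
          rcases k1 with k1 | k1 | k1 <;> rcases k2 with k2 | k2 | k2 <;> subst k1 <;> subst k2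
          · exact absurd rfl hlm
          · exact ⟨z, hxz.symm, hyz.symm, iz, fun k hk => by have := (hln k).1 hk; tauto⟩
          · exact ⟨y, hxy.symm, hyz, iy, fun k hk => by have := (hln k).1 hk; tauto⟩
          · exact ⟨z, hyz.symm, hxz.symm, iz, fun k hk => by have := (hln k).1 hk; tauto⟩
          · exact absurd rfl hlm
          · exact ⟨x, hxy, hxz, ix, fun k hk => by have := (hln k).1 hk; tauto⟩
          · exact ⟨y, hyz, hxy.symm, iy, fun k hk => by have := (hln k).1 hk; tauto⟩
          · exact ⟨x, hxz, hxy, ix, fun k hk => by have := (hln k).1 hk; tauto⟩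
          · exact absurd rfl hlm
        obtain ⟨n, hnl, hnm, hqn, hall⟩ := hn
        have hib : i ≠ b := fun e => hbT (e ▸ hi)
        have hjb : j ≠ b := fun e => hbT (e ▸ hj)
        have cases' : ∀ i ∈ T, i ≠ l → inc0 inc c a b q i → i = n ∨ (i = a ∧ inc q b) := by
          rintro i hi hil ⟨_, h | h⟩
          · rcases hall i h with h | h | h
            · exact absurd h hil
            · exact absurd (h ▸ hi) hmT
            · exact Or.inl h
          · exact Or.inr h
        have hnb : inc q b → n = b := by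
          intro h
          rcases hall b h with h | h | h
          · exact absurd h.symm hlb
          · exact absurd h.symm hmb
          · exact h.symm
        rcases cases' i hi hil h1 with e1 | ⟨e1, f1⟩ <;> rcases cases' j hj hjl h2 with e2 | ⟨e2, f2⟩
        · exact hij (e1.trans e2.symm)
        · exact hib (e1.trans (hnb f2))
        · exact hjb (e2.trans (hnb f1))
        · exact hij (e1.trans e2.symm)
      · exact hst q hqp hql)
  exact split0 inc hc c a b d hab had hbd hcl lin0 h hr

/-- **Drawings from type 0 pairs.** -/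
theorem drawn_of_T0 (inc : P → L → Prop) (hc : Config inc) (conn : Conn inc) (c : P)
    (a b d : L) (hab : a ≠ b) (had : a ≠ d) (hbd : b ≠ d)
    (hcl : ∀ l, inc c l ↔ l = a ∨ l = b ∨ l = d) (h0 : T0 inc c a b) :
    ∃ H : L → ℝ → ℝ, Drawn inc Finset.univ H := by
  obtain ⟨a', b', d', h1, h2, h3, h4, h5, h6⟩ := alpha inc hc conn c a b d hab had hbd hcl h0
  exact drawn_of_peel0 inc hc c a' b' d' h1 h2 h3 h4 h5 h6

end

end PL3
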