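import Pool.Agent.Lib.MP_e3e9c0_co.Peel

/-!
# Drawings from type 1 pairs
-/

namespace PL3

section helpers
variable {P L : Type*}

lemma Config.pts {inc : P → L → Prop} (hc : Config inc) {l : L} {p : P} (hp : inc p l) :
    ∃ x y, x ≠ p ∧ y ≠ p ∧ ∀ z, inc z l → z = p ∨ z = x ∨ z = y := by
  obtain ⟨x, y, z, hxy, hxz, hyz, hpt⟩ := hc.points l
  rcases (hpt p).1 hp with rfl | rfl | rfl
  · exact ⟨y, z, hxy.symm, hxz.symm, fun w hw => (hpt w).1 hw⟩
  · exact ⟨x, z, hxy, hyz.symm, fun w hw => by have := (hpt w).1 hw; tauto⟩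
  · exact ⟨x, y, hxz, hyz, fun w hw => by have := (hpt w).1 hw; tauto⟩

lemma Config.pts2 {inc : P → L → Prop} (hc : Config inc) {l : L} {p q : P} (hp : inc p l)
    (hq : inc q l) (hpq : p ≠ q) :
    ∃ w, w ≠ p ∧ w ≠ q ∧ inc w l ∧ ∀ z, inc z l → z = p ∨ z = q ∨ z = w := by
  obtain ⟨x, y, z, hxy, hxz, hyz, hpt⟩ := hc.points l
  have ix := (hpt x).2 (Or.inl rfl)
  have iy := (hpt y).2 (Or.inr (Or.inl rfl))
  have iz := (hpt z).2 (Or.inr (Or.inr rfl))
  rcases (hpt p).1 hp with k1 | k1 | k1 <;> rcases (hpt q).1 hq with k2 | k2 | k2 <;>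
    subst k1 <;> subst k2
  · exact absurd rfl hpq
  · exact ⟨z, hxz.symm, hyz.symm, iz, fun k hk => by have := (hpt k).1 hk; tauto⟩
  · exact ⟨y, hxy.symm, hyz, iy, fun k hk => by have := (hpt k).1 hk; tauto⟩
  · exact ⟨z, hyz.symm, hxz.symm, iz, fun k hk => by have := (hpt k).1 hk; tauto⟩
  · exact absurd rfl hpq
  · exact ⟨x, hxy, hxz, ix, fun k hk => by have := (hpt k).1 hk; tauto⟩
  · exact ⟨y, hyz, hxy.symm, iy, fun k hk => by have := (hpt k).1 hk; tauto⟩
  · exact ⟨x, hxz, hxy, ix, fun k hk => by have := (hpt k).1 hk; tauto⟩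
  · exact absurd rfl hpq

lemma Config.lns {inc : P → L → Prop} (hc : Config inc) {p : P} {l : L} (hp : inc p l) :
    ∃ x y, x ≠ l ∧ y ≠ l ∧ x ≠ y ∧ inc p x ∧ inc p y ∧
      ∀ z, inc p z → z = l ∨ z = x ∨ z = y := by
  obtain ⟨x, y, z, hxy, hxz, hyz, hpt⟩ := hc.lines p
  have ix := (hpt x).2 (Or.inl rfl)
  have iy := (hpt y).2 (Or.inr (Or.inl rfl))
  have iz := (hpt z).2 (Or.inr (Or.inr rfl))
  rcases (hpt l).1 hp with rfl | rfl | rfl
  · exact ⟨y, z, hxy.symm, hxz.symm, hyz, iy, iz, fun w hw => (hpt w).1 hw⟩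
  · exact ⟨x, z, hxy, hyz.symm, hxz, ix, iz, fun w hw => by have := (hpt w).1 hw; tauto⟩
  · exact ⟨x, y, hxz, hyz, hxy, ix, iy, fun w hw => by have := (hpt w).1 hw; tauto⟩

lemma Config.lns2 {inc : P → L → Prop} (hc : Config inc) {p : P} {l m : L} (hl : inc p l)
    (hm : inc p m) (hlm : l ≠ m) :
    ∃ n, n ≠ l ∧ n ≠ m ∧ inc p n ∧ ∀ z, inc p z → z = l ∨ z = m ∨ z = n := by
  obtain ⟨x, y, z, hxy, hxz, hyz, hpt⟩ := hc.lines p
  have ix := (hpt x).2 (Or.inl rfl)
  have iy := (hpt y).2 (Or.inr (Or.inl rfl))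
  have iz := (hpt z).2 (Or.inr (Or.inr rfl))
  rcases (hpt l).1 hl with k1 | k1 | k1 <;> rcases (hpt m).1 hm with k2 | k2 | k2 <;>
    subst k1 <;> subst k2
  · exact absurd rfl hlm
  · exact ⟨z, hxz.symm, hyz.symm, iz, fun k hk => by have := (hpt k).1 hk; tauto⟩
  · exact ⟨y, hxy.symm, hyz, iy, fun k hk => by have := (hpt k).1 hk; tauto⟩
  · exact ⟨z, hyz.symm, hxz.symm, iz, fun k hk => by have := (hpt k).1 hk; tauto⟩
  · exact absurd rfl hlm
  · exact ⟨x, hxy, hxz, ix, fun k hk => by have := (hpt k).1 hk; tauto⟩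
  · exact ⟨y, hyz, hxy.symm, iy, fun k hk => by have := (hpt k).1 hk; tauto⟩
  · exact ⟨x, hxz, hxy, ix, fun k hk => by have := (hpt k).1 hk; tauto⟩
  · exact absurd rfl hlm

/-- three distinct elements do not fit in two places. -/
lemma three_two {l i j y a : L} (h1 : l = y ∨ l = a) (h2 : i = y ∨ i = a) (h3 : j = y ∨ j = a)
    (hil : i ≠ l) (hjl : j ≠ l) (hij : i ≠ j) : False := by
  rcases h1 with rfl | rfl <;> rcases h2 with rfl | rfl <;> rcases h3 with rfl | rfl <;>
    first | exact hil rfl | exact hjl rfl | exact hij rfl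

lemma or_help1 {l x y a : L} {q : Prop} (h : (l = x ∨ l = y) ∨ (l = a ∧ q)) (hx : l ≠ x) :
    l = y ∨ l = a := by tauto

lemma or_help2 {l x y a : L} {q : Prop} (h : (l = x ∨ l = y) ∨ (l = a ∧ q)) (hx : l ≠ y) :
    l = x ∨ l = a := by tauto

lemma or_help3 {l x y a : L} {q : Prop} (h : (l = x ∨ l = y) ∨ (l = a ∧ q)) (hq : ¬ q) :
    l = x ∨ l = y := by tauto

lemma or_help4 {l x y z : L} (h : l = x ∨ l = y ∨ l = z) (hx : l ≠ x) : l = y ∨ l = z := by tauto

lemma or_help5 {i a M X Y : L} (h : i = a ∨ i = M ∨ i = X ∨ i = Y) (hM : i ≠ M) :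
    i = a ∨ i = X ∨ i = Y := by tauto

end helpers

section
variable {P L : Type*} [DecidableEq L] [Fintype L] [DecidableEq P] [Fintype P]

/-- A type 1 pair: exactly one line `M` meets `a` and `b` off `c`, in `u` and `q`; the third lines
`X` of `u` and `Y` of `q` are disjoint. -/
structure T1 (inc : P → L → Prop) (c u q : P) (a b d M X Y : L) : Prop where
  hab : a ≠ b
  had : a ≠ d
  hbd : b ≠ d
  hcl : ∀ l, inc c l ↔ l = a ∨ l = b ∨ l = d
  hul : ∀ l, inc u l ↔ l = a ∨ l = M ∨ l = X
  hql : ∀ l, inc q l ↔ l = b ∨ l = M ∨ l = Y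
  huc : u ≠ c
  hqc : q ≠ c
  haM : a ≠ M
  haX : a ≠ X
  hMX : M ≠ X
  hbM : b ≠ M
  hbY : b ≠ Y
  hMY : M ≠ Y
  uniq : ∀ p p' m, p ≠ c → p' ≠ c → inc p a → inc p' b → inc p m → inc p' m → p = u ∧ p' = q
  disj : ∀ x, inc x X → inc x Y → False

theorem drawn_of_T1 (inc : P → L → Prop) (hc : Config inc) (conn : Conn inc) (c u q : P)
    (a b d M X Y : L) (t : T1 inc c u q a b d M X Y) :
    ∃ H : L → ℝ → ℝ, Drawn inc Finset.univ H := by
  classical
  obtain ⟨hab, had, hbd, hcl, hul, hql, huc, hqc, haM, haX, hMX, hbM, hbY, hMY, uniq, disj⟩ := t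
  have ca : inc c a := (hcl a).2 (by simp)
  have cb : inc c b := (hcl b).2 (by simp)
  have cd : inc c d := (hcl d).2 (by simp)
  have ua : inc u a := (hul a).2 (by simp)
  have uM : inc u M := (hul M).2 (by simp)
  have uX : inc u X := (hul X).2 (by simp)
  have qb : inc q b := (hql b).2 (by simp)
  have qM : inc q M := (hql M).2 (by simp)
  have qY : inc q Y := (hql Y).2 (by simp)
  have exab : ∀ p, p ≠ c → inc p a → inc p b → False := fun p h1 h2 h3 =>
    h1 (hc.lin a b hab p c h2 h3 ca cb)
  have exad : ∀ p, p ≠ c → inc p a → inc p d → False := fun p h1 h2 h3 =>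
    h1 (hc.lin a d had p c h2 h3 ca cd)
  have exbd : ∀ p, p ≠ c → inc p b → inc p d → False := fun p h1 h2 h3 =>
    h1 (hc.lin b d hbd p c h2 h3 cb cd)
  have nqa : ¬ inc q a := fun e => exab q hqc e qb
  have nqd : ¬ inc q d := fun e => exbd q hqc qb e
  have nub : ¬ inc u b := fun e => exab u huc ua e
  have nud : ¬ inc u d := fun e => exad u huc ua e
  have huq : u ≠ q := fun e => nqa (e ▸ ua)
  have hXb : X ≠ b := fun e => nub (e ▸ uX)
  have hXd : X ≠ d := fun e => nud (e ▸ uX)
  have hMd : M ≠ d := fun e => nud (e ▸ uM)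
  have hYa : Y ≠ a := fun e => nqa (e ▸ qY)
  have hYd : Y ≠ d := fun e => nqd (e ▸ qY)
  have hXY : X ≠ Y := by
    rintro rfl
    exact huq (hc.lin M X hMX u q uM uX qM qY)
  -- description of the contracted incidence
  have i1 : ∀ p l, p ≠ u → l ≠ a → inc1 inc c u q a b p l → inc p l := by
    rintro p l hp hl ⟨_, _, h | ⟨h, _⟩ | ⟨h, _⟩⟩
    · exact h
    · exact absurd h hl
    · exact absurd h hp
  have ia : ∀ p, inc1 inc c u q a b p a → inc p a ∨ inc p b := by
    rintro p ⟨_, _, h1 | ⟨_, h1⟩ | ⟨_, h1⟩⟩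
    · exact Or.inl h1
    · exact Or.inr h1
    · exact absurd h1 nqa
  have iu : ∀ l, l ≠ b → inc1 inc c u q a b u l → l = a ∨ l = M ∨ l = X ∨ l = Y := by
    rintro l hl ⟨_, _, h1 | ⟨h1, _⟩ | ⟨_, h1⟩⟩
    · rcases (hul l).1 h1 with h | h | h <;> tauto
    · exact Or.inl h1
    · rcases (hql l).1 h1 with h | h | h
      · exact absurd h hl
      · tauto
      · tauto
  have lin1 : ∀ i ∈ Finset.univ.erase b, ∀ j ∈ Finset.univ.erase b, i ≠ j → ∀ p p',
      inc1 inc c u q a b p i → inc1 inc c u q a b p j → inc1 inc c u q a b p' i →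
      inc1 inc c u q a b p' j → p = p' := by
    -- one line is `a`, both points different from `u`
    have keya : ∀ j, j ≠ b → a ≠ j → ∀ p p', p ≠ u → p' ≠ u →
        inc1 inc c u q a b p a → inc1 inc c u q a b p j → inc1 inc c u q a b p' a →
        inc1 inc c u q a b p' j → p = p' := by
      intro j hj haj p p' hp hp' h1 h2 h3 h4
      have h2' := i1 p j hp haj.symm h2
      have h4' := i1 p' j hp' haj.symm h4
      rcases ia p h1 with e1 | e1 <;> rcases ia p' h3 with e2 | e2
      · exact hc.lin a j haj p p' e1 h2' e2 h4'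
      · exact absurd (uniq p p' j h1.1 h3.1 e1 e2 h2' h4').1 hp
      · exact absurd (uniq p' p j h3.1 h1.1 e2 e1 h4' h2').1 hp'
      · exact hc.lin b j hj.symm p p' e1 h2' e2 h4'
    -- one point is `u`, the other is not
    have keyu : ∀ i j, i ≠ b → j ≠ b → i ≠ j → ∀ p, p ≠ u →
        inc1 inc c u q a b u i → inc1 inc c u q a b u j → inc1 inc c u q a b p i →
        inc1 inc c u q a b p j → False := by
      intro i j hi hj hij p hp h1 h2 h3 h4
      have hpc := h3.1
      have hpq := h3.2.1
      -- `p` and `a` together with one of `M`, `X`, `Y`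
      have aM : inc1 inc c u q a b p a → inc1 inc c u q a b p M → False := by
        intro e1 e2
        have e2' := i1 p M hp haM.symm e2
        rcases ia p e1 with e1 | e1
        · exact hp (hc.lin a M haM p u e1 e2' ua uM)
        · exact hpq (hc.lin b M hbM p q e1 e2' qb qM)
      have aX : inc1 inc c u q a b p a → inc1 inc c u q a b p X → False := by
        intro e1 e2
        have e2' := i1 p X hp haX.symm e2
        rcases ia p e1 with e1 | e1
        · exact hp (hc.lin a X haX p u e1 e2' ua uX)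
        · exact hpq (uniq u p X huc hpc ua e1 uX e2').2
      have aY : inc1 inc c u q a b p a → inc1 inc c u q a b p Y → False := by
        intro e1 e2
        have e2' := i1 p Y hp hYa e2
        rcases ia p e1 with e1 | e1
        · exact hp (uniq p q Y hpc hqc e1 qb e2' qY).1
        · exact hpq (hc.lin b Y hbY p q e1 e2' qb qY)
      have MX : inc1 inc c u q a b p M → inc1 inc c u q a b p X → False := by
        intro e1 e2
        exact hp (hc.lin M X hMX p u (i1 p M hp haM.symm e1) (i1 p X hp haX.symm e2) uM uX)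
      have MY : inc1 inc c u q a b p M → inc1 inc c u q a b p Y → False := by
        intro e1 e2
        exact hpq (hc.lin M Y hMY p q (i1 p M hp haM.symm e1) (i1 p Y hp hYa e2) qM qY)
      have XY : inc1 inc c u q a b p X → inc1 inc c u q a b p Y → False := by
        intro e1 e2
        exact disj p (i1 p X hp haX.symm e1) (i1 p Y hp hYa e2)
      rcases iu i hi h1 with rfl | rfl | rfl | rfl <;> rcases iu j hj h2 with rfl | rfl | rfl | rfl
      · exact hij rfl
      · exact aM h3 h4
      · exact aX h3 h4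
      · exact aY h3 h4
      · exact aM h4 h3
      · exact hij rfl
      · exact MX h3 h4
      · exact MY h3 h4
      · exact aX h4 h3
      · exact MX h4 h3
      · exact hij rfl
      · exact XY h3 h4
      · exact aY h4 h3
      · exact MY h4 h3
      · exact XY h4 h3
      · exact hij rfl
    intro i hi j hj hij p p' h1 h2 h3 h4
    have hi' := Finset.ne_of_mem_erase hi
    have hj' := Finset.ne_of_mem_erase hj
    by_cases hpu : p = u
    · by_cases hpu' : p' = u
      · rw [hpu, hpu']
      · subst hpu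
        exact absurd (keyu i j hi' hj' hij p' hpu' h1 h2 h3 h4) id
    · by_cases hpu' : p' = u
      · subst hpu'
        exact absurd (keyu i j hi' hj' hij p hpu h3 h4 h1 h2) id
      · by_cases hia : i = a
        · subst hia; exact keya j hj' hij p p' hpu hpu' h1 h2 h3 h4
        · by_cases hja : j = a
          · subst hja; exact keya i hi' hij.symm p p' hpu hpu' h2 h1 h4 h3
          · exact hc.lin i j hij p p' (i1 p i hpu hia h1) (i1 p j hpu hja h2)
              (i1 p' i hpu' hia h3) (i1 p' j hpu' hja h4)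
  by_cases deg : ∀ T ⊆ Finset.univ.erase b, T.Nonempty → ∃ l ∈ T, ∃ p₁ p₂ : P, ∀ p,
      inc1 inc c u q a b p l → (∃ i ∈ T, ∃ j ∈ T, i ≠ l ∧ j ≠ l ∧ i ≠ j ∧
        inc1 inc c u q a b p i ∧ inc1 inc c u q a b p j) → p = p₁ ∨ p = p₂
  · obtain ⟨h, hr⟩ := realize_of_degenerate (inc1 inc c u q a b) (Finset.univ.erase b) lin1 deg
    exact split1 inc hc c u q a b d M X Y hab had hbd hcl hul hql huc hqc haM haX hMX hbM hbY hMY
      lin1 h hr
  · push Not at deg
    obtain ⟨T, hTU, hTne, hT⟩ := deg
    have hbT : b ∉ T := fun e => (Finset.ne_of_mem_erase (hTU e)) rfl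
    -- `d ∉ T`
    have hdT : d ∉ T := by
      intro hd
      obtain ⟨s, t, hs, ht, hst⟩ := hc.pts cd
      obtain ⟨p, hp, _, h1, h2⟩ := hT d hd s t
      have hpd : inc p d := by
        rcases hp with ⟨_, _, h | ⟨h, _⟩ | ⟨_, h⟩⟩
        · exact h
        · exact absurd h.symm had
        · exact absurd h nqd
      rcases hst p hpd with h | h | h
      · exact hp.1 h
      · exact h1 h
      · exact h2 h
    -- third point of `M`
    obtain ⟨w, hwu, hwq, hwM, hMpts⟩ := hc.pts2 uM qM huq
    have hMT : M ∉ T := by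
      intro hM
      obtain ⟨p, hp, _, h1, h2⟩ := hT M hM u w
      have : inc p M := i1 p M h1 haM.symm hp
      rcases hMpts p this with h | h | h
      · exact h1 h
      · exact hp.2.1 h
      · exact h2 h
    -- generic points of a line `≠ a` are heavy
    have heavyG : ∀ l ∈ T, l ≠ a → ∀ p, inc p l → p ≠ c → p ≠ q →
        ∃ i ∈ T, ∃ j ∈ T, i ≠ l ∧ j ≠ l ∧ i ≠ j ∧
        inc1 inc c u q a b p i ∧ inc1 inc c u q a b p j := by
      intro l hl hla p hpl hpc hpq
      obtain ⟨x, y, hx, hy, hxy⟩ := hc.pts hpl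
      obtain ⟨p', hp', hh, h1, h2⟩ := hT l hl (if x = q then u else x) (if y = q then u else y)
      have : p' = p := by
        rcases hp' with ⟨hp'c, hp'q, h | ⟨h, _⟩ | ⟨h, h'⟩⟩
        · rcases hxy p' h with e | e | e
          · exact e
          · exfalso; apply h1; rw [if_neg (fun e' => hp'q (e.trans e')), e]
          · exfalso; apply h2; rw [if_neg (fun e' => hp'q (e.trans e')), e]
        · exact absurd h hla
        · exfalso
          rcases hxy q h' with e | e | e
          · exact hpq e.symm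
          · apply h1; rw [if_pos e.symm, h]
          · apply h2; rw [if_pos e.symm, h]
      rw [this] at hh
      exact hh
    -- consequences of heaviness for points different from `u`
    have heavyC : ∀ l ∈ T, ∀ p, p ≠ c → p ≠ q → p ≠ u → inc1 inc c u q a b p l →
        (∃ i ∈ T, ∃ j ∈ T, i ≠ l ∧ j ≠ l ∧ i ≠ j ∧
          inc1 inc c u q a b p i ∧ inc1 inc c u q a b p j) →
        (∀ m, m ≠ b → inc p m → m ∈ T) := by
      rintro l hl p hpc hpq hpu hpl ⟨i, hi, j, hj, hil, hjl, hij, h1, h2⟩ m hmb hpm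
      by_contra hmT
      have hlb : l ≠ b := fun e => hbT (e ▸ hl)
      have hib : i ≠ b := fun e => hbT (e ▸ hi)
      have hjb : j ≠ b := fun e => hbT (e ▸ hj)
      have hml : m ≠ l := fun e => hmT (e ▸ hl)
      have hmi : m ≠ i := fun e => hmT (e ▸ hi)
      have hmj : m ≠ j := fun e => hmT (e ▸ hj)
      obtain ⟨x, y, hx, hy, hxy, hpx, hpy, hall⟩ := hc.lns hpm
      -- each of `l`, `i`, `j` is `x`, `y` or (`a` with `inc p b`)
      have cs : ∀ k, k ≠ m → inc1 inc c u q a b p k → (k = x ∨ k = y) ∨ (k = a ∧ inc p b) := by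
        rintro k hk ⟨_, _, h | h | ⟨h, _⟩⟩
        · rcases hall k h with e | e | e
          · exact absurd e hk
          · exact Or.inl (Or.inl e)
          · exact Or.inl (Or.inr e)
        · exact Or.inr h
        · exact absurd h hpu
      have c1 := cs l hml.symm hpl
      have c2 := cs i hmi.symm h1
      have c3 := cs j hmj.symm h2
      -- if `inc p b` then `b` is `x` or `y`
      have hb : inc p b → x = b ∨ y = b := by
        intro h
        rcases hall b h with e | e | e
        · exact absurd e.symm hmb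
        · exact Or.inl e.symm
        · exact Or.inr e.symm
      by_cases hpb : inc p b
      · rcases hb hpb with e | e
        · subst e
          exact three_two (or_help1 c1 hlb) (or_help1 c2 hib) (or_help1 c3 hjb) hil hjl hij
        · subst e
          exact three_two (or_help2 c1 hlb) (or_help2 c2 hib) (or_help2 c3 hjb) hil hjl hij
      · exact three_two (or_help3 c1 hpb) (or_help3 c2 hpb) (or_help3 c3 hpb) hil hjl hij
    have heavyB : ∀ l ∈ T, ∀ p, p ≠ c → p ≠ q → p ≠ u → inc p l → inc p b →
        (∃ i ∈ T, ∃ j ∈ T, i ≠ l ∧ j ≠ l ∧ i ≠ j ∧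
          inc1 inc c u q a b p i ∧ inc1 inc c u q a b p j) → a ∈ T := by
      rintro l hl p hpc hpq hpu hpl hpb ⟨i, hi, j, hj, hil, hjl, hij, h1, h2⟩
      by_contra haT
      have hlb : l ≠ b := fun e => hbT (e ▸ hl)
      have hib : i ≠ b := fun e => hbT (e ▸ hi)
      have hjb : j ≠ b := fun e => hbT (e ▸ hj)
      have hia : i ≠ a := fun e => haT (e ▸ hi)
      have hja : j ≠ a := fun e => haT (e ▸ hj)
      obtain ⟨x, y, hx, hy, hxy, hpx, hpy, hall⟩ := hc.lns hpb
      have k1 := or_help4 (hall l hpl) hlb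
      have k2 := or_help4 (hall i (i1 p i hpu hia h1)) hib
      have k3 := or_help4 (hall j (i1 p j hpu hja h2)) hjb
      exact three_two k1 k2 k3 hil hjl hij
    -- heaviness of `u`
    have heavyU : ∀ l ∈ T, (l = a ∨ l = X ∨ l = Y) →
        (∃ i ∈ T, ∃ j ∈ T, i ≠ l ∧ j ≠ l ∧ i ≠ j ∧
          inc1 inc c u q a b u i ∧ inc1 inc c u q a b u j) → a ∈ T ∧ X ∈ T ∧ Y ∈ T := by
      rintro l hl hl' ⟨i, hi, j, hj, hil, hjl, hij, h1, h2⟩
      have hib : i ≠ b := fun e => hbT (e ▸ hi)
      have hjb : j ≠ b := fun e => hbT (e ▸ hj)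
      have hiM : i ≠ M := fun e => hMT (e ▸ hi)
      have hjM : j ≠ M := fun e => hMT (e ▸ hj)
      have d2 := or_help5 (iu i hib h1) hiM
      have d3 := or_help5 (iu j hjb h2) hjM
      rcases hl' with rfl | rfl | rfl <;> rcases d2 with rfl | rfl | rfl <;>
        rcases d3 with rfl | rfl | rfl <;>
        first
          | exact absurd rfl hil
          | exact absurd rfl hjl
          | exact absurd rfl hij
          | exact ⟨by assumption, by assumption, by assumption⟩
    have hXT : X ∈ T → a ∈ T ∧ X ∈ T ∧ Y ∈ T := fun hX =>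
      heavyU X hX (Or.inr (Or.inl rfl)) (heavyG X hX haX.symm u uX huc huq)
    have hYT : Y ∈ T → a ∈ T ∧ X ∈ T ∧ Y ∈ T := by
      intro hY
      refine heavyU Y hY (Or.inr (Or.inr rfl)) ?_
      obtain ⟨x, y, hx, hy, hxy⟩ := hc.pts qY
      obtain ⟨p', hp', hh, h1, h2⟩ := hT Y hY x y
      have : p' = u := by
        rcases hp' with ⟨hp'c, hp'q, h | ⟨h, _⟩ | ⟨h, h'⟩⟩
        · rcases hxy p' h with e | e | e
          · exact absurd e hp'q
          · exact absurd e h1
          · exact absurd e h2
        · exact absurd h hYa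
        · exact h
      rw [this] at hh
      exact hh
    -- `a ∈ T`
    have haT : a ∈ T := by
      by_contra haT
      have hX : X ∉ T := fun h => haT (hXT h).1
      have hY : Y ∉ T := fun h => haT (hYT h).1
      have : T = Finset.univ := conn T hTne (by
        intro l hl p hpl m hpm
        have hla : l ≠ a := fun e => haT (e ▸ hl)
        have hlb : l ≠ b := fun e => hbT (e ▸ hl)
        have hld : l ≠ d := fun e => hdT (e ▸ hl)
        have hlM : l ≠ M := fun e => hMT (e ▸ hl)
        have hlX : l ≠ X := fun e => hX (e ▸ hl)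
        have hlY : l ≠ Y := fun e => hY (e ▸ hl)
        have hpc : p ≠ c := by
          rintro rfl; rcases (hcl l).1 hpl with h | h | h <;> contradiction
        have hpu : p ≠ u := by
          rintro rfl; rcases (hul l).1 hpl with h | h | h <;> contradiction
        have hpq : p ≠ q := by
          rintro rfl; rcases (hql l).1 hpl with h | h | h <;> contradiction
        have hh := heavyG l hl hla p hpl hpc hpq
        have hmb : m ≠ b := by
          rintro rfl
          exact haT (heavyB l hl p hpc hpq hpu hpl hpm hh)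
        exact heavyC l hl p hpc hpq hpu ⟨hpc, hpq, Or.inl hpl⟩ hh m hmb hpm)
      exact haT (this ▸ Finset.mem_univ a)
    -- points of `a` in the contracted structure
    obtain ⟨v, hvc, hvu, hva, haPts⟩ := hc.pts2 ca ua huc.symm
    obtain ⟨r, hrc, hrq, hrb, hbPts⟩ := hc.pts2 cb qb hqc.symm
    have hvq : v ≠ q := fun e => nqa (e ▸ hva)
    have hru : r ≠ u := fun e => nub (e ▸ hrb)
    have aPts1 : ∀ p, inc1 inc c u q a b p a → p = u ∨ p = v ∨ p = r := by
      intro p hp
      rcases ia p hp with h | h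
      · rcases haPts p h with e | e | e
        · exact absurd e hp.1
        · exact Or.inl e
        · exact Or.inr (Or.inl e)
      · rcases hbPts p h with e | e | e
        · exact absurd e hp.1
        · exact absurd e hp.2.1
        · exact Or.inr (Or.inr e)
    have heavyu : a ∈ T ∧ X ∈ T ∧ Y ∈ T := by
      refine heavyU a haT (Or.inl rfl) ?_
      obtain ⟨p', hp', hh, h1, h2⟩ := hT a haT v r
      have : p' = u := by
        rcases aPts1 p' hp' with e | e | e
        · exact e
        · exact absurd e h1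
        · exact absurd e h2
      rw [this] at hh
      exact hh
    have heavyv : ∀ m, m ≠ b → inc v m → m ∈ T := by
      obtain ⟨p', hp', hh, h1, h2⟩ := hT a haT u r
      have : p' = v := by
        rcases aPts1 p' hp' with e | e | e
        · exact absurd e h1
        · exact e
        · exact absurd e h2
      rw [this] at hh hp'
      exact heavyC a haT v hvc hvq hvu hp' hh
    have heavyr : ∀ m, m ≠ b → inc r m → m ∈ T := by
      obtain ⟨p', hp', hh, h1, h2⟩ := hT a haT u v
      have : p' = r := by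
        rcases aPts1 p' hp' with e | e | e
        · exact absurd e h1
        · exact absurd e h2
        · exact e
      rw [this] at hh hp'
      exact heavyC a haT r hrc hrq hru hp' hh
    -- a point off `c`, `u`, `q` on a line outside `T ∪ {b}` has all its lines outside
    have key : ∀ p, p ≠ c → p ≠ u → p ≠ q → ∀ m, inc p m → m ∉ T → m ≠ b →
        ∀ m', inc p m' → m' ∉ T ∧ m' ≠ b := by
      intro p hpc hpu hpq m hpm hmT hmb m' hpm'
      constructor
      · intro hm'T
        by_cases hm'a : m' = a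
        · subst hm'a
          rcases haPts p hpm' with e | e | e
          · exact hpc e
          · exact hpu e
          · subst e; exact hmT (heavyv m hmb hpm)
        · exact hmT (heavyC m' hm'T p hpc hpq hpu ⟨hpc, hpq, Or.inl hpm'⟩
            (heavyG m' hm'T hm'a p hpm' hpc hpq) m hmb hpm)
      · rintro rfl
        rcases hbPts p hpm' with e | e | e
        · exact hpc e
        · exact hpq e
        · subst e; exact hmT (heavyr m hmb hpm)
    have hwc : w ≠ c := by
      rintro rfl
      rcases (hcl M).1 hwM with h | h | h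
      · exact haM h.symm
      · exact hbM h.symm
      · exact hMd h
    by_cases hwd : inc w d
    · -- the pair `M`, `Λ` at `w`
      obtain ⟨Λ, hΛ1, hΛ2, hΛ3, hall⟩ := hc.lns2 hwM hwd hMd
      have hΛT := key w hwc hwu hwq M hwM hMT hbM.symm Λ hΛ3
      have hΛa : Λ ≠ a := fun e => hΛT.1 (e ▸ haT)
      have hΛX : Λ ≠ X := fun e => hΛT.1 (e ▸ heavyu.2.1)
      have hΛY : Λ ≠ Y := fun e => hΛT.1 (e ▸ heavyu.2.2)
      refine drawn_of_T0 inc hc conn w M Λ d hΛ1.symm hMd hΛ2 (fun l => ⟨fun h => ?_, ?_⟩) ?_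
      · have := hall l h; tauto
      · rintro (rfl | rfl | rfl)
        · exact hwM
        · exact hΛ3
        · exact hwd
      · intro p p' m hpw hp'w hpM hp'Λ hpm hp'm
        have h1 : p' ≠ c := by
          rintro rfl; rcases (hcl Λ).1 hp'Λ with h | h | h
          · exact hΛa h
          · exact hΛT.2 h
          · exact hΛ2 h
        have h2 : p' ≠ u := by
          rintro rfl; rcases (hul Λ).1 hp'Λ with h | h | h
          · exact hΛa h
          · exact hΛ1 h
          · exact hΛX h
        have h3 : p' ≠ q := by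
          rintro rfl; rcases (hql Λ).1 hp'Λ with h | h | h
          · exact hΛT.2 h
          · exact hΛ1 h
          · exact hΛY h
        have h4 := key p' h1 h2 h3 Λ hp'Λ hΛT.1 hΛT.2 m hp'm
        have h5 : m = M := by
          rcases hMpts p hpM with e | e | e
          · subst e
            rcases (hul m).1 hpm with h | h | h
            · exact absurd (h ▸ haT) h4.1
            · exact h
            · exact absurd (h ▸ heavyu.2.1) h4.1
          · subst e
            rcases (hql m).1 hpm with h | h | h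
            · exact absurd h h4.2
            · exact h
            · exact absurd (h ▸ heavyu.2.2) h4.1
          · exact absurd e hpw
        subst h5
        exact hp'w (hc.lin m Λ hΛ1.symm p' w hp'm hp'Λ hwM hΛ3)
    · -- the pair `d`, `a` at `c`
      refine drawn_of_T0 inc hc conn c d a b had.symm hbd.symm hab (fun l => ?_) ?_
      · rw [hcl]; tauto
      · intro p p' m hpc hp'c hpd hp'a hpm hp'm
        have hpu : p ≠ u := fun e => nud (e ▸ hpd)
        have hpq : p ≠ q := fun e => nqd (e ▸ hpd)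
        have h4 := key p hpc hpu hpq d hpd hdT hbd.symm m hpm
        rcases haPts p' hp'a with e | e | e
        · exact hp'c e
        · subst e
          rcases (hul m).1 hp'm with h | h | h
          · exact h4.1 (h ▸ haT)
          · subst h
            rcases hMpts p hpm with e | e | e
            · exact hpu e
            · exact hpq e
            · exact hwd (e ▸ hpd)
          · exact h4.1 (h ▸ heavyu.2.1)
        · subst e
          exact h4.1 (heavyv m h4.2 hp'm)

end

end PL3
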