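import Pool.Agent.Lib.MP_e3e9c0_co.SearchDefs
import Pool.Agent.Lib.MP_e3e9c0_co.PeelB

/-!
# The finite search: soundness
-/

namespace PL3

/-- a drawing in integer time, constant far out -/
def DrawnZ {P L : Type*} [Fintype L] (inc : P → L → Prop) : Prop :=
  ∃ h : L → ℤ → ℝ, Drawn inc Finset.univ h ∧ Bdd Finset.univ h

/-- at most the pair `(u,q)` of points of `a`, `b` off `c` is collinear -/
def Uniq {P L : Type*} (inc : P → L → Prop) (c : P) (a b : L) (u q : P) : Prop :=
  ∀ p p' m, p ≠ c → p' ≠ c → inc p a → inc p' b → inc p m → inc p' m → p = u ∧ p' = q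

namespace Search

lemma fo_eq {α : Type} (n : ℕ) (f : ℕ → α) : fo n f = f n := by cases n <;> rfl

lemma foL_eq {α : Type} (l : List ℕ) (f : List ℕ → α) : foL l f = f l := by
  induction l generalizing f with
  | nil => rfl
  | cons t tl ih =>
    show fo t (fun t' => foL tl (fun l' => f (t' :: l'))) = f (t :: tl)
    rw [fo_eq, ih]

lemma foS_eq {α : Type} (st : St) (f : St → α) : foS st f = f st := by
  obtain ⟨s, m, p, lo⟩ := st
  cases s with
  | nil => simp only [foS, fo_eq]
  | cons t tl => simp only [foS, fo_eq]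

lemma nbeq_true {a b : ℕ} : Nat.beq a b = true ↔ a = b := by
  rw [Nat.beq_eq]

lemma nbeq_false {a b : ℕ} : Nat.beq a b = false ↔ a ≠ b := by
  rw [← Bool.not_eq_true, nbeq_true]

lemma nble_true {a b : ℕ} : Nat.ble a b = true ↔ a ≤ b := by
  rw [Nat.ble_eq]

lemma tb_eq (t x : ℕ) : tb t x = t.testBit x := by
  have h1 : Nat.land (Nat.shiftRight t x) 1 = (t >>> x) % 2 := Nat.and_one_is_mod _
  unfold tb
  rw [h1, Nat.testBit_eq_decide_div_mod_eq, Nat.shiftRight_eq_div_pow]
  by_cases h : t / 2 ^ x % 2 = 1
  · rw [h]; rfl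
  · have : t / 2 ^ x % 2 = 0 := by omega
    rw [this]; rfl

lemma nbm_spec (s : List ℕ) (x y : ℕ) :
    tb (nbm s x) y = true ↔ ∃ t ∈ s, t.testBit x = true ∧ t.testBit y = true := by
  induction s with
  | nil => 
    rw [tb_eq]
    simp [nbm]
  | cons t tl ih =>
    show tb (cond (tb t x) (Nat.lor t (nbm tl x)) (nbm tl x)) y = true ↔ _
    by_cases h : t.testBit x = true
    · rw [tb_eq t x, h]
      show tb (t ||| nbm tl x) y = true ↔ _
      rw [tb_eq, Nat.testBit_or, Bool.or_eq_true, ← tb_eq (nbm tl x), ih]
      simp [h]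
    · have h' : t.testBit x = false := by simpa using h
      rw [tb_eq t x, h']
      show tb (nbm tl x) y = true ↔ _
      rw [ih]
      simp [h']

lemma nbx_spec (s : List ℕ) (u A q x : ℕ) :
    (nbx s u A q).testBit x = true ↔
      ∃ t ∈ s, t.testBit u = true ∧ t ≠ A ∧ t.testBit q = false ∧ t.testBit x = true := by
  induction s with
  | nil => simp [nbx]
  | cons t tl ih =>
    show (cond (tb t u && !Nat.beq t A && !tb t q) (Nat.lor t (nbx tl u A q)) (nbx tl u A q)).testBit x
      = true ↔ _
    by_cases h : (tb t u && !Nat.beq t A && !tb t q) = true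
    · rw [h]
      show (t ||| nbx tl u A q).testBit x = true ↔ _
      rw [Nat.testBit_or, Bool.or_eq_true, ih]
      simp only [Bool.and_eq_true, Bool.not_eq_true', tb_eq, nbeq_false] at h
      simp [h.1.1, h.1.2, h.2]
    · have h' : (tb t u && !Nat.beq t A && !tb t q) = false := by simpa using h
      rw [h']
      show (nbx tl u A q).testBit x = true ↔ _
      rw [ih]
      constructor
      · rintro ⟨t', h1, h2⟩
        exact ⟨t', List.mem_cons_of_mem _ h1, h2⟩
      · rintro ⟨t', h1, h2⟩
        rcases List.mem_cons.1 h1 with rfl | h1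
        · exfalso
          apply h
          simp only [Bool.and_eq_true, Bool.not_eq_true', tb_eq, nbeq_false]
          exact ⟨⟨h2.1, h2.2.1⟩, h2.2.2.1⟩
        · exact ⟨t', h1, h2⟩

lemma nth_mem (s : List ℕ) (i : ℕ) : nth s i ∈ s ∨ nth s i = 0 := by
  induction s generalizing i with
  | nil => right; rfl
  | cons t tl ih =>
    cases i with
    | zero => left; exact List.mem_cons_self
    | succ k =>
      have : nth (t :: tl) (k + 1) = nth tl k := rfl
      rw [this]
      rcases ih k with h | h
      · left; exact List.mem_cons_of_mem _ h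
      · right; exact h

lemma filt_eq (f : ℕ → Bool) (l : List ℕ) : filt f l = l.filter f := by
  induction l with
  | nil => rfl
  | cons t tl ih =>
    show cond (f t) (t :: filt f tl) (filt f tl) = _
    rw [ih, List.filter_cons]
    cases f t <;> rfl

lemma mem'_spec (x : ℕ) (l : List ℕ) : mem' x l = true ↔ x ∈ l := by
  induction l with
  | nil => simp [mem']
  | cons t tl ih =>
    show (Nat.beq x t || mem' x tl) = true ↔ _
    rw [Bool.or_eq_true, ih, List.mem_cons, nbeq_true]

lemma all'_spec (f : ℕ → Bool) (l : List ℕ) : all' f l = true ↔ ∀ x ∈ l, f x = true := by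
  induction l with
  | nil => simp [all']
  | cons t tl ih =>
    show (f t && all' f tl) = true ↔ _
    rw [Bool.and_eq_true, ih]
    simp

lemma mem_below {x m : ℕ} : x ∈ below m ↔ x < m := List.mem_range

lemma shiftOne (x : ℕ) : Nat.shiftLeft 1 x = 2 ^ x := by
  have : Nat.shiftLeft 1 x = 1 <<< x := rfl
  rw [this, Nat.shiftLeft_eq, one_mul]

lemma mapMask_spec (perm t : ℕ) (ks : List ℕ) (y : ℕ) :
    (mapMask perm t ks).testBit y = true ↔ ∃ k ∈ ks, t.testBit k = true ∧ pget perm k = y := by
  induction ks with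
  | nil => simp [mapMask]
  | cons k tl ih =>
    show (cond (tb t k) (Nat.lor (Nat.shiftLeft 1 (pget perm k)) (mapMask perm t tl))
      (mapMask perm t tl)).testBit y = true ↔ _
    by_cases h : t.testBit k = true
    · rw [tb_eq, h]
      show (Nat.shiftLeft 1 (pget perm k) ||| mapMask perm t tl).testBit y = true ↔ _
      rw [Nat.testBit_or, Bool.or_eq_true, ih, shiftOne, Nat.testBit_two_pow]
      simp [h]
    · have h' : t.testBit k = false := by simpa using h
      rw [tb_eq, h']
      show (mapMask perm t tl).testBit y = true ↔ _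
      rw [ih]
      simp [h']

end Search
end PL3
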