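import Pool.Agent.Lib.MP_e3e9c0_co.Search

/-!
# The finite search: soundness of the checks
-/

namespace PL3.Search

open PL3

variable {P L : Type*}

/-- `t` is the mask of the line `l`, all of whose points are labelled. -/
def Rep (inc : P → L → Prop) (φ : ℕ → P) (m t : ℕ) (l : L) : Prop :=
  (∀ k, t.testBit k = true → k < m) ∧ ∀ x, inc x l ↔ ∃ k, t.testBit k = true ∧ φ k = x

/-- an embedding of a state in the configuration -/
structure Emb (inc : P → L → Prop) (mode : Bool) (s : List ℕ) (ls : List L) (m : ℕ)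
    (φ : ℕ → P) : Prop where
  inj : ∀ i < m, ∀ j < m, φ i = φ j → i = j
  rep : List.Forall₂ (Rep inc φ m) s ls
  nodup : ls.Nodup
  big : mode = false → 6 ≤ m
  fb : mode = false → ∀ l, inc (φ 4) l → inc (φ 5) l → False

/-- the standing assumption: no good pair of lines -/
structure Hyp (inc : P → L → Prop) (mode : Bool) : Prop where
  h0 : ∀ c a b, a ≠ b → inc c a → inc c b → ¬ T0 inc c a b
  h1 : ∀ c a b u q, a ≠ b → inc c a → inc c b → u ≠ c → q ≠ c → inc u a → inc q b →
    Uniq inc c a b u q → ∃ X Y x, inc u X ∧ X ≠ a ∧ ¬ inc q X ∧ inc q Y ∧ Y ≠ b ∧ ¬ inc u Y ∧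
      inc x X ∧ inc x Y
  hm : mode = true → ∀ c a b u q, a ≠ b → inc c a → inc c b → ¬ Uniq inc c a b u q

lemma Rep.bit {inc : P → L → Prop} {φ : ℕ → P} {m t : ℕ} {l : L} (h : Rep inc φ m t l)
    (inj : ∀ i < m, ∀ j < m, φ i = φ j → i = j) {k : ℕ} (hk : k < m) :
    t.testBit k = true ↔ inc (φ k) l := by
  constructor
  · intro h1
    exact (h.2 _).2 ⟨k, h1, rfl⟩
  · intro h1
    obtain ⟨k', h2, h3⟩ := (h.2 _).1 h1
    have := inj k' (h.1 _ h2) k hk h3
    rw [← this]; exact h2

lemma forall2_mem_left {α β : Type*} {R : α → β → Prop} {s : List α} {t : List β}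
    (h : List.Forall₂ R s t) {a : α} (ha : a ∈ s) : ∃ b ∈ t, R a b := by
  induction h with
  | nil => simp at ha
  | cons h1 _ ih =>
    rcases List.mem_cons.1 ha with rfl | ha
    · exact ⟨_, List.mem_cons_self, h1⟩
    · obtain ⟨b, hb, hab⟩ := ih ha
      exact ⟨b, List.mem_cons_of_mem _ hb, hab⟩

lemma forall2_mem_right {α β : Type*} {R : α → β → Prop} {s : List α} {t : List β}
    (h : List.Forall₂ R s t) {b : β} (hb : b ∈ t) : ∃ a ∈ s, R a b := by
  induction h with
  | nil => simp at hb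
  | cons h1 _ ih =>
    rcases List.mem_cons.1 hb with rfl | hb
    · exact ⟨_, List.mem_cons_self, h1⟩
    · obtain ⟨a, ha, hab⟩ := ih hb
      exact ⟨a, List.mem_cons_of_mem _ ha, hab⟩

section
variable {inc : P → L → Prop} {mode : Bool} {s : List ℕ} {ls : List L} {m : ℕ} {φ : ℕ → P}

lemma Emb.cnt_eq (E : Emb inc mode s ls m φ) {x : ℕ} (hx : x < m) :
    open Classical in cnt s x = (ls.filter (fun l => inc (φ x) l)).length := by
  classical
  have key : ∀ {s : List ℕ} {ls : List L}, List.Forall₂ (Rep inc φ m) s ls →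
      cnt s x = (ls.filter (fun l => inc (φ x) l)).length := by
    intro s ls h
    induction h with
    | nil => rfl
    | @cons t l tl ll h1 _ ih =>
      show cond (tb t x) (Nat.succ (cnt tl x)) (cnt tl x) = _
      rw [ih, tb_eq, List.filter_cons]
      have := h1.bit E.inj hx
      by_cases h : t.testBit x = true
      · have h' := this.1 h
        rw [h]
        simp [h']
      · have h' : ¬ inc (φ x) l := fun h'' => h (this.2 h'')
        have h3 : t.testBit x = false := by simpa using h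
        rw [h3]
        simp [h']
  exact key E.rep

lemma sat_spec {s : List ℕ} {x : ℕ} : sat s x = true ↔ cnt s x = 3 := nbeq_true

/-- the lines through a saturated label are all present. -/
lemma Emb.sat_mem (hc : Config inc) (E : Emb inc mode s ls m φ) {x : ℕ} (hx : x < m)
    (h : sat s x = true) {l : L} (hl : inc (φ x) l) : l ∈ ls := by
  classical
  rw [sat_spec, E.cnt_eq hx] at h
  obtain ⟨i, j, k, hij, hik, hjk, hl3⟩ := hc.lines (φ x)
  have nd : (ls.filter (fun l => inc (φ x) l)).Nodup := E.nodup.filter _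
  have c1 : (ls.filter (fun l => inc (φ x) l)).toFinset.card = 3 := by
    rw [List.toFinset_card_of_nodup nd, h]
  have sub : (ls.filter (fun l => inc (φ x) l)).toFinset ⊆ {i, j, k} := by
    intro l hl
    rw [List.mem_toFinset, List.mem_filter] at hl
    have := (hl3 l).1 (by simpa using hl.2)
    simpa using this
  have eq := Finset.eq_of_subset_of_card_le sub (by rw [c1]; exact Finset.card_le_three)
  have : l ∈ (ls.filter (fun l => inc (φ x) l)).toFinset := by
    rw [eq]
    simpa using (hl3 l).1 hl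
  rw [List.mem_toFinset, List.mem_filter] at this
  exact this.1

/-- an unsaturated label has a missing line. -/
lemma Emb.missing (hc : Config inc) (E : Emb inc mode s ls m φ) {x : ℕ} (hx : x < m)
    (h : sat s x = false) : ∃ l, inc (φ x) l ∧ l ∉ ls := by
  classical
  by_contra hcon
  push Not at hcon
  apply absurd h
  rw [Bool.not_eq_false, sat_spec, E.cnt_eq hx]
  obtain ⟨i, j, k, hij, hik, hjk, hl3⟩ := hc.lines (φ x)
  have nd : (ls.filter (fun l => inc (φ x) l)).Nodup := E.nodup.filter _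
  have eq : (ls.filter (fun l => inc (φ x) l)).toFinset = {i, j, k} := by
    ext l
    rw [List.mem_toFinset, List.mem_filter]
    constructor
    · intro hl
      have := (hl3 l).1 (by simpa using hl.2)
      simpa using this
    · intro hl
      have : inc (φ x) l := (hl3 l).2 (by simpa using hl)
      exact ⟨hcon l this, by simpa using this⟩
  rw [← List.toFinset_card_of_nodup nd, eq]
  exact Finset.card_eq_three.2 ⟨i, j, k, hij, hik, hjk, rfl⟩

lemma Emb.col (E : Emb inc mode s ls m φ) {x y : ℕ} (hx : x < m) (hy : y < m) :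
    tb (nbm s x) y = true ↔ ∃ l ∈ ls, inc (φ x) l ∧ inc (φ y) l := by
  rw [nbm_spec]
  constructor
  · rintro ⟨t, ht, h1, h2⟩
    obtain ⟨l, hl, hr⟩ := forall2_mem_left E.rep ht
    exact ⟨l, hl, (hr.bit E.inj hx).1 h1, (hr.bit E.inj hy).1 h2⟩
  · rintro ⟨l, hl, h1, h2⟩
    obtain ⟨t, ht, hr⟩ := forall2_mem_right E.rep hl
    exact ⟨t, ht, (hr.bit E.inj hx).2 h1, (hr.bit E.inj hy).2 h2⟩

lemma forb_spec {x y : ℕ} (h : forb mode x y = true) :
    mode = false ∧ ((x = 4 ∧ y = 5) ∨ (x = 5 ∧ y = 4)) := by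
  unfold forb at h
  simp only [Bool.and_eq_true, Bool.or_eq_true, Bool.not_eq_true', nbeq_true] at h
  exact h

lemma Emb.forb_false (E : Emb inc mode s ls m φ) {x y : ℕ} (h : forb mode x y = true) (l : L)
    (h1 : inc (φ x) l) (h2 : inc (φ y) l) : False := by
  obtain ⟨h3, ⟨rfl, rfl⟩ | ⟨rfl, rfl⟩⟩ := forb_spec h
  · exact E.fb h3 l h1 h2
  · exact E.fb h3 l h2 h1

/-- known non-collinear pairs -/
lemma Emb.kn_false (hc : Config inc) (E : Emb inc mode s ls m φ) {x y : ℕ} (hx : x < m)
    (hy : y < m) (h : kn mode s x y = true) (l : L) (h1 : inc (φ x) l) (h2 : inc (φ y) l) :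
    False := by
  unfold kn at h
  rw [Bool.and_eq_true, Bool.not_eq_true', Bool.or_eq_true, Bool.or_eq_true] at h
  obtain ⟨hn, (h3 | h3) | h3⟩ := h
  · have : tb (nbm s x) y = true := (E.col hx hy).2 ⟨l, E.sat_mem hc hx h3 h1, h1, h2⟩
    rw [this] at hn; exact absurd hn (by simp)
  · have : tb (nbm s x) y = true := (E.col hx hy).2 ⟨l, E.sat_mem hc hy h3 h2, h1, h2⟩
    rw [this] at hn; exact absurd hn (by simp)
  · exact E.forb_false h3 l h1 h2

end

lemma isTwo_spec {t : ℕ} (h : isTwo t = true) (k : ℕ) :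
    t.testBit k = true ↔ k = hi t ∨ k = lo2 t := by
  unfold isTwo at h
  rw [nbeq_true, shiftOne, shiftOne] at h
  have h' : t = 2 ^ hi t ||| 2 ^ lo2 t := h
  conv_lhs => rw [h']
  rw [Nat.testBit_or, Bool.or_eq_true, Nat.testBit_two_pow, Nat.testBit_two_pow]
  simp only [decide_eq_true_eq]
  tauto

section
variable {inc : P → L → Prop} {mode : Bool} {s : List ℕ} {ls : List L} {m : ℕ} {φ : ℕ → P}

/-- four cross pairs, all but at most `(U,Q)` known to be non-collinear. -/
lemma fin4_false (hc : Config inc) (H : Hyp inc mode) (E : Emb inc mode s ls m φ) {A B : ℕ}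
    {a b : L} (ra : Rep inc φ m A a) (rb : Rep inc φ m B b)
    (hab : a ≠ b) {c : ℕ} (hcm : c < m) (hca : inc (φ c) a) (hcb : inc (φ c) b) {U Q : ℕ}
    (hU : U < m) (hQ : Q < m) (hUc : U ≠ c) (hQc : Q ≠ c) (hUa : inc (φ U) a) (hQb : inc (φ Q) b)
    (hun : Uniq inc (φ c) a b (φ U) (φ Q)) (h : fin4 mode s A B U Q = true) : False := by
  have nUc : φ U ≠ φ c := fun e => hUc (E.inj _ hU _ hcm e)
  have nQc : φ Q ≠ φ c := fun e => hQc (E.inj _ hQ _ hcm e)
  unfold fin4 at h
  cases mode with
  | true => exact H.hm rfl _ _ _ _ _ hab hca hcb hun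
  | false =>
    change (kn false s U Q || (tb (nbm s U) Q && sat s U && sat s Q &&
      Nat.beq (Nat.land (nbx s U A Q) (nbx s Q B U)) 0)) = true at h
    rw [Bool.or_eq_true] at h
    rcases h with h | h
    · -- type 0
      apply H.h0 (φ c) a b hab hca hcb
      intro p p' l h1 h2 h3 h4 h5 h6
      obtain ⟨rfl, rfl⟩ := hun p p' l h1 h2 h3 h4 h5 h6
      exact E.kn_false hc hU hQ h l h5 h6
    · rw [Bool.and_eq_true, Bool.and_eq_true, Bool.and_eq_true, nbeq_true] at h
      obtain ⟨⟨⟨h1, h2⟩, h3⟩, h4⟩ := h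
      obtain ⟨X, Y, x, hX1, hX2, hX3, hY1, hY2, hY3, hx1, hx2⟩ :=
        H.h1 _ _ _ _ _ hab hca hcb nUc nQc hUa hQb hun
      have mX := E.sat_mem hc hU h2 hX1
      have mY := E.sat_mem hc hQ h3 hY1
      obtain ⟨tX, tX1, tX2⟩ := forall2_mem_right E.rep mX
      obtain ⟨tY, tY1, tY2⟩ := forall2_mem_right E.rep mY
      obtain ⟨k, hk1, hk2⟩ := (tX2.2 x).1 hx1
      have hk := tX2.1 _ hk1
      have eA : tX ≠ A := by
        intro e
        apply hX2
        have : ∀ y, inc y X ↔ inc y a := fun y => by rw [tX2.2, ra.2, e]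
        by_contra hne
        obtain ⟨p, q, r, hpq, _, _, hpt⟩ := hc.points X
        have ip := (hpt p).2 (by simp)
        have iq := (hpt q).2 (by simp)
        exact hpq (hc.lin X a hne p q ip ((this p).1 ip) iq ((this q).1 iq))
      have eB : tY ≠ B := by
        intro e
        apply hY2
        have : ∀ y, inc y Y ↔ inc y b := fun y => by rw [tY2.2, rb.2, e]
        by_contra hne
        obtain ⟨p, q, r, hpq, _, _, hpt⟩ := hc.points Y
        have ip := (hpt p).2 (by simp)
        have iq := (hpt q).2 (by simp)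
        exact hpq (hc.lin Y b hne p q ip ((this p).1 ip) iq ((this q).1 iq))
      have bit : (Nat.land (nbx s U A Q) (nbx s Q B U)).testBit k = true := by
        show ((nbx s U A Q) &&& (nbx s Q B U)).testBit k = true
        rw [Nat.testBit_and, Bool.and_eq_true, nbx_spec, nbx_spec]
        refine ⟨⟨tX, tX1, (tX2.bit E.inj hU).2 hX1, eA, ?_, hk1⟩,
          ⟨tY, tY1, (tY2.bit E.inj hQ).2 hY1, eB, ?_, ?_⟩⟩
        · rw [← Bool.not_eq_true, tX2.bit E.inj hQ]; exact hX3
        · rw [← Bool.not_eq_true, tY2.bit E.inj hU]; exact hY3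
        · rw [tY2.bit E.inj hk, hk2]; exact hx2
      rw [h4] at bit
      simp at bit

lemma chk_false (hc : Config inc) (H : Hyp inc mode) (E : Emb inc mode s ls m φ) {i j : ℕ}
    (h : chk mode s i j = true) : False := by
  unfold chk at h
  simp only [fo_eq] at h
  generalize hA : nth s i = A at h
  generalize hB : nth s j = B at h
  have memA : A ∈ s ∨ A = 0 := hA ▸ nth_mem s i
  have memB : B ∈ s ∨ B = 0 := hB ▸ nth_mem s j
  simp only [Bool.and_eq_true, Bool.not_eq_true'] at h
  obtain ⟨⟨⟨⟨h1, h2⟩, h3⟩, h4⟩, h5⟩ := h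
  rw [nbeq_false] at h1
  rw [nbeq_true, shiftOne] at h2
  change A &&& B = 2 ^ (A &&& B).log2 at h2
  generalize hC : A &&& B = C at h2
  have hC' : Nat.land A B = C := hC
  rw [hC'] at h3 h4 h5
  set c := C.log2 with hcdef
  have cbit : ∀ k, C.testBit k = true ↔ k = c := by
    intro k
    rw [h2, Nat.testBit_two_pow]
    simp only [decide_eq_true_eq]
    exact eq_comm
  have cAB : A.testBit c = true ∧ B.testBit c = true := by
    have : C.testBit c = true := (cbit c).2 rfl
    rw [← hC, Nat.testBit_and, Bool.and_eq_true] at this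
    exact this
  have onlyc : ∀ k, A.testBit k = true → B.testBit k = true → k = c := by
    intro k hk1 hk2
    rw [← cbit, ← hC, Nat.testBit_and, hk1, hk2]; rfl
  have memA' : A ∈ s := by
    rcases memA with h | h
    · exact h
    · rw [h] at cAB; simp at cAB
  have memB' : B ∈ s := by
    rcases memB with h | h
    · exact h
    · rw [h] at cAB; simp at cAB
  obtain ⟨a, ha, ra⟩ := forall2_mem_left E.rep memA'
  obtain ⟨b, hb, rb⟩ := forall2_mem_left E.rep memB'
  have hab : a ≠ b := by
    intro e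
    apply h1
    apply Nat.eq_of_testBit_eq
    intro k
    by_cases hk : k < m
    · have e1 := ra.bit E.inj hk
      have e2 := rb.bit E.inj hk
      rw [← e] at e2
      have : A.testBit k = true ↔ B.testBit k = true := e1.trans e2.symm
      exact Bool.eq_iff_iff.2 this
    · have e1 : A.testBit k = false := by
        rw [← Bool.not_eq_true]; exact fun h => hk (ra.1 _ h)
      have e2 : B.testBit k = false := by
        rw [← Bool.not_eq_true]; exact fun h => hk (rb.1 _ h)
      rw [e1, e2]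
  have hcm : c < m := ra.1 _ cAB.1
  have hca : inc (φ c) a := (ra.bit E.inj hcm).1 cAB.1
  have hcb : inc (φ c) b := (rb.bit E.inj hcm).1 cAB.2
  have A2 : ∀ k, (Nat.xor A C).testBit k = true ↔ A.testBit k = true ∧ k ≠ c := by
    intro k
    show (A ^^^ C).testBit k = true ↔ _
    rw [Nat.testBit_xor]
    by_cases hk : k = c
    · have := (cbit k).2 hk
      rw [this]
      subst hk
      simp [cAB.1]
    · have : C.testBit k = false := by
        rw [← Bool.not_eq_true, cbit]; exact hk
      rw [this]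
      simp [hk]
  have B2 : ∀ k, (Nat.xor B C).testBit k = true ↔ B.testBit k = true ∧ k ≠ c := by
    intro k
    show (B ^^^ C).testBit k = true ↔ _
    rw [Nat.testBit_xor]
    by_cases hk : k = c
    · have := (cbit k).2 hk
      rw [this]
      subst hk
      simp [cAB.2]
    · have : C.testBit k = false := by
        rw [← Bool.not_eq_true, cbit]; exact hk
      rw [this]
      simp [hk]
  have iA := isTwo_spec h3
  have iB := isTwo_spec h4
  generalize hi (Nat.xor A C) = x1 at h5 iA
  generalize lo2 (Nat.xor A C) = x2 at h5 iA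
  generalize hi (Nat.xor B C) = y1 at h5 iB
  generalize lo2 (Nat.xor B C) = y2 at h5 iB
  obtain ⟨x1A, x1c⟩ := (A2 x1).1 ((iA x1).2 (Or.inl rfl))
  obtain ⟨x2A, x2c⟩ := (A2 x2).1 ((iA x2).2 (Or.inr rfl))
  obtain ⟨y1B, y1c⟩ := (B2 y1).1 ((iB y1).2 (Or.inl rfl))
  obtain ⟨y2B, y2c⟩ := (B2 y2).1 ((iB y2).2 (Or.inr rfl))
  have x1m := ra.1 _ x1A
  have x2m := ra.1 _ x2A
  have y1m := rb.1 _ y1B
  have y2m := rb.1 _ y2B
  have x1a := (ra.bit E.inj x1m).1 x1A
  have x2a := (ra.bit E.inj x2m).1 x2A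
  have y1b := (rb.bit E.inj y1m).1 y1B
  have y2b := (rb.bit E.inj y2m).1 y2B
  -- points of a and b off c
  have pa : ∀ p, p ≠ φ c → inc p a → p = φ x1 ∨ p = φ x2 := by
    intro p hp1 hp2
    obtain ⟨k, hk1, rfl⟩ := (ra.2 p).1 hp2
    have : k ≠ c := fun e => hp1 (by rw [e])
    rcases (iA k).1 ((A2 k).2 ⟨hk1, this⟩) with rfl | rfl
    · exact Or.inl rfl
    · exact Or.inr rfl
  have pb : ∀ p, p ≠ φ c → inc p b → p = φ y1 ∨ p = φ y2 := by
    intro p hp1 hp2
    obtain ⟨k, hk1, rfl⟩ := (rb.2 p).1 hp2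
    have : k ≠ c := fun e => hp1 (by rw [e])
    rcases (iB k).1 ((B2 k).2 ⟨hk1, this⟩) with rfl | rfl
    · exact Or.inl rfl
    · exact Or.inr rfl
  unfold chk4 at h5
  by_cases k11 : kn mode s x1 y1 = true
  · rw [k11] at h5
    by_cases k12 : kn mode s x1 y2 = true
    · rw [k12] at h5
      by_cases k21 : kn mode s x2 y1 = true
      · rw [k21] at h5
        refine fin4_false hc H E ra rb hab hcm hca hcb x2m y2m x2c y2c x2a y2b ?_ h5
        intro p p' l q1 q2 q3 q4 q5 q6
        rcases pa p q1 q3 with rfl | rfl <;> rcases pb p' q2 q4 with rfl | rfl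
        · exact (E.kn_false hc x1m y1m k11 l q5 q6).elim
        · exact (E.kn_false hc x1m y2m k12 l q5 q6).elim
        · exact (E.kn_false hc x2m y1m k21 l q5 q6).elim
        · exact ⟨rfl, rfl⟩
      · rw [Bool.not_eq_true] at k21
        rw [k21] at h5
        change (kn mode s x2 y2 && fin4 mode s A B x2 y1) = true at h5
        rw [Bool.and_eq_true] at h5
        refine fin4_false hc H E ra rb hab hcm hca hcb x2m y1m x2c y1c x2a y1b ?_ h5.2
        intro p p' l q1 q2 q3 q4 q5 q6
        rcases pa p q1 q3 with rfl | rfl <;> rcases pb p' q2 q4 with rfl | rfl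
        · exact (E.kn_false hc x1m y1m k11 l q5 q6).elim
        · exact (E.kn_false hc x1m y2m k12 l q5 q6).elim
        · exact ⟨rfl, rfl⟩
        · exact (E.kn_false hc x2m y2m h5.1 l q5 q6).elim
    · rw [Bool.not_eq_true] at k12
      rw [k12] at h5
      change (kn mode s x2 y1 && kn mode s x2 y2 && fin4 mode s A B x1 y2) = true at h5
      rw [Bool.and_eq_true, Bool.and_eq_true] at h5
      refine fin4_false hc H E ra rb hab hcm hca hcb x1m y2m x1c y2c x1a y2b ?_ h5.2
      intro p p' l q1 q2 q3 q4 q5 q6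
      rcases pa p q1 q3 with rfl | rfl <;> rcases pb p' q2 q4 with rfl | rfl
      · exact (E.kn_false hc x1m y1m k11 l q5 q6).elim
      · exact ⟨rfl, rfl⟩
      · exact (E.kn_false hc x2m y1m h5.1.1 l q5 q6).elim
      · exact (E.kn_false hc x2m y2m h5.1.2 l q5 q6).elim
  · rw [Bool.not_eq_true] at k11
    rw [k11] at h5
    change (kn mode s x1 y2 && kn mode s x2 y1 && kn mode s x2 y2 && fin4 mode s A B x1 y1) = true
      at h5
    rw [Bool.and_eq_true, Bool.and_eq_true, Bool.and_eq_true] at h5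
    refine fin4_false hc H E ra rb hab hcm hca hcb x1m y1m x1c y1c x1a y1b ?_ h5.2
    intro p p' l q1 q2 q3 q4 q5 q6
    rcases pa p q1 q3 with rfl | rfl <;> rcases pb p' q2 q4 with rfl | rfl
    · exact ⟨rfl, rfl⟩
    · exact (E.kn_false hc x1m y2m h5.1.1.1 l q5 q6).elim
    · exact (E.kn_false hc x2m y1m h5.1.1.2 l q5 q6).elim
    · exact (E.kn_false hc x2m y2m h5.1.2 l q5 q6).elim

end

end PL3.Search
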