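import Pool.Agent.Lib.MP_e3e9c0_co.SearchB

/-!
# The finite search: soundness of the machine
-/

namespace PL3.Search

open PL3

variable {P L : Type*}

/-- a state describing part of the configuration -/
def Good (inc : P → L → Prop) (mode : Bool) (st : St) : Prop :=
  ∃ (ls : List L) (φ : ℕ → P), Emb inc mode st.s ls st.m φ ∧ st.p < st.m ∧
    ∀ l, inc (φ st.p) l → l ∉ ls → ∀ k < st.m, k < st.lo → k ≠ st.p → ¬ inc (φ k) l

section
variable {inc : P → L → Prop} {mode : Bool} {s : List ℕ} {ls : List L} {m : ℕ} {φ : ℕ → P}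

lemma Emb.cons (E : Emb inc mode s ls m φ) {t : ℕ} {l : L} {m' : ℕ} {φ' : ℕ → P}
    (hm : m ≤ m') (hφ : ∀ k < m, φ' k = φ k) (inj : ∀ i < m', ∀ j < m', φ' i = φ' j → i = j)
    (hl : l ∉ ls) (hr : Rep inc φ' m' t l) : Emb inc mode (t :: s) (l :: ls) m' φ' := by
  refine ⟨inj, List.Forall₂.cons hr ?_, List.nodup_cons.2 ⟨hl, E.nodup⟩,
    fun h => (E.big h).trans hm, fun h => ?_⟩
  · refine E.rep.imp ?_
    rintro t l ⟨h1, h2⟩
    refine ⟨fun k hk => (h1 k hk).trans_le hm, fun x => ?_⟩
    rw [h2]
    constructor
    · rintro ⟨k, hk, hx⟩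
      exact ⟨k, hk, (hφ k (h1 k hk)).trans hx⟩
    · rintro ⟨k, hk, hx⟩
      exact ⟨k, hk, (hφ k (h1 k hk)).symm.trans hx⟩
  · have := E.big h
    rw [hφ 4 (by omega), hφ 5 (by omega)]
    exact E.fb h

lemma rep3 {φ : ℕ → P} {m a b c : ℕ} {l : L} (ha : a < m) (hb : b < m) (hc : c < m)
    (h : ∀ x, inc x l ↔ x = φ a ∨ x = φ b ∨ x = φ c) :
    Rep inc φ m (Nat.lor (Nat.lor (Nat.shiftLeft 1 a) (Nat.shiftLeft 1 b)) (Nat.shiftLeft 1 c)) l := by
  have bit : ∀ k, (Nat.lor (Nat.lor (Nat.shiftLeft 1 a) (Nat.shiftLeft 1 b))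
      (Nat.shiftLeft 1 c)).testBit k = true ↔ k = a ∨ k = b ∨ k = c := by
    intro k
    show ((Nat.shiftLeft 1 a ||| Nat.shiftLeft 1 b) ||| Nat.shiftLeft 1 c).testBit k = true ↔ _
    rw [Nat.testBit_or, Nat.testBit_or, shiftOne, shiftOne, shiftOne, Nat.testBit_two_pow,
      Nat.testBit_two_pow, Nat.testBit_two_pow]
    simp only [Bool.or_eq_true, decide_eq_true_eq]
    tauto
  refine ⟨fun k hk => ?_, fun x => ?_⟩
  · rcases (bit k).1 hk with rfl | rfl | rfl <;> assumption
  · rw [h]
    constructor
    · rintro (rfl | rfl | rfl)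
      · exact ⟨a, (bit a).2 (by simp), rfl⟩
      · exact ⟨b, (bit b).2 (by simp), rfl⟩
      · exact ⟨c, (bit c).2 (by simp), rfl⟩
    · rintro ⟨k, hk, rfl⟩
      rcases (bit k).1 hk with rfl | rfl | rfl <;> simp

/-! ### membership in the list of children -/

lemma pushB_rest {st : St} {p a na : ℕ} {rest : List St} {Lb : List ℕ} {x : St} (hx : x ∈ rest) :
    x ∈ pushB mode st p a na rest Lb := by
  induction Lb with
  | nil => exact List.mem_cons_of_mem _ hx
  | cons b tl ih =>
    show x ∈ cond (tb na b || forb mode a b) (pushB mode st p a na rest tl)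
      (child st p a b st.m :: pushB mode st p a na rest tl)
    cases (tb na b || forb mode a b) with
    | true => exact ih
    | false => exact List.mem_cons_of_mem _ ih

lemma pushB_new {st : St} {p a na : ℕ} {rest : List St} {Lb : List ℕ} :
    child st p a st.m (Nat.succ st.m) ∈ pushB mode st p a na rest Lb := by
  induction Lb with
  | nil => exact List.mem_cons_self
  | cons b tl ih =>
    show _ ∈ cond (tb na b || forb mode a b) (pushB mode st p a na rest tl)
      (child st p a b st.m :: pushB mode st p a na rest tl)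
    cases (tb na b || forb mode a b) with
    | true => exact ih
    | false => exact List.mem_cons_of_mem _ ih

lemma pushB_old {st : St} {p a na b : ℕ} {rest : List St} {Lb : List ℕ} (hb : b ∈ Lb)
    (h1 : tb na b = false) (h2 : forb mode a b = false) :
    child st p a b st.m ∈ pushB mode st p a na rest Lb := by
  induction Lb with
  | nil => simp at hb
  | cons b' tl ih =>
    show _ ∈ cond (tb na b' || forb mode a b') (pushB mode st p a na rest tl)
      (child st p a b' st.m :: pushB mode st p a na rest tl)
    rcases List.mem_cons.1 hb with rfl | hb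
    · rw [h1, h2]
      exact List.mem_cons_self
    · cases (tb na b' || forb mode a b') with
      | true => exact ih hb
      | false => exact List.mem_cons_of_mem _ (ih hb)

lemma pushA_rest {st : St} {p lo : ℕ} {rest : List St} {La : List ℕ} {x : St} (hx : x ∈ rest) :
    x ∈ pushA mode st p lo rest La := by
  induction La with
  | nil => exact List.mem_cons_of_mem _ hx
  | cons a tl ih =>
    show x ∈ cond (Nat.ble lo a) (fo (nbm st.s a) fun na =>
      pushB mode st p a na (pushA mode st p lo rest tl) tl) (pushA mode st p lo rest tl)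
    cases Nat.ble lo a with
    | true => rw [fo_eq]; exact pushB_rest ih
    | false => exact ih

lemma pushA_new2 {st : St} {p lo : ℕ} {rest : List St} {La : List ℕ} :
    child st p st.m (Nat.succ st.m) (Nat.succ (Nat.succ st.m)) ∈ pushA mode st p lo rest La := by
  induction La with
  | nil => exact List.mem_cons_self
  | cons a tl ih =>
    show _ ∈ cond (Nat.ble lo a) (fo (nbm st.s a) fun na =>
      pushB mode st p a na (pushA mode st p lo rest tl) tl) (pushA mode st p lo rest tl)
    cases Nat.ble lo a with
    | true => rw [fo_eq]; exact pushB_rest ih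
    | false => exact ih

lemma pushA_new1 {st : St} {p lo a : ℕ} {rest : List St} {La : List ℕ} (ha : a ∈ La)
    (hlo : lo ≤ a) : child st p a st.m (Nat.succ st.m) ∈ pushA mode st p lo rest La := by
  induction La with
  | nil => simp at ha
  | cons a' tl ih =>
    show _ ∈ cond (Nat.ble lo a') (fo (nbm st.s a') fun na =>
      pushB mode st p a' na (pushA mode st p lo rest tl) tl) (pushA mode st p lo rest tl)
    rcases List.mem_cons.1 ha with rfl | ha
    · rw [nble_true.2 hlo, fo_eq]
      exact pushB_new
    · cases Nat.ble lo a' with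
      | true => rw [fo_eq]; exact pushB_rest (ih ha)
      | false => exact ih ha

lemma pushA_old {st : St} {p lo a b : ℕ} {rest : List St} {La : List ℕ}
    (hs : La.Pairwise (· < ·)) (ha : a ∈ La) (hb : b ∈ La) (hab : a < b)
    (hlo : lo ≤ a) (h1 : tb (nbm st.s a) b = false) (h2 : forb mode a b = false) :
    child st p a b st.m ∈ pushA mode st p lo rest La := by
  induction La with
  | nil => simp at ha
  | cons a' tl ih =>
    show _ ∈ cond (Nat.ble lo a') (fo (nbm st.s a') fun na =>
      pushB mode st p a' na (pushA mode st p lo rest tl) tl) (pushA mode st p lo rest tl)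
    rw [List.pairwise_cons] at hs
    rcases List.mem_cons.1 ha with rfl | ha'
    · have hb' : b ∈ tl := by
        rcases List.mem_cons.1 hb with rfl | hb
        · exact absurd hab (lt_irrefl _)
        · exact hb
      rw [nble_true.2 hlo, fo_eq]
      exact pushB_old hb' h1 h2
    · have hb' : b ∈ tl := by
        rcases List.mem_cons.1 hb with e | hb
        · have := hs.1 a ha'
          omega
        · exact hb
      cases Nat.ble lo a' with
      | true => rw [fo_eq]; exact pushB_rest (ih hs.2 ha' hb')
      | false => exact ih hs.2 ha' hb'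

lemma mem_avail {p x : ℕ} : x ∈ avail mode s m p ↔ x < m ∧ x ≠ p ∧ sat s x = false ∧
    tb (nbm s p) x = false ∧ forb mode p x = false := by
  unfold avail
  rw [filt_eq, List.mem_filter, mem_below]
  simp only [Bool.and_eq_true, Bool.not_eq_true', nbeq_false]
  tauto

lemma avail_sorted {p : ℕ} : (avail mode s m p).Pairwise (· < ·) := by
  unfold avail below
  rw [filt_eq]
  exact List.Pairwise.filter _ List.pairwise_lt_range

/-- the labels on a missing line through `φ p` are available. -/
lemma Emb.avail_of (hc : Config inc) (E : Emb inc mode s ls m φ) {p : ℕ} (hp : p < m) {l : L}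
    (h1 : inc (φ p) l) (h2 : l ∉ ls) {x : ℕ} (hx : x < m) (hxp : x ≠ p) (h3 : inc (φ x) l) :
    x ∈ avail mode s m p := by
  have e : ∀ l', inc (φ p) l' → inc (φ x) l' → l' = l := by
    intro l' h4 h5
    by_contra hne
    exact hxp (E.inj _ hx _ hp (hc.lin l' l hne _ _ h5 h3 h4 h1))
  rw [mem_avail]
  refine ⟨hx, hxp, ?_, ?_, ?_⟩
  · rw [← Bool.not_eq_true]
    intro h
    exact h2 (E.sat_mem hc hx h h3)
  · rw [← Bool.not_eq_true]
    intro h
    obtain ⟨l', h4, h5, h6⟩ := (E.col hp hx).1 h
    exact h2 (e l' h5 h6 ▸ h4)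
  · rw [← Bool.not_eq_true]
    intro h
    exact E.forb_false h l h1 h3

/-- **Soundness of the branching.** -/
lemma kids_sound (hc : Config inc) {st : St} {ls : List L} {φ : ℕ → P} {p lo : ℕ}
    {rest : List St} (E : Emb inc mode st.s ls st.m φ) (hp : p < st.m)
    (hlo : ∀ l, inc (φ p) l → l ∉ ls → ∀ k < st.m, k < lo → k ≠ p → ¬ inc (φ k) l)
    (hsat : sat st.s p = false) : ∃ st' ∈ kids mode st p lo rest, Good inc mode st' := by
  classical
  unfold kids
  rw [foL_eq]
  obtain ⟨s, m, p₀, lo₀⟩ := st
  change Emb inc mode s ls m φ at E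
  change p < m at hp
  change ∀ l, inc (φ p) l → l ∉ ls → ∀ k < m, k < lo → k ≠ p → ¬ inc (φ k) l at hlo
  change sat s p = false at hsat
  change ∃ st' ∈ pushA mode ⟨s, m, p₀, lo₀⟩ p lo rest (avail mode s m p), Good inc mode st'
  obtain ⟨l₀, hl₀, hl₀'⟩ := E.missing hc hp hsat
  let Q : ℕ → Prop := fun k => k = m ∨ (k < m ∧ k ≠ p ∧ ∃ l, inc (φ p) l ∧ l ∉ ls ∧ inc (φ k) l)
  have hQ : ∃ k, Q k := ⟨m, Or.inl rfl⟩
  obtain ⟨a, ha, hmin⟩ : ∃ a, Q a ∧ ∀ k < a, ¬ Q k := ⟨Nat.find hQ, Nat.find_spec hQ,
    fun k hk => Nat.find_min hQ hk⟩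
  have hmin' : ∀ l, inc (φ p) l → l ∉ ls → ∀ k < m, k < a → k ≠ p → ¬ inc (φ k) l := by
    intro l h1 h2 k hk hka hkp h3
    exact hmin k hka (Or.inr ⟨hk, hkp, l, h1, h2, h3⟩)
  rcases ha with ha | ⟨ham, hap, l, h1, h2, h3⟩
  · -- both new
    have ha' := ha.symm
    subst ha'
    obtain ⟨x', y', z', hxy', hxz', hyz', hpt'⟩ := hc.points l₀
    -- three distinct points on the line: get a cleaner description
    obtain ⟨x, y, hxp, hyp, hxy, hpt⟩ : ∃ x y, x ≠ φ p ∧ y ≠ φ p ∧ x ≠ y ∧
        ∀ z, inc z l₀ ↔ z = φ p ∨ z = x ∨ z = y := by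
      rcases (hpt' (φ p)).1 hl₀ with h | h | h
      · exact ⟨y', z', fun e => hxy' (h.symm.trans e.symm), fun e => hxz' (h.symm.trans e.symm), hyz',
          fun z => by rw [hpt', h]⟩
      · exact ⟨x', z', fun e => hxy' (e.trans h), fun e => hyz' (h.symm.trans e.symm), hxz',
          fun z => by rw [hpt', h]; tauto⟩
      · exact ⟨x', y', fun e => hxz' (e.trans h), fun e => hyz' (e.trans h), hxy',
          fun z => by rw [hpt', h]; tauto⟩
    have ix := (hpt x).2 (by simp)
    have iy := (hpt y).2 (by simp)
    have nx : ∀ k < m, φ k ≠ x := by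
      intro k hk e
      by_cases hkp : k = p
      · subst hkp; exact hxp e.symm
      · exact hmin' l₀ hl₀ hl₀' k hk hk hkp (by rw [e]; exact ix)
    have ny : ∀ k < m, φ k ≠ y := by
      intro k hk e
      by_cases hkp : k = p
      · subst hkp; exact hyp e.symm
      · exact hmin' l₀ hl₀ hl₀' k hk hk hkp (by rw [e]; exact iy)
    let φ' : ℕ → P := fun k => if k < m then φ k else if k = m then x else y
    have e0 : ∀ k < m, φ' k = φ k := fun k hk => by simp only [φ', if_pos hk]
    have e1 : φ' m = x := by simp [φ']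
    have e2 : φ' (m + 1) = y := by
      simp only [φ', if_neg (show ¬ (m + 1 < m) by omega), if_neg (show ¬ (m + 1 = m) by omega)]
    have inj : ∀ i < m + 2, ∀ j < m + 2, φ' i = φ' j → i = j := by
      intro i hi j hj hij
      have ci : i < m ∨ i = m ∨ i = m + 1 := by omega
      have cj : j < m ∨ j = m ∨ j = m + 1 := by omega
      rcases ci with ci | ci | ci <;> rcases cj with cj | cj | cj
      · rw [e0 i ci, e0 j cj] at hij
        exact E.inj i ci j cj hij
      · rw [e0 i ci, cj, e1] at hij; exact absurd hij (nx i ci)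
      · rw [e0 i ci, cj, e2] at hij; exact absurd hij (ny i ci)
      · rw [e0 j cj, ci, e1] at hij; exact absurd hij.symm (nx j cj)
      · omega
      · rw [ci, cj, e1, e2] at hij; exact absurd hij hxy
      · rw [e0 j cj, ci, e2] at hij; exact absurd hij.symm (ny j cj)
      · rw [ci, cj, e1, e2] at hij; exact absurd hij.symm hxy
      · omega
    refine ⟨_, pushA_new2, l₀ :: ls, φ', ?_, ?_, ?_⟩
    · refine E.cons (m' := m + 2) (by omega) e0 inj hl₀' ?_
      refine rep3 (m := m + 2) (a := p) (b := m) (c := m + 1) (by omega) (by omega) (by omega) ?_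
      intro z
      rw [hpt, e0 p hp, e1, e2]
    · show p < m + 2
      omega
    · intro l' h1 h2 k hk hk2 hkp h3
      change inc (φ' p) l' at h1
      change k < m + 2 at hk
      change k < m + 1 at hk2
      change k ≠ p at hkp
      rw [e0 p hp] at h1
      rw [List.mem_cons, not_or] at h2
      by_cases hkm : k < m
      · rw [e0 k hkm] at h3
        exact hmin' l' h1 h2.2 k hkm hkm hkp h3
      · have : k = m := by omega
        rw [this, e1] at h3
        exact h2.1 (by
          by_contra hne
          exact hxp (hc.lin l' l₀ hne _ _ h3 ix h1 hl₀))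
  · -- `a` is a label
    have hloa : lo ≤ a := by
      by_contra h
      exact hlo l h1 h2 a ham (not_le.1 h) hap h3
    have nap : φ p ≠ φ a := fun e => hap (E.inj _ ham _ hp e.symm)
    obtain ⟨w, hw1, hw2, hw3, hpt⟩ := hc.pts2 h1 h3 nap
    have hpt' : ∀ z, inc z l ↔ z = φ p ∨ z = φ a ∨ z = w := by
      intro z
      refine ⟨hpt z, ?_⟩
      rintro (rfl | rfl | rfl) <;> assumption
    have memA : a ∈ avail mode s m p := E.avail_of hc hp h1 h2 ham hap h3
    have onlyl : ∀ l', inc (φ p) l' → l' ≠ l → ¬ inc (φ a) l' := by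
      intro l' h4 h5 h6
      exact nap (hc.lin l' l h5 _ _ h4 h1 h6 h3)
    by_cases hwl : ∃ b < m, φ b = w
    · -- labelled
      obtain ⟨b, hb, rfl⟩ := hwl
      have hbp : b ≠ p := fun e => hw1 (by rw [e])
      have hba : b ≠ a := fun e => hw2 (by rw [e])
      have hab : a < b := by
        by_contra h
        exact hmin' l h1 h2 b hb (by omega) hbp hw3
      have memB : b ∈ avail mode s m p := E.avail_of hc hp h1 h2 hb hbp hw3
      have c1 : tb (nbm s a) b = false := by
        rw [← Bool.not_eq_true]
        intro h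
        obtain ⟨l', h4, h5, h6⟩ := (E.col ham hb).1 h
        apply h2
        have : l' = l := by
          by_contra hne
          exact hw2 (hc.lin l' l hne _ _ h6 hw3 h5 h3)
        exact this ▸ h4
      have c2 : forb mode a b = false := by
        rw [← Bool.not_eq_true]
        intro h
        exact E.forb_false h l h3 hw3
      refine ⟨_, pushA_old avail_sorted memA memB hab hloa c1 c2, l :: ls, φ, ?_, hp, ?_⟩
      · refine E.cons (m' := m) le_rfl (fun _ _ => rfl) E.inj h2 ?_
        exact rep3 hp ham hb hpt'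
      · intro l' h4 h5 k hk hk2 hkp h6
        change k < a + 1 at hk2
        change inc (φ p) l' at h4
        rw [List.mem_cons, not_or] at h5
        by_cases hka : k = a
        · rw [hka] at h6
          exact onlyl l' h4 h5.1 h6
        · exact hmin' l' h4 h5.2 k hk (by omega) hkp h6
    · -- the third point is new
      push Not at hwl
      let φ' : ℕ → P := fun k => if k < m then φ k else w
      have e0 : ∀ k < m, φ' k = φ k := fun k hk => by simp only [φ', if_pos hk]
      have e1 : φ' m = w := by simp [φ']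
      have inj : ∀ i < m + 1, ∀ j < m + 1, φ' i = φ' j → i = j := by
        intro i hi j hj hij
        have ci : i < m ∨ i = m := by omega
        have cj : j < m ∨ j = m := by omega
        rcases ci with ci | ci <;> rcases cj with cj | cj
        · rw [e0 i ci, e0 j cj] at hij
          exact E.inj i ci j cj hij
        · rw [e0 i ci, cj, e1] at hij; exact absurd hij (hwl i ci)
        · rw [e0 j cj, ci, e1] at hij; exact absurd hij.symm (hwl j cj)
        · omega
      refine ⟨_, pushA_new1 memA hloa, l :: ls, φ', ?_, ?_, ?_⟩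
      · refine E.cons (m' := m + 1) (by omega) e0 inj h2 ?_
        refine rep3 (m := m + 1) (a := p) (b := a) (c := m) (by omega) (by omega) (by omega) ?_
        intro z
        rw [hpt', e0 p hp, e0 a ham, e1]
      · show p < m + 1
        omega
      · intro l' h4 h5 k hk hk2 hkp h6
        change k < a + 1 at hk2
        change k < m + 1 at hk
        change inc (φ' p) l' at h4
        change k ≠ p at hkp
        rw [e0 p hp] at h4
        rw [List.mem_cons, not_or] at h5
        have hkm : k < m := by omega
        rw [e0 k hkm] at h6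
        by_cases hka : k = a
        · rw [hka] at h6
          exact onlyl l' h4 h5.1 h6
        · exact hmin' l' h4 h5.2 k hkm (by omega) hkp h6

lemma kids_rest {st : St} {p lo : ℕ} {rest : List St} {x : St} (hx : x ∈ rest) :
    x ∈ kids mode st p lo rest := by
  unfold kids
  rw [foL_eq]
  exact pushA_rest hx

end

end PL3.Search
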