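import Pool.Agent.Lib.MP_e3e9c0_co.SearchC

/-!
# The finite search: closed states and the machine
-/

namespace PL3.Search

open PL3

/-- a drawing of the explicit structure with lines `C` (masks) on the labels below `m` -/
def Model (C : List ℕ) (m : ℕ) : Prop :=
  ∃ hh : ℕ → ℤ → ℝ, (∀ t ∈ C, ∀ t' ∈ C, t ≠ t' → Cross (hh t) (hh t')) ∧
    (∀ x < m, ∃ (k : ℤ) (y : ℝ), ∀ t ∈ C, (t.testBit x = true ↔ hh t k = y)) ∧
    ∃ A B : ℤ, A < B ∧ ∀ t, (∀ k, k ≤ A → hh t k = hh t A) ∧ (∀ k, B ≤ k → hh t k = hh t B)

variable {P L : Type*} [DecidableEq L] [Fintype L] [DecidableEq P] [Fintype P]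
variable {inc : P → L → Prop} {mode : Bool} {C : ℕ → List ℕ} {mC : ℕ → ℕ}

omit [DecidableEq P] in
lemma closed_sound (hc : Config inc) (conn : Conn inc) (hcard : 9 ≤ Fintype.card P)
    (hmod : ∀ i, 9 ≤ mC i → Model (C i) (mC i)) {st : St} {ls : List L} {φ : ℕ → P}
    (E : Emb inc mode st.s ls st.m φ) (hp : st.p < st.m) {cl perm : ℕ}
    (h : closedOK C mC st cl perm = true) : DrawnZ inc := by
  classical
  unfold closedOK at h
  rw [Bool.and_eq_true] at h
  obtain ⟨hsat, h⟩ := h
  rw [all'_spec] at hsat
  have hsat' : ∀ x < st.m, ∀ l, inc (φ x) l → l ∈ ls := fun x hx l hl =>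
    E.sat_mem hc hx (hsat x (mem_below.2 hx)) hl
  -- all lines are present
  have hall : ∀ l, l ∈ ls := by
    have := conn ls.toFinset (by
      obtain ⟨i, j, k, _, _, _, hl⟩ := hc.lines (φ st.p)
      exact ⟨i, List.mem_toFinset.2 (hsat' _ hp i ((hl i).2 (by simp)))⟩) (by
      intro l hl p hpl m hpm
      rw [List.mem_toFinset] at hl ⊢
      obtain ⟨t, ht, hr⟩ := forall2_mem_right E.rep hl
      obtain ⟨k, hk, rfl⟩ := (hr.2 p).1 hpl
      exact hsat' k (hr.1 _ hk) m hpm)
    intro l
    rw [← List.mem_toFinset, this]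
    exact Finset.mem_univ _
  have hpts : ∀ q, ∃ k < st.m, φ k = q := by
    intro q
    obtain ⟨i, j, k, _, _, _, hl⟩ := hc.lines q
    obtain ⟨t, ht, hr⟩ := forall2_mem_right E.rep (hall i)
    obtain ⟨k, hk, e⟩ := (hr.2 q).1 ((hl i).2 (by simp))
    exact ⟨k, hr.1 _ hk, e⟩
  have hm : 9 ≤ st.m := by
    have : Function.Surjective (fun i : Fin st.m => φ i) := by
      intro q
      obtain ⟨k, hk, e⟩ := hpts q
      exact ⟨⟨k, hk⟩, e⟩
    have := Fintype.card_le_of_surjective _ this
    rw [Fintype.card_fin] at this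
    omega
  rw [Bool.or_eq_true, nble_true] at h
  rcases h with h | h
  · omega
  simp only [Bool.and_eq_true, all'_spec, Bool.not_eq_true', nbeq_true, nbeq_false, nble_true,
    mem'_spec, mem_below] at h
  obtain ⟨⟨⟨hmm, hC⟩, hinj⟩, hlt⟩ := h
  obtain ⟨hh, hcr, hloc, A, B, hAB, hb⟩ := hmod cl (by omega)
  -- injectivity of the permutation
  have pinj : ∀ i < st.m, ∀ j < st.m, pget perm i = pget perm j → i = j := by
    intro i hi j hj hij
    rcases lt_trichotomy i j with h | h | h
    · exact absurd hij.symm (hinj j hj i h)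
    · exact h
    · exact absurd hij (hinj i hi j h)
  have hmask : ∀ t, ∀ k < st.m, (mapMask perm t (below st.m)).testBit (pget perm k) = true ↔
      t.testBit k = true := by
    intro t k hk
    rw [mapMask_spec]
    constructor
    · rintro ⟨k', hk', h1, h2⟩
      rw [mem_below] at hk'
      rwa [pinj k' hk' k hk h2] at h1
    · intro h
      exact ⟨k, mem_below.2 hk, h, rfl⟩
  have ex : ∀ l : L, ∃ t, t ∈ st.s ∧ Rep inc φ st.m t l := fun l =>
    forall2_mem_right E.rep (hall l)
  choose τ hτ hrep using ex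
  refine ⟨fun l => hh (mapMask perm (τ l) (below st.m)), ⟨?_, ?_⟩, A, B, hAB, fun l _ => hb _⟩
  · intro i _ j _ hij
    refine hcr _ (hC _ (hτ i)) _ (hC _ (hτ j)) ?_
    intro e
    apply hij
    by_contra hne
    have same : ∀ p, inc p i → inc p j := by
      intro p hpi
      obtain ⟨k, hk, rfl⟩ := hpts p
      have h1 := ((hrep i).bit E.inj hk).2 hpi
      rw [← hmask _ k hk, e, hmask _ k hk] at h1
      exact ((hrep j).bit E.inj hk).1 h1
    obtain ⟨p, q, r, hpq, _, _, hpt⟩ := hc.points i
    have ip := (hpt p).2 (by simp)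
    have iq := (hpt q).2 (by simp)
    exact hpq (hc.lin i j hne p q ip (same p ip) iq (same q iq))
  · intro p
    obtain ⟨k, hk, rfl⟩ := hpts p
    obtain ⟨time, y, hy⟩ := hloc (pget perm k) (by have := hlt k hk; omega)
    refine ⟨time, y, fun l _ => ?_⟩
    rw [← (hrep l).bit E.inj hk, ← hmask _ k hk]
    exact hy _ (hC _ (hτ l))

lemma step_sound (hc : Config inc) (conn : Conn inc) (hcard : 9 ≤ Fintype.card P)
    (hmod : ∀ i, 9 ≤ mC i → Model (C i) (mC i)) (H : Hyp inc mode) {d c : ℕ} {st : St}
    {rest : List St} {k : ℕ → List St → Bool} (h : step mode C mC d c st rest k = true)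
    (hk : ∀ c stack, k c stack = true → ∀ st ∈ stack, Good inc mode st → DrawnZ inc)
    {st' : St} (hst : st' ∈ st :: rest) (hg : Good inc mode st') : DrawnZ inc := by
  unfold step at h
  cases h1 : Nat.ble 256 d with
  | false =>
    rw [h1] at h
    change (chk mode st.s (Nat.shiftRight d 4) (Nat.land d 15) && k c rest) = true at h
    rw [Bool.and_eq_true] at h
    rcases List.mem_cons.1 hst with rfl | hst
    · obtain ⟨ls, φ, E, _⟩ := hg
      exact (chk_false hc H E h.1).elim
    · exact hk _ _ h.2 _ hst hg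
  | true =>
    rw [h1] at h
    cases h2 : Nat.ble 512 d with
    | true =>
      rw [h2] at h
      simp only [cond_true, fo_eq] at h
      rw [Bool.and_eq_true] at h
      rcases List.mem_cons.1 hst with rfl | hst
      · obtain ⟨ls, φ, E, hp, _⟩ := hg
        exact closed_sound hc conn hcard hmod E hp h.1
      · exact hk _ _ h.2 _ hst hg
    | false =>
      rw [h2] at h
      cases h3 : Nat.beq d 271 with
      | true =>
        rw [h3] at h
        simp only [cond_true, cond_false] at h
        rw [Bool.and_eq_true, Bool.not_eq_true'] at h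
        rcases List.mem_cons.1 hst with rfl | hst
        · obtain ⟨ls, φ, E, hp, hlo⟩ := hg
          obtain ⟨st'', hm, hg'⟩ := kids_sound (rest := rest) hc E hp hlo h.1
          exact hk _ _ h.2 _ hm hg'
        · exact hk _ _ h.2 _ (kids_rest hst) hg
      | false =>
        rw [h3] at h
        simp only [cond_true, cond_false, fo_eq] at h
        rw [Bool.and_eq_true, Bool.and_eq_true, Bool.not_eq_true', nble_true] at h
        rcases List.mem_cons.1 hst with rfl | hst
        · obtain ⟨ls, φ, E, hp, hlo⟩ := hg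
          obtain ⟨st'', hm, hg'⟩ := kids_sound (rest := rest) (lo := 0) hc E
            (p := Nat.sub d 256) (by have := h.1.1; omega)
            (fun l _ _ k _ hk => absurd hk (Nat.not_lt_zero _)) h.1.2
          exact hk _ _ h.2 _ hm hg'
        · exact hk _ _ h.2 _ (kids_rest hst) hg

theorem run_sound (hc : Config inc) (conn : Conn inc) (hcard : 9 ≤ Fintype.card P)
    (hmod : ∀ i, 9 ≤ mC i → Model (C i) (mC i)) (H : Hyp inc mode) (fuel : ℕ) :
    ∀ c stack, run mode C mC fuel c stack = true → ∀ st ∈ stack, Good inc mode st →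
      DrawnZ inc := by
  induction fuel with
  | zero =>
    intro c stack h
    exact absurd h (by simp [run])
  | succ n ih =>
    intro c stack h st hst hg
    cases stack with
    | nil => simp at hst
    | cons s rest =>
      have h' : foS s (fun st' => fo (Nat.land c 1023) fun d => fo (Nat.shiftRight c 10) fun c' =>
        step mode C mC d c' st' rest (run mode C mC n)) = true := h
      rw [foS_eq, fo_eq, fo_eq] at h'
      exact step_sound hc conn hcard hmod H h' ih hst hg

end PL3.Search
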