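import Mathlib

/-!
# The finite search: definitions

A state is a list of lines (bit masks of labels), the number of labels, the current point and a
lower bound.  `run` is a stack machine driven by a certificate.
-/

namespace PL3.Search

/-- force the evaluation of a number -/
noncomputable def fo {α : Type} (n : ℕ) (f : ℕ → α) : α :=
  @Nat.rec (fun _ => α) (f 0) (fun k _ => f (Nat.succ k)) n

/-- force the evaluation of a list of numbers -/
noncomputable def foL {α : Type} (l : List ℕ) (f : List ℕ → α) : α :=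
  @List.rec ℕ (fun _ => (List ℕ → α) → α) (fun k => k [])
    (fun t _ ih k => fo t (fun t' => ih (fun l' => k (t' :: l')))) l f

def tb (t x : ℕ) : Bool := Nat.beq (Nat.land (Nat.shiftRight t x) 1) 1

/-- number of lines through `x` -/
noncomputable def cnt (s : List ℕ) (x : ℕ) : ℕ :=
  @List.rec ℕ (fun _ => ℕ) 0 (fun t _ ih => cond (tb t x) (Nat.succ ih) ih) s

/-- union of the lines through `x` -/
noncomputable def nbm (s : List ℕ) (x : ℕ) : ℕ :=
  @List.rec ℕ (fun _ => ℕ) 0 (fun t _ ih => cond (tb t x) (Nat.lor t ih) ih) s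

noncomputable def sat (s : List ℕ) (x : ℕ) : Bool := Nat.beq (cnt s x) 3

/-- the pair that is known not to be on a line (mode 0 only) -/
def forb (mode : Bool) (x y : ℕ) : Bool :=
  !mode && ((Nat.beq x 4 && Nat.beq y 5) || (Nat.beq x 5 && Nat.beq y 4))

/-- known not to be on a common line -/
noncomputable def kn (mode : Bool) (s : List ℕ) (x y : ℕ) : Bool :=
  !(tb (nbm s x) y) && (sat s x || sat s y || forb mode x y)

noncomputable def nth (s : List ℕ) (i : ℕ) : ℕ :=
  @List.rec ℕ (fun _ => ℕ → ℕ) (fun _ => 0)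
    (fun t _ ih i => @Nat.rec (fun _ => ℕ) t (fun k _ => ih k) i) s i

/-- union of the lines through `u` other than `A` and not through `q` -/
noncomputable def nbx (s : List ℕ) (u A q : ℕ) : ℕ :=
  @List.rec ℕ (fun _ => ℕ) 0
    (fun t _ ih => cond (tb t u && !Nat.beq t A && !tb t q) (Nat.lor t ih) ih) s

/-- split a two-element mask -/
def hi (t : ℕ) : ℕ := Nat.log2 t
def lo2 (t : ℕ) : ℕ := Nat.log2 (Nat.xor t (Nat.shiftLeft 1 (Nat.log2 t)))

def isTwo (t : ℕ) : Bool :=
  Nat.beq t (Nat.lor (Nat.shiftLeft 1 (hi t)) (Nat.shiftLeft 1 (lo2 t)))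

/-- the exceptional pair `(U,Q)` of a check -/
noncomputable def fin4 (mode : Bool) (s : List ℕ) (A B U Q : ℕ) : Bool :=
  cond mode true (kn mode s U Q || (tb (nbm s U) Q && sat s U && sat s Q &&
    Nat.beq (Nat.land (nbx s U A Q) (nbx s Q B U)) 0))

noncomputable def chk4 (mode : Bool) (s : List ℕ) (A B x1 x2 y1 y2 : ℕ) : Bool :=
  cond (kn mode s x1 y1)
    (cond (kn mode s x1 y2)
      (cond (kn mode s x2 y1) (fin4 mode s A B x2 y2)
        (kn mode s x2 y2 && fin4 mode s A B x2 y1))
      (kn mode s x2 y1 && kn mode s x2 y2 && fin4 mode s A B x1 y2))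
    (kn mode s x1 y2 && kn mode s x2 y1 && kn mode s x2 y2 && fin4 mode s A B x1 y1)

noncomputable def chk (mode : Bool) (s : List ℕ) (i j : ℕ) : Bool :=
  fo (nth s i) fun A => fo (nth s j) fun B => fo (Nat.land A B) fun C =>
  fo (Nat.xor A C) fun A2 => fo (Nat.xor B C) fun B2 =>
  !Nat.beq A B && Nat.beq C (Nat.shiftLeft 1 (Nat.log2 C)) && isTwo A2 && isTwo B2 &&
    fo (hi A2) fun x1 => fo (lo2 A2) fun x2 => fo (hi B2) fun y1 => fo (lo2 B2) fun y2 =>
    chk4 mode s A B x1 x2 y1 y2

/-- the numbers below `m`, increasing -/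
noncomputable def below (m : ℕ) : List ℕ := List.range m

/-- filter -/
noncomputable def filt (f : ℕ → Bool) (l : List ℕ) : List ℕ :=
  @List.rec ℕ (fun _ => List ℕ) [] (fun t _ ih => cond (f t) (t :: ih) ih) l

structure St where
  s : List ℕ
  m : ℕ
  p : ℕ
  lo : ℕ

/-- the child obtained by adding the line `{p, a, b}` -/
noncomputable def child (st : St) (p a b m' : ℕ) : St :=
  ⟨Nat.lor (Nat.lor (Nat.shiftLeft 1 p) (Nat.shiftLeft 1 a)) (Nat.shiftLeft 1 b) :: st.s, m', p,
    Nat.succ a⟩

noncomputable def avail (mode : Bool) (s : List ℕ) (m p : ℕ) : List ℕ :=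
  filt (fun x => !Nat.beq x p && !sat s x && !tb (nbm s p) x && !forb mode p x) (below m)

/-- push the children with first label `a` and second label in `Lb`, then `(a,m)`. -/
noncomputable def pushB (mode : Bool) (st : St) (p a na : ℕ) (rest : List St) (Lb : List ℕ) :
    List St :=
  @List.rec ℕ (fun _ => List St) (child st p a st.m (Nat.succ st.m) :: rest)
    (fun b _ ih => cond (tb na b || forb mode a b) ih (child st p a b st.m :: ih)) Lb

noncomputable def pushA (mode : Bool) (st : St) (p lo : ℕ) (rest : List St) (La : List ℕ) :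
    List St :=
  @List.rec ℕ (fun _ => List St)
    (child st p st.m (Nat.succ st.m) (Nat.succ (Nat.succ st.m)) :: rest)
    (fun a tl ih => cond (Nat.ble lo a) (fo (nbm st.s a) fun na => pushB mode st p a na ih tl) ih) La

noncomputable def kids (mode : Bool) (st : St) (p lo : ℕ) (rest : List St) : List St :=
  foL (avail mode st.s st.m p) fun La => pushA mode st p lo rest La

/-- the permutation stored in a number -/
def pget (perm k : ℕ) : ℕ := Nat.land (Nat.shiftRight perm (Nat.mul 4 k)) 15

/-- image of a mask -/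
noncomputable def mapMask (perm t : ℕ) (ks : List ℕ) : ℕ :=
  @List.rec ℕ (fun _ => ℕ) 0
    (fun k _ ih => cond (tb t k) (Nat.lor (Nat.shiftLeft 1 (pget perm k)) ih) ih) ks

noncomputable def mem' (x : ℕ) (l : List ℕ) : Bool :=
  @List.rec ℕ (fun _ => Bool) false (fun t _ ih => Nat.beq x t || ih) l

noncomputable def all' (f : ℕ → Bool) (l : List ℕ) : Bool :=
  @List.rec ℕ (fun _ => Bool) true (fun t _ ih => f t && ih) l

noncomputable def closedOK (C : ℕ → List ℕ) (mC : ℕ → ℕ) (st : St) (cl perm : ℕ) : Bool :=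
  all' (fun x => sat st.s x) (below st.m) && (Nat.ble st.m 8 || (Nat.beq st.m (mC cl) &&
    all' (fun t => mem' (mapMask perm t (below st.m)) (C cl)) st.s &&
    all' (fun i => all' (fun j => !Nat.beq (pget perm i) (pget perm j)) (below i)) (below st.m) &&
    all' (fun i => Nat.ble (Nat.succ (pget perm i)) st.m) (below st.m)))

/-- one step of the machine on the state `st` with code `d`. -/
noncomputable def step (mode : Bool) (C : ℕ → List ℕ) (mC : ℕ → ℕ) (d c : ℕ) (st : St)
    (rest : List St) (k : ℕ → List St → Bool) : Bool :=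
  cond (Nat.ble 256 d)
    (cond (Nat.ble 512 d)
      (fo (Nat.shiftRight c 40) fun c' =>
        closedOK C mC st (Nat.sub d 512) (Nat.land c 1099511627775) && k c' rest)
      (cond (Nat.beq d 271)
        (!sat st.s st.p && k c (kids mode st st.p st.lo rest))
        (fo (Nat.sub d 256) fun P =>
          Nat.ble (Nat.succ P) st.m && !sat st.s P && k c (kids mode st P 0 rest))))
    (chk mode st.s (Nat.shiftRight d 4) (Nat.land d 15) && k c rest)

/-- force a state -/
noncomputable def foS {α : Type} (st : St) (f : St → α) : α :=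
  @St.rec (fun _ => α) (fun s m p lo => fo m fun m' => fo p fun p' => fo lo fun lo' =>
    @List.rec ℕ (fun _ => α) (f ⟨[], m', p', lo'⟩)
      (fun t tl _ => fo t fun t' => f ⟨t' :: tl, m', p', lo'⟩) s) st

/-- the machine -/
noncomputable def run (mode : Bool) (C : ℕ → List ℕ) (mC : ℕ → ℕ) (fuel : ℕ) :
    ℕ → List St → Bool :=
  @Nat.rec (fun _ => ℕ → List St → Bool) (fun _ _ => false)
    (fun _ ih c stack => @List.rec St (fun _ => Bool) true
      (fun st rest _ => foS st fun st' => fo (Nat.land c 1023) fun d =>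
        fo (Nat.shiftRight c 10) fun c' => step mode C mC d c' st' rest ih) stack) fuel

end PL3.Search
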