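import Pool.Agent.Lib.MP_e3e9c0_co.SearchD
import Pool.Agent.Lib.MP_e3e9c0_co.SearchRun

/-!
# Explicit drawings of the small closed configurations
-/

namespace PL3.Search

open PL3

/-- strictly below from now on -/
def scan1 : List ℕ → List ℕ → Bool
  | [], [] => true
  | a :: as, b :: bs => Nat.ble (a + 1) b && scan1 as bs
  | _, _ => false

/-- strictly above, then equal once, then strictly below -/
def scan0 : List ℕ → List ℕ → Bool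
  | a :: as, b :: bs => cond (Nat.beq a b) (!as.isEmpty && scan1 as bs) (Nat.ble (b + 1) a && scan0 as bs)
  | _, _ => false

def crossL : List ℕ → List ℕ → Bool
  | a :: as, b :: bs => Nat.ble (b + 1) a && scan0 as bs
  | _, _ => false

lemma scan1_spec : ∀ (as bs : List ℕ), scan1 as bs = true →
    ∀ i < as.length, as.getD i 0 < bs.getD i 0 := by
  intro as
  induction as with
  | nil => intro bs _ i hi; simp at hi
  | cons a as ih =>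
    intro bs h i hi
    cases bs with
    | nil => simp [scan1] at h
    | cons b bs =>
      have h' : (Nat.ble (a + 1) b && scan1 as bs) = true := h
      rw [Bool.and_eq_true, nble_true] at h'
      cases i with
      | zero => 
        show a < b
        omega
      | succ i =>
        have := ih bs h'.2 i (by simpa using hi)
        simpa using this

lemma scan0_spec : ∀ (as bs : List ℕ), scan0 as bs = true →
    ∃ z, z + 1 < as.length ∧ as.getD z 0 = bs.getD z 0 ∧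
      (∀ i < z, bs.getD i 0 < as.getD i 0) ∧
      (∀ i, z < i → i < as.length → as.getD i 0 < bs.getD i 0) := by
  intro as
  induction as with
  | nil => intro bs h; simp [scan0] at h
  | cons a as ih =>
    intro bs h
    cases bs with
    | nil => simp [scan0] at h
    | cons b bs =>
      have h' : cond (Nat.beq a b) (!as.isEmpty && scan1 as bs)
        (Nat.ble (b + 1) a && scan0 as bs) = true := h
      cases hab : Nat.beq a b with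
      | true =>
        rw [hab, cond_true, Bool.and_eq_true] at h'
        rw [nbeq_true] at hab
        have hne : as ≠ [] := by
          intro e
          rw [e] at h'
          simp at h'
        have hlen : 0 < as.length := List.length_pos_iff.2 hne
        refine ⟨0, ?_, hab, fun i hi => absurd hi (Nat.not_lt_zero _), fun i hi hi2 => ?_⟩
        · rw [List.length_cons]; omega
        · obtain ⟨i, rfl⟩ : ∃ j, i = j + 1 := ⟨i - 1, by omega⟩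
          have := scan1_spec as bs h'.2 i (by simpa using hi2)
          simpa using this
      | false =>
        rw [hab, cond_false, Bool.and_eq_true, nble_true] at h'
        obtain ⟨z, h1, h2, h3, h4⟩ := ih bs h'.2
        refine ⟨z + 1, by rw [List.length_cons]; omega, by simpa using h2, fun i hi => ?_,
          fun i hi hi2 => ?_⟩
        · cases i with
          | zero =>
            show b < a
            omega
          | succ i =>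
            have := h3 i (by omega)
            simpa using this
        · obtain ⟨i, rfl⟩ : ∃ j, i = j + 1 := ⟨i - 1, by omega⟩
          have := h4 i (by omega) (by simpa using hi2)
          simpa using this

lemma crossL_spec (as bs : List ℕ) (h : crossL as bs = true) :
    ∃ z, 0 < z ∧ z + 1 < as.length ∧ as.getD z 0 = bs.getD z 0 ∧
      (∀ i < z, bs.getD i 0 < as.getD i 0) ∧
      (∀ i, z < i → i < as.length → as.getD i 0 < bs.getD i 0) := by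
  cases as with
  | nil => simp [crossL] at h
  | cons a as =>
    cases bs with
    | nil => simp [crossL] at h
    | cons b bs =>
      have h' : (Nat.ble (b + 1) a && scan0 as bs) = true := h
      rw [Bool.and_eq_true, nble_true] at h'
      obtain ⟨z, h1, h2, h3, h4⟩ := scan0_spec as bs h'.2
      refine ⟨z + 1, by omega, by rw [List.length_cons]; omega, by simpa using h2, fun i hi => ?_,
        fun i hi hi2 => ?_⟩
      · cases i with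
        | zero =>
          show b < a
          omega
        | succ i =>
          have := h3 i (by omega)
          simpa using this
      · obtain ⟨i, rfl⟩ : ∃ j, i = j + 1 := ⟨i - 1, by omega⟩
        have := h4 i (by omega) (by simpa using hi2)
        simpa using this

/-- the row of a mask -/
def rowOf : List (ℕ × List ℕ) → ℕ → List ℕ
  | [], _ => []
  | a :: tl, t => if a.1 = t then a.2 else rowOf tl t

lemma rowOf_mem {tab : List (ℕ × List ℕ)} {t : ℕ} (h : t ∈ tab.map Prod.fst) :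
    (t, rowOf tab t) ∈ tab := by
  induction tab with
  | nil => simp at h
  | cons a tl ih =>
    by_cases e : a.1 = t
    · simp only [rowOf, if_pos e, List.mem_cons]
      left
      rw [← e]
    · simp only [rowOf, if_neg e, List.mem_cons]
      right
      apply ih
      rw [List.map_cons, List.mem_cons] at h
      exact h.resolve_left (fun h => e h.symm)

/-- check of an explicit table of heights -/
def tabOK (tab : List (ℕ × List ℕ)) (lc : List (ℕ × ℕ)) (T m : ℕ) : Bool :=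
  tab.all (fun a => Nat.beq a.2.length T) &&
  tab.all (fun a => tab.all (fun b => Nat.beq a.1 b.1 || crossL a.2 b.2 || crossL b.2 a.2)) &&
  (List.range m).all (fun x => Nat.ble ((lc.getD x (0, 0)).1 + 1) T &&
    tab.all (fun a => tb a.1 x == Nat.beq (a.2.getD (lc.getD x (0, 0)).1 0) (lc.getD x (0, 0)).2))

lemma sw_of_row {T : ℕ} {as bs : List ℕ} (hT : as.length = T) (h : crossL as bs = true) :
    Sw (fun k : ℤ => ((as.getD (min k.toNat (T - 1)) 0 : ℕ) : ℝ))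
      (fun k : ℤ => ((bs.getD (min k.toNat (T - 1)) 0 : ℕ) : ℝ)) := by
  obtain ⟨z, h0, h1, h2, h3, h4⟩ := crossL_spec as bs h
  rw [hT] at h1 h4
  refine ⟨(z : ℤ), ?_, fun k hk => ?_, fun k hk => ?_⟩
  · have : min (z : ℤ).toNat (T - 1) = z := by rw [Int.toNat_natCast]; omega
    show ((as.getD (min (z : ℤ).toNat (T - 1)) 0 : ℕ) : ℝ) =
      ((bs.getD (min (z : ℤ).toNat (T - 1)) 0 : ℕ) : ℝ)
    rw [this, h2]
  · show ((bs.getD (min k.toNat (T - 1)) 0 : ℕ) : ℝ) < ((as.getD (min k.toNat (T - 1)) 0 : ℕ) : ℝ)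
    exact_mod_cast h3 _ (by omega)
  · show ((as.getD (min k.toNat (T - 1)) 0 : ℕ) : ℝ) < ((bs.getD (min k.toNat (T - 1)) 0 : ℕ) : ℝ)
    exact_mod_cast h4 _ (by omega) (by omega)

lemma model_of_tab {tab : List (ℕ × List ℕ)} {lc : List (ℕ × ℕ)} {T m : ℕ}
    (h : tabOK tab lc T m = true) (hT : 0 < T) : Model (tab.map Prod.fst) m := by
  unfold tabOK at h
  simp only [Bool.and_eq_true, List.all_eq_true, Bool.or_eq_true, nbeq_true, nble_true,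
    List.mem_range, beq_iff_eq] at h
  obtain ⟨⟨h1, h2⟩, h3⟩ := h
  refine ⟨fun t k => ((((rowOf tab t).getD (min k.toNat (T - 1)) 0 : ℕ)) : ℝ), ?_, ?_,
    0, T, by omega, fun t => ⟨fun k hk => ?_, fun k hk => ?_⟩⟩
  · intro t ht t' ht' hne
    have m1 := rowOf_mem ht
    have m2 := rowOf_mem ht'
    rcases h2 _ m1 _ m2 with (h | h) | h
    · exact absurd h hne
    · exact Or.inl (sw_of_row (h1 _ m1) h)
    · exact Or.inr (sw_of_row (h1 _ m2) h)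
  · intro x hx
    obtain ⟨h4, h5⟩ := h3 x hx
    refine ⟨((lc.getD x (0, 0)).1 : ℤ), ((lc.getD x (0, 0)).2 : ℝ), fun t ht => ?_⟩
    have := h5 _ (rowOf_mem ht)
    simp only [tb_eq] at this
    rw [this, nbeq_true]
    have e : min ((lc.getD x (0, 0)).1 : ℤ).toNat (T - 1) = (lc.getD x (0, 0)).1 := by
      rw [Int.toNat_natCast]; omega
    simp only [e]
    exact_mod_cast Iff.rfl
  · have e1 : k.toNat = 0 := by omega
    simp only [e1, Int.toNat_zero]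
  · have e1 : min k.toNat (T - 1) = T - 1 := by omega
    have e2 : min (T : ℤ).toNat (T - 1) = T - 1 := by omega
    simp only [e1, e2]

def tabs : List (List (ℕ × List ℕ)) :=
  [[(672, [6, 6, 6, 6, 6, 6, 5, 4, 4, 4, 3, 4, 3, 4, 4, 4, 3, 4, 3, 3]),
    (352, [9, 9, 9, 9, 9, 9, 9, 9, 7, 5, 3, 2, 1, 0, 0, 0, 0, 0, 0, 0]),
    (784, [8, 8, 8, 8, 8, 8, 8, 8, 7, 8, 7, 7, 7, 7, 6, 5, 3, 1, 1, 1]),
    (208, [7, 7, 7, 7, 7, 7, 7, 6, 6, 5, 6, 5, 3, 2, 2, 2, 2, 1, 2, 2]),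
    (521, [4, 3, 4, 3, 1, 1, 1, 1, 1, 1, 1, 1, 1, 2, 3, 3, 3, 5, 5, 5]),
    (268, [0, 0, 0, 0, 1, 3, 5, 6, 7, 9, 9, 9, 9, 9, 9, 9, 9, 9, 9, 9]),
    (138, [2, 2, 1, 2, 1, 2, 2, 2, 2, 2, 2, 2, 3, 5, 6, 7, 7, 7, 7, 7]),
    (70, [1, 1, 1, 3, 4, 3, 4, 4, 5, 5, 7, 8, 8, 8, 8, 8, 8, 8, 8, 8]),
    (37, [3, 3, 5, 5, 5, 3, 3, 3, 3, 3, 3, 5, 6, 5, 5, 5, 6, 6, 6, 6]),
    (19, [5, 3, 1, 0, 0, 0, 0, 0, 0, 0, 0, 0, 0, 0, 1, 1, 1, 1, 3, 4])],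
  [(800, [1, 1, 1, 1, 2, 4, 6, 8, 9, 9, 9, 9, 9, 9, 8, 8]),
    (224, [8, 7, 8, 8, 8, 8, 6, 5, 4, 3, 1, 1, 1, 1, 1, 1]),
    (656, [9, 7, 7, 6, 6, 4, 3, 1, 0, 0, 0, 0, 0, 0, 0, 0]),
    (336, [6, 6, 5, 4, 2, 2, 2, 1, 2, 2, 1, 2, 2, 3, 3, 3]),
    (521, [4, 3, 4, 4, 5, 4, 5, 5, 6, 5, 6, 6, 5, 5, 5, 5]),
    (268, [2, 2, 2, 3, 2, 3, 3, 4, 4, 5, 7, 7, 7, 6, 7, 7]),
    (138, [7, 7, 9, 9, 9, 9, 9, 8, 7, 5, 5, 3, 2, 2, 2, 2]),
    (70, [0, 0, 0, 0, 0, 0, 0, 0, 0, 1, 1, 3, 5, 6, 8, 9]),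
    (37, [3, 3, 5, 6, 7, 7, 6, 7, 7, 8, 8, 8, 8, 6, 6, 6]),
    (19, [5, 3, 2, 1, 1, 1, 1, 1, 3, 3, 4, 3, 4, 4, 4, 4])],
  [(416, [9, 9, 9, 9, 9, 9, 9, 9, 9, 9, 7, 6, 5, 3, 1, 0, 0, 0, 0, 0, 0, 0, 0, 0]),
    (608, [6, 6, 5, 6, 5, 5, 5, 5, 4, 4, 4, 4, 4, 3, 4, 3, 3, 3, 3, 3, 3, 2, 3, 3]),
    (641, [8, 8, 8, 8, 8, 8, 8, 8, 8, 8, 7, 8, 8, 8, 8, 8, 8, 8, 7, 5, 4, 2, 1, 1]),
    (784, [5, 4, 4, 3, 4, 3, 2, 2, 2, 2, 2, 2, 2, 2, 1, 2, 2, 2, 2, 2, 2, 2, 4, 4]),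
    (88, [7, 7, 5, 3, 2, 0, 0, 0, 0, 0, 0, 0, 0, 0, 0, 0, 1, 1, 1, 1, 1, 1, 1, 2]),
    (268, [1, 1, 1, 1, 1, 0, 1, 1, 1, 1, 1, 1, 1, 1, 1, 3, 4, 6, 7, 8, 8, 8, 8, 8]),
    (138, [0, 0, 0, 0, 0, 0, 2, 3, 4, 5, 7, 9, 9, 9, 9, 9, 9, 9, 9, 9, 9, 9, 9, 9]),
    (70, [4, 4, 5, 7, 7, 7, 7, 7, 7, 5, 5, 5, 5, 6, 6, 6, 4, 4, 4, 4, 4, 5, 5, 5]),
    (37, [2, 2, 2, 2, 2, 3, 4, 3, 3, 3, 3, 3, 3, 3, 5, 5, 4, 5, 5, 5, 7, 7, 7, 7]),
    (19, [3, 3, 3, 3, 5, 6, 6, 6, 6, 5, 6, 6, 7, 7, 7, 7, 7, 6, 6, 5, 6, 6, 6, 6])],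
  [(416, [4, 4, 3, 4, 3, 3, 2, 3, 3, 4, 4, 4, 3, 4, 4]),
    (196, [6, 6, 6, 6, 6, 4, 2, 2, 2, 2, 3, 2, 2, 1, 2]),
    (328, [5, 5, 3, 2, 1, 1, 1, 1, 1, 1, 0, 1, 1, 1, 3]),
    (276, [2, 2, 3, 5, 5, 4, 5, 4, 5, 5, 6, 6, 6, 6, 6]),
    (146, [1, 1, 0, 1, 1, 2, 2, 4, 6, 7, 7, 7, 7, 7, 7]),
    (42, [3, 2, 0, 0, 0, 0, 0, 0, 0, 0, 0, 2, 3, 5, 5]),
    (97, [7, 7, 7, 7, 7, 7, 6, 7, 6, 5, 5, 5, 3, 1, 1]),
    (25, [8, 8, 8, 8, 8, 8, 6, 4, 3, 2, 0, 0, 0, 0, 0]),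
    (7, [0, 0, 0, 2, 3, 4, 6, 8, 8, 8, 8, 8, 8, 8, 8])],
  [(416, [3, 3, 3, 4, 6, 8, 8, 8, 8, 8, 8, 8, 7, 5, 5]),
    (268, [4, 4, 6, 7, 6, 7, 7, 7, 7, 7, 7, 5, 4, 4, 4]),
    (196, [2, 2, 2, 2, 3, 3, 3, 5, 6, 6, 6, 5, 6, 5, 6]),
    (336, [8, 8, 8, 8, 6, 5, 3, 1, 0, 0, 0, 0, 0, 0, 0]),
    (146, [1, 1, 1, 1, 1, 1, 1, 1, 3, 4, 3, 4, 4, 5, 7]),
    (42, [5, 4, 5, 4, 5, 5, 6, 5, 5, 5, 3, 3, 3, 3, 3]),
    (97, [7, 7, 6, 4, 4, 4, 3, 4, 3, 1, 1, 1, 1, 1, 1]),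
    (25, [6, 4, 3, 2, 2, 2, 2, 1, 2, 1, 2, 2, 2, 2, 2]),
    (7, [0, 0, 0, 0, 0, 0, 0, 0, 0, 1, 3, 5, 7, 8, 8])],
  [(592, [9, 9, 9, 9, 8, 6, 5, 3, 1, 0, 0, 0, 0, 0, 0, 0]),
    (324, [8, 8, 8, 6, 5, 4, 4, 3, 4, 3, 1, 1, 1, 1, 1, 1]),
    (148, [7, 6, 4, 3, 2, 2, 2, 2, 1, 2, 1, 2, 2, 2, 2, 2]),
    (800, [6, 6, 7, 6, 7, 6, 7, 7, 5, 5, 4, 3, 3, 3, 3, 3]),
    (648, [5, 5, 4, 5, 5, 6, 8, 8, 8, 7, 7, 5, 4, 4, 4, 4]),
    (386, [4, 4, 4, 6, 8, 9, 9, 9, 9, 9, 8, 8, 7, 5, 5, 5]),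
    (42, [3, 3, 3, 3, 4, 4, 5, 6, 5, 6, 6, 5, 6, 5, 6, 6]),
    (97, [2, 2, 2, 2, 2, 3, 3, 3, 5, 7, 8, 9, 9, 9, 7, 7]),
    (25, [1, 1, 1, 1, 1, 1, 1, 1, 1, 3, 4, 5, 7, 8, 7, 8]),
    (7, [0, 0, 0, 0, 0, 0, 0, 0, 0, 0, 1, 3, 4, 5, 7, 9])],
  [(896, [0, 0, 0, 0, 2, 4, 6, 7, 8, 9, 9, 9, 9, 9, 9, 9, 9, 9]),
    (592, [1, 1, 1, 0, 1, 1, 2, 2, 2, 2, 4, 5, 7, 8, 8, 8, 8, 8]),
    (324, [2, 2, 2, 3, 2, 3, 3, 3, 3, 2, 3, 3, 4, 5, 7, 7, 7, 7]),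
    (148, [3, 3, 4, 5, 5, 4, 5, 5, 6, 6, 6, 5, 6, 5, 6, 6, 6, 6]),
    (552, [4, 3, 2, 0, 0, 0, 0, 0, 0, 0, 0, 2, 2, 2, 4, 5, 5, 5]),
    (290, [5, 5, 4, 4, 2, 1, 1, 1, 1, 1, 0, 1, 1, 1, 1, 2, 4, 4]),
    (138, [6, 6, 6, 6, 6, 4, 4, 4, 4, 5, 4, 3, 3, 2, 3, 2, 3, 3]),
    (97, [7, 7, 7, 7, 7, 7, 6, 5, 4, 2, 0, 0, 0, 0, 0, 0, 0, 2]),
    (25, [8, 8, 8, 8, 8, 8, 8, 7, 7, 7, 7, 5, 4, 2, 1, 1, 0, 1]),
    (7, [9, 9, 9, 9, 9, 9, 9, 9, 8, 8, 8, 8, 7, 5, 4, 2, 0, 0])],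
  [(196, [0, 0, 0, 2, 4, 6, 7, 8, 8, 8, 8, 8, 8, 8]),
    (276, [2, 2, 3, 2, 3, 3, 4, 4, 4, 6, 6, 5, 6, 6]),
    (176, [4, 4, 4, 5, 4, 5, 5, 5, 4, 5, 4, 4, 3, 4]),
    (328, [1, 1, 0, 1, 1, 2, 2, 2, 2, 2, 4, 5, 7, 7]),
    (290, [5, 5, 7, 7, 7, 6, 6, 6, 7, 7, 7, 5, 3, 3]),
    (138, [6, 5, 6, 6, 4, 3, 3, 3, 3, 2, 3, 2, 2, 2]),
    (97, [3, 2, 0, 0, 0, 0, 0, 0, 0, 0, 0, 2, 3, 5]),
    (25, [8, 8, 8, 8, 8, 8, 7, 6, 4, 2, 0, 0, 0, 0]),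
    (7, [7, 5, 4, 2, 1, 1, 1, 1, 1, 1, 0, 1, 1, 1])]]

def locs : List (List (ℕ × ℕ)) :=
  [[(1, 3), (2, 1), (5, 3), (4, 1), (17, 1), (10, 3), (9, 5), (12, 3), (8, 7), (16, 3)],
  [(1, 3), (11, 3), (13, 6), (9, 5), (7, 1), (6, 6), (10, 1), (1, 7), (4, 2), (5, 4)],
  [(19, 5), (9, 5), (16, 4), (5, 0), (3, 3), (13, 3), (2, 5), (10, 7), (14, 1), (21, 2)],
  [(6, 6), (2, 0), (5, 4), (10, 0), (7, 4), (12, 3), (13, 1), (6, 2), (2, 3)],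
  [(9, 1), (10, 3), (11, 5), (1, 4), (7, 1), (3, 4), (6, 3), (13, 5), (4, 6)],
  [(14, 7), (13, 5), (10, 1), (11, 5), (8, 1), (8, 5), (7, 3), (2, 4), (3, 6), (5, 6)],
  [(16, 0), (15, 2), (13, 5), (13, 2), (11, 5), (10, 0), (9, 2), (5, 4), (4, 2), (3, 0)],
  [(10, 0), (1, 5), (3, 2), (9, 2), (8, 4), (12, 3), (2, 0), (4, 4), (11, 5)]]


def Tm : List (ℕ × ℕ) := [(20, 10), (16, 10), (24, 10), (15, 9), (15, 9), (16, 10), (18, 10), (14, 9)]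

lemma tabs_ok : ∀ i < 8, tabOK (tabs.getD i []) (locs.getD i []) (Tm.getD i (0, 0)).1
    (Tm.getD i (0, 0)).2 = true ∧ 0 < (Tm.getD i (0, 0)).1 ∧
    (tabs.getD i []).map Prod.fst = clsList.getD i [] ∧
    (Tm.getD i (0, 0)).2 = mList.getD i 0 := by
  decide +kernel

theorem models (i : ℕ) (h : 9 ≤ m8 i) : Model (C8 i) (m8 i) := by
  have hi : i < 8 := by
    by_contra hi
    have : mList.length ≤ i := by
      show 8 ≤ i
      omega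
    have h2 : m8 i = 0 := by
      unfold m8
      exact List.getD_eq_default _ _ this
    omega
  obtain ⟨h1, h2, h3, h4⟩ := tabs_ok i hi
  have := model_of_tab h1 h2
  rw [h3, h4] at this
  exact this

end PL3.Search
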