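import Pool.Agent.Lib.MP_e3e9c0_co.Order

/-!
# Splitting a wire into two nearly parallel wires

Near every integer time `k` the wires are replaced by straight lines `h + ε (A s + B)`, where `s` is
the local time in `[-1/2, 1/2)`.  The wire `a` is doubled into `a` and `b`, which cross at the time
`xs` only.
-/

namespace PL3

/-- a function given in local time around the integers. -/
noncomputable def locT (F : ℤ → ℝ → ℝ) (x : ℝ) : ℝ := F ⌊x + 1 / 2⌋ (x - ⌊x + 1 / 2⌋)

lemma locT_spec (x : ℝ) : -(1/2) ≤ x - ⌊x + 1 / 2⌋ ∧ x - ⌊x + 1 / 2⌋ < 1 / 2 := by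
  have h1 := Int.floor_le (x + 1 / 2)
  have h2 := Int.lt_floor_add_one (x + 1 / 2)
  constructor <;> linarith

lemma floor_half {k : ℤ} {s : ℝ} (h1 : -(1/2) ≤ s) (h2 : s < 1 / 2) : ⌊(k : ℝ) + s + 1 / 2⌋ = k := by
  rw [Int.floor_eq_iff]; constructor <;> linarith

lemma locT_eq (F : ℤ → ℝ → ℝ) {k : ℤ} {s : ℝ} (h1 : -(1/2) ≤ s) (h2 : s < 1 / 2) :
    locT F (k + s) = F k s := by
  unfold locT
  rw [floor_half h1 h2]
  congr 1; ring

lemma locT_int (F : ℤ → ℝ → ℝ) (k : ℤ) : locT F k = F k 0 := by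
  have := locT_eq F (k := k) (s := 0) (by norm_num) (by norm_num)
  simpa using this

/-- switching in local time. -/
lemma sw_locT (F G : ℤ → ℝ → ℝ) (τ : ℤ) (s₀ : ℝ) (hs1 : -(1/2) ≤ s₀) (hs2 : s₀ < 1 / 2)
    (h1 : ∀ k, k < τ → ∀ s, -(1/2) ≤ s → s < 1/2 → G k s < F k s)
    (h2 : ∀ k, τ < k → ∀ s, -(1/2) ≤ s → s < 1/2 → F k s < G k s)
    (h3 : F τ s₀ = G τ s₀) (h4 : ∀ s, s < s₀ → G τ s < F τ s) (h5 : ∀ s, s₀ < s → F τ s < G τ s) :
    Sw (locT F) (locT G) := by
  refine ⟨τ + s₀, by rw [locT_eq F hs1 hs2, locT_eq G hs1 hs2, h3], fun t ht => ?_, fun t ht => ?_⟩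
  · obtain ⟨e1, e2⟩ := locT_spec t
    unfold locT
    set k := ⌊t + 1/2⌋ with hk
    rcases lt_trichotomy k τ with h | h | h
    · exact h1 k h _ e1 e2
    · rw [h]; rw [h] at e1 e2; exact h4 _ (by linarith)
    · exfalso
      have : (τ : ℝ) + 1 ≤ k := by exact_mod_cast h
      linarith
  · obtain ⟨e1, e2⟩ := locT_spec t
    unfold locT
    set k := ⌊t + 1/2⌋ with hk
    rcases lt_trichotomy k τ with h | h | h
    · exfalso
      have : (k : ℝ) + 1 ≤ τ := by exact_mod_cast h
      linarith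
    · rw [h]; rw [h] at e1 e2; exact h5 _ (by linarith)
    · exact h2 k h _ e1 e2

/-- a small positive number below finitely many positive thresholds. -/
lemma exists_small {ι : Type*} (s : Finset ι) (M g : ι → ℝ) (hg : ∀ i ∈ s, 0 < g i) :
    ∃ ε : ℝ, 0 < ε ∧ ∀ i ∈ s, ε * M i < g i := by
  classical
  induction s using Finset.induction_on with
  | empty => exact ⟨1, one_pos, by simp⟩
  | insert i s hi ih =>
    obtain ⟨ε, h1, h2⟩ := ih (fun j hj => hg j (Finset.mem_insert_of_mem hj))
    have hgi := hg i (Finset.mem_insert_self _ _)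
    have hpos : 0 < g i / (|M i| + 1) := div_pos hgi (by positivity)
    refine ⟨min ε (g i / (|M i| + 1)), lt_min h1 hpos, fun j hj => ?_⟩
    have hm : 0 < min ε (g i / (|M i| + 1)) := lt_min h1 hpos
    rcases Finset.mem_insert.1 hj with rfl | hj
    · have e1 : min ε (g j / (|M j| + 1)) * M j ≤ (g j / (|M j| + 1)) * |M j| :=
        (mul_le_mul_of_nonneg_left (le_abs_self _) hm.le).trans
          (mul_le_mul_of_nonneg_right (min_le_right _ _) (abs_nonneg _))
      have e2 : (g j / (|M j| + 1)) * |M j| < g j := by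
        rw [div_mul_eq_mul_div, div_lt_iff₀ (by positivity)]
        nlinarith [abs_nonneg (M j)]
      linarith
    · have e1 : min ε (g i / (|M i| + 1)) * M j ≤ max (ε * M j) 0 := by
        rcases le_or_gt 0 (M j) with h | h
        · exact (mul_le_mul_of_nonneg_right (min_le_left _ _) h).trans (le_max_left _ _)
        · exact (mul_nonpos_of_nonneg_of_nonpos hm.le h.le).trans (le_max_right _ _)
      have e2 := h2 j hj
      have e3 := hg j (Finset.mem_insert_of_mem hj)
      exact e1.trans_lt (max_lt e2 e3)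

variable {L : Type*} [DecidableEq L]

/-- the projection replacing `b` by `a`. -/
def prj (a b l : L) : L := if l = b then a else l

/-- The doubled family in local coordinates. -/
noncomputable def dbl (a b : L) (h : L → ℤ → ℝ) (ε : ℤ → ℝ) (A B : L → ℤ → ℝ) (l : L) (k : ℤ)
    (s : ℝ) : ℝ := h (prj a b l) k + ε k * (A l k * s + B l k)

theorem split_core (U : Finset L) (a b : L) (ha : a ∈ U) (hb : b ∈ U) (hab : a ≠ b)
    (h : L → ℤ → ℝ) (hg : Gen (U.erase b) h) (hbd : Bdd (U.erase b) h) :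
    ∃ σ : L → ℝ, (∀ i ∈ U.erase b, ∀ j ∈ U.erase b, i ≠ j → σ i ≠ σ j) ∧
      ∀ (xs : ℤ) (B : L → ℤ → ℝ),
        (∀ k, k < xs → B b k < B a k) → (∀ k, xs < k → B a k < B b k) → (∀ l, B l xs = 0) →
        (∀ i ∈ U, ∀ j ∈ U, prj a b i ≠ prj a b j → ∀ k,
          |B i k - B j k| < |σ (prj a b i) - σ (prj a b j)| / 2) →
        ∃ (ε : ℤ → ℝ) (A : L → ℤ → ℝ), (∀ k, 0 < ε k) ∧
          (∀ l k, ((l ≠ a ∧ l ≠ b) ∨ k ≠ xs) → A l k = σ (prj a b l)) ∧
          (∀ i ∈ U, ∀ j ∈ U, i ≠ j →
            Cross (locT (dbl a b h ε A B i)) (locT (dbl a b h ε A B j))) ∧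
          (∀ i ∈ U, ∀ j ∈ U, ∀ k s, -(1/2) ≤ s → s < 1/2 → h (prj a b i) k ≠ h (prj a b j) k →
            dbl a b h ε A B i k s ≠ dbl a b h ε A B j k s) := by
  obtain ⟨A₀, B₀, hAB₀, hconst⟩ := hbd
  have pa : prj a b a = a := by simp [prj, hab]
  have pb : prj a b b = a := by simp [prj]
  have pU : ∀ l ∈ U, prj a b l ∈ U.erase b := by
    intro l hl
    unfold prj
    split_ifs with h1
    · exact Finset.mem_erase.2 ⟨hab, ha⟩
    · exact Finset.mem_erase.2 ⟨h1, hl⟩
  have noTie : ∀ i ∈ U.erase b, ∀ j ∈ U.erase b, i ≠ j → ∀ t, t ≤ A₀ → h i t ≠ h j t := by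
    intro i hi j hj hij t ht e
    have e1 : h i (t-1) = h j (t-1) := by
      rw [(hconst i hi).1 (t-1) (by omega), (hconst j hj).1 (t-1) (by omega),
        ← (hconst i hi).1 t ht, ← (hconst j hj).1 t ht, e]
    exact absurd ((hg.cross i hi j hj hij).eq_unique e e1) (by omega)
  let σ : L → ℝ := fun l => - h l A₀
  have hσ : ∀ i ∈ U.erase b, ∀ j ∈ U.erase b, i ≠ j → σ i ≠ σ j := by
    intro i hi j hj hij e
    exact noTie i hi j hj hij A₀ le_rfl (neg_injective e)
  -- orientation
  have orient : ∀ i ∈ U.erase b, ∀ j ∈ U.erase b, i ≠ j → σ i < σ j → Sw (h i) (h j) := by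
    intro i hi j hj hij hs
    have hs' : h j A₀ < h i A₀ := neg_lt_neg_iff.1 hs
    rcases hg.cross i hi j hj hij with hc | hc
    · exact hc
    · exfalso
      obtain ⟨t, ht⟩ := hc.spec
      have h1 := (ht A₀).2.1.1 hs'
      exact noTie i hi j hj hij t h1.le (le_antisymm ((ht t).2.2.1.2 le_rfl) ((ht t).2.2.2.2 le_rfl))
  refine ⟨σ, hσ, ?_⟩
  intro xs B hB1 hB2 hB3 hB4
  -- κ
  obtain ⟨κ, hκ0, hκ⟩ := exists_small ((U.erase b).erase a) (fun _ => (1:ℝ))
    (fun i => |σ a - σ i|) (by
      intro i hi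
      have h1 := Finset.mem_erase.1 hi
      have := hσ a (Finset.mem_erase.2 ⟨hab, ha⟩) i h1.2 h1.1.symm
      exact abs_pos.2 (sub_ne_zero.2 this))
  let A : L → ℤ → ℝ := fun l k => if k = xs ∧ l = a then σ a - κ else
    if k = xs ∧ l = b then σ a + κ else σ (prj a b l)
  have hA : ∀ l k, ((l ≠ a ∧ l ≠ b) ∨ k ≠ xs) → A l k = σ (prj a b l) := by
    intro l k hh
    have h1 : ¬ (k = xs ∧ l = a) := by rintro ⟨rfl, rfl⟩; simp at hh
    have h2 : ¬ (k = xs ∧ l = b) := by rintro ⟨rfl, rfl⟩; simp at hh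
    simp only [A, if_neg h1, if_neg h2]
  have hAa : A a xs = σ a - κ := by simp [A]
  have hAb : A b xs = σ a + κ := by simp [A, hab.symm]
  -- sign of the slopes differences
  have slope : ∀ i ∈ U, ∀ j ∈ U, σ (prj a b i) < σ (prj a b j) → ∀ k, A i k < A j k := by
    intro i hi j hj hs k
    have hne : prj a b i ≠ prj a b j := fun e => absurd (congrArg σ e) hs.ne
    by_cases hk : k = xs
    · subst hk
      by_cases hia : i = a ∨ i = b
      · have hj1 : j ≠ a := by
          rintro rfl; rcases hia with rfl | rfl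
          · exact hne rfl
          · exact hne (by rw [pb, pa])
        have hj2 : j ≠ b := by
          rintro rfl; rcases hia with rfl | rfl
          · exact hne (by rw [pb, pa])
          · exact hne rfl
        rw [hA j k (Or.inl ⟨hj1, hj2⟩)]
        have hpj : prj a b j = j := by simp [prj, hj2]
        have hpi : prj a b i = a := by rcases hia with rfl | rfl; exacts [pa, pb]
        rw [hpj] at hs ⊢
        rw [hpi] at hs
        have hk2 := hκ j (Finset.mem_erase.2 ⟨hj1, Finset.mem_erase.2 ⟨hj2, hj⟩⟩)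
        rw [mul_one, abs_sub_comm, abs_of_pos (by linarith)] at hk2
        rcases hia with rfl | rfl
        · rw [hAa]; linarith
        · rw [hAb]; linarith
      · push Not at hia
        rw [hA i k (Or.inl hia)]
        have hpi : prj a b i = i := by simp [prj, hia.2]
        rw [hpi] at hs ⊢
        by_cases hja : j = a ∨ j = b
        · have hpj : prj a b j = a := by rcases hja with rfl | rfl; exacts [pa, pb]
          rw [hpj] at hs
          have hk2 := hκ i (Finset.mem_erase.2 ⟨hia.1, Finset.mem_erase.2 ⟨hia.2, hi⟩⟩)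
          rw [mul_one, abs_of_pos (by linarith)] at hk2
          rcases hja with rfl | rfl
          · rw [hAa]; linarith
          · rw [hAb]; linarith
        · push Not at hja
          rw [hA j k (Or.inl hja)]
          have hpj : prj a b j = j := by simp [prj, hja.2]
          rw [hpj] at hs ⊢
          exact hs
    · rw [hA i k (Or.inr hk), hA j k (Or.inr hk)]; exact hs
  -- ε
  have exε : ∀ k : ℤ, ∃ ε : ℝ, 0 < ε ∧ ∀ i ∈ U, ∀ j ∈ U, h (prj a b i) k ≠ h (prj a b j) k →
      ε * (|A i k - A j k| / 2 + |B i k - B j k|) < |h (prj a b i) k - h (prj a b j) k| := by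
    intro k
    obtain ⟨ε, h1, h2⟩ := exists_small
      ((U ×ˢ U).filter (fun p => h (prj a b p.1) k ≠ h (prj a b p.2) k))
      (fun p => |A p.1 k - A p.2 k| / 2 + |B p.1 k - B p.2 k|)
      (fun p => |h (prj a b p.1) k - h (prj a b p.2) k|) (by
        intro p hp
        exact abs_pos.2 (sub_ne_zero.2 (Finset.mem_filter.1 hp).2))
    exact ⟨ε, h1, fun i hi j hj hij => h2 (i, j)
      (Finset.mem_filter.2 ⟨Finset.mem_product.2 ⟨hi, hj⟩, hij⟩)⟩
  choose ε hε0 hε using exε
  have bound : ∀ i j k s, -(1/2) ≤ s → s < 1/2 →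
      |ε k * (A i k * s + B i k) - ε k * (A j k * s + B j k)| ≤
        ε k * (|A i k - A j k| / 2 + |B i k - B j k|) := by
    intro i j k s h1 h2
    have e1 : ε k * (A i k * s + B i k) - ε k * (A j k * s + B j k) =
        ε k * ((A i k - A j k) * s + (B i k - B j k)) := by ring
    rw [e1, abs_mul, abs_of_pos (hε0 k)]
    refine mul_le_mul_of_nonneg_left ?_ (hε0 k).le
    refine (abs_add_le _ _).trans ?_
    have e2 : |(A i k - A j k) * s| ≤ |A i k - A j k| / 2 := by
      rw [abs_mul]
      have : |s| ≤ 1/2 := abs_le.2 ⟨h1, h2.le⟩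
      nlinarith [abs_nonneg (A i k - A j k)]
    linarith
  have far : ∀ i ∈ U, ∀ j ∈ U, ∀ k s, -(1/2) ≤ s → s < 1/2 →
      h (prj a b j) k < h (prj a b i) k → dbl a b h ε A B j k s < dbl a b h ε A B i k s := by
    intro i hi j hj k s h1 h2 h3
    have e1 := hε k i hi j hj h3.ne'
    have e2 := bound i j k s h1 h2
    rw [abs_of_pos (show 0 < h (prj a b i) k - h (prj a b j) k by linarith)] at e1
    have e3 := (abs_le.1 e2).1
    unfold dbl
    linarith
  -- crossing of different projections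
  have crossing : ∀ i ∈ U, ∀ j ∈ U, σ (prj a b i) < σ (prj a b j) →
      Sw (locT (dbl a b h ε A B i)) (locT (dbl a b h ε A B j)) := by
    intro i hi j hj hs
    have hne : prj a b i ≠ prj a b j := fun e => absurd (congrArg σ e) hs.ne
    obtain ⟨τ, hτ⟩ := (orient _ (pU i hi) _ (pU j hj) hne hs).spec
    have hd : 0 < A j τ - A i τ := by have := slope i hi j hj hs τ; linarith
    have hB : |B i τ - B j τ| < (A j τ - A i τ) / 2 := by
      by_cases hτx : τ = xs
      · rw [hτx] at hd ⊢
        rw [hB3, hB3, sub_self, abs_zero]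
        linarith
      · have := hB4 i hi j hj hne τ
        rw [hA i τ (Or.inr hτx), hA j τ (Or.inr hτx)]
        rwa [abs_sub_comm (σ _), abs_of_pos (by linarith : 0 < σ (prj a b j) - σ (prj a b i))] at this
    have hB' := abs_lt.1 hB
    have heq : h (prj a b i) τ = h (prj a b j) τ :=
      le_antisymm ((hτ τ).2.2.2.2 le_rfl) ((hτ τ).2.2.1.2 le_rfl)
    set s₀ := (B i τ - B j τ) / (A j τ - A i τ) with hs₀
    have hmul : s₀ * (A j τ - A i τ) = B i τ - B j τ := by rw [hs₀]; field_simp
    refine sw_locT _ _ τ s₀ ?_ ?_ ?_ ?_ ?_ ?_ ?_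
    · rw [hs₀, le_div_iff₀ hd]; linarith
    · rw [hs₀, div_lt_iff₀ hd]; linarith
    · intro k hk s h1 h2
      exact far i hi j hj k s h1 h2 ((hτ k).1.2 hk)
    · intro k hk s h1 h2
      exact far j hj i hi k s h1 h2 ((hτ k).2.1.2 hk)
    · unfold dbl; rw [heq]
      have : A i τ * s₀ + B i τ = A j τ * s₀ + B j τ := by linarith
      rw [this]
    · intro s hs'
      unfold dbl; rw [heq]
      have e1 : s * (A j τ - A i τ) < B i τ - B j τ := by
        rw [← hmul]; exact mul_lt_mul_of_pos_right hs' hd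
      have e2 : A j τ * s + B j τ < A i τ * s + B i τ := by linarith
      have := mul_lt_mul_of_pos_left e2 (hε0 τ)
      linarith
    · intro s hs'
      unfold dbl; rw [heq]
      have e1 : B i τ - B j τ < s * (A j τ - A i τ) := by
        rw [← hmul]; exact mul_lt_mul_of_pos_right hs' hd
      have e2 : A i τ * s + B i τ < A j τ * s + B j τ := by linarith
      have := mul_lt_mul_of_pos_left e2 (hε0 τ)
      linarith
  -- the pair `a`, `b`
  have crossab : Sw (locT (dbl a b h ε A B a)) (locT (dbl a b h ε A B b)) := by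
    refine sw_locT _ _ xs 0 (by norm_num) (by norm_num) ?_ ?_ ?_ ?_ ?_
    · intro k hk s _ _
      unfold dbl
      rw [pa, pb, hA a k (Or.inr hk.ne), hA b k (Or.inr hk.ne), pa, pb]
      have e2 : σ a * s + B b k < σ a * s + B a k := by linarith [hB1 k hk]
      have := mul_lt_mul_of_pos_left e2 (hε0 k)
      linarith
    · intro k hk s _ _
      unfold dbl
      rw [pa, pb, hA a k (Or.inr hk.ne'), hA b k (Or.inr hk.ne'), pa, pb]
      have e2 : σ a * s + B a k < σ a * s + B b k := by linarith [hB2 k hk]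
      have := mul_lt_mul_of_pos_left e2 (hε0 k)
      linarith
    · unfold dbl
      rw [pa, pb, hB3, hB3]; ring
    · intro s hs
      unfold dbl
      rw [pa, pb, hB3, hB3, hAa, hAb]
      have e2 : (σ a + κ) * s + 0 < (σ a - κ) * s + 0 := by nlinarith
      have := mul_lt_mul_of_pos_left e2 (hε0 xs)
      linarith
    · intro s hs
      unfold dbl
      rw [pa, pb, hB3, hB3, hAa, hAb]
      have e2 : (σ a - κ) * s + 0 < (σ a + κ) * s + 0 := by nlinarith
      have := mul_lt_mul_of_pos_left e2 (hε0 xs)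
      linarith
  refine ⟨ε, A, hε0, hA, fun i hi j hj hij => ?_, fun i hi j hj k s h1 h2 h3 => ?_⟩
  · by_cases hp : prj a b i = prj a b j
    · -- then `{i, j} = {a, b}`
      have hij' : (i = a ∧ j = b) ∨ (i = b ∧ j = a) := by
        by_cases hib : i = b
        · right
          refine ⟨hib, ?_⟩
          rw [hib, pb] at hp
          by_cases hjb : j = b
          · exact absurd (hib.trans hjb.symm) hij
          · simpa [prj, hjb] using hp.symm
        · left
          have hpi : prj a b i = i := by simp [prj, hib]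
          by_cases hjb : j = b
          · rw [hjb, pb, hpi] at hp
            exact ⟨hp, hjb⟩
          · have hpj : prj a b j = j := by simp [prj, hjb]
            rw [hpi, hpj] at hp
            exact absurd hp hij
      rcases hij' with ⟨rfl, rfl⟩ | ⟨rfl, rfl⟩
      · exact Or.inl crossab
      · exact Or.inr crossab
    · rcases lt_or_gt_of_ne (hσ _ (pU i hi) _ (pU j hj) hp) with hs | hs
      · exact Or.inl (crossing i hi j hj hs)
      · exact Or.inr (crossing j hj i hi hs)
  · rcases lt_or_gt_of_ne h3 with h4 | h4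
    · exact (far j hj i hi k s h1 h2 h4).ne
    · exact (far i hi j hj k s h1 h2 h4).ne'

end PL3
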