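import Pool.Agent.Lib.MP_e3e9c0_co.Split

/-!
# From the contracted structure to the configuration: type 0
-/

namespace PL3

/-- A drawing of an incidence structure: pairwise switching wires, every point of the structure has
a location lying exactly on its lines. -/
structure Drawn {P L T : Type*} [LinearOrder T] (inc : P → L → Prop) (U : Finset L)
    (H : L → T → ℝ) : Prop where
  cross : ∀ i ∈ U, ∀ j ∈ U, i ≠ j → Cross (H i) (H j)
  loc : ∀ p, ∃ (t : T) (y : ℝ), ∀ l ∈ U, (inc p l ↔ H l t = y)

/-- Combinatorial 3-configurations as incidence relations. -/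
structure Config {P L : Type*} (inc : P → L → Prop) : Prop where
  lin : ∀ i j, i ≠ j → ∀ p q, inc p i → inc p j → inc q i → inc q j → p = q
  lines : ∀ p, ∃ i j k, i ≠ j ∧ i ≠ k ∧ j ≠ k ∧ ∀ l, inc p l ↔ l = i ∨ l = j ∨ l = k
  points : ∀ l, ∃ p q r, p ≠ q ∧ p ≠ r ∧ q ≠ r ∧ ∀ x, inc x l ↔ x = p ∨ x = q ∨ x = r

section
variable {P L : Type*} [DecidableEq L] [Fintype L]

/-- contracted incidence, type 0 : the line `a` takes over the points of `b`, the point `c`
disappears. -/
def inc0 (inc : P → L → Prop) (c : P) (a b : L) (p : P) (l : L) : Prop :=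
  p ≠ c ∧ (inc p l ∨ (l = a ∧ inc p b))

omit [DecidableEq L] [Fintype L] in
/-- two further lines through a point. -/
lemma Config.two_others {inc : P → L → Prop} (hc : Config inc) (p : P) (b : L) :
    ∃ i j, i ≠ j ∧ i ≠ b ∧ j ≠ b ∧ inc p i ∧ inc p j := by
  obtain ⟨i, j, k, hij, hik, hjk, h⟩ := hc.lines p
  by_cases hi : i = b
  · exact ⟨j, k, hjk, fun e => hij (hi.trans e.symm), fun e => hik (hi.trans e.symm),
      (h j).2 (by simp), (h k).2 (by simp)⟩
  · by_cases hj : j = b
    · exact ⟨i, k, hik, hi, fun e => hjk (hj.trans e.symm), (h i).2 (by simp), (h k).2 (by simp)⟩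
    · exact ⟨i, j, hij, hi, hj, (h i).2 (by simp), (h j).2 (by simp)⟩

theorem split0 (inc : P → L → Prop) (hc : Config inc) (c : P) (a b d : L) (hab : a ≠ b)
    (had : a ≠ d) (hbd : b ≠ d) (hcl : ∀ l, inc c l ↔ l = a ∨ l = b ∨ l = d)
    (lin0 : ∀ i ∈ Finset.univ.erase b, ∀ j ∈ Finset.univ.erase b, i ≠ j → ∀ p q,
      inc0 inc c a b p i → inc0 inc c a b p j → inc0 inc c a b q i → inc0 inc c a b q j → p = q)
    (h : L → ℤ → ℝ) (hr : Real' (inc0 inc c a b) (Finset.univ.erase b) h) :
    ∃ H : L → ℝ → ℝ, Drawn inc Finset.univ H := by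
  classical
  have ca : inc c a := (hcl a).2 (by simp)
  have cb : inc c b := (hcl b).2 (by simp)
  have cd : inc c d := (hcl d).2 (by simp)
  have mem : ∀ l, l ≠ b → l ∈ Finset.univ.erase b := fun l hl =>
    Finset.mem_erase.2 ⟨hl, Finset.mem_univ _⟩
  -- a point different from `c` is on at most one of `a`, `b`, `d`
  have exab : ∀ p, p ≠ c → inc p a → inc p b → False := fun p h1 h2 h3 =>
    h1 (hc.lin a b hab p c h2 h3 ca cb)
  have exad : ∀ p, p ≠ c → inc p a → inc p d → False := fun p h1 h2 h3 =>
    h1 (hc.lin a d had p c h2 h3 ca cd)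
  have exbd : ∀ p, p ≠ c → inc p b → inc p d → False := fun p h1 h2 h3 =>
    h1 (hc.lin b d hbd p c h2 h3 cb cd)
  -- heavy
  have heavy : ∀ p, p ≠ c → ∃ i ∈ Finset.univ.erase b, ∃ j ∈ Finset.univ.erase b, i ≠ j ∧
      inc0 inc c a b p i ∧ inc0 inc c a b p j := by
    intro p hp
    obtain ⟨i, j, hij, hi, hj, h1, h2⟩ := hc.two_others p b
    exact ⟨i, mem i hi, j, mem j hj, hij, ⟨hp, Or.inl h1⟩, ⟨hp, Or.inl h2⟩⟩
  have loc : ∀ p, ∃ (t : ℤ) (y : ℝ), p ≠ c → (∀ k, k ≠ b → (inc0 inc c a b p k ↔ h k t = y)) ∧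
      (∀ i, i ≠ b → ∀ j, j ≠ b → i ≠ j → h i t = h j t → h i t = y) := by
    intro p
    by_cases hp : p = c
    · exact ⟨0, 0, fun e => absurd hp e⟩
    · obtain ⟨t, y, h1, h2⟩ := heavy_loc hr lin0 (heavy p hp)
      exact ⟨t, y, fun _ => ⟨fun k hk => h1 k (mem k hk),
        fun i hi j hj => h2 i (mem i hi) j (mem j hj)⟩⟩
  choose t y hty using loc
  -- distinct points have distinct times
  have tinj : ∀ p q, p ≠ c → q ≠ c → t p = t q → p = q := by
    intro p q hp hq e
    obtain ⟨i, hi, j, hj, hij, h1, h2⟩ := heavy p hp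
    have hi' := Finset.ne_of_mem_erase hi
    have hj' := Finset.ne_of_mem_erase hj
    have e1 := ((hty p hp).1 i hi').1 h1
    have e2 := ((hty p hp).1 j hj').1 h2
    rw [e] at e1 e2
    have e3 := (hty q hq).2 i hi' j hj' hij (e1.trans e2.symm)
    have e4 : h j (t q) = y q := e2.trans (e1.symm.trans e3)
    exact lin0 i hi j hj hij p q h1 h2 (((hty q hq).1 i hi').2 e3) (((hty q hq).1 j hj').2 e4)
  -- the crossing of `a` and `d`
  obtain ⟨xs, hxs⟩ := (hr.gen.cross a (mem a hab) d (mem d hbd.symm) had).exists_eq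
  have hxs2 : ∀ l, l ≠ b → h l xs = h a xs → l = a ∨ l = d := by
    intro l hl e
    by_contra hcon
    push Not at hcon
    obtain ⟨p, ⟨hp, h1⟩, ⟨_, h2⟩, _⟩ := (hr.tie a (mem a hab) d (mem d hbd.symm) l (mem l hl) had
      hcon.1.symm hcon.2.symm).1 ⟨xs, hxs, hxs.symm.trans e.symm⟩
    have h2' : inc p d := by
      rcases h2 with h2 | ⟨h2, _⟩
      · exact h2
      · exact absurd h2.symm had
    rcases h1 with h1 | ⟨_, h1⟩
    · exact exad p hp h1 h2'
    · exact exbd p hp h1 h2'
  have txs : ∀ p, p ≠ c → (inc p a ∨ inc p b) → t p ≠ xs := by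
    intro p hp hpab e
    have e1 := (hty p hp).2 a hab d hbd.symm had (by rw [e]; exact hxs)
    have e2 : h d (t p) = y p := by rw [e, ← hxs, ← e, e1]
    obtain ⟨_, h2⟩ := ((hty p hp).1 d hbd.symm).2 e2
    have h2' : inc p d := by
      rcases h2 with h2 | ⟨h2, _⟩
      · exact h2
      · exact absurd h2.symm had
    rcases hpab with h1 | h1
    · exact exad p hp h1 h2'
    · exact exbd p hp h1 h2'
  -- the splitting
  obtain ⟨σ, hσ, hsplit⟩ := split_core Finset.univ a b (Finset.mem_univ _) (Finset.mem_univ _) hab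
    h hr.gen hr.bdd
  obtain ⟨η, hη0, hη⟩ := exists_small (((Finset.univ.erase b) ×ˢ (Finset.univ.erase b)).filter
    (fun p : L × L => p.1 ≠ p.2)) (fun _ => (1:ℝ)) (fun p => |σ p.1 - σ p.2| / 2) (by
      intro p hp
      obtain ⟨h1, h2⟩ := Finset.mem_filter.1 hp
      obtain ⟨h3, h4⟩ := Finset.mem_product.1 h1
      exact half_pos (abs_pos.2 (sub_ne_zero.2 (hσ _ h3 _ h4 h2))))
  let o : ℤ → ℝ := fun k => if k < xs then 1 else -1
  let Bt : ℤ → Prop := fun k => ∃ p, p ≠ c ∧ inc p b ∧ t p = k
  have nBt : ¬ Bt xs := by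
    rintro ⟨p, h1, h2, h3⟩
    exact txs p h1 (Or.inr h2) h3
  let B : L → ℤ → ℝ := fun l k => if Bt k then (if l = a then o k * η else 0) else
    if k = xs then 0 else (if l = b then -(o k * η) else 0)
  have Bbt : ∀ k, Bt k → B a k = o k * η ∧ ∀ l, l ≠ a → B l k = 0 := by
    intro k hk
    refine ⟨by simp only [B, if_pos hk, if_true], fun l hl => by simp only [B, if_pos hk, if_neg hl]⟩
  have Bnt : ∀ k, ¬ Bt k → k ≠ xs → B b k = -(o k * η) ∧ ∀ l, l ≠ b → B l k = 0 := by
    intro k hk hk2
    refine ⟨by simp only [B, if_neg hk, if_neg hk2, if_true],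
      fun l hl => by simp only [B, if_neg hk, if_neg hk2, if_neg hl]⟩
  have Bxs : ∀ l, B l xs = 0 := fun l => by simp only [B, if_neg nBt, if_true]
  have ho : ∀ k, o k * η = η ∨ o k * η = -η := by
    intro k
    by_cases hk : k < xs
    · left; simp only [o, if_pos hk, one_mul]
    · right; simp only [o, if_neg hk]; ring
  have hone : ∀ k, o k * η ≠ 0 := by
    intro k e
    rcases ho k with h1 | h1
    · exact hη0.ne' (h1.symm.trans e)
    · have := h1.symm.trans e; linarith
  obtain ⟨ε, A, hε, hA, hcross, hfar⟩ := hsplit xs B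
    (by
      intro k hk
      have ok : o k = 1 := by simp only [o, if_pos hk]
      by_cases hb : Bt k
      · rw [(Bbt k hb).1, (Bbt k hb).2 b hab.symm, ok]; linarith
      · rw [(Bnt k hb hk.ne).1, (Bnt k hb hk.ne).2 a hab, ok]; linarith)
    (by
      intro k hk
      have ok : o k = -1 := by simp only [o, if_neg (not_lt.2 hk.le)]
      by_cases hb : Bt k
      · rw [(Bbt k hb).1, (Bbt k hb).2 b hab.symm, ok]; linarith
      · rw [(Bnt k hb hk.ne').1, (Bnt k hb hk.ne').2 a hab, ok]; linarith)
    Bxs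
    (by
      intro i _ j _ hij k
      have pm : ∀ l, prj a b l ≠ b := by
        intro l; unfold prj; split_ifs with h1
        · exact hab
        · exact h1
      have hη' := hη (prj a b i, prj a b j) (Finset.mem_filter.2
        ⟨Finset.mem_product.2 ⟨mem _ (pm i), mem _ (pm j)⟩, hij⟩)
      rw [mul_one] at hη'
      refine lt_of_le_of_lt ?_ hη'
      have pa : prj a b a = a := by simp [prj, hab]
      have pb : prj a b b = a := by simp [prj]
      by_cases hxk : k = xs
      · rw [hxk, Bxs, Bxs]; simp [hη0.le]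
      by_cases hb : Bt k
      · by_cases hia : i = a
        · have hja : j ≠ a := by rintro rfl; exact hij (by rw [hia])
          rw [hia, (Bbt k hb).1, (Bbt k hb).2 j hja, sub_zero]
          rcases ho k with h1 | h1 <;> rw [h1] <;> simp [abs_of_pos hη0]
        · by_cases hja : j = a
          · rw [hja, (Bbt k hb).1, (Bbt k hb).2 i hia, zero_sub, abs_neg]
            rcases ho k with h1 | h1 <;> rw [h1] <;> simp [abs_of_pos hη0]
          · rw [(Bbt k hb).2 i hia, (Bbt k hb).2 j hja]; simp [hη0.le]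
      · by_cases hib : i = b
        · have hjb : j ≠ b := by rintro rfl; exact hij (by rw [hib])
          rw [hib, (Bnt k hb hxk).1, (Bnt k hb hxk).2 j hjb, sub_zero, abs_neg]
          rcases ho k with h1 | h1 <;> rw [h1] <;> simp [abs_of_pos hη0]
        · by_cases hjb : j = b
          · rw [hjb, (Bnt k hb hxk).1, (Bnt k hb hxk).2 i hib, zero_sub, neg_neg]
            rcases ho k with h1 | h1 <;> rw [h1] <;> simp [abs_of_pos hη0]
          · rw [(Bnt k hb hxk).2 i hib, (Bnt k hb hxk).2 j hjb]; simp [hη0.le])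
  have pne : ∀ l, l ≠ b → prj a b l = l := fun l hl => by simp [prj, hl]
  have pb : prj a b b = a := by simp [prj]
  have val : ∀ l (k : ℤ), locT (dbl a b h ε A B l) k = h (prj a b l) k + ε k * B l k := by
    intro l k
    rw [locT_int]; unfold dbl; ring
  refine ⟨fun l => locT (dbl a b h ε A B l), ⟨hcross, fun p => ?_⟩⟩
  by_cases hp : p = c
  · -- the point `c`
    subst hp
    refine ⟨(xs : ℝ), h a xs, fun l _ => ?_⟩
    rw [val, Bxs, mul_zero, add_zero, hcl]
    constructor
    · rintro (rfl | rfl | rfl)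
      · rw [pne _ hab]
      · rw [pb]
      · rw [pne _ hbd.symm]; exact hxs.symm
    · intro e
      by_cases hl : l = b
      · exact Or.inr (Or.inl hl)
      · rw [pne l hl] at e
        rcases hxs2 l hl e with h1 | h1
        · exact Or.inl h1
        · exact Or.inr (Or.inr h1)
  · obtain ⟨h1, h2⟩ := hty p hp
    refine ⟨((t p : ℤ) : ℝ), y p, fun l _ => ?_⟩
    rw [val]
    -- lines different from `a` and `b`
    have other : ∀ l, l ≠ a → l ≠ b → (inc p l ↔ h (prj a b l) (t p) + ε (t p) * B l (t p) = y p) := by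
      intro l hla hlb
      have hB : B l (t p) = 0 := by
        by_cases hx : t p = xs
        · rw [hx, Bxs]
        · by_cases hb : Bt (t p)
          · exact (Bbt _ hb).2 l hla
          · exact (Bnt _ hb hx).2 l hlb
      rw [hB, mul_zero, add_zero, pne l hlb, ← h1 l hlb]
      constructor
      · intro hh; exact ⟨hp, Or.inl hh⟩
      · rintro ⟨_, hh | ⟨hh, _⟩⟩
        · exact hh
        · exact absurd hh hla
    by_cases pa' : inc p a
    · have pb' : ¬ inc p b := fun e => exab p hp pa' e
      have hx := txs p hp (Or.inl pa')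
      have hb : ¬ Bt (t p) := by
        rintro ⟨q, q1, q2, q3⟩
        have := tinj q p q1 hp q3
        subst this
        exact pb' q2
      have hya : h a (t p) = y p := (h1 a hab).1 ⟨hp, Or.inl pa'⟩
      by_cases hla : l = a
      · subst hla
        rw [(Bnt _ hb hx).2 _ hab, mul_zero, add_zero, pne _ hab]
        exact ⟨fun _ => hya, fun _ => pa'⟩
      · by_cases hlb : l = b
        · subst hlb
          rw [(Bnt _ hb hx).1, pb, hya]
          refine ⟨fun e => absurd e pb', fun e => ?_⟩
          have e1 : ε (t p) * (-(o (t p) * η)) = 0 := by linarith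
          rcases mul_eq_zero.1 e1 with e2 | e2
          · exact absurd e2 (hε _).ne'
          · exact absurd (neg_eq_zero.1 e2) (hone _)
        · exact other l hla hlb
    · by_cases pb' : inc p b
      · have hb : Bt (t p) := ⟨p, hp, pb', rfl⟩
        have hya : h a (t p) = y p := (h1 a hab).1 ⟨hp, Or.inr ⟨rfl, pb'⟩⟩
        by_cases hla : l = a
        · subst hla
          rw [(Bbt _ hb).1, pne _ hab, hya]
          refine ⟨fun e => absurd e pa', fun e => ?_⟩
          have e1 : ε (t p) * (o (t p) * η) = 0 := by linarith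
          rcases mul_eq_zero.1 e1 with e2 | e2
          · exact absurd e2 (hε _).ne'
          · exact absurd e2 (hone _)
        · by_cases hlb : l = b
          · subst hlb
            rw [(Bbt _ hb).2 _ hab.symm, mul_zero, add_zero, pb]
            exact ⟨fun _ => hya, fun _ => pb'⟩
          · exact other l hla hlb
      · -- the point is neither on `a` nor on `b`
        obtain ⟨i, j, hij, hi, hj, i1, i2⟩ := hc.two_others p b
        have hia : i ≠ a := fun e => pa' (e ▸ i1)
        have hai : ¬ inc0 inc c a b p a := by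
          rintro ⟨_, e | ⟨_, e⟩⟩
          · exact pa' e
          · exact pb' e
        have hay : h a (t p) ≠ y p := fun e => hai ((h1 a hab).2 e)
        have hiy : h i (t p) = y p := (h1 i hi).1 ⟨hp, Or.inl i1⟩
        have hival : h (prj a b i) (t p) + ε (t p) * B i (t p) = y p := (other i hia hi).1 i1
        have bad : ∀ l, prj a b l = a → h (prj a b l) (t p) + ε (t p) * B l (t p) ≠ y p := by
          intro l hl e
          have h3 := hfar l (Finset.mem_univ _) i (Finset.mem_univ _) (t p) 0 (by norm_num)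
            (by norm_num) (by rw [hl, pne i hi, hiy]; exact hay)
          apply h3
          unfold dbl
          rw [mul_zero, zero_add, mul_zero, zero_add, e, hival]
        by_cases hla : l = a
        · subst hla
          exact ⟨fun e => absurd e pa', fun e => absurd e (bad _ (pne _ hab))⟩
        · by_cases hlb : l = b
          · subst hlb
            exact ⟨fun e => absurd e pb', fun e => absurd e (bad _ pb)⟩
          · exact other l hla hlb

end

end PL3
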