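import Pool.Agent.Lib.MP_e3e9c0_co.SplitA

/-!
# From the contracted structure to the configuration: type 1
-/

namespace PL3

section
variable {P L : Type*} [DecidableEq L] [Fintype L]

/-- contracted incidence, type 1 : the line `a` takes over the points of `b`, the point `u` takes
over the lines of `q`, the point `c` disappears. -/
def inc1 (inc : P → L → Prop) (c u q : P) (a b : L) (p : P) (l : L) : Prop :=
  p ≠ c ∧ p ≠ q ∧ (inc p l ∨ (l = a ∧ inc p b) ∨ (p = u ∧ inc q l))

theorem split1 (inc : P → L → Prop) (hc : Config inc) (c u q : P) (a b d M X Y : L)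
    (hab : a ≠ b) (had : a ≠ d) (hbd : b ≠ d) (hcl : ∀ l, inc c l ↔ l = a ∨ l = b ∨ l = d)
    (hul : ∀ l, inc u l ↔ l = a ∨ l = M ∨ l = X) (hql : ∀ l, inc q l ↔ l = b ∨ l = M ∨ l = Y)
    (huc : u ≠ c) (hqc : q ≠ c) (haM : a ≠ M) (haX : a ≠ X) (hMX : M ≠ X) (hbM : b ≠ M)
    (hbY : b ≠ Y) (hMY : M ≠ Y)
    (lin1 : ∀ i ∈ Finset.univ.erase b, ∀ j ∈ Finset.univ.erase b, i ≠ j → ∀ p p',
      inc1 inc c u q a b p i → inc1 inc c u q a b p j → inc1 inc c u q a b p' i →
      inc1 inc c u q a b p' j → p = p')
    (h : L → ℤ → ℝ) (hr : Real' (inc1 inc c u q a b) (Finset.univ.erase b) h) :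
    ∃ H : L → ℝ → ℝ, Drawn inc Finset.univ H := by
  classical
  have ca : inc c a := (hcl a).2 (by simp)
  have cb : inc c b := (hcl b).2 (by simp)
  have cd : inc c d := (hcl d).2 (by simp)
  have ua : inc u a := (hul a).2 (by simp)
  have uM : inc u M := (hul M).2 (by simp)
  have uX : inc u X := (hul X).2 (by simp)
  have qb : inc q b := (hql b).2 (by simp)
  have qM : inc q M := (hql M).2 (by simp)
  have qY : inc q Y := (hql Y).2 (by simp)
  have mem : ∀ l, l ≠ b → l ∈ Finset.univ.erase b := fun l hl =>
    Finset.mem_erase.2 ⟨hl, Finset.mem_univ _⟩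
  have exab : ∀ p, p ≠ c → inc p a → inc p b → False := fun p h1 h2 h3 =>
    h1 (hc.lin a b hab p c h2 h3 ca cb)
  have exad : ∀ p, p ≠ c → inc p a → inc p d → False := fun p h1 h2 h3 =>
    h1 (hc.lin a d had p c h2 h3 ca cd)
  have exbd : ∀ p, p ≠ c → inc p b → inc p d → False := fun p h1 h2 h3 =>
    h1 (hc.lin b d hbd p c h2 h3 cb cd)
  have nqa : ¬ inc q a := fun e => exab q hqc e qb
  have nqd : ¬ inc q d := fun e => exbd q hqc qb e
  have nub : ¬ inc u b := fun e => exab u huc ua e
  have nud : ¬ inc u d := fun e => exad u huc ua e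
  have huq : u ≠ q := fun e => nqa (e ▸ ua)
  have hXb : X ≠ b := fun e => nub (e ▸ uX)
  have hYa : Y ≠ a := fun e => nqa (e ▸ qY)
  have hXY : X ≠ Y := by
    rintro rfl
    exact huq (hc.lin M X hMX u q uM uX qM qY)
  -- heavy
  have heavy : ∀ p, p ≠ c → p ≠ q → ∃ i ∈ Finset.univ.erase b, ∃ j ∈ Finset.univ.erase b, i ≠ j ∧
      inc1 inc c u q a b p i ∧ inc1 inc c u q a b p j := by
    intro p hp hpq
    obtain ⟨i, j, hij, hi, hj, h1, h2⟩ := hc.two_others p b
    exact ⟨i, mem i hi, j, mem j hj, hij, ⟨hp, hpq, Or.inl h1⟩, ⟨hp, hpq, Or.inl h2⟩⟩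
  have loc : ∀ p, ∃ (t : ℤ) (y : ℝ), p ≠ c → p ≠ q →
      (∀ k, k ≠ b → (inc1 inc c u q a b p k ↔ h k t = y)) ∧
      (∀ i, i ≠ b → ∀ j, j ≠ b → i ≠ j → h i t = h j t → h i t = y) := by
    intro p
    by_cases hp : p ≠ c ∧ p ≠ q
    · obtain ⟨t, y, h1, h2⟩ := heavy_loc hr lin1 (heavy p hp.1 hp.2)
      exact ⟨t, y, fun _ _ => ⟨fun k hk => h1 k (mem k hk),
        fun i hi j hj => h2 i (mem i hi) j (mem j hj)⟩⟩
    · exact ⟨0, 0, fun e e' => absurd ⟨e, e'⟩ hp⟩
  choose t y hty using loc
  have tinj : ∀ p p', p ≠ c → p ≠ q → p' ≠ c → p' ≠ q → t p = t p' → p = p' := by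
    intro p p' hp hpq hp' hpq' e
    obtain ⟨i, hi, j, hj, hij, h1, h2⟩ := heavy p hp hpq
    have hi' := Finset.ne_of_mem_erase hi
    have hj' := Finset.ne_of_mem_erase hj
    have e1 := ((hty p hp hpq).1 i hi').1 h1
    have e2 := ((hty p hp hpq).1 j hj').1 h2
    rw [e] at e1 e2
    have e3 := (hty p' hp' hpq').2 i hi' j hj' hij (e1.trans e2.symm)
    have e4 : h j (t p') = y p' := e2.trans (e1.symm.trans e3)
    exact lin1 i hi j hj hij p p' h1 h2 (((hty p' hp' hpq').1 i hi').2 e3)
      (((hty p' hp' hpq').1 j hj').2 e4)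
  -- the crossing of `a` and `d`
  have incd : ∀ p, inc1 inc c u q a b p d → inc p d := by
    rintro p ⟨_, _, h1 | ⟨h1, _⟩ | ⟨_, h1⟩⟩
    · exact h1
    · exact absurd h1.symm had
    · exact absurd h1 nqd
  have inca : ∀ p, inc1 inc c u q a b p a → inc p a ∨ inc p b := by
    rintro p ⟨_, _, h1 | ⟨_, h1⟩ | ⟨_, h1⟩⟩
    · exact Or.inl h1
    · exact Or.inr h1
    · exact absurd h1 nqa
  obtain ⟨xs, hxs⟩ := (hr.gen.cross a (mem a hab) d (mem d hbd.symm) had).exists_eq
  have hxs2 : ∀ l, l ≠ b → h l xs = h a xs → l = a ∨ l = d := by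
    intro l hl e
    by_contra hcon
    push Not at hcon
    obtain ⟨p, h1, h2, _⟩ := (hr.tie a (mem a hab) d (mem d hbd.symm) l (mem l hl) had
      hcon.1.symm hcon.2.symm).1 ⟨xs, hxs, hxs.symm.trans e.symm⟩
    rcases inca p h1 with h3 | h3
    · exact exad p h1.1 h3 (incd p h2)
    · exact exbd p h1.1 h3 (incd p h2)
  have txs : ∀ p, p ≠ c → p ≠ q → (inc p a ∨ inc p b) → t p ≠ xs := by
    intro p hp hpq hpab e
    have e1 := (hty p hp hpq).2 a hab d hbd.symm had (by rw [e]; exact hxs)
    have e2 : h d (t p) = y p := by rw [e, ← hxs, ← e, e1]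
    have h2' := incd p (((hty p hp hpq).1 d hbd.symm).2 e2)
    rcases hpab with h1 | h1
    · exact exad p hp h1 h2'
    · exact exbd p hp h1 h2'
  -- the splitting
  obtain ⟨σ, hσ, hsplit⟩ := split_core Finset.univ a b (Finset.mem_univ _) (Finset.mem_univ _) hab
    h hr.gen hr.bdd
  have sMa : σ M ≠ σ a := hσ M (mem M hbM.symm) a (mem a hab) haM.symm
  have sMX : σ M ≠ σ X := hσ M (mem M hbM.symm) X (mem X hXb) hMX
  have sMY : σ M ≠ σ Y := hσ M (mem M hbM.symm) Y (mem Y hbY.symm) hMY
  obtain ⟨cX, hcX⟩ : ∃ cX, cX = (σ M - σ X) / (σ M - σ a) := ⟨_, rfl⟩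
  have hMa0 : σ M - σ a ≠ 0 := sub_ne_zero.2 sMa
  have hcX0 : cX ≠ 0 := by rw [hcX]; exact div_ne_zero (sub_ne_zero.2 sMX) hMa0
  have hcX' : cX * (σ M - σ a) = σ M - σ X := by rw [hcX]; field_simp
  obtain ⟨η, hη0, hη⟩ := exists_small (((Finset.univ.erase b) ×ˢ (Finset.univ.erase b)).filter
    (fun p : L × L => p.1 ≠ p.2)) (fun _ => 2 * (1 + |cX|)) (fun p => |σ p.1 - σ p.2| / 2) (by
      intro p hp
      obtain ⟨h1, h2⟩ := Finset.mem_filter.1 hp
      obtain ⟨h3, h4⟩ := Finset.mem_product.1 h1
      exact half_pos (abs_pos.2 (sub_ne_zero.2 (hσ _ h3 _ h4 h2))))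
  have hη' : ∀ i, i ≠ b → ∀ j, j ≠ b → i ≠ j → η * (2 * (1 + |cX|)) < |σ i - σ j| / 2 :=
    fun i hi j hj hij => hη (i, j) (Finset.mem_filter.2
        ⟨Finset.mem_product.2 ⟨mem _ hi, mem _ hj⟩, hij⟩)
  let o : ℤ → ℝ := fun k => if k < xs then 1 else -1
  have ho : ∀ k, o k * η = η ∨ o k * η = -η := by
    intro k
    by_cases hk : k < xs
    · left; simp only [o, if_pos hk, one_mul]
    · right; simp only [o, if_neg hk]; ring
  have hoabs : ∀ k, |o k * η| = η := by
    intro k
    rcases ho k with h1 | h1
    · rw [h1, abs_of_pos hη0]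
    · rw [h1, abs_neg, abs_of_pos hη0]
  have hone : ∀ k, o k * η ≠ 0 := by
    intro k e
    have := hoabs k
    rw [e, abs_zero] at this
    exact hη0.ne this
  obtain ⟨tP, htP⟩ : ∃ tP, tP = t u := ⟨_, rfl⟩
  have tPxs : tP ≠ xs := by rw [htP]; exact txs u huc huq (Or.inl ua)
  let Bt : ℤ → Prop := fun k => ∃ p, p ≠ c ∧ p ≠ q ∧ inc p b ∧ t p = k
  have nBt : ¬ Bt xs := by
    rintro ⟨p, h1, h2, h3, h4⟩
    exact txs p h1 h2 (Or.inr h3) h4
  let B : L → ℤ → ℝ := fun l k =>
    if k = tP then (if l = a then o k * η else if l = X then o k * η * cX else 0) else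
    if Bt k then (if l = a then o k * η else 0) else
    if k = xs then 0 else (if l = b then -(o k * η) else 0)
  have BPa : B a tP = o tP * η := by simp only [B, if_true]
  have BPX : B X tP = o tP * η * cX := by simp only [B, if_true, if_neg haX.symm]
  have BPo : ∀ l, l ≠ a → l ≠ X → B l tP = 0 := fun l h1 h2 => by
    simp only [B, if_true, if_neg h1, if_neg h2]
  have Bbt : ∀ k, k ≠ tP → Bt k → B a k = o k * η ∧ ∀ l, l ≠ a → B l k = 0 := by
    intro k hk' hk
    refine ⟨by simp only [B, if_neg hk', if_pos hk, if_true],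
      fun l hl => by simp only [B, if_neg hk', if_pos hk, if_neg hl]⟩
  have Bnt : ∀ k, k ≠ tP → ¬ Bt k → k ≠ xs → B b k = -(o k * η) ∧ ∀ l, l ≠ b → B l k = 0 := by
    intro k hk' hk hk2
    refine ⟨by simp only [B, if_neg hk', if_neg hk, if_neg hk2, if_true],
      fun l hl => by simp only [B, if_neg hk', if_neg hk, if_neg hk2, if_neg hl]⟩
  have Bxs : ∀ l, B l xs = 0 := fun l => by
    simp only [B, if_neg tPxs.symm, if_neg nBt, if_true]
  have Bbound : ∀ l k, |B l k| ≤ η * (1 + |cX|) := by
    intro l k
    have e0 : (0:ℝ) ≤ η * (1 + |cX|) := by positivity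
    have e1 : η ≤ η * (1 + |cX|) := by nlinarith [abs_nonneg cX]
    simp only [B]
    split_ifs
    · rw [hoabs]; exact e1
    · rw [abs_mul, hoabs]; nlinarith [abs_nonneg cX]
    · rw [abs_zero]; exact e0
    · rw [hoabs]; exact e1
    · rw [abs_zero]; exact e0
    · rw [abs_zero]; exact e0
    · rw [abs_neg, hoabs]; exact e1
    · rw [abs_zero]; exact e0
  have pm : ∀ l, prj a b l ≠ b := by
    intro l; unfold prj; split_ifs with h1
    · exact hab
    · exact h1
  obtain ⟨ε, A, hε, hA, hcross, hfar⟩ := hsplit xs B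
    (by
      intro k hk
      have ok : o k = 1 := by simp only [o, if_pos hk]
      by_cases hkP : k = tP
      · rw [hkP] at ok ⊢
        rw [BPa, BPo b hab.symm hXb.symm, ok]; linarith
      · by_cases hb : Bt k
        · rw [(Bbt k hkP hb).1, (Bbt k hkP hb).2 b hab.symm, ok]; linarith
        · rw [(Bnt k hkP hb hk.ne).1, (Bnt k hkP hb hk.ne).2 a hab, ok]; linarith)
    (by
      intro k hk
      have ok : o k = -1 := by simp only [o, if_neg (not_lt.2 hk.le)]
      by_cases hkP : k = tP
      · rw [hkP] at ok ⊢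
        rw [BPa, BPo b hab.symm hXb.symm, ok]; linarith
      · by_cases hb : Bt k
        · rw [(Bbt k hkP hb).1, (Bbt k hkP hb).2 b hab.symm, ok]; linarith
        · rw [(Bnt k hkP hb hk.ne').1, (Bnt k hkP hb hk.ne').2 a hab, ok]; linarith)
    Bxs
    (by
      intro i _ j _ hij k
      refine lt_of_le_of_lt ?_ (hη' (prj a b i) (pm i) (prj a b j) (pm j) hij)
      have e1 := abs_sub (B i k) (B j k)
      have e2 := Bbound i k
      have e3 := Bbound j k
      calc |B i k - B j k| ≤ |B i k| + |B j k| := e1
        _ ≤ η * (1 + |cX|) + η * (1 + |cX|) := add_le_add e2 e3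
        _ = η * (2 * (1 + |cX|)) := by ring)
  have pne : ∀ l, l ≠ b → prj a b l = l := fun l hl => by simp [prj, hl]
  have pb : prj a b b = a := by simp [prj]
  have val : ∀ l (k : ℤ), locT (dbl a b h ε A B l) k = h (prj a b l) k + ε k * B l k := by
    intro l k
    rw [locT_int]; unfold dbl; ring
  -- location data of `u`
  have hPu := (hty u huc huq).1
  have hPy : ∀ k, k ≠ b → (h k tP = y u ↔ k = a ∨ k = M ∨ k = X ∨ k = Y) := by
    intro k hk
    rw [htP, ← hPu k hk]
    constructor
    · rintro ⟨_, _, h1 | ⟨h1, _⟩ | ⟨_, h1⟩⟩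
      · rcases (hul k).1 h1 with h2 | h2 | h2
        · exact Or.inl h2
        · exact Or.inr (Or.inl h2)
        · exact Or.inr (Or.inr (Or.inl h2))
      · exact Or.inl h1
      · rcases (hql k).1 h1 with h2 | h2 | h2
        · exact absurd h2 hk
        · exact Or.inr (Or.inl h2)
        · exact Or.inr (Or.inr (Or.inr h2))
    · rintro (rfl | rfl | rfl | rfl)
      · exact ⟨huc, huq, Or.inl ua⟩
      · exact ⟨huc, huq, Or.inl uM⟩
      · exact ⟨huc, huq, Or.inl uX⟩
      · exact ⟨huc, huq, Or.inr (Or.inr ⟨rfl, qY⟩)⟩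
  refine ⟨fun l => locT (dbl a b h ε A B l), ⟨hcross, fun p => ?_⟩⟩
  by_cases hp : p = c
  · -- the point `c`
    subst hp
    refine ⟨(xs : ℝ), h a xs, fun l _ => ?_⟩
    rw [val, Bxs, mul_zero, add_zero, hcl]
    constructor
    · rintro (rfl | rfl | rfl)
      · rw [pne _ hab]
      · rw [pb]
      · rw [pne _ hbd.symm]; exact hxs.symm
    · intro e
      by_cases hl : l = b
      · exact Or.inr (Or.inl hl)
      · rw [pne l hl] at e
        rcases hxs2 l hl e with h1 | h1
        · exact Or.inl h1
        · exact Or.inr (Or.inr h1)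
  by_cases hpq : p = q
  · -- the point `q`
    subst hpq
    refine ⟨(tP : ℝ), y u, fun l _ => ?_⟩
    rw [val, hql]
    by_cases hlb : l = b
    · subst hlb
      rw [BPo _ hab.symm hXb.symm, mul_zero, add_zero, pb]
      exact ⟨fun _ => (hPy a hab).2 (Or.inl rfl), fun _ => Or.inl rfl⟩
    · rw [pne l hlb]
      by_cases hla : l = a
      · subst hla
        rw [BPa, (hPy _ hab).2 (Or.inl rfl)]
        constructor
        · rintro (e | e | e)
          · exact absurd e hab
          · exact absurd e haM
          · exact absurd e hYa.symm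
        · intro e
          exfalso
          have e1 : ε tP * (o tP * η) = 0 := by linarith
          rcases mul_eq_zero.1 e1 with e2 | e2
          · exact (hε _).ne' e2
          · exact hone _ e2
      · by_cases hlX : l = X
        · subst hlX
          rw [BPX, (hPy _ hXb).2 (Or.inr (Or.inr (Or.inl rfl)))]
          constructor
          · rintro (e | e | e)
            · exact absurd e hXb
            · exact absurd e hMX.symm
            · exact absurd e hXY
          · intro e
            exfalso
            have e1 : ε tP * (o tP * η * cX) = 0 := by linarith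
            rcases mul_eq_zero.1 e1 with e2 | e2
            · exact (hε _).ne' e2
            · rcases mul_eq_zero.1 e2 with e3 | e3
              · exact hone _ e3
              · exact hcX0 e3
        · rw [BPo l hla hlX, mul_zero, add_zero, hPy l hlb]
          constructor
          · rintro (e | e | e)
            · exact absurd e hlb
            · exact Or.inr (Or.inl e)
            · exact Or.inr (Or.inr (Or.inr e))
          · rintro (e | e | e | e)
            · exact absurd e hla
            · exact Or.inr (Or.inl e)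
            · exact absurd e hlX
            · exact Or.inr (Or.inr e)
  by_cases hpu : p = u
  · -- the point `u`
    subst hpu
    obtain ⟨s, hs⟩ : ∃ s, s = o tP * η / (σ M - σ a) := ⟨_, rfl⟩
    have hs' : s * (σ M - σ a) = o tP * η := by rw [hs]; field_simp
    have hs0 : s ≠ 0 := by
      intro e; rw [e, zero_mul] at hs'; exact hone _ hs'.symm
    have hsabs : |s| < 1/2 := by
      have e1 : |s| * |σ M - σ a| = η := by rw [← abs_mul, hs', hoabs]
      have e2 := hη' M hbM.symm a hab haM.symm
      have e3 : η ≤ η * (2 * (1 + |cX|)) := by nlinarith [abs_nonneg cX]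
      have e4 : 0 < |σ M - σ a| := abs_pos.2 hMa0
      by_contra hcon
      have e5 : 1/2 * |σ M - σ a| ≤ |s| * |σ M - σ a| :=
        mul_le_mul_of_nonneg_right (not_lt.1 hcon) e4.le
      linarith
    have hs1 : -(1/2) ≤ s := (abs_lt.1 hsabs).1.le
    have hs2 : s < 1/2 := (abs_lt.1 hsabs).2
    refine ⟨(tP : ℝ) + s, y p + ε tP * (σ M * s), fun l _ => ?_⟩
    have hval : locT (dbl a b h ε A B l) ((tP : ℝ) + s) =
        h (prj a b l) tP + ε tP * (σ (prj a b l) * s + B l tP) := by
      rw [locT_eq _ hs1 hs2]; unfold dbl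
      rw [hA l tP (Or.inr tPxs)]
    rw [hval, hul]
    have hεP := hε tP
    by_cases hlb : l = b
    · subst hlb
      rw [BPo _ hab.symm hXb.symm, pb, (hPy a hab).2 (Or.inl rfl), add_zero]
      constructor
      · rintro (e | e | e)
        · exact absurd e hab.symm
        · exact absurd e hbM
        · exact absurd e hXb.symm
      · intro e
        exfalso
        have e1 : ε tP * ((σ M - σ a) * s) = 0 := by linarith
        rcases mul_eq_zero.1 e1 with e2 | e2
        · exact hεP.ne' e2
        · rcases mul_eq_zero.1 e2 with e3 | e3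
          · exact hMa0 e3
          · exact hs0 e3
    · rw [pne l hlb]
      by_cases hla : l = a
      · subst hla
        rw [BPa, (hPy _ hab).2 (Or.inl rfl), ← hs']
        refine ⟨fun _ => ?_, fun _ => Or.inl rfl⟩
        ring
      · by_cases hlX : l = X
        · subst hlX
          rw [BPX, (hPy _ hXb).2 (Or.inr (Or.inr (Or.inl rfl)))]
          refine ⟨fun _ => ?_, fun _ => Or.inr (Or.inr rfl)⟩
          have e1 : o tP * η * cX = s * (σ M - σ l) := by
            rw [← hs', ← hcX']; ring
          rw [e1]; ring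
        · rw [BPo l hla hlX, add_zero]
          by_cases hlM : l = M
          · subst hlM
            rw [(hPy _ hbM.symm).2 (Or.inr (Or.inl rfl))]
            exact ⟨fun _ => rfl, fun _ => Or.inr (Or.inl rfl)⟩
          · by_cases hlY : l = Y
            · subst hlY
              rw [(hPy _ hlb).2 (Or.inr (Or.inr (Or.inr rfl)))]
              constructor
              · rintro (e | e | e)
                · exact absurd e hla
                · exact absurd e hlM
                · exact absurd e hlX
              · intro e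
                exfalso
                have e1 : ε tP * ((σ M - σ l) * s) = 0 := by linarith
                rcases mul_eq_zero.1 e1 with e2 | e2
                · exact hεP.ne' e2
                · rcases mul_eq_zero.1 e2 with e3 | e3
                  · exact sMY (sub_eq_zero.1 e3)
                  · exact hs0 e3
            · constructor
              · rintro (e | e | e)
                · exact absurd e hla
                · exact absurd e hlM
                · exact absurd e hlX
              · intro e
                exfalso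
                have hne : h (prj a b l) tP ≠ h (prj a b M) tP := by
                  rw [pne l hlb, pne M hbM.symm, (hPy M hbM.symm).2 (Or.inr (Or.inl rfl))]
                  intro e'
                  rcases (hPy l hlb).1 e' with h1 | h1 | h1 | h1
                  · exact hla h1
                  · exact hlM h1
                  · exact hlX h1
                  · exact hlY h1
                apply hfar l (Finset.mem_univ _) M (Finset.mem_univ _) tP s hs1 hs2 hne
                unfold dbl
                rw [hA l tP (Or.inr tPxs), hA M tP (Or.inr tPxs), BPo l hla hlX,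
                  BPo M haM.symm hMX, pne l hlb, pne M hbM.symm, add_zero, add_zero, e,
                  (hPy M hbM.symm).2 (Or.inr (Or.inl rfl))]
  · -- the other points
    obtain ⟨h1, h2⟩ := hty p hp hpq
    have tpP : t p ≠ tP := by
      rw [htP]; exact fun e => hpu (tinj p u hp hpq huc huq e)
    refine ⟨((t p : ℤ) : ℝ), y p, fun l _ => ?_⟩
    rw [val]
    have other : ∀ l, l ≠ a → l ≠ b → (inc p l ↔ h (prj a b l) (t p) + ε (t p) * B l (t p) = y p) := by
      intro l hla hlb
      have hB : B l (t p) = 0 := by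
        by_cases hx : t p = xs
        · rw [hx, Bxs]
        · by_cases hb : Bt (t p)
          · exact (Bbt _ tpP hb).2 l hla
          · exact (Bnt _ tpP hb hx).2 l hlb
      rw [hB, mul_zero, add_zero, pne l hlb, ← h1 l hlb]
      constructor
      · intro hh; exact ⟨hp, hpq, Or.inl hh⟩
      · rintro ⟨_, _, hh | ⟨hh, _⟩ | ⟨hh, _⟩⟩
        · exact hh
        · exact absurd hh hla
        · exact absurd hh hpu
    by_cases pa' : inc p a
    · have pb' : ¬ inc p b := fun e => exab p hp pa' e
      have hx := txs p hp hpq (Or.inl pa')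
      have hb : ¬ Bt (t p) := by
        rintro ⟨q', q1, q2, q3, q4⟩
        have := tinj q' p q1 q2 hp hpq q4
        subst this
        exact pb' q3
      have hya : h a (t p) = y p := (h1 a hab).1 ⟨hp, hpq, Or.inl pa'⟩
      by_cases hla : l = a
      · subst hla
        rw [(Bnt _ tpP hb hx).2 _ hab, mul_zero, add_zero, pne _ hab]
        exact ⟨fun _ => hya, fun _ => pa'⟩
      · by_cases hlb : l = b
        · subst hlb
          rw [(Bnt _ tpP hb hx).1, pb, hya]
          refine ⟨fun e => absurd e pb', fun e => ?_⟩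
          have e1 : ε (t p) * (-(o (t p) * η)) = 0 := by linarith
          rcases mul_eq_zero.1 e1 with e2 | e2
          · exact absurd e2 (hε _).ne'
          · exact absurd (neg_eq_zero.1 e2) (hone _)
        · exact other l hla hlb
    · by_cases pb' : inc p b
      · have hb : Bt (t p) := ⟨p, hp, hpq, pb', rfl⟩
        have hya : h a (t p) = y p := (h1 a hab).1 ⟨hp, hpq, Or.inr (Or.inl ⟨rfl, pb'⟩)⟩
        by_cases hla : l = a
        · subst hla
          rw [(Bbt _ tpP hb).1, pne _ hab, hya]
          refine ⟨fun e => absurd e pa', fun e => ?_⟩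
          have e1 : ε (t p) * (o (t p) * η) = 0 := by linarith
          rcases mul_eq_zero.1 e1 with e2 | e2
          · exact absurd e2 (hε _).ne'
          · exact absurd e2 (hone _)
        · by_cases hlb : l = b
          · subst hlb
            rw [(Bbt _ tpP hb).2 _ hab.symm, mul_zero, add_zero, pb]
            exact ⟨fun _ => hya, fun _ => pb'⟩
          · exact other l hla hlb
      · -- the point is neither on `a` nor on `b`
        obtain ⟨i, j, hij, hi, hj, i1, i2⟩ := hc.two_others p b
        have hia : i ≠ a := fun e => pa' (e ▸ i1)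
        have hai : ¬ inc1 inc c u q a b p a := fun e => (inca p e).elim pa' pb'
        have hay : h a (t p) ≠ y p := fun e => hai ((h1 a hab).2 e)
        have hiy : h i (t p) = y p := (h1 i hi).1 ⟨hp, hpq, Or.inl i1⟩
        have hival : h (prj a b i) (t p) + ε (t p) * B i (t p) = y p := (other i hia hi).1 i1
        have bad : ∀ l, prj a b l = a → h (prj a b l) (t p) + ε (t p) * B l (t p) ≠ y p := by
          intro l hl e
          have h3 := hfar l (Finset.mem_univ _) i (Finset.mem_univ _) (t p) 0 (by norm_num)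
            (by norm_num) (by rw [hl, pne i hi, hiy]; exact hay)
          apply h3
          unfold dbl
          rw [mul_zero, zero_add, mul_zero, zero_add, e, hival]
        by_cases hla : l = a
        · subst hla
          exact ⟨fun e => absurd e pa', fun e => absurd e (bad _ (pne _ hab))⟩
        · by_cases hlb : l = b
          · subst hlb
            exact ⟨fun e => absurd e pb', fun e => absurd e (bad _ pb)⟩
          · exact other l hla hlb

end

end PL3
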