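import Mathlib

/-!
# Switching pairs of height functions (combinatorial pseudolines)

A finite family of `x`-monotone pseudolines is recorded by the heights `h i t` of the wires `i` at
the times `t` of a linear order.  Two wires cross exactly once: one is above before a time `t₀`,
they agree at `t₀`, and the other one is above afterwards.
-/

namespace PL3

variable {T : Type*} [LinearOrder T]

/-- `x` is above `y` before a certain time, equal to it at that time and below it afterwards. -/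
def Sw (x y : T → ℝ) : Prop :=
  ∃ t₀, x t₀ = y t₀ ∧ (∀ t, t < t₀ → y t < x t) ∧ (∀ t, t₀ < t → x t < y t)

/-- The two wires cross exactly once. -/
def Cross (x y : T → ℝ) : Prop := Sw x y ∨ Sw y x

lemma Cross.symm {x y : T → ℝ} (h : Cross x y) : Cross y x := Or.symm h

/-- the four comparisons with the switching time. -/
lemma Sw.spec {x y : T → ℝ} (h : Sw x y) : ∃ t₀, ∀ t,
    (y t < x t ↔ t < t₀) ∧ (x t < y t ↔ t₀ < t) ∧ (y t ≤ x t ↔ t ≤ t₀) ∧ (x t ≤ y t ↔ t₀ ≤ t) := by
  obtain ⟨t₀, h0, h1, h2⟩ := h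
  refine ⟨t₀, fun t => ?_⟩
  rcases lt_trichotomy t t₀ with ht | ht | ht
  · have := h1 t ht
    refine ⟨⟨fun _ => ht, fun _ => this⟩, ⟨fun h => absurd h (not_lt.2 this.le), fun h => absurd h (not_lt.2 ht.le)⟩,
      ⟨fun _ => ht.le, fun _ => this.le⟩, ⟨fun h => absurd this (not_lt.2 h), fun h => absurd ht (not_lt.2 h)⟩⟩
  · subst ht
    simp [h0]
  · have := h2 t ht
    refine ⟨⟨fun h => absurd h (not_lt.2 this.le), fun h => absurd h (not_lt.2 ht.le)⟩, ⟨fun _ => ht, fun _ => this⟩,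
      ⟨fun h => absurd this (not_lt.2 h), fun h => absurd ht (not_lt.2 h)⟩, ⟨fun _ => ht.le, fun _ => this.le⟩⟩

lemma Cross.eq_unique {x y : T → ℝ} (h : Cross x y) {s t : T} (hs : x s = y s) (ht : x t = y t) :
    s = t := by
  rcases h with h | h
  · obtain ⟨t₀, h0⟩ := h.spec
    have a1 := (h0 s).2.2.1.1 hs.ge
    have a2 := (h0 s).2.2.2.1 hs.le
    have b1 := (h0 t).2.2.1.1 ht.ge
    have b2 := (h0 t).2.2.2.1 ht.le
    exact (le_antisymm a1 a2).trans (le_antisymm b1 b2).symm
  · obtain ⟨t₀, h0⟩ := h.spec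
    have a1 := (h0 s).2.2.1.1 hs.le
    have a2 := (h0 s).2.2.2.1 hs.ge
    have b1 := (h0 t).2.2.1.1 ht.le
    have b2 := (h0 t).2.2.2.1 ht.ge
    exact (le_antisymm a1 a2).trans (le_antisymm b1 b2).symm

lemma Cross.exists_eq {x y : T → ℝ} (h : Cross x y) : ∃ t, x t = y t := by
  rcases h with ⟨t, h, _⟩ | ⟨t, h, _⟩
  · exact ⟨t, h⟩
  · exact ⟨t, h.symm⟩

/-- if `y ≤ x` at `a` and `x ≤ y` at a later time `b`, then `y < x` before `a` and `x < y` after
`b`. -/
lemma Cross.before_after {x y : T → ℝ} (h : Cross x y) {a b : T} (hab : a < b) (ha : y a ≤ x a)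
    (hb : x b ≤ y b) : (∀ t, t < a → y t < x t) ∧ (∀ t, b < t → x t < y t) := by
  rcases h with h | h
  · obtain ⟨t₀, h0⟩ := h.spec
    have a1 := (h0 a).2.2.1.1 ha
    have b1 := (h0 b).2.2.2.1 hb
    exact ⟨fun t ht => (h0 t).1.2 (ht.trans_le a1), fun t ht => (h0 t).2.1.2 (b1.trans_lt ht)⟩
  · obtain ⟨t₀, h0⟩ := h.spec
    have a1 := (h0 a).2.2.2.1 ha
    have b1 := (h0 b).2.2.1.1 hb
    exact absurd hab (not_lt.2 (b1.trans a1))

/-- The heights are switching strictly: not equal at two different times. -/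
lemma Cross.ne_of_ne {x y : T → ℝ} (h : Cross x y) {s t : T} (hs : x s = y s) (hst : s ≠ t) :
    x t ≠ y t := fun ht => hst (h.eq_unique hs ht)

/-- A weak form of switching: nothing is said about the comparison at the time `k₀`. -/
def PreSw (x y : ℤ → ℝ) : Prop :=
  ∃ k₀, (∀ k, k < k₀ → y k < x k) ∧ (∀ k, k₀ < k → x k < y k)

end PL3
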