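import Pool.Agent.Lib.MP_e3e9c0_co.Defs

/-!
# Curves in the real projective plane
-/

open scoped LinearAlgebra.Projectivization
open Topology

namespace PL3

/-- the point with homogeneous coordinates `v` -/
noncomputable def mkp (v : Fin 3 → ℝ) (hv : v ≠ 0) : RP2 := Projectivization.mk ℝ v hv

lemma mkp_eq {v w : Fin 3 → ℝ} {hv : v ≠ 0} {hw : w ≠ 0} :
    mkp v hv = mkp w hw ↔ ∃ a : ℝ, a • w = v := Projectivization.mk_eq_mk_iff' ℝ v w hv hw

lemma mkp_ind {Q : RP2 → Prop} (h : ∀ v hv, Q (mkp v hv)) (z : RP2) : Q z :=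
  Projectivization.ind (P := Q) h z

/-- the quotient map -/
noncomputable def qm (v : {v : Fin 3 → ℝ // v ≠ 0}) : RP2 := mkp v.1 v.2

lemma qm_quot : IsQuotientMap qm := by
  have : IsQuotientMap (Quotient.mk (projectivizationSetoid ℝ (Fin 3 → ℝ))) :=
    isQuotientMap_quotient_mk'
  exact this

lemma continuous_mkp {X : Type*} [TopologicalSpace X] {v : X → Fin 3 → ℝ} (hc : Continuous v)
    (hv : ∀ x, v x ≠ 0) : Continuous (fun x => mkp (v x) (hv x)) :=
  qm_quot.continuous.comp (hc.subtype_mk hv)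

/-! ### The curves -/

/-- homogenisation of `x ↦ s x + g x` -/
noncomputable def G (s : ℝ) (g : ℝ → ℝ) (a b : ℝ) : ℝ := s * a + b * g (a / b)

lemma G_smul (s : ℝ) (g : ℝ → ℝ) {c : ℝ} (hc : c ≠ 0) (a b : ℝ) :
    G s g (c * a) (c * b) = c * G s g a b := by
  unfold G
  rw [mul_div_mul_left _ _ hc]
  ring

lemma continuous_G {s : ℝ} {g : ℝ → ℝ} (hg : Continuous g) {M : ℝ} (hM : ∀ x, |g x| ≤ M) :
    Continuous (fun q : ℝ × ℝ => G s g q.1 q.2) := by
  unfold G
  refine (continuous_const.mul continuous_fst).add ?_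
  rw [continuous_iff_continuousAt]
  rintro ⟨a, b⟩
  by_cases hb : b = 0
  · subst hb
    show Filter.Tendsto (fun q : ℝ × ℝ => q.2 * g (q.1 / q.2)) (𝓝 (a, 0)) (𝓝 (0 * g (a / 0)))
    rw [zero_mul]
    refine squeeze_zero_norm (a := fun q : ℝ × ℝ => |q.2| * M) (fun q => ?_) ?_
    · rw [Real.norm_eq_abs, abs_mul]
      exact mul_le_mul_of_nonneg_left (hM _) (abs_nonneg _)
    · have : Continuous (fun q : ℝ × ℝ => |q.2| * M) := by fun_prop
      have h := this.tendsto (a, (0 : ℝ))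
      simpa using h
  · have h1 : ContinuousAt (fun q : ℝ × ℝ => q.1 / q.2) (a, b) :=
      continuousAt_fst.div continuousAt_snd hb
    exact continuousAt_snd.mul (hg.continuousAt.comp h1)

/-- the curve `y = s x + g x` in the projective plane -/
def Curve (s : ℝ) (g : ℝ → ℝ) : Set RP2 :=
  {z | ∃ v hv, z = mkp v hv ∧ v 1 = G s g (v 0) (v 2)}

lemma mem_curve {s : ℝ} {g : ℝ → ℝ} {v : Fin 3 → ℝ} {hv : v ≠ 0} :
    mkp v hv ∈ Curve s g ↔ v 1 = G s g (v 0) (v 2) := by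
  constructor
  · rintro ⟨w, hw, h1, h2⟩
    obtain ⟨a, ha⟩ := mkp_eq.1 h1
    have ha0 : a ≠ 0 := by
      rintro rfl
      rw [zero_smul] at ha
      exact hv ha.symm
    have e : ∀ i, v i = a * w i := fun i => by rw [← ha]; rfl
    rw [e 0, e 1, e 2, G_smul s g ha0, h2]
  · intro h
    exact ⟨v, hv, rfl, h⟩

/-- vector on the curve with direction `θ` -/
noncomputable def cv (s : ℝ) (g : ℝ → ℝ) (θ : ℝ) : Fin 3 → ℝ :=
  ![Real.sin θ, G s g (Real.sin θ) (Real.cos θ), Real.cos θ]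

lemma cv_ne (s : ℝ) (g : ℝ → ℝ) (θ : ℝ) : cv s g θ ≠ 0 := by
  intro h
  have h0 : Real.sin θ = 0 := congrFun h 0
  have h2 : Real.cos θ = 0 := congrFun h 2
  have := Real.sin_sq_add_cos_sq θ
  rw [h0, h2] at this
  norm_num at this

lemma continuous_cv {s : ℝ} {g : ℝ → ℝ} (hg : Continuous g) {M : ℝ} (hM : ∀ x, |g x| ≤ M) :
    Continuous (cv s g) := by
  have h := continuous_G (s := s) hg hM
  refine continuous_pi fun i => ?_
  fin_cases i
  · exact Real.continuous_sin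
  · exact h.comp (Real.continuous_sin.prodMk Real.continuous_cos)
  · exact Real.continuous_cos

lemma cv_spec (s : ℝ) (g : ℝ → ℝ) {v : Fin 3 → ℝ} (hv : v ≠ 0) (h : v 1 = G s g (v 0) (v 2)) :
    ∃ r : ℝ, 0 < r ∧ ∃ θ : ℝ, v = r • cv s g θ := by
  have h02 : ¬ (v 0 = 0 ∧ v 2 = 0) := by
    rintro ⟨h0, h2⟩
    apply hv
    funext i
    fin_cases i
    · exact h0
    · show v 1 = 0
      rw [h, h0, h2]
      simp [G]
    · exact h2
  have hz : (⟨v 2, v 0⟩ : ℂ) ≠ 0 := by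
    intro hz
    apply h02
    exact ⟨congrArg Complex.im hz, congrArg Complex.re hz⟩
  refine ⟨‖(⟨v 2, v 0⟩ : ℂ)‖, norm_pos_iff.2 hz, Complex.arg ⟨v 2, v 0⟩, ?_⟩
  have e2 := Complex.norm_mul_cos_arg (⟨v 2, v 0⟩ : ℂ)
  have e0 := Complex.norm_mul_sin_arg (⟨v 2, v 0⟩ : ℂ)
  simp only at e0 e2
  funext i
  fin_cases i
  · exact e0.symm
  · show v 1 = _ * G s g _ _
    rw [← G_smul s g (norm_pos_iff.2 hz).ne', e0, e2, h]
  · exact e2.symm

lemma sin_cos_pi {θ θ' a : ℝ} (h0 : a * Real.sin θ' = Real.sin θ) (h2 : a * Real.cos θ' = Real.cos θ) :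
    ∃ n : ℤ, θ - θ' = n * Real.pi := by
  have : Real.sin (θ - θ') = 0 := by
    rw [Real.sin_sub, ← h0, ← h2]
    ring
  obtain ⟨n, hn⟩ := Real.sin_eq_zero_iff.1 this
  exact ⟨n, hn.symm⟩

theorem curve_simple (s : ℝ) {g : ℝ → ℝ} (hg : Continuous g) {M : ℝ} (hM : ∀ x, |g x| ≤ M) :
    IsSimpleClosedCurve (Curve s g) := by
  let f : ℝ → RP2 := fun θ => mkp (cv s g θ) (cv_ne s g θ)
  have hf : Continuous f := continuous_mkp (continuous_cv hg hM) _
  have hper : Function.Periodic f Real.pi := by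
    intro θ
    refine mkp_eq.2 ⟨-1, ?_⟩
    have e : cv s g (θ + Real.pi) = ![(-1) * Real.sin θ, G s g ((-1) * Real.sin θ) ((-1) * Real.cos θ),
        (-1) * Real.cos θ] := by
      unfold cv
      rw [Real.sin_add_pi, Real.cos_add_pi]
      simp
    rw [e, G_smul s g (by norm_num)]
    funext i
    fin_cases i <;> simp [cv]
  have pi_ne : Real.pi ≠ 0 := Real.pi_ne_zero
  let F : AddCircle Real.pi → RP2 := hper.lift
  have hF : ∀ θ : ℝ, F (θ : AddCircle Real.pi) = f θ := fun θ => hper.lift_coe θ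
  have hFc : Continuous F := by
    have : IsQuotientMap (QuotientAddGroup.mk : ℝ → AddCircle Real.pi) :=
      QuotientAddGroup.isQuotientMap_mk _
    rw [this.continuous_iff]
    exact hf
  have hFi : Function.Injective F := by
    intro x y hxy
    obtain ⟨θ, rfl⟩ := QuotientAddGroup.mk_surjective x
    obtain ⟨θ', rfl⟩ := QuotientAddGroup.mk_surjective y
    have h : f θ = f θ' := by
      have := hF θ
      have := hF θ'
      exact hxy
    obtain ⟨a, ha⟩ := mkp_eq.1 h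
    have e0 : a * Real.sin θ' = Real.sin θ := congrFun ha 0
    have e2 : a * Real.cos θ' = Real.cos θ := congrFun ha 2
    obtain ⟨n, hn⟩ := sin_cos_pi e0 e2
    rw [QuotientAddGroup.eq_iff_sub_mem, AddSubgroup.mem_zmultiples_iff]
    exact ⟨n, by rw [hn]; simp⟩
  refine ⟨F ∘ (AddCircle.homeomorphCircle pi_ne).symm, hFc.comp (Homeomorph.continuous _),
    hFi.comp (Homeomorph.injective _), ?_⟩
  rw [Set.range_comp, Set.range_eq_univ.2 (Homeomorph.surjective _), Set.image_univ]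
  ext z
  constructor
  · rintro ⟨x, rfl⟩
    obtain ⟨θ, rfl⟩ := QuotientAddGroup.mk_surjective x
    show f θ ∈ Curve s g
    exact mem_curve.2 rfl
  · rintro ⟨v, hv, rfl, h⟩
    obtain ⟨r, hr, θ, e⟩ := cv_spec s g hv h
    refine ⟨(θ : AddCircle Real.pi), ?_⟩
    show f θ = _
    refine (mkp_eq.2 ⟨r, ?_⟩).symm
    rw [e]

end PL3
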