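import Pool.Agent.Lib.MP_e3e9c0_co.Topo

/-!
# The double cover of the projective plane and curves that do not bound a disc
-/

open scoped LinearAlgebra.Projectivization
open Topology

namespace PL3

/-- the unit sphere (of the supremum norm) of `ℝ³` -/
abbrev Sph : Type := Metric.sphere (0 : Fin 3 → ℝ) 1

lemma Sph.ne (x : Sph) : (x : Fin 3 → ℝ) ≠ 0 := by
  intro h
  have := x.2
  rw [mem_sphere_zero_iff_norm, h, norm_zero] at this
  exact zero_ne_one this

lemma Sph.norm (x : Sph) : ‖(x : Fin 3 → ℝ)‖ = 1 := mem_sphere_zero_iff_norm.1 x.2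

/-- the double cover -/
noncomputable def cov (x : Sph) : RP2 := mkp x x.ne

/-- radial projection -/
noncomputable def radial (v : Fin 3 → ℝ) (hv : v ≠ 0) : Sph :=
  ⟨‖v‖⁻¹ • v, by
    rw [mem_sphere_zero_iff_norm, norm_smul, norm_inv, norm_norm,
      inv_mul_cancel₀ (norm_ne_zero_iff.2 hv)]⟩

lemma cov_radial (v : Fin 3 → ℝ) (hv : v ≠ 0) : cov (radial v hv) = mkp v hv :=
  mkp_eq.2 ⟨‖v‖⁻¹, rfl⟩

lemma continuous_radial {X : Type*} [TopologicalSpace X] {v : X → Fin 3 → ℝ} (hc : Continuous v)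
    (hv : ∀ x, v x ≠ 0) : Continuous (fun x => radial (v x) (hv x)) := by
  refine Continuous.subtype_mk ?_ _
  exact (hc.norm.inv₀ (fun x => norm_ne_zero_iff.2 (hv x))).smul hc

lemma continuous_cov : Continuous cov := continuous_mkp continuous_subtype_val _

lemma cov_surj : Function.Surjective cov := by
  intro z
  induction z using mkp_ind with
  | h v hv => exact ⟨radial v hv, cov_radial v hv⟩

lemma cov_quot : IsQuotientMap cov := by
  have h1 : Continuous (fun v : {v : Fin 3 → ℝ // v ≠ 0} => radial v.1 v.2) :=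
    continuous_radial continuous_subtype_val (fun v => v.2)
  refine IsQuotientMap.of_comp h1 continuous_cov ?_
  have : (cov ∘ fun v : {v : Fin 3 → ℝ // v ≠ 0} => radial v.1 v.2) = qm := by
    funext v
    exact cov_radial v.1 v.2
  rw [this]
  exact qm_quot

lemma cov_eq {x y : Sph} : cov x = cov y ↔ (x : Fin 3 → ℝ) = y ∨ (x : Fin 3 → ℝ) = - y := by
  unfold cov
  rw [mkp_eq]
  constructor
  · rintro ⟨a, ha⟩
    have h1 := x.norm
    rw [← ha, norm_smul, y.norm, mul_one, Real.norm_eq_abs] at h1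
    rcases eq_or_eq_neg_of_abs_eq h1 with h | h
    · left; rw [← ha, h, one_smul]
    · right; rw [← ha, h, neg_one_smul]
  · rintro (h | h)
    · exact ⟨1, by rw [one_smul, h]⟩
    · exact ⟨-1, by rw [neg_one_smul, h]⟩

lemma cov_isQuotientCoveringMap : IsQuotientCoveringMap cov (Metric.sphere (0 : ℝ) 1) where
  toIsQuotientMap := cov_quot
  continuous_const_smul g := continuous_const_smul g
  apply_eq_iff_mem_orbit {x y} := by
    rw [cov_eq, MulAction.mem_orbit_iff]
    constructor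
    · rintro (h | h)
      · exact ⟨1, by rw [one_smul]; exact Subtype.ext h.symm⟩
      · refine ⟨⟨-1, by simp⟩, Subtype.ext ?_⟩
        show (-1 : ℝ) • (y : Fin 3 → ℝ) = x
        rw [neg_one_smul, h]
    · rintro ⟨g, hg⟩
      have h1 : (g : ℝ) • (y : Fin 3 → ℝ) = x := congrArg Subtype.val hg
      have h2 : |(g : ℝ)| = 1 := by
        have := mem_sphere_zero_iff_norm.1 g.2
        rwa [Real.norm_eq_abs] at this
      rcases eq_or_eq_neg_of_abs_eq h2 with h | h
      · left; rw [← h1, h, one_smul]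
      · right; rw [← h1, h, neg_one_smul]
  disjoint e := by
    refine ⟨Metric.ball e 1, Metric.ball_mem_nhds e one_pos, fun g hg => ?_⟩
    obtain ⟨_, ⟨x, hx, rfl⟩, hy⟩ := hg
    have h2 : |(g : ℝ)| = 1 := by
      have := mem_sphere_zero_iff_norm.1 g.2
      rwa [Real.norm_eq_abs] at this
    rcases eq_or_eq_neg_of_abs_eq h2 with h | h
    · exact Subtype.ext h
    · exfalso
      have e1 : dist x e < 1 := hx
      have e2 : dist (g • x) e < 1 := hy
      have e3 : dist x (g • x) < 2 := by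
        have := dist_triangle_right x (g • x) e
        linarith
      have e4 : dist x (g • x) = 2 := by
        show dist (x : Fin 3 → ℝ) ((g : ℝ) • (x : Fin 3 → ℝ)) = 2
        rw [h, neg_one_smul, dist_eq_norm, sub_neg_eq_add, ← two_smul ℝ, norm_smul, x.norm]
        norm_num
      linarith

lemma cov_isCoveringMap : IsCoveringMap cov := cov_isQuotientCoveringMap.isCoveringMap

/-- **A curve with connected preimage in the sphere does not bound a disc.** -/
theorem not_boundsDisc {C : Set RP2} (hconn : IsPreconnected (cov ⁻¹' C)) : ¬ BoundsDisc C := by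
  rintro ⟨f, hf, hinj, hC⟩
  -- the radial homotopy
  have hmem : ∀ (t : unitInterval) (z : Circle), (t : ℝ) • (z : ℂ) ∈ Metric.closedBall (0 : ℂ) 1 := by
    intro t z
    rw [mem_closedBall_zero_iff, norm_smul, Circle.norm_coe, mul_one, Real.norm_eq_abs,
      abs_of_nonneg t.2.1]
    exact t.2.2
  let H : C(unitInterval × Circle, RP2) :=
    ⟨fun q => f ⟨(q.1 : ℝ) • (q.2 : ℂ), hmem q.1 q.2⟩, by
      refine hf.comp (Continuous.subtype_mk ?_ _)
      exact (continuous_subtype_val.comp continuous_fst).smul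
        (continuous_subtype_val.comp continuous_snd)⟩
  obtain ⟨e₀, he₀⟩ := cov_surj (f ⟨0, by simp⟩)
  have H0 : ∀ z : Circle, H (0, z) = cov (ContinuousMap.const Circle e₀ z) := by
    intro z
    show f ⟨((0 : unitInterval) : ℝ) • (z : ℂ), _⟩ = cov e₀
    rw [he₀]
    congr 1
    apply Subtype.ext
    simp
  let K := cov_isCoveringMap.liftHomotopy H (ContinuousMap.const Circle e₀) H0
  have hK : ∀ q, cov (K q) = H q := fun q =>
    congrFun (cov_isCoveringMap.liftHomotopy_lifts H (ContinuousMap.const Circle e₀) H0) q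
  let σ : Circle → Sph := fun z => K (1, z)
  have hσc : Continuous σ := K.continuous.comp (by fun_prop)
  have hσ : ∀ z : Circle, cov (σ z) = f ⟨(z : ℂ), by
      rw [mem_closedBall_zero_iff, Circle.norm_coe]⟩ := by
    intro z
    rw [hK]
    show f ⟨((1 : unitInterval) : ℝ) • (z : ℂ), _⟩ = _
    congr 1
    apply Subtype.ext
    simp
  -- the antipodal section
  let neg : Sph → Sph := fun x => ⟨- (x : Fin 3 → ℝ), by
    rw [mem_sphere_zero_iff_norm, norm_neg, x.norm]⟩
  have hneg : Continuous neg := Continuous.subtype_mk continuous_subtype_val.neg _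
  let τ : Circle → Sph := fun z => neg (σ z)
  have hτc : Continuous τ := hneg.comp hσc
  have hτ : ∀ z, cov (τ z) = cov (σ z) := fun z => cov_eq.2 (Or.inr rfl)
  have cl1 : IsClosed (Set.range σ) := (isCompact_range hσc).isClosed
  have cl2 : IsClosed (Set.range τ) := (isCompact_range hτc).isClosed
  have memC : ∀ z : Circle, f ⟨(z : ℂ), by rw [mem_closedBall_zero_iff, Circle.norm_coe]⟩ ∈ C := by
    intro z
    rw [← hC]
    exact ⟨_, by simp, rfl⟩
  have sub : cov ⁻¹' C ⊆ Set.range σ ∪ Set.range τ := by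
    intro x hx
    rw [Set.mem_preimage, ← hC] at hx
    obtain ⟨w, hw, hwx⟩ := hx
    have hw' : ‖(w : ℂ)‖ = 1 := hw
    let z : Circle := ⟨(w : ℂ), by simp [Submonoid.unitSphere, hw']⟩
    have e1 : cov (σ z) = cov x := by
      rw [hσ, ← hwx]
    rcases cov_eq.1 e1 with h | h
    · left; exact ⟨z, Subtype.ext h⟩
    · right
      refine ⟨z, Subtype.ext ?_⟩
      show - (σ z : Fin 3 → ℝ) = x
      rw [h, neg_neg]
  have n1 : (cov ⁻¹' C ∩ Set.range σ).Nonempty := ⟨σ 1, by
    rw [Set.mem_preimage, hσ]; exact memC 1, ⟨1, rfl⟩⟩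
  have n2 : (cov ⁻¹' C ∩ Set.range τ).Nonempty := ⟨τ 1, by
    rw [Set.mem_preimage, hτ, hσ]; exact memC 1, ⟨1, rfl⟩⟩
  obtain ⟨x, _, ⟨z, hz⟩, ⟨z', hz'⟩⟩ :=
    isPreconnected_closed_iff.1 hconn _ _ cl1 cl2 sub n1 n2
  have e1 : cov (σ z) = cov (σ z') := by rw [hz, ← hτ z', hz']
  rw [hσ, hσ] at e1
  have e2 := congrArg Subtype.val (hinj e1)
  have e3 : z = z' := Subtype.ext e2
  have e4 : (σ z : Fin 3 → ℝ) = - (σ z : Fin 3 → ℝ) := by
    have h1 : (x : Fin 3 → ℝ) = σ z := by rw [hz]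
    have h2 : (x : Fin 3 → ℝ) = - (σ z' : Fin 3 → ℝ) := by rw [← hz']
    calc (σ z : Fin 3 → ℝ) = x := h1.symm
      _ = - (σ z' : Fin 3 → ℝ) := h2
      _ = - (σ z : Fin 3 → ℝ) := by rw [e3]
  have e5 : (σ z : Fin 3 → ℝ) = 0 := by
    have : (2 : ℝ) • (σ z : Fin 3 → ℝ) = 0 := by
      rw [two_smul]
      nth_rewrite 1 [e4]
      exact neg_add_cancel _
    rcases smul_eq_zero.1 this with h | h
    · norm_num at h
    · exact h
  exact (σ z).ne e5

lemma G_radial {s : ℝ} {g : ℝ → ℝ} {v : Fin 3 → ℝ} (hv : v ≠ 0)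
    (h : v 1 = G s g (v 0) (v 2)) : mkp v hv ∈ Curve s g := mem_curve.2 h

theorem curve_pseudoline (s : ℝ) {g : ℝ → ℝ} (hg : Continuous g) {M : ℝ} (hM : ∀ x, |g x| ≤ M) :
    IsPseudoline (Curve s g) := by
  refine ⟨curve_simple s hg hM, not_boundsDisc ?_⟩
  let ρ : ℝ → Sph := fun θ => radial (cv s g θ) (cv_ne s g θ)
  have hρ : Continuous ρ := continuous_radial (continuous_cv hg hM) _
  have : cov ⁻¹' (Curve s g) = Set.range ρ := by
    ext x
    constructor
    · intro hx
      have h1 : (x : Fin 3 → ℝ) 1 = G s g ((x : Fin 3 → ℝ) 0) ((x : Fin 3 → ℝ) 2) :=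
        mem_curve.1 hx
      obtain ⟨r, hr, θ, e⟩ := cv_spec s g x.ne h1
      refine ⟨θ, Subtype.ext ?_⟩
      show ‖cv s g θ‖⁻¹ • cv s g θ = x
      have h2 := x.norm
      rw [e, norm_smul, Real.norm_eq_abs, abs_of_pos hr] at h2
      have h3 : ‖cv s g θ‖⁻¹ = r := by
        have : ‖cv s g θ‖ ≠ 0 := norm_ne_zero_iff.2 (cv_ne s g θ)
        field_simp
        linarith
      rw [h3, e]
    · rintro ⟨θ, rfl⟩
      show cov (radial _ _) ∈ Curve s g
      rw [cov_radial]
      exact mem_curve.2 rfl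
  rw [this]
  exact isPreconnected_range hρ

end PL3
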